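import Mathlib
import Pool.Agent.Lib.MP_058a58_ag.Embed

/-!
# Twists by Hecke characters of number fields: definitions

`F` is a number field with an embedding `e` into `QBar`; `GF e` is its absolute Galois group.
-/

open Polynomial Filter Topology NumberField
open scoped TensorProduct

namespace TatePole

section
variable (F : Type*) [Field F] [NumberField F]

/-- The value at `a` of the infinity type `(k, τ)`: the product over the complex embeddings `φ` of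
`F` of `(φ a / |φ a|) ^ k_φ * |φ a| ^ (i τ_φ)`. -/
noncomputable def infVal (k : (F →+* ℂ) → ℤ) (τ : (F →+* ℂ) → ℝ) (a : F) : ℂ :=
  ∏ φ : F →+* ℂ, (φ a / (‖φ a‖ : ℂ)) ^ k φ * (‖φ a‖ : ℂ) ^ ((τ φ : ℂ) * Complex.I)

/-- `Ψ` is a unitary Hecke character of `F`, as a function on the ideals, of modulus `M` and of
infinity type `(k, τ)`: it is completely multiplicative, of absolute value `1` on the nonzero ideals
prime to `M` and `0` on the other ones, and its value on the ideal generated by an `a ≡ 1 (mod M)`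
is given by the infinity type. -/
structure IsHeckeChar (M : ℕ) (k : (F →+* ℂ) → ℤ) (τ : (F →+* ℂ) → ℝ)
    (Ψ : Ideal (𝓞 F) → ℂ) : Prop where
  pos : M ≠ 0
  one : Ψ 1 = 1
  mul : ∀ I J, Ψ (I * J) = Ψ I * Ψ J
  norm : ∀ I, I ≠ ⊥ → IsCoprime I (Ideal.span {(M : 𝓞 F)}) → ‖Ψ I‖ = 1
  zero : ∀ I, (I = ⊥ ∨ ¬ IsCoprime I (Ideal.span {(M : 𝓞 F)})) → Ψ I = 0
  ray : ∀ a : 𝓞 F, a ≠ 0 → (M : 𝓞 F) ∣ a - 1 → Ψ (Ideal.span {a}) = infVal F k τ a

variable {F}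

/-- `Ψ` is a unitary Hecke character of `F`, as a function on the ideals. -/
def IsHecke (Ψ : Ideal (𝓞 F) → ℂ) : Prop := ∃ M k τ, IsHeckeChar F M k τ Ψ

/-- No power of `Ψ` is trivial. -/
def InfOrder (Ψ : Ideal (𝓞 F) → ℂ) : Prop :=
  ∀ n : ℕ, 0 < n → ∃ I, Ψ I ≠ 0 ∧ Ψ I ^ n ≠ 1

/-- The quotient of two unitary Hecke characters. -/
noncomputable def ratio (Ψ Φ : Ideal (𝓞 F) → ℂ) (I : Ideal (𝓞 F)) : ℂ :=
  Ψ I * (starRingEnd ℂ) (Φ I)

/-- The absolute Galois group of `F`: the automorphisms of `QBar` fixing the image of `e`. -/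
def GF (e : F →ₐ[ℚ] QBar) : Subgroup GQ where
  carrier := {g | ∀ x : F, g (e x) = e x}
  one_mem' := fun _ => rfl
  mul_mem' := fun {a b} ha hb x => by
    have h1 : (a * b) (e x) = a (b (e x)) := rfl
    rw [h1, hb x, ha x]
  inv_mem' := fun {a} ha x => by
    have h1 : a⁻¹ (a (e x)) = e x := by
      rw [← AlgEquiv.mul_apply, inv_mul_cancel]; rfl
    rw [ha x] at h1
    exact h1

lemma mem_GF {e : F →ₐ[ℚ] QBar} {g : GQ} : g ∈ GF e ↔ g • e = e := by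
  constructor
  · intro h; ext x; exact h x
  · intro h x; exact congrArg (fun φ : F →ₐ[ℚ] QBar => φ x) h

end

section
variable {G : Type*} [Group G] {ℓ : ℕ} [Fact ℓ.Prime] {W : Type*} [AddCommGroup W]
  [Module ℚ_[ℓ] W] {V : Type*} [AddCommGroup V] [Module ℂ V] [Algebra ℚ_[ℓ] ℂ]

/-- The complexification `ℂ ⊗ W` of an `ℓ`-adic representation `W`. -/
noncomputable def cRep (ρ : Representation ℚ_[ℓ] G W) :
    Representation ℂ G (ℂ ⊗[ℚ_[ℓ]] W) where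
  toFun g := (ρ g).baseChange ℂ
  map_one' := by rw [map_one, Module.End.one_eq_id, LinearMap.baseChange_id]; rfl
  map_mul' g h := by rw [map_mul, ← LinearMap.baseChange_mul]

/-- The tensor product `(ℂ ⊗ W) ⊗ V`. -/
noncomputable def tRep (ρ : Representation ℚ_[ℓ] G W) (α : Representation ℂ G V) :
    Representation ℂ G ((ℂ ⊗[ℚ_[ℓ]] W) ⊗[ℂ] V) :=
  (cRep ρ).tprod α

end

section
variable {F : Type*} [Field F] [NumberField F] {e : F →ₐ[ℚ] QBar} {ℓ : ℕ} [Fact ℓ.Prime]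
  {W : Type*} [AddCommGroup W] [Module ℚ_[ℓ] W] {V : Type*} [AddCommGroup V] [Module ℂ V]
  [Algebra ℚ_[ℓ] ℂ]

/-- `𝔓` is a prime ideal of `ZBar` over the prime ideal `𝔭` of `F`. -/
def LiesOver (e : F →ₐ[ℚ] QBar) (𝔓 : Ideal ZBar) (𝔭 : Ideal (𝓞 F)) : Prop :=
  𝔓.IsPrime ∧ 𝔓.comap (intMap e) = 𝔭

/-- `g` is a Frobenius element at `𝔭` (arithmetic, for some prime over `𝔭`): `g` is in `GF e` and
`g x ≡ x ^ N(𝔭) (mod 𝔓)` for all algebraic integers `x`. -/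
def IsFrobAt (e : F →ₐ[ℚ] QBar) (𝔭 : Ideal (𝓞 F)) (g : GF e) : Prop :=
  ∃ 𝔓 : Ideal ZBar, LiesOver e 𝔓 𝔭 ∧ IsArithFrob (Ideal.absNorm 𝔭) 𝔓 g

/-- `W` is unramified at `𝔭`, and pure of weight `w`: all eigenvalues of the geometric Frobenius
elements at `𝔭` have absolute value `N(𝔭) ^ (w / 2)`. -/
structure IsPureAt [FiniteDimensional ℚ_[ℓ] W] (ρ : Representation ℚ_[ℓ] (GF e) W) (w : ℤ)
    (𝔭 : Ideal (𝓞 F)) : Prop where
  unramified : ∀ 𝔓 : Ideal ZBar, LiesOver e 𝔓 𝔭 → ∀ g : GF e, IsInertia 𝔓 g → ρ g = 1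
  pure : ∀ g : GF e, IsFrobAt e 𝔭 g → ∀ z : ℂ,
    ((ρ g⁻¹).charpoly.map (algebraMap ℚ_[ℓ] ℂ)).eval z = 0 →
      ‖z‖ = (Ideal.absNorm 𝔭 : ℝ) ^ ((w : ℝ) / 2)

/-- Both `W` and `V` are unramified at `𝔭`, and `R` is the local factor of `W ⊗ V ⊗ Ψ` at `𝔭`,
normalised to weight `0`: `det (1 - Ψ(𝔭) N(𝔭) ^ (-w/2) T Frob_𝔭 | W ⊗ V)`. -/
structure IsHeckeFactor [FiniteDimensional ℚ_[ℓ] W] [FiniteDimensional ℂ V]
    (ρ : Representation ℚ_[ℓ] (GF e) W) (w : ℤ) (α : Representation ℂ (GF e) V)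
    (Ψ : Ideal (𝓞 F) → ℂ) (𝔭 : Ideal (𝓞 F)) (R : ℂ[X]) : Prop where
  unramified : ∀ 𝔓 : Ideal ZBar, LiesOver e 𝔓 𝔭 → ∀ g : GF e, IsInertia 𝔓 g →
    ρ g = 1 ∧ α g = 1
  eq_det : ∀ g : GF e, IsFrobAt e 𝔭 g →
    R = ((tRep ρ α g⁻¹).charpoly.reverse).comp
      (C (Ψ 𝔭 * (((Ideal.absNorm 𝔭 : ℝ) ^ (-(w : ℝ) / 2) : ℝ) : ℂ)) * X)

/-- The Euler product over the prime ideals `𝔭` of `F` of `R_𝔭(N(𝔭) ^ (-s))⁻¹` (arranged as a
product over the primes `p` of the finite products over the `𝔭` above `p`). -/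
noncomputable def LFunF (R : Ideal (𝓞 F) → ℂ[X]) (s : ℂ) : ℂ :=
  ∏' p : Nat.Primes, (∏ 𝔭 ∈ IsDedekindDomain.primesOverFinset (Ideal.span {((p : ℕ) : ℤ)}) (𝓞 F),
    (R 𝔭).eval ((Ideal.absNorm 𝔭 : ℂ) ^ (-s)))⁻¹

/-- The `R 𝔭` are, for all primes `𝔭` outside the finite set `S`, the local factors of
`W ⊗ V ⊗ Ψ`, and `R 𝔭` does not vanish at `N(𝔭) ^ (-1)`, for any `𝔭`. -/
def HeckeFactors [FiniteDimensional ℚ_[ℓ] W] [FiniteDimensional ℂ V]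
    (ρ : Representation ℚ_[ℓ] (GF e) W) (w : ℤ) (α : Representation ℂ (GF e) V)
    (Ψ : Ideal (𝓞 F) → ℂ) (S : Finset (Ideal (𝓞 F))) (R : Ideal (𝓞 F) → ℂ[X]) : Prop :=
  (∀ 𝔭 : Ideal (𝓞 F), 𝔭.IsPrime → 𝔭 ≠ ⊥ → 𝔭 ∉ S → IsHeckeFactor ρ w α Ψ 𝔭 (R 𝔭)) ∧
  ∀ 𝔭 : Ideal (𝓞 F), 𝔭.IsPrime → 𝔭 ≠ ⊥ → (R 𝔭).eval ((Ideal.absNorm 𝔭 : ℂ)⁻¹) ≠ 0

/-- `α` is trivial on all elements that fix a certain finite set of algebraic numbers. -/
def IsFin (α : Representation ℂ (GF e) V) : Prop :=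
  ∃ A : Finset QBar, ∀ g : GF e, (∀ x ∈ A, (g : GQ) x = x) → α g = 1

/-- The potentially abelian part of `W`: a stable subspace `B` whose Frobenius traces are those of
the direct sum of the `β l ⊗ (Φ l)⁻¹` (in weight `w`), for representations `β l` with finite image
and unitary Hecke characters `Φ l`. -/
structure AbelianPart [FiniteDimensional ℚ_[ℓ] W] (ρ : Representation ℚ_[ℓ] (GF e) W) (w : ℤ)
    (S : Finset (Ideal (𝓞 F))) (B : Submodule ℚ_[ℓ] W) {L : Type*} [Fintype L]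
    (Φ : L → Ideal (𝓞 F) → ℂ) {U : L → Type*} [∀ l, AddCommGroup (U l)] [∀ l, Module ℂ (U l)]
    (β : ∀ l, Representation ℂ (GF e) (U l)) : Prop where
  stable : ∀ g : GF e, ∀ x ∈ B, ρ g x ∈ B
  hecke : ∀ l, IsHecke (Φ l)
  finite : ∀ l, IsFin (β l)
  trace : ∀ 𝔭 : Ideal (𝓞 F), 𝔭.IsPrime → 𝔭 ≠ ⊥ → 𝔭 ∉ S → ∀ g : GF e, IsFrobAt e 𝔭 g →
    algebraMap ℚ_[ℓ] ℂ (LinearMap.trace ℚ_[ℓ] B ((ρ g⁻¹).restrict (stable g⁻¹))) =
      (((Ideal.absNorm 𝔭 : ℝ) ^ ((w : ℝ) / 2) : ℝ) : ℂ) *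
        ∑ l, (starRingEnd ℂ) (Φ l 𝔭) * (β l).character g⁻¹

open Classical in
/-- The multiplicity with which `(Ψ, α)` is dual to a constituent of the potentially abelian part. -/
noncomputable def abRank {L : Type*} [Fintype L] (Φ : L → Ideal (𝓞 F) → ℂ) {U : L → Type*}
    [∀ l, AddCommGroup (U l)] [∀ l, Module ℂ (U l)] (β : ∀ l, Representation ℂ (GF e) (U l))
    (Ψ : Ideal (𝓞 F) → ℂ) (α : Representation ℂ (GF e) V) : ℕ :=
  ∑ l, if Φ l = Ψ then Module.finrank ℂ ((β l).tprod α).invariants else 0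

/-- The defect `log |L(s)| - r log (1 / (s - 1))`. -/
noncomputable def defF (r : ℕ) (R : Ideal (𝓞 F) → ℂ[X]) (s : ℝ) : ℝ :=
  Real.log ‖LFunF R s‖ - r * Real.log (1 / (s - 1))

end

/-! ### Auxiliary objects for the proof -/

section
variable {F : Type*} [Field F] [NumberField F]

/-- A system of Frobenius elements, with their primes of `ZBar`. -/
def FrobSysP (σ : ℕ → GQ) (𝔓 : ℕ → Ideal ZBar) : Prop :=
  ∀ p : ℕ, p.Prime → (𝔓 p).IsPrime ∧ (p : ZBar) ∈ 𝔓 p ∧ IsArithFrob p (𝔓 p) (σ p)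

/-- The restriction of an embedding of `K` to `F`. -/
noncomputable def resEmb (F K : Type*) [Field F] [NumberField F] [Field K] [NumberField K]
    [Algebra F K] (φ : K →ₐ[ℚ] QBar) : F →ₐ[ℚ] QBar :=
  φ.comp (algebraMap F K).toRatAlgHom

lemma resEmb_apply (F K : Type*) [Field F] [NumberField F] [Field K] [NumberField K]
    [Algebra F K] (φ : K →ₐ[ℚ] QBar) (x : F) : resEmb F K φ x = φ (algebraMap F K x) := rfl

/-- The value of `Ψ` at the prime of `F` under `𝔓 p` for the embedding `ψ`. -/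
noncomputable def EPsi (𝔓 : ℕ → Ideal ZBar) (Ψ : Ideal (𝓞 F) → ℂ) (ψ : F →ₐ[ℚ] QBar) (p : ℕ) :
    ℂ := Ψ ((𝔓 p).comap (intMap ψ))

open Classical in
/-- A function on `GF e`, extended by zero. -/
noncomputable def extG (e : F →ₐ[ℚ] QBar) (f : GF e → ℂ) (g : GQ) : ℂ :=
  if h : g ∈ GF e then f ⟨g, h⟩ else 0

/-- The sum over the embeddings `ψ` fixed by `σ p`, that is, for almost all `p`, over the primes of
`F` of norm `p`, of `f (Frobenius) * E ψ p`. -/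
noncomputable def sumFix (e : F →ₐ[ℚ] QBar) (x : (F →ₐ[ℚ] QBar) → GQ) (σ : ℕ → GQ)
    (f : GF e → ℂ) (E : (F →ₐ[ℚ] QBar) → ℕ → ℂ) (p : ℕ) : ℂ :=
  ∑ ψ : F →ₐ[ℚ] QBar, extG e f ((x ψ)⁻¹ * σ p * x ψ) * E ψ p

end

end TatePole
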