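import Mathlib
import Pool.Agent.Lib.MP_058a58_ag.HK.Stm
import Pool.Agent.Lib.MP_058a58_ag.AT.TrickT3

/-!
# Twists by Hecke characters of number fields: the statements of the parts
-/

open Polynomial Filter Topology NumberField
open scoped TensorProduct

namespace TatePole

open AT

section
variable {F : Type} [Field F] [NumberField F]

open Classical in
/-- The numbers `E ψ p` of absolute value at most `1` are asymptotically orthogonal to the fixed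
point counts of the totally complex extensions `K` of `F`, twisted by Dirichlet characters. -/
def OscF (F : Type) [Field F] [NumberField F] (σ : ℕ → GQ) (E : (F →ₐ[ℚ] QBar) → ℕ → ℂ) : Prop :=
  (∀ ψ, ∀ p : ℕ, p.Prime → ‖E ψ p‖ ≤ 1) ∧
  ∀ (K : Type) [Field K] [NumberField K] [IsTotallyComplex K] [Algebra F K] (m : ℕ) [NeZero m]
    (χ : DirichletCharacter ℂ m),
    HasDens (fun p => (χ (p : ZMod m) * ∑ φ : K →ₐ[ℚ] QBar,
      if σ p • φ = φ then E (resEmb F K φ) p else 0).re) 0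

/-- [OSC] -/
def S_OSC : Prop := ∀ (F : Type) [Field F] [NumberField F] (σ : ℕ → GQ) (𝔓 : ℕ → Ideal ZBar),
  FrobSysP σ 𝔓 → ∀ Ψ : Ideal (𝓞 F) → ℂ, IsHecke Ψ → InfOrder Ψ → OscF F σ (EPsi 𝔓 Ψ)

/-- [RATIO] -/
def S_RATIO : Prop := ∀ (F : Type) [Field F] [NumberField F] (Ψ Φ : Ideal (𝓞 F) → ℂ),
  IsHecke Ψ → IsHecke Φ → IsHecke (ratio Ψ Φ)

/-- invariance of a function on `GF e` -/
structure ClsF (e : F →ₐ[ℚ] QBar) (N : Subgroup GQ) (f : GF e → ℂ) : Prop where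
  inv : ∀ g h : GF e, (h : GQ) ∈ N → f (g * h) = f g
  cls : ∀ x g : GF e, f (x⁻¹ * g * x) = f g
  conj : ∀ g : GF e, f g⁻¹ = (starRingEnd ℂ) (f g)

/-- [TRICKF] -/
def S_TRICKF : Prop := ∀ (F : Type) [Field F] [NumberField F] (σ : ℕ → GQ), FrobSys σ →
  ∀ E : (F →ₐ[ℚ] QBar) → ℕ → ℂ, OscF F σ E →
  ∀ (N : Subgroup GQ) [N.Normal] (M : IntermediateField ℚ QBar) [FiniteDimensional ℚ M],
    N = M.fixingSubgroup → ∀ (j : QBar →ₐ[ℚ] ℂ) (c : GQ),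
    (∀ x, j (c x) = (starRingEnd ℂ) (j x)) → c ∉ N →
  ∀ (e : F →ₐ[ℚ] QBar), N ≤ GF e → ∀ (x : (F →ₐ[ℚ] QBar) → GQ), (∀ ψ, x ψ • e = ψ) →
  ∀ f : GF e → ℂ, ClsF e N f → HasDens (fun p => (sumFix e x σ f E p).re) 0

/-- [MEAN0] -/
def S_MEAN0 : Prop := ∀ (F : Type) [Field F] [NumberField F] (σ : ℕ → GQ), FrobSys σ →
  ∀ (N : Subgroup GQ) [N.Normal] (M : IntermediateField ℚ QBar) [FiniteDimensional ℚ M],
    N = M.fixingSubgroup → ∀ (j : QBar →ₐ[ℚ] ℂ) (c : GQ),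
    (∀ x, j (c x) = (starRingEnd ℂ) (j x)) → c ∉ N →
  ∀ (e : F →ₐ[ℚ] QBar), N ≤ GF e → ∀ (x : (F →ₐ[ℚ] QBar) → GQ), (∀ ψ, x ψ • e = ψ) →
  ∀ f : GF e → ℂ, ClsF e N f →
    HasDens (fun p => (sumFix e x σ f (fun _ _ => 1) p).re)
      (gavg fun γ : GF e ⧸ N.subgroupOf (GF e) => (f γ.out).re)

end

section
variable {F : Type} [Field F] [NumberField F] {e : F →ₐ[ℚ] QBar} {ℓ : ℕ} [Fact ℓ.Prime]
  {W : Type*} [AddCommGroup W] [Module ℚ_[ℓ] W] [FiniteDimensional ℚ_[ℓ] W]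
  {V : Type*} [AddCommGroup V] [Module ℂ V] [FiniteDimensional ℂ V]
  [Algebra ℚ_[ℓ] ℂ]

/-- the function `g ↦ tr(g⁻¹ | W) tr(g⁻¹ | V)` on `GF e` -/
noncomputable def trWV (ρ : Representation ℚ_[ℓ] (GF e) W) (α : Representation ℂ (GF e) V)
    (g : GF e) : ℂ :=
  algebraMap ℚ_[ℓ] ℂ (LinearMap.trace ℚ_[ℓ] W (ρ g⁻¹)) * α.character g⁻¹

/-- [LOG] the conclusion about the logarithm of the `L`-function -/
def LogF (e : F →ₐ[ℚ] QBar) (ρ : Representation ℚ_[ℓ] (GF e) W) (w : ℤ)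
    (α : Representation ℂ (GF e) V) (Ψ : Ideal (𝓞 F) → ℂ) (R : Ideal (𝓞 F) → ℂ[X])
    (x : (F →ₐ[ℚ] QBar) → GQ) (σ : ℕ → GQ) (𝔓 : ℕ → Ideal ZBar) : Prop :=
  ∃ C : ℝ, ∀ᶠ s : ℝ in 𝓝[>] (1 : ℝ), |Real.log ‖LFunF R s‖ -
    RR (fun p => (sumFix e x σ (trWV ρ α)
      (fun ψ p => EPsi 𝔓 Ψ ψ p * (((p : ℝ) ^ (-(w : ℝ) / 2) : ℝ) : ℂ)) p).re) s| ≤ C

end

/-- [LOG] -/
def S_LOG : Prop := ∀ (F : Type) [Field F] [NumberField F] (e : F →ₐ[ℚ] QBar) (ℓ : ℕ)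
  [Fact ℓ.Prime] [Algebra ℚ_[ℓ] ℂ] (W : Type) [AddCommGroup W] [Module ℚ_[ℓ] W]
  [FiniteDimensional ℚ_[ℓ] W] (V : Type) [AddCommGroup V] [Module ℂ V] [FiniteDimensional ℂ V]
  (ρ : Representation ℚ_[ℓ] (GF e) W) (w : ℤ) (α : Representation ℂ (GF e) V)
  (Ψ : Ideal (𝓞 F) → ℂ) (S : Finset (Ideal (𝓞 F))) (R : Ideal (𝓞 F) → ℂ[X])
  (x : (F →ₐ[ℚ] QBar) → GQ) (σ : ℕ → GQ) (𝔓 : ℕ → Ideal ZBar),
  (∀ 𝔭 : Ideal (𝓞 F), 𝔭.IsPrime → 𝔭 ≠ ⊥ → 𝔭 ∉ S → IsPureAt ρ w 𝔭) → IsHecke Ψ → IsFin α →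
  HeckeFactors ρ w α Ψ S R → (∀ ψ, x ψ • e = ψ) → FrobSysP σ 𝔓 → LogF e ρ w α Ψ R x σ 𝔓

/-- [ORTH] the average of the product of two irreducible characters -/
def S_ORTH : Prop := ∀ (G : Type) [Group G] (N : Subgroup G) [N.Normal] [Finite (G ⧸ N)]
  (V V' : Type) [AddCommGroup V] [Module ℂ V] [FiniteDimensional ℂ V] [AddCommGroup V']
  [Module ℂ V'] [FiniteDimensional ℂ V'] (α : Representation ℂ G V) (α' : Representation ℂ G V'),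
  α.IsIrreducible → α'.IsIrreducible → (∀ g ∈ N, α g = 1) → (∀ g ∈ N, α' g = 1) →
  (Nonempty (α.Equiv α') → gavg (fun γ : G ⧸ N =>
    (α.character γ.out⁻¹ * (starRingEnd ℂ) (α'.character γ.out⁻¹)).re) = 1) ∧
  (IsEmpty (α.Equiv α') → gavg (fun γ : G ⧸ N =>
    (α.character γ.out⁻¹ * (starRingEnd ℂ) (α'.character γ.out⁻¹)).re) = 0)

/-- [INV] the average of a character is the dimension of the invariants -/
def S_INV : Prop := ∀ (G : Type) [Group G] (N : Subgroup G) [N.Normal] [Finite (G ⧸ N)]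
  (V V' : Type) [AddCommGroup V] [Module ℂ V] [FiniteDimensional ℂ V] [AddCommGroup V']
  [Module ℂ V'] [FiniteDimensional ℂ V'] (α : Representation ℂ G V) (α' : Representation ℂ G V'),
  (∀ g ∈ N, α g = 1) → (∀ g ∈ N, α' g = 1) →
  gavg (fun γ : G ⧸ N => (α.character γ.out⁻¹ * α'.character γ.out⁻¹).re) =
    Module.finrank ℂ (α.tprod α').invariants

end TatePole
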