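import Mathlib
import Pool.Agent.Lib.MP_058a58_ag.HK.Stm

/-!
# The Rankin-Selberg square of the transcendental part: definitions
-/

open scoped TensorProduct
open NumberField

namespace TatePole

/-- The representation `T ⊗ T^∨`, where `T = W / B` is the quotient of the representation `W` by a
stable subspace `B`. -/
noncomputable def selfG {k G W : Type*} [Field k] [Group G] [AddCommGroup W] [Module k W]
    (ρ : Representation k G W) (B : Submodule k W) (hB : ∀ g : G, ∀ x ∈ B, ρ g x ∈ B) :
    Representation k G ((W ⧸ B) ⊗[k] Module.Dual k (W ⧸ B)) :=
  (ρ.quotient B hB).tprod (ρ.quotient B hB).dual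

open Classical in
/-- The trivial Hecke character. -/
noncomputable def oneH (F : Type*) [Field F] [NumberField F] (I : Ideal (𝓞 F)) : ℂ :=
  if I = ⊥ then 0 else 1

end TatePole
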