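import Mathlib
import Pool.Agent.Lib.MP_058a58_ag.HK.Stm
import Pool.Agent.Lib.MP_058a58_ag.HK.StmRS

/-!
# Twists by representations of the Weil group: definitions

All fields are embedded in `QBar`: `e₀ : E →ₐ[ℚ] QBar` is the base field, and `GF e ≤ GF e₀` says
that `e₀ E ⊆ e F`.  An irreducible representation of the Weil group of `E` is induced from
`α ⊗ Ψ`, `α` a representation of `GF e` with finite image and `Ψ` a Hecke character of `F`.
-/

open Polynomial Filter Topology NumberField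
open scoped TensorProduct

namespace TatePole

section
variable {E F : Type*} [Field E] [NumberField E] [Field F] [NumberField F]

/-- The restriction of a representation of `GF e₀` to the subgroup `GF e`. -/
noncomputable def resG {k W : Type*} [Field k] [AddCommGroup W] [Module k W]
    {e₀ : E →ₐ[ℚ] QBar} {e : F →ₐ[ℚ] QBar} (h : GF e ≤ GF e₀)
    (ρ : Representation k (GF e₀) W) : Representation k (GF e) W :=
  ρ.comp (Subgroup.inclusion h)

/-- The component at the archimedean place given by the embedding `φ` of the infinity type `(k, τ)`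
(up to characters of finite order). -/
noncomputable def infTy (k : (F →+* ℂ) → ℤ) (τ : (F →+* ℂ) → ℝ) (φ : F →+* ℂ) : ℤ × ℝ :=
  (k φ - k ((starRingEnd ℂ).comp φ), τ φ + τ ((starRingEnd ℂ).comp φ))

/-- The trace at `g` (a Frobenius element for the prime `𝔓` of `ZBar`) of the representation of
the Weil group of `E` that is induced from the one of the Weil group of `F` with the character
`f ⊗ Ψ`: the sum over the cosets `y` of `GF e` in `GF e₀` with `y⁻¹ g y ∈ GF e` of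
`f (y⁻¹ g y) Ψ(𝔭_y)`, `𝔭_y` the prime of `F` under `𝔓` for the embedding `y • e`. -/
noncomputable def indTr (e₀ : E →ₐ[ℚ] QBar) (e : F →ₐ[ℚ] QBar) (f : GF e → ℂ)
    (Ψ : Ideal (𝓞 F) → ℂ) (𝔓 : Ideal ZBar) (g : GQ) : ℂ :=
  ∑ᶠ y : GF e₀ ⧸ (GF e).subgroupOf (GF e₀), extG e f ((y.out : GQ)⁻¹ * g * (y.out : GQ)) *
    Ψ (𝔓.comap (intMap ((y.out : GQ) • e)))

end

section
variable {E : Type*} [Field E] [NumberField E] {e₀ : E →ₐ[ℚ] QBar} {ℓ : ℕ} [Fact ℓ.Prime]
  {W : Type*} [AddCommGroup W] [Module ℚ_[ℓ] W] [FiniteDimensional ℚ_[ℓ] W] [Algebra ℚ_[ℓ] ℂ]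

/-- The potentially abelian part of `W`: a stable subspace `B` whose Frobenius traces are those of
the direct sum, over `t`, of the representations of the Weil group of `E` (in weight `w`) induced
from `β t ⊗ (Ψ t)⁻¹`. -/
structure WeilPart (ρ : Representation ℚ_[ℓ] (GF e₀) W) (w : ℤ) (S : Finset (Ideal (𝓞 E)))
    (B : Submodule ℚ_[ℓ] W) {T : Type*} [Fintype T] (F : T → Type*) [∀ t, Field (F t)]
    [∀ t, NumberField (F t)] (e : ∀ t, F t →ₐ[ℚ] QBar) (Ψ : ∀ t, Ideal (𝓞 (F t)) → ℂ)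
    {U : T → Type*} [∀ t, AddCommGroup (U t)] [∀ t, Module ℂ (U t)]
    (β : ∀ t, Representation ℂ (GF (e t)) (U t)) : Prop where
  stable : ∀ g : GF e₀, ∀ x ∈ B, ρ g x ∈ B
  finite : ∀ t, IsFin (β t)
  trace : ∀ 𝔭 : Ideal (𝓞 E), 𝔭.IsPrime → 𝔭 ≠ ⊥ → 𝔭 ∉ S → ∀ 𝔓 : Ideal ZBar, LiesOver e₀ 𝔓 𝔭 →
    ∀ g : GF e₀, IsArithFrob (Ideal.absNorm 𝔭) 𝔓 g →
    algebraMap ℚ_[ℓ] ℂ (LinearMap.trace ℚ_[ℓ] B ((ρ g⁻¹).restrict (stable g⁻¹))) =
      (((Ideal.absNorm 𝔭 : ℝ) ^ ((w : ℝ) / 2) : ℝ) : ℂ) *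
        ∑ t, indTr e₀ (e t) (fun h => (β t).character h⁻¹)
          (fun I => (starRingEnd ℂ) (Ψ t I)) 𝔓 g

end

end TatePole
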