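import Mathlib
import Pool.Agent.Lib.MP_058a58_ag.HK.StmW
import Pool.Agent.Lib.MP_058a58_ag.HK.Stm2

/-!
# Twists by representations of the Weil group: the statements of the parts
-/

open Polynomial Filter Topology NumberField
open scoped TensorProduct

namespace TatePole

open AT

/-- [TYPE] a Hecke character with a nontrivial infinity type has infinite order -/
def S_TYPE : Prop := ∀ (K : Type) [Field K] [NumberField K] (M : ℕ) (k : (K →+* ℂ) → ℤ)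
  (τ : (K →+* ℂ) → ℝ) (Ψ : Ideal (𝓞 K) → ℂ), IsHeckeChar K M k τ Ψ →
  (∃ φ : K →+* ℂ, infTy k τ φ ≠ 0) → InfOrder Ψ

/-- [INCL] -/
def S_INCL : Prop := ∀ (E F : Type) [Field E] [NumberField E] [Field F] [NumberField F]
  (e₀ : E →ₐ[ℚ] QBar) (e : F →ₐ[ℚ] QBar), GF e ≤ GF e₀ → ∃ i : E →ₐ[ℚ] F, e.comp i = e₀

section
variable {E F : Type} [Field E] [NumberField E] [Field F] [NumberField F]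

/-- the term of the embedding `ψ` at `p` -/
noncomputable def zz (e : F →ₐ[ℚ] QBar) (x : (F →ₐ[ℚ] QBar) → GQ) (σ : ℕ → GQ) (f : GF e → ℂ)
    (EE : (F →ₐ[ℚ] QBar) → ℕ → ℂ) (p : ℕ) (ψ : F →ₐ[ℚ] QBar) : ℂ :=
  extG e f ((x ψ)⁻¹ * σ p * x ψ) * EE ψ p

open Classical in
/-- the sum of the terms of the embeddings `ψ` that extend `ψ₀` -/
noncomputable def zI (i : E →ₐ[ℚ] F) (e : F →ₐ[ℚ] QBar) (x : (F →ₐ[ℚ] QBar) → GQ) (σ : ℕ → GQ)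
    (f : GF e → ℂ) (EE : (F →ₐ[ℚ] QBar) → ℕ → ℂ) (p : ℕ) (ψ₀ : E →ₐ[ℚ] QBar) : ℂ :=
  ∑ ψ : F →ₐ[ℚ] QBar, if ψ.comp i = ψ₀ then zz e x σ f EE p ψ else 0

end

open Classical in
/-- [ORB] the sum over one orbit of pairs of embeddings -/
def S_ORB : Prop := ∀ (F F' : Type) [Field F] [NumberField F] [Field F'] [NumberField F']
  (σ : ℕ → GQ) (𝔓 : ℕ → Ideal ZBar), FrobSysP σ 𝔓 →
  ∀ (N : Subgroup GQ) [N.Normal] (L : IntermediateField ℚ QBar) [FiniteDimensional ℚ L],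
  N = L.fixingSubgroup → ∀ (j : QBar →ₐ[ℚ] ℂ) (c : GQ),
  (∀ x, j (c x) = (starRingEnd ℂ) (j x)) → c ∉ N →
  ∀ (e : F →ₐ[ℚ] QBar) (e' : F' →ₐ[ℚ] QBar), N ≤ GF e → N ≤ GF e' →
  ∀ (x : (F →ₐ[ℚ] QBar) → GQ) (x' : (F' →ₐ[ℚ] QBar) → GQ), (∀ ψ, x ψ • e = ψ) →
  (∀ ψ, x' ψ • e' = ψ) → ∀ (f : GF e → ℂ) (f' : GF e' → ℂ), ClsF e N f → ClsF e' N f' →
  ∀ (M : ℕ) (k : (F →+* ℂ) → ℤ) (τ : (F →+* ℂ) → ℝ) (Ψ : Ideal (𝓞 F) → ℂ),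
  IsHeckeChar F M k τ Ψ →
  ∀ (M' : ℕ) (k' : (F' →+* ℂ) → ℤ) (τ' : (F' →+* ℂ) → ℝ) (Ψ' : Ideal (𝓞 F') → ℂ),
  IsHeckeChar F' M' k' τ' Ψ' → ∀ (ψ₁ : F →ₐ[ℚ] QBar) (ψ₁' : F' →ₐ[ℚ] QBar),
  (∃ φ : QBar →+* ℂ, infTy k τ (φ.comp (ψ₁ : F →+* QBar)) ≠
    infTy k' τ' (φ.comp (ψ₁' : F' →+* QBar))) →
  HasDens (fun p => (∑ Q : (F →ₐ[ℚ] QBar) × (F' →ₐ[ℚ] QBar),
    if Q ∈ MulAction.orbit GQ (ψ₁, ψ₁') then zz e x σ f (EPsi 𝔓 Ψ) p Q.1 *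
      (starRingEnd ℂ) (zz e' x' σ f' (EPsi 𝔓 Ψ') p Q.2) else 0).re) 0

/-- [PAIR] (from [ORB]) two different types -/
def S_PAIR : Prop := ∀ (E F F' : Type) [Field E] [NumberField E] [Field F] [NumberField F]
  [Field F'] [NumberField F'] (i : E →ₐ[ℚ] F) (i' : E →ₐ[ℚ] F')
  (σ : ℕ → GQ) (𝔓 : ℕ → Ideal ZBar), FrobSysP σ 𝔓 →
  ∀ (N : Subgroup GQ) [N.Normal] (L : IntermediateField ℚ QBar) [FiniteDimensional ℚ L],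
  N = L.fixingSubgroup → ∀ (j : QBar →ₐ[ℚ] ℂ) (c : GQ),
  (∀ x, j (c x) = (starRingEnd ℂ) (j x)) → c ∉ N →
  ∀ (e₀ : E →ₐ[ℚ] QBar) (e : F →ₐ[ℚ] QBar) (e' : F' →ₐ[ℚ] QBar), e.comp i = e₀ →
  e'.comp i' = e₀ → N ≤ GF e → N ≤ GF e' →
  ∀ (x : (F →ₐ[ℚ] QBar) → GQ) (x' : (F' →ₐ[ℚ] QBar) → GQ), (∀ ψ, x ψ • e = ψ) →
  (∀ ψ, x' ψ • e' = ψ) → ∀ (f : GF e → ℂ) (f' : GF e' → ℂ), ClsF e N f → ClsF e' N f' →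
  ∀ (M : ℕ) (k : (F →+* ℂ) → ℤ) (τ : (F →+* ℂ) → ℝ) (Ψ : Ideal (𝓞 F) → ℂ),
  IsHeckeChar F M k τ Ψ →
  ∀ (M' : ℕ) (k' : (F' →+* ℂ) → ℤ) (τ' : (F' →+* ℂ) → ℝ) (Ψ' : Ideal (𝓞 F') → ℂ),
  IsHeckeChar F' M' k' τ' Ψ' →
  (∀ y ∈ GF e₀, ∃ φ : QBar →+* ℂ, infTy k τ (φ.comp (e : F →+* QBar)) ≠
    infTy k' τ' (φ.comp ((y • e' : F' →ₐ[ℚ] QBar) : F' →+* QBar))) →
  HasDens (fun p => (∑ ψ₀ : E →ₐ[ℚ] QBar, zI i e x σ f (EPsi 𝔓 Ψ) p ψ₀ *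
      (starRingEnd ℂ) (zI i' e' x' σ f' (EPsi 𝔓 Ψ') p ψ₀)).re) 0

/-- [PAIRD] (from [ORB] and `dens_self`) the same type -/
def S_PAIRD : Prop := ∀ (E F : Type) [Field E] [NumberField E] [Field F] [NumberField F]
  (i : E →ₐ[ℚ] F)
  (σ : ℕ → GQ) (𝔓 : ℕ → Ideal ZBar), FrobSysP σ 𝔓 →
  ∀ (N : Subgroup GQ) [N.Normal] (L : IntermediateField ℚ QBar) [FiniteDimensional ℚ L],
  N = L.fixingSubgroup → ∀ (j : QBar →ₐ[ℚ] ℂ) (c : GQ),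
  (∀ x, j (c x) = (starRingEnd ℂ) (j x)) → c ∉ N →
  ∀ (e₀ : E →ₐ[ℚ] QBar) (e : F →ₐ[ℚ] QBar), e.comp i = e₀ → N ≤ GF e →
  ∀ (x : (F →ₐ[ℚ] QBar) → GQ), (∀ ψ, x ψ • e = ψ) →
  ∀ (f f' : GF e → ℂ), ClsF e N f → ClsF e N f' →
  ∀ (M : ℕ) (k : (F →+* ℂ) → ℤ) (τ : (F →+* ℂ) → ℝ) (Ψ : Ideal (𝓞 F) → ℂ),
  IsHeckeChar F M k τ Ψ →
  (∀ y ∈ GF e₀, y ∉ GF e → ∃ φ : QBar →+* ℂ, infTy k τ (φ.comp (e : F →+* QBar)) ≠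
    infTy k τ (φ.comp ((y • e : F →ₐ[ℚ] QBar) : F →+* QBar))) →
  HasDens (fun p => (∑ ψ₀ : E →ₐ[ℚ] QBar, zI i e x σ f (EPsi 𝔓 Ψ) p ψ₀ *
      (starRingEnd ℂ) (zI i e x σ f' (EPsi 𝔓 Ψ) p ψ₀)).re)
    (gavg fun γ : GF e ⧸ N.subgroupOf (GF e) => (f γ.out * (starRingEnd ℂ) (f' γ.out)).re)

/-- [IND] the induced trace as a sum over embeddings; `𝔓'` and `g` are `𝔓 p` and `σ p`, moved by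
`x₀` -/
def S_IND : Prop := ∀ (E F : Type) [Field E] [NumberField E] [Field F] [NumberField F]
  (i : E →ₐ[ℚ] F) (e₀ : E →ₐ[ℚ] QBar) (e : F →ₐ[ℚ] QBar), e.comp i = e₀ →
  ∀ (x : (F →ₐ[ℚ] QBar) → GQ), (∀ ψ, x ψ • e = ψ) →
  ∀ f : GF e → ℂ, (∀ x g : GF e, f (x⁻¹ * g * x) = f g) → ∀ Ψ : Ideal (𝓞 F) → ℂ,
  ∀ (s x₀ : GQ) (𝔔 : Ideal ZBar),
  indTr e₀ e f Ψ (𝔔.comap (MulSemiringAction.toRingHom GQ ZBar x₀)) (x₀⁻¹ * s * x₀) =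
    zI i e x (fun _ => s) f (fun ψ _ => Ψ (𝔔.comap (intMap ψ))) 0 (x₀ • e₀)

/-- [AUT] if `s` fixes one embedding of `K` over `ψ₀` it fixes at least `|Aut(K/E)|` of them -/
def S_AUT : Prop := ∀ (E K : Type) [Field E] [NumberField E] [Field K] [NumberField K]
  (i : E →ₐ[ℚ] K) (e₀ : E →ₐ[ℚ] QBar) (e : K →ₐ[ℚ] QBar), e.comp i = e₀ →
  ∀ (s : GQ) (ψ₀ : E →ₐ[ℚ] QBar), (∃ ψ : K →ₐ[ℚ] QBar, ψ.comp i = ψ₀ ∧ s • ψ = ψ) →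
  (GF e).relIndex (Subgroup.normalizer (GF e) ⊓ GF e₀) ≤
    Nat.card {ψ : K →ₐ[ℚ] QBar // ψ.comp i = ψ₀ ∧ s • ψ = ψ}

end TatePole
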