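import Mathlib
import Pool.Agent.Lib.MP_058a58_ag.HK.StmW2

/-!
# The Galois correspondence and the automorphisms
-/

open NumberField

namespace TatePole.HK

open TatePole

/-- [INCL] -/
theorem incl : S_INCL := by
  intro E F _ _ _ _ e₀ e h
  have hmem : ∀ x : E, e₀ x ∈ e.fieldRange := by
    intro x
    have h1 := InfiniteGalois.fixedField_fixingSubgroup (k := ℚ) (K := QBar) e.fieldRange
    rw [← h1, IntermediateField.mem_fixedField_iff]
    intro g hg
    rw [IntermediateField.mem_fixingSubgroup_iff] at hg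
    have h2 : g ∈ GF e := fun y => hg (e y) ⟨y, rfl⟩
    exact h h2 x
  have hmem' : ∀ x : E, e₀ x ∈ e.range := hmem
  refine ⟨((AlgEquiv.ofInjectiveField e).symm : e.range →ₐ[ℚ] F).comp
    (e₀.codRestrict e.range hmem'), ?_⟩
  ext x
  have h3 : e ((AlgEquiv.ofInjectiveField e).symm (e₀.codRestrict e.range hmem' x)) =
      ((AlgEquiv.ofInjectiveField e) ((AlgEquiv.ofInjectiveField e).symm
        (e₀.codRestrict e.range hmem' x)) : QBar) := rfl
  show e ((AlgEquiv.ofInjectiveField e).symm (e₀.codRestrict e.range hmem' x)) = e₀ x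
  rw [h3, AlgEquiv.apply_symm_apply]
  rfl

lemma smul_comp_embA {E K : Type*} [Field E] [NumberField E] [Field K] [NumberField K]
    (i : E →ₐ[ℚ] K) (g : GQ) (ψ : K →ₐ[ℚ] QBar) : (g • ψ).comp i = g • (ψ.comp i) := rfl

/-- [AUT] -/
theorem aut : S_AUT := by
  classical
  intro E K _ _ _ _ i e₀ e he s ψ₀ hex
  obtain ⟨ψ, hψ1, hψ2⟩ := hex
  obtain ⟨x, hx⟩ := MulAction.exists_smul_eq GQ e ψ
  set M : Subgroup GQ := Subgroup.normalizer (GF e) ⊓ GF e₀ with hM
  have hs : x⁻¹ * s * x ∈ GF e := by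
    rw [mem_GF, mul_smul, mul_smul, hx, hψ2, ← hx, inv_smul_smul]
  have hX : ∀ n : M, ((x * (n : GQ)) • e).comp i = ψ₀ ∧
      s • ((x * (n : GQ)) • e) = (x * (n : GQ)) • e := by
    intro n
    obtain ⟨hn1, hn2⟩ := Subgroup.mem_inf.mp n.2
    constructor
    · rw [smul_comp_embA, he, mul_smul, mem_GF.mp hn2, ← hψ1, ← hx, smul_comp_embA, he]
    · have h1 : (n : GQ)⁻¹ * (x⁻¹ * s * x) * (n : GQ) ∈ GF e := by
        have h2 := (Subgroup.mem_normalizer_iff.mp (Subgroup.inv_mem _ hn1)) (x⁻¹ * s * x)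
        rw [inv_inv] at h2
        exact h2.mp hs
      have h3 := mem_GF.mp h1
      rw [← mul_smul]
      have h4 : s * (x * (n : GQ)) =
          (x * (n : GQ)) * ((n : GQ)⁻¹ * (x⁻¹ * s * x) * (n : GQ)) := by group
      rw [h4, mul_smul, h3]
  have hfin : Finite {φ : K →ₐ[ℚ] QBar // φ.comp i = ψ₀ ∧ s • φ = φ} := by infer_instance
  set Φ : M ⧸ (GF e).subgroupOf M → {φ : K →ₐ[ℚ] QBar // φ.comp i = ψ₀ ∧ s • φ = φ} :=
    fun q => ⟨(x * (q.out : GQ)) • e, hX q.out⟩ with hΦ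
  have hinj : Function.Injective Φ := by
    intro q q' hqq
    have h1 : (x * (q.out : GQ)) • e = (x * (q'.out : GQ)) • e := congrArg Subtype.val hqq
    rw [mul_smul, mul_smul] at h1
    have h2 : (q.out : GQ) • e = (q'.out : GQ) • e := MulAction.injective x h1
    have h3 : ((q.out : GQ)⁻¹ * (q'.out : GQ)) • e = e := by
      rw [mul_smul, ← h2, inv_smul_smul]
    have h4 : (q.out)⁻¹ * q'.out ∈ (GF e).subgroupOf M := by
      rw [Subgroup.mem_subgroupOf]
      exact mem_GF.mpr h3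
    have h5 := QuotientGroup.eq.mpr h4
    rw [QuotientGroup.out_eq', QuotientGroup.out_eq'] at h5
    exact h5
  have h6 := Nat.card_le_card_of_injective Φ hinj
  exact h6

end TatePole.HK
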