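import Mathlib
import Pool.Agent.Lib.MP_058a58_ag.HK.Stm2
import Pool.Agent.Lib.MP_058a58_ag.AT.BigPrime

/-!
# Averages over `GF e / N`: orthogonality, invariants, and the mean value theorem
-/

open Polynomial Filter Topology NumberField
open scoped TensorProduct

namespace TatePole

open AT

section avg

variable {G : Type*} [Group G] (N : Subgroup G) [N.Normal] [Finite (G ⧸ N)]
  {V V' : Type*} [AddCommGroup V] [Module ℂ V] [FiniteDimensional ℂ V] [AddCommGroup V']
  [Module ℂ V'] [FiniteDimensional ℂ V']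

omit [Finite (G ⧸ N)] [FiniteDimensional ℂ V] in
lemma liftRep_char_inv (α : Representation ℂ G V) (hα : ∀ g ∈ N, α g = 1) (γ : G ⧸ N) :
    α.character γ.out⁻¹ = (liftRep N α hα).character γ⁻¹ := by
  unfold Representation.character
  have h : (γ⁻¹ : G ⧸ N) = ((γ.out⁻¹ : G) : G ⧸ N) := by
    rw [QuotientGroup.mk_inv, QuotientGroup.out_eq']
  rw [h, liftRep_mk]

theorem gavg_pair_inv (α : Representation ℂ G V) (α' : Representation ℂ G V')
    (hirr : α.IsIrreducible) (hirr' : α'.IsIrreducible) (hα : ∀ g ∈ N, α g = 1)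
    (hα' : ∀ g ∈ N, α' g = 1) [Decidable (Nonempty (α'.Equiv α))] :
    gavg (fun γ : G ⧸ N =>
      (α.character γ.out⁻¹ * (starRingEnd ℂ) (α'.character γ.out⁻¹)).re) =
      if Nonempty (α'.Equiv α) then 1 else 0 := by
  classical
  have : Fintype (G ⧸ N) := Fintype.ofFinite _
  have hcard : (Nat.card (G ⧸ N) : ℂ) ≠ 0 := by
    exact_mod_cast Nat.card_pos.ne'
  let inst : Invertible (Nat.card (G ⧸ N) : ℂ) := invertibleOfNonzero hcard
  have h1 := liftRep_irr N α hα hirr
  have h2 := liftRep_irr N α' hα' hirr'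
  have h3 := Representation.char_orthonormal (liftRep N α hα) (liftRep N α' hα')
  have h5 : (Nonempty ((liftRep N α' hα').Equiv (liftRep N α hα))) ↔ Nonempty (α'.Equiv α) := by
    constructor
    · rintro ⟨e⟩
      exact liftRep_equiv N α' hα' α hα e
    · rintro ⟨e⟩
      refine ⟨Representation.Equiv.mk e.toLinearEquiv fun γ => ?_⟩
      obtain ⟨g, rfl⟩ := QuotientGroup.mk_surjective γ
      exact e.isIntertwining' g
  have h4 : ∀ γ : G ⧸ N, α.character γ.out⁻¹ * (starRingEnd ℂ) (α'.character γ.out⁻¹) =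
      (liftRep N α hα).character γ⁻¹ * (liftRep N α' hα').character (γ⁻¹)⁻¹ := by
    intro γ
    rw [liftRep_char_inv N α hα, liftRep_char_inv N α' hα', conj_character]
  have h6 : ∑ γ : G ⧸ N, α.character γ.out⁻¹ * (starRingEnd ℂ) (α'.character γ.out⁻¹) =
      ∑ γ : G ⧸ N, (liftRep N α hα).character γ * (liftRep N α' hα').character γ⁻¹ := by
    rw [Finset.sum_congr rfl fun γ _ => h4 γ]
    exact Equiv.sum_comp (Equiv.inv (G ⧸ N)) fun γ =>
      (liftRep N α hα).character γ * (liftRep N α' hα').character γ⁻¹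
  rw [← h6] at h3
  unfold gavg
  rw [finsum_eq_sum_of_fintype]
  have h7 : ((Nat.card (G ⧸ N) : ℂ)⁻¹ * ∑ γ : G ⧸ N,
      α.character γ.out⁻¹ * (starRingEnd ℂ) (α'.character γ.out⁻¹)).re =
      (∑ γ : G ⧸ N, (α.character γ.out⁻¹ * (starRingEnd ℂ) (α'.character γ.out⁻¹)).re) /
        Nat.card (G ⧸ N) := by
    have e1 : (Nat.card (G ⧸ N) : ℂ)⁻¹ = (((Nat.card (G ⧸ N) : ℝ)⁻¹ : ℝ) : ℂ) := by
      push_cast; rfl
    rw [e1, Complex.re_ofReal_mul, Complex.re_sum]
    ring
  have h8 := congrArg Complex.re h3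
  rw [h7] at h8
  rw [h8]
  by_cases h : Nonempty (α'.Equiv α)
  · rw [if_pos h, if_pos (h5.mpr h)]; simp
  · rw [if_neg h, if_neg (fun h' => h (h5.mp h'))]; simp

theorem gavg_inv (α : Representation ℂ G V) (α' : Representation ℂ G V')
    (hα : ∀ g ∈ N, α g = 1) (hα' : ∀ g ∈ N, α' g = 1) :
    gavg (fun γ : G ⧸ N => (α.character γ.out⁻¹ * α'.character γ.out⁻¹).re) =
      Module.finrank ℂ (α.tprod α').invariants := by
  classical
  have : Fintype (G ⧸ N) := Fintype.ofFinite _
  have hprod : ∀ g : G, (α.tprod α').character g = α.character g * α'.character g := by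
    intro g
    unfold Representation.character
    have h : α.tprod α' g = TensorProduct.map (α g) (α' g) := rfl
    rw [h, LinearMap.trace_tensorProduct']
  have htriv : ∀ g ∈ N, (α.tprod α') g = 1 := by
    intro g hg
    have h : α.tprod α' g = TensorProduct.map (α g) (α' g) := rfl
    rw [h, hα g hg, hα' g hg, Module.End.one_eq_id, Module.End.one_eq_id, TensorProduct.map_id]
    rfl
  have h1 := card_mul_finrank_invariants (α.tprod α') N htriv
  have h2 : ∑ γ : G ⧸ N, LinearMap.trace ℂ _ ((α.tprod α') γ.out)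
      = ∑ γ : G ⧸ N, α.character γ.out⁻¹ * α'.character γ.out⁻¹ := by
    have e1 : ∀ γ : G ⧸ N, LinearMap.trace ℂ _ ((α.tprod α') γ.out)
        = (liftRep N (α.tprod α') htriv).character γ := by
      intro γ
      unfold Representation.character
      rw [liftRep_out]
    have e2 : ∀ γ : G ⧸ N, α.character γ.out⁻¹ * α'.character γ.out⁻¹
        = (liftRep N (α.tprod α') htriv).character γ⁻¹ := by
      intro γ
      rw [← liftRep_char_inv, hprod]
    rw [Finset.sum_congr rfl fun γ _ => e1 γ, Finset.sum_congr rfl fun γ _ => e2 γ]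
    exact (Equiv.sum_comp (Equiv.inv (G ⧸ N)) fun γ =>
      (liftRep N (α.tprod α') htriv).character γ).symm
  rw [h2] at h1
  have h3 := congrArg Complex.re h1
  rw [Complex.re_sum] at h3
  have h4 : ((Fintype.card (G ⧸ N) : ℂ) * (Module.finrank ℂ (α.tprod α').invariants : ℂ)).re
      = (Fintype.card (G ⧸ N) : ℝ) * (Module.finrank ℂ (α.tprod α').invariants : ℝ) := by
    rw [← Nat.cast_mul, Complex.natCast_re]
    push_cast
    rfl
  rw [h4] at h3
  unfold gavg
  rw [finsum_eq_sum_of_fintype, Nat.card_eq_fintype_card, ← h3, mul_div_cancel_left₀]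
  exact_mod_cast Fintype.card_ne_zero

end avg

theorem orth : S_ORTH := by
  intro G _ N _ _ V V' _ _ _ _ _ _ α α' hirr hirr' hα hα'
  classical
  have h := gavg_pair_inv N α α' hirr hirr' hα hα'
  constructor
  · rintro ⟨e⟩
    rw [h, if_pos ⟨e.symm⟩]
  · intro he
    rw [h, if_neg]
    rintro ⟨e⟩
    exact he.false e.symm

theorem inv_avg : S_INV := by
  intro G _ N _ _ V V' _ _ _ _ _ _ α α' hα hα'
  exact gavg_inv N α α' hα hα'

end TatePole
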