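import Mathlib
import Pool.Agent.Lib.MP_058a58_ag.AT.TrickT
import Pool.Agent.Lib.MP_058a58_ag.FieldFamily

/-!
# Bessel's inequality with several values at every prime
-/

open Filter Topology Set

namespace TatePole.AT

theorem bessel_abs {J Φ : Type*} [Fintype J] [DecidableEq J] [Fintype Φ] (A : ℕ → Φ → ℂ) (Z : J → ℕ → Φ → ℂ)
    (w : ℕ → Φ → ℝ) (D : ℝ) (hD : 0 ≤ D) (Cz : J → ℝ) (Cw : ℝ)
    (hw0 : ∀ p : ℕ, p.Prime → ∀ φ, 0 ≤ w p φ) (hwb : ∀ p : ℕ, p.Prime → ∀ φ, w p φ ≤ Cw)
    (hA : ∀ p : ℕ, p.Prime → ∀ φ, ‖A p φ‖ ≤ D * w p φ)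
    (hZ : ∀ i, ∀ p : ℕ, p.Prime → ∀ φ, ‖Z i p φ‖ ≤ Cz i)
    (hw : HasDens (fun p => ∑ φ, w p φ) 1)
    (hgram : ∀ i j, HasDens (fun p => ∑ φ, w p φ * (Z i p φ * (starRingEnd ℂ) (Z j p φ)).re)
      (if i = j then 1 else 0))
    (ε : ℝ) (hε : 0 < ε) :
    ∀ᶠ x in 𝓝[>] (1:ℝ), ∑ i, (RR (fun p => ∑ φ, (A p φ * Z i p φ).re) x) ^ 2 ≤
      ((D + ε) * Real.log (1 / (x - 1))) ^ 2 := by
  classical
  set k : ℝ := (Fintype.card J : ℝ) with hk
  have hk0 : 0 ≤ k := Nat.cast_nonneg _
  set δ : ℝ := ε / ((D + 1) * (k + 1)) with hδ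
  have hδ0 : 0 < δ := by positivity
  set N : ℝ := (Fintype.card Φ : ℝ) with hN
  have hN0 : 0 ≤ N := Nat.cast_nonneg _
  have hCw0 : 0 ≤ Cw ∨ IsEmpty Φ := by
    rcases isEmpty_or_nonempty Φ with h | ⟨⟨φ⟩⟩
    · exact Or.inr h
    · exact Or.inl ((hw0 2 Nat.prime_two φ).trans (hwb 2 Nat.prime_two φ))
  -- elementary bounds
  have hsumle : ∀ (f : Φ → ℝ) (C : ℝ), (∀ φ, |f φ| ≤ C) → |∑ φ, f φ| ≤ N * C := by
    intro f C hf
    refine (Finset.abs_sum_le_sum_abs _ _).trans ((Finset.sum_le_sum fun φ _ => hf φ).trans ?_)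
    rw [Finset.sum_const, Finset.card_univ, nsmul_eq_mul]
  have hCz0 : ∀ i, 0 ≤ Cz i ∨ IsEmpty Φ := fun i => by
    rcases isEmpty_or_nonempty Φ with h | ⟨⟨φ⟩⟩
    · exact Or.inr h
    · exact Or.inl ((norm_nonneg _).trans (hZ i 2 Nat.prime_two φ))
  rcases isEmpty_or_nonempty Φ with hemp | hne
  · filter_upwards [eventually_log_ge 0] with x h0
    have h1 : ∀ i, RR (fun p => ∑ φ, (A p φ * Z i p φ).re) x = 0 := by
      intro i
      unfold RR
      simp
    simp only [h1]
    have : (0:ℝ) ^ 2 = 0 := by norm_num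
    rw [this, Finset.sum_const_zero]
    positivity
  obtain ⟨φ0⟩ := hne
  have hCw : 0 ≤ Cw := (hw0 2 Nat.prime_two φ0).trans (hwb 2 Nat.prime_two φ0)
  have hCz : ∀ i, 0 ≤ Cz i := fun i => (norm_nonneg _).trans (hZ i 2 Nat.prime_two φ0)
  have hAZ : ∀ i, ∀ p : ℕ, p.Prime → |∑ φ, (A p φ * Z i p φ).re| ≤ N * (D * Cw * Cz i) := by
    intro i p hp
    refine hsumle _ _ fun φ => (Complex.abs_re_le_norm _).trans ?_
    rw [norm_mul]
    refine mul_le_mul ((hA p hp φ).trans (mul_le_mul_of_nonneg_left (hwb p hp φ) hD))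
      (hZ i p hp φ) (norm_nonneg _) (by positivity)
  set R : J → ℝ → ℝ := fun i x => RR (fun p => ∑ φ, (A p φ * Z i p φ).re) x with hR
  have hallg : ∀ᶠ x in 𝓝[>] (1:ℝ), ∀ i j', |RR (fun p => ∑ φ, w p φ *
      (Z i p φ * (starRingEnd ℂ) (Z j' p φ)).re) x -
      (if i = j' then 1 else 0) * Real.log (1 / (x - 1))| ≤ δ * Real.log (1 / (x - 1)) :=
    Filter.eventually_all.mpr fun i => Filter.eventually_all.mpr fun j' => hgram i j' δ hδ0
  filter_upwards [hallg, hw δ hδ0, eventually_log_ge 0, self_mem_nhdsWithin] with x hx hone h0 hx1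
  have hx1' : 1 < x := hx1
  set L := Real.log (1 / (x - 1)) with hL
  set F : ℕ → Φ → ℂ := fun p φ => ∑ i, (R i x : ℂ) * Z i p φ with hF
  set n := Real.sqrt (∑ i, R i x ^ 2) with hn
  have hsum0 : 0 ≤ ∑ i, R i x ^ 2 := Finset.sum_nonneg fun i _ => sq_nonneg _
  have hnn : n ^ 2 = ∑ i, R i x ^ 2 := Real.sq_sqrt hsum0
  have hn0 : 0 ≤ n := Real.sqrt_nonneg _
  set G : ℝ := ∑ i, |R i x| * Cz i with hG
  have hG0 : 0 ≤ G := Finset.sum_nonneg fun i _ => mul_nonneg (abs_nonneg _) (hCz i)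
  have hFb : ∀ p : ℕ, p.Prime → ∀ φ, ‖F p φ‖ ≤ G := by
    intro p hp φ
    refine (norm_sum_le _ _).trans (Finset.sum_le_sum fun i _ => ?_)
    rw [norm_mul, Complex.norm_real, Real.norm_eq_abs]
    exact mul_le_mul_of_nonneg_left (hZ i p hp φ) (abs_nonneg _)
  -- the sum of squares as a prime sum
  have h2 : n ^ 2 = RR (fun p => ∑ φ, (A p φ * F p φ).re) x := by
    rw [hnn]
    have e1 : ∀ i ∈ (Finset.univ : Finset J), R i x ^ 2 =
        RR (fun p => R i x * ∑ φ, (A p φ * Z i p φ).re) x := fun i _ => by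
      rw [RR_const_mul, pow_two]
    rw [Finset.sum_congr rfl e1, ← RR_finset_sum Finset.univ
      (fun i p => R i x * ∑ φ, (A p φ * Z i p φ).re) (fun i => |R i x| * (N * (D * Cw * Cz i)))
      (fun i _ p hp => by
        rw [abs_mul]
        exact mul_le_mul_of_nonneg_left (hAZ i p hp) (abs_nonneg _)) hx1']
    refine RR_congr (fun p _ => ?_) x
    simp only [hF, Finset.mul_sum]
    rw [Finset.sum_comm]
    refine Finset.sum_congr rfl fun φ _ => ?_
    rw [Complex.re_sum]
    refine Finset.sum_congr rfl fun i _ => ?_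
    rw [← Complex.re_ofReal_mul]
    congr 1
    ring
  -- the norm of `F`
  have h3 : RR (fun p => ∑ φ, w p φ * ‖F p φ‖ ^ 2) x ≤ n ^ 2 * (1 + k * δ) * L := by
    have e1 : ∀ p : ℕ, ∑ φ, w p φ * ‖F p φ‖ ^ 2 = ∑ i, ∑ j', R i x * R j' x *
        ∑ φ, w p φ * (Z i p φ * (starRingEnd ℂ) (Z j' p φ)).re := by
      intro p
      have e2 : ∀ φ, ‖F p φ‖ ^ 2 = ∑ i, ∑ j', R i x * R j' x *
          (Z i p φ * (starRingEnd ℂ) (Z j' p φ)).re := by
        intro φ
        have h4 := normSq_expand (Finset.univ : Finset J) 0 (fun i => Z i p φ) (fun i => R i x)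
        simp only [zero_sub, norm_neg, norm_zero, zero_mul, Complex.zero_re, mul_zero,
          Finset.sum_const_zero] at h4
        simp only [hF]
        rw [h4]
        ring
      simp only [e2, Finset.mul_sum]
      rw [Finset.sum_comm]
      refine Finset.sum_congr rfl fun i _ => ?_
      rw [Finset.sum_comm]
      refine Finset.sum_congr rfl fun j' _ => ?_
      refine Finset.sum_congr rfl fun φ _ => ?_
      ring
    have hzz : ∀ i j', ∀ p : ℕ, p.Prime →
        |∑ φ, w p φ * (Z i p φ * (starRingEnd ℂ) (Z j' p φ)).re| ≤ N * (Cw * (Cz i * Cz j')) := by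
      intro i j' p hp
      refine hsumle _ _ fun φ => ?_
      rw [abs_mul, abs_of_nonneg (hw0 p hp φ)]
      refine mul_le_mul (hwb p hp φ) ?_ (abs_nonneg _) hCw
      refine (Complex.abs_re_le_norm _).trans ?_
      rw [norm_mul, Complex.norm_conj]
      exact mul_le_mul (hZ i p hp φ) (hZ j' p hp φ) (norm_nonneg _) (hCz i)
    have e2 : RR (fun p => ∑ φ, w p φ * ‖F p φ‖ ^ 2) x = ∑ i, ∑ j', R i x * R j' x *
        RR (fun p => ∑ φ, w p φ * (Z i p φ * (starRingEnd ℂ) (Z j' p φ)).re) x := by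
      have e3 : RR (fun p => ∑ φ, w p φ * ‖F p φ‖ ^ 2) x =
          RR (fun p => ∑ i, ∑ j', R i x * R j' x *
            ∑ φ, w p φ * (Z i p φ * (starRingEnd ℂ) (Z j' p φ)).re) x :=
        RR_congr (fun p _ => e1 p) x
      rw [e3, RR_finset_sum Finset.univ (fun i p => ∑ j', R i x * R j' x *
        ∑ φ, w p φ * (Z i p φ * (starRingEnd ℂ) (Z j' p φ)).re)
        (fun i => ∑ j', |R i x * R j' x| * (N * (Cw * (Cz i * Cz j')))) (fun i _ p hp => by
          refine (Finset.abs_sum_le_sum_abs _ _).trans (Finset.sum_le_sum fun j' _ => ?_)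
          rw [abs_mul]
          exact mul_le_mul_of_nonneg_left (hzz i j' p hp) (abs_nonneg _)) hx1']
      refine Finset.sum_congr rfl fun i _ => ?_
      rw [RR_finset_sum Finset.univ (fun j' p => R i x * R j' x *
        ∑ φ, w p φ * (Z i p φ * (starRingEnd ℂ) (Z j' p φ)).re)
        (fun j' => |R i x * R j' x| * (N * (Cw * (Cz i * Cz j')))) (fun j' _ p hp => by
          rw [abs_mul]
          exact mul_le_mul_of_nonneg_left (hzz i j' p hp) (abs_nonneg _)) hx1']
      refine Finset.sum_congr rfl fun j' _ => ?_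
      rw [RR_const_mul]
    rw [e2]
    have e4 : ∀ i j', R i x * R j' x *
        RR (fun p => ∑ φ, w p φ * (Z i p φ * (starRingEnd ℂ) (Z j' p φ)).re) x ≤
        R i x * R j' x * ((if i = j' then 1 else 0) * L) + |R i x| * |R j' x| * (δ * L) := by
      intro i j'
      have h5 : R i x * R j' x * (RR (fun p => ∑ φ, w p φ *
          (Z i p φ * (starRingEnd ℂ) (Z j' p φ)).re) x -
          (if i = j' then 1 else 0) * L) ≤ |R i x| * |R j' x| * (δ * L) := by
        refine (le_abs_self _).trans ?_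
        rw [abs_mul, abs_mul]
        exact mul_le_mul_of_nonneg_left (hx i j') (by positivity)
      linarith
    refine (Finset.sum_le_sum fun i _ => Finset.sum_le_sum fun j' _ => e4 i j').trans ?_
    have e5 : ∑ i, ∑ j', (R i x * R j' x * ((if i = j' then 1 else 0) * L) +
        |R i x| * |R j' x| * (δ * L)) = n ^ 2 * L + (∑ i, |R i x|) ^ 2 * (δ * L) := by
      rw [hnn, pow_two (∑ i, |R i x|), Finset.sum_mul_sum, Finset.sum_mul, Finset.sum_mul,
        ← Finset.sum_add_distrib]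
      refine Finset.sum_congr rfl fun i _ => ?_
      rw [Finset.sum_add_distrib, Finset.sum_mul]
      congr 1
      have : ∀ j' ∈ (Finset.univ : Finset J), R i x * R j' x * ((if i = j' then 1 else 0) * L) =
          if i = j' then R i x * R j' x * L else 0 := by
        intro j' _
        split_ifs <;> ring
      rw [Finset.sum_congr rfl this, Finset.sum_ite_eq Finset.univ i, if_pos (Finset.mem_univ i)]
      ring
    rw [e5]
    have e6 : (∑ i, |R i x|) ^ 2 ≤ k * n ^ 2 := by
      have h6 := sq_sum_le_card_mul_sum_sq (s := (Finset.univ : Finset J)) (f := fun i => |R i x|)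
      rw [Finset.card_univ] at h6
      simp only [sq_abs] at h6
      rw [hnn, hk]
      exact h6
    have e7 := mul_le_mul_of_nonneg_right e6 (by positivity : 0 ≤ δ * L)
    calc n ^ 2 * L + (∑ i, |R i x|) ^ 2 * (δ * L) ≤ n ^ 2 * L + k * n ^ 2 * (δ * L) := by
          linarith
      _ = n ^ 2 * (1 + k * δ) * L := by ring
  have h5 : n ≤ D * (1 + (k + 1) * δ) * L := by
    rcases hn0.eq_or_lt with h | h
    · rw [← h]; positivity
    · have h6 : n ^ 2 ≤ RR (fun p => D / (2 * n) * (n ^ 2 * ∑ φ, w p φ +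
          ∑ φ, w p φ * ‖F p φ‖ ^ 2)) x := by
        refine (le_of_eq h2).trans ?_
        refine RR_mono ⟨N * (D * Cw * G), fun p hp => hsumle _ _ fun φ => ?_⟩
          ⟨D / (2 * n) * (n ^ 2 * (N * Cw) + N * (Cw * G ^ 2)), fun p hp => ?_⟩
          (fun p hp => ?_) hx1'
        · refine (Complex.abs_re_le_norm _).trans ?_
          rw [norm_mul]
          exact mul_le_mul ((hA p hp φ).trans (mul_le_mul_of_nonneg_left (hwb p hp φ) hD))
            (hFb p hp φ) (norm_nonneg _) (by positivity)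
        · have h7 : ∑ φ, w p φ ≤ N * Cw := by
            refine (Finset.sum_le_sum fun φ _ => hwb p hp φ).trans ?_
            rw [Finset.sum_const, Finset.card_univ, nsmul_eq_mul]
          have h8 : ∑ φ, w p φ * ‖F p φ‖ ^ 2 ≤ N * (Cw * G ^ 2) := by
            refine (Finset.sum_le_sum fun φ _ => mul_le_mul (hwb p hp φ)
              (pow_le_pow_left₀ (norm_nonneg _) (hFb p hp φ) 2) (by positivity) hCw).trans ?_
            rw [Finset.sum_const, Finset.card_univ, nsmul_eq_mul]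
          have h9 : 0 ≤ ∑ φ, w p φ := Finset.sum_nonneg fun φ _ => hw0 p hp φ
          have h10 : 0 ≤ ∑ φ, w p φ * ‖F p φ‖ ^ 2 :=
            Finset.sum_nonneg fun φ _ => mul_nonneg (hw0 p hp φ) (by positivity)
          rw [abs_of_nonneg (by positivity)]
          refine mul_le_mul_of_nonneg_left ?_ (by positivity)
          exact add_le_add (mul_le_mul_of_nonneg_left h7 (by positivity)) h8
        · have h7 : ∀ φ, (A p φ * F p φ).re ≤ D / (2 * n) * (n ^ 2 * w p φ +
              w p φ * ‖F p φ‖ ^ 2) := by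
            intro φ
            have h8 : (A p φ * F p φ).re ≤ D * w p φ * ‖F p φ‖ := by
              refine (Complex.re_le_norm _).trans ?_
              rw [norm_mul]
              exact mul_le_mul_of_nonneg_right (hA p hp φ) (norm_nonneg _)
            have h9 : ‖F p φ‖ ≤ (n ^ 2 + ‖F p φ‖ ^ 2) / (2 * n) := by
              rw [le_div_iff₀ (by positivity)]
              nlinarith [sq_nonneg (n - ‖F p φ‖)]
            refine h8.trans ((mul_le_mul_of_nonneg_left h9
              (mul_nonneg hD (hw0 p hp φ))).trans (le_of_eq ?_))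
            field_simp
          refine (Finset.sum_le_sum fun φ _ => h7 φ).trans (le_of_eq ?_)
          rw [← Finset.mul_sum, Finset.sum_add_distrib, ← Finset.mul_sum]
      have h7 : RR (fun p => D / (2 * n) * (n ^ 2 * ∑ φ, w p φ + ∑ φ, w p φ * ‖F p φ‖ ^ 2)) x =
          D / (2 * n) * (n ^ 2 * RR (fun p => ∑ φ, w p φ) x +
            RR (fun p => ∑ φ, w p φ * ‖F p φ‖ ^ 2) x) := by
        rw [RR_const_mul, RR_add (C := n ^ 2 * (N * Cw)) (D := N * (Cw * G ^ 2)) (fun p hp => ?_)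
          (fun p hp => ?_) hx1', RR_const_mul]
        · rw [abs_mul, abs_of_nonneg (by positivity : (0:ℝ) ≤ n ^ 2)]
          refine mul_le_mul_of_nonneg_left (hsumle _ _ fun φ => ?_) (by positivity)
          rw [abs_of_nonneg (hw0 p hp φ)]
          exact hwb p hp φ
        · refine hsumle _ _ fun φ => ?_
          rw [abs_of_nonneg (mul_nonneg (hw0 p hp φ) (by positivity))]
          exact mul_le_mul (hwb p hp φ) (pow_le_pow_left₀ (norm_nonneg _) (hFb p hp φ) 2)
            (by positivity) hCw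
      rw [h7] at h6
      have h8 : RR (fun p => ∑ φ, w p φ) x ≤ (1 + δ) * L := by
        have := (abs_le.mp hone).2
        linarith
      have h9 : D / (2 * n) * (n ^ 2 * RR (fun p => ∑ φ, w p φ) x +
          RR (fun p => ∑ φ, w p φ * ‖F p φ‖ ^ 2) x) ≤
          D / (2 * n) * (n ^ 2 * ((1 + δ) * L) + n ^ 2 * (1 + k * δ) * L) := by
        refine mul_le_mul_of_nonneg_left (add_le_add ?_ h3) (by positivity)
        exact mul_le_mul_of_nonneg_left h8 (by positivity)
      have h10 : D / (2 * n) * (n ^ 2 * ((1 + δ) * L) + n ^ 2 * (1 + k * δ) * L) =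
          n * (D * (1 + (k + 1) * δ / 2) * L) := by
        field_simp
        ring
      have h11 : n * n ≤ n * (D * (1 + (k + 1) * δ / 2) * L) := by
        rw [← pow_two]
        linarith
      have h12 := le_of_mul_le_mul_left h11 h
      refine h12.trans ?_
      have h13 : (k + 1) * δ / 2 ≤ (k + 1) * δ := by
        have : 0 ≤ (k + 1) * δ := by positivity
        linarith
      gcongr
  rw [← hnn]
  refine pow_le_pow_left₀ hn0 (h5.trans ?_) 2
  have h9 : δ * ((D + 1) * (k + 1)) = ε := by rw [hδ]; field_simp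
  have h10 : D * (1 + (k + 1) * δ) ≤ D + ε := by
    rw [← h9]
    nlinarith
  exact mul_le_mul_of_nonneg_right h10 h0

end TatePole.AT
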