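import Mathlib
import Pool.Agent.Lib.MP_058a58_ag.HK.BesselF

/-!
# Bessel's inequality with several values at every prime: the form with the square of `A`
-/

open Filter Topology Set

namespace TatePole.AT

theorem bessel_L2 {J Φ : Type*} [Fintype J] [DecidableEq J] [Fintype Φ] (A : ℕ → Φ → ℂ)
    (Z : J → ℕ → Φ → ℂ)
    (w : ℕ → Φ → ℝ) (D : ℝ) (hD : 0 ≤ D) (Cz : J → ℝ)
    (hw01 : ∀ p : ℕ, p.Prime → ∀ φ, w p φ = 0 ∨ w p φ = 1)
    (hA : ∀ p : ℕ, p.Prime → ∀ φ, ‖A p φ‖ ≤ D * w p φ)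
    (hZ : ∀ i, ∀ p : ℕ, p.Prime → ∀ φ, ‖Z i p φ‖ ≤ Cz i)
    (hgram : ∀ i j, HasDens (fun p => ∑ φ, w p φ * (Z i p φ * (starRingEnd ℂ) (Z j p φ)).re)
      (if i = j then 1 else 0))
    (ε : ℝ) (hε : 0 < ε) :
    ∀ᶠ x in 𝓝[>] (1:ℝ), ∑ i, (RR (fun p => ∑ φ, (A p φ * Z i p φ).re) x) ^ 2 ≤
      (1 + ε) * RR (fun p => ∑ φ, ‖A p φ‖ ^ 2) x * Real.log (1 / (x - 1)) := by
  classical
  set k : ℝ := (Fintype.card J : ℝ) with hk
  have hk0 : 0 ≤ k := Nat.cast_nonneg _
  set δ : ℝ := ε / (k + 1) with hδ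
  have hδ0 : 0 < δ := by positivity
  set N : ℝ := (Fintype.card Φ : ℝ) with hN
  have hN0 : 0 ≤ N := Nat.cast_nonneg _
  have hw0 : ∀ p : ℕ, p.Prime → ∀ φ, 0 ≤ w p φ := fun p hp φ => by
    rcases hw01 p hp φ with h | h <;> rw [h]
    exact zero_le_one
  have hwb : ∀ p : ℕ, p.Prime → ∀ φ, w p φ ≤ 1 := fun p hp φ => by
    rcases hw01 p hp φ with h | h <;> rw [h]
    exact zero_le_one
  have hA' : ∀ p : ℕ, p.Prime → ∀ φ, ‖A p φ‖ ≤ D := fun p hp φ =>
    (hA p hp φ).trans (by nlinarith [hwb p hp φ])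
  -- elementary bounds
  have hsumle : ∀ (f : Φ → ℝ) (C : ℝ), (∀ φ, |f φ| ≤ C) → |∑ φ, f φ| ≤ N * C := by
    intro f C hf
    refine (Finset.abs_sum_le_sum_abs _ _).trans ((Finset.sum_le_sum fun φ _ => hf φ).trans ?_)
    rw [Finset.sum_const, Finset.card_univ, nsmul_eq_mul]
  rcases isEmpty_or_nonempty Φ with hemp | hne
  · filter_upwards [eventually_log_ge 0] with x h0
    have h1 : ∀ i, RR (fun p => ∑ φ, (A p φ * Z i p φ).re) x = 0 := by
      intro i
      unfold RR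
      simp
    simp only [h1]
    have h2 : RR (fun p => ∑ φ, ‖A p φ‖ ^ 2) x = 0 := by
      unfold RR
      simp
    rw [h2]
    have : (0:ℝ) ^ 2 = 0 := by norm_num
    rw [this, Finset.sum_const_zero]
    simp
  obtain ⟨φ0⟩ := hne
  have hCz : ∀ i, 0 ≤ Cz i := fun i => (norm_nonneg _).trans (hZ i 2 Nat.prime_two φ0)
  have hAZ : ∀ i, ∀ p : ℕ, p.Prime → |∑ φ, (A p φ * Z i p φ).re| ≤ N * (D * Cz i) := by
    intro i p hp
    refine hsumle _ _ fun φ => (Complex.abs_re_le_norm _).trans ?_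
    rw [norm_mul]
    exact mul_le_mul (hA' p hp φ) (hZ i p hp φ) (norm_nonneg _) hD
  set R : J → ℝ → ℝ := fun i x => RR (fun p => ∑ φ, (A p φ * Z i p φ).re) x with hR
  have hallg : ∀ᶠ x in 𝓝[>] (1:ℝ), ∀ i j', |RR (fun p => ∑ φ, w p φ *
      (Z i p φ * (starRingEnd ℂ) (Z j' p φ)).re) x -
      (if i = j' then 1 else 0) * Real.log (1 / (x - 1))| ≤ δ * Real.log (1 / (x - 1)) :=
    Filter.eventually_all.mpr fun i => Filter.eventually_all.mpr fun j' => hgram i j' δ hδ0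
  filter_upwards [hallg, eventually_log_ge 1, self_mem_nhdsWithin] with x hx h01 hx1
  have hx1' : 1 < x := hx1
  set L := Real.log (1 / (x - 1)) with hL
  have h0 : 0 < L := lt_of_lt_of_le one_pos h01
  set F : ℕ → Φ → ℂ := fun p φ => ∑ i, (R i x : ℂ) * Z i p φ with hF
  set n := Real.sqrt (∑ i, R i x ^ 2) with hn
  have hsum0 : 0 ≤ ∑ i, R i x ^ 2 := Finset.sum_nonneg fun i _ => sq_nonneg _
  have hnn : n ^ 2 = ∑ i, R i x ^ 2 := Real.sq_sqrt hsum0
  have hn0 : 0 ≤ n := Real.sqrt_nonneg _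
  set G : ℝ := ∑ i, |R i x| * Cz i with hG
  have hG0 : 0 ≤ G := Finset.sum_nonneg fun i _ => mul_nonneg (abs_nonneg _) (hCz i)
  have hFb : ∀ p : ℕ, p.Prime → ∀ φ, ‖F p φ‖ ≤ G := by
    intro p hp φ
    refine (norm_sum_le _ _).trans (Finset.sum_le_sum fun i _ => ?_)
    rw [norm_mul, Complex.norm_real, Real.norm_eq_abs]
    exact mul_le_mul_of_nonneg_left (hZ i p hp φ) (abs_nonneg _)
  -- the sum of squares as a prime sum
  have h2 : n ^ 2 = RR (fun p => ∑ φ, (A p φ * F p φ).re) x := by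
    rw [hnn]
    have e1 : ∀ i ∈ (Finset.univ : Finset J), R i x ^ 2 =
        RR (fun p => R i x * ∑ φ, (A p φ * Z i p φ).re) x := fun i _ => by
      rw [RR_const_mul, pow_two]
    rw [Finset.sum_congr rfl e1, ← RR_finset_sum Finset.univ
      (fun i p => R i x * ∑ φ, (A p φ * Z i p φ).re) (fun i => |R i x| * (N * (D * Cz i)))
      (fun i _ p hp => by
        rw [abs_mul]
        exact mul_le_mul_of_nonneg_left (hAZ i p hp) (abs_nonneg _)) hx1']
    refine RR_congr (fun p _ => ?_) x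
    simp only [hF, Finset.mul_sum]
    rw [Finset.sum_comm]
    refine Finset.sum_congr rfl fun φ _ => ?_
    rw [Complex.re_sum]
    refine Finset.sum_congr rfl fun i _ => ?_
    rw [← Complex.re_ofReal_mul]
    congr 1
    ring
  -- the norm of `F`
  have h3 : RR (fun p => ∑ φ, w p φ * ‖F p φ‖ ^ 2) x ≤ n ^ 2 * (1 + k * δ) * L := by
    have e1 : ∀ p : ℕ, ∑ φ, w p φ * ‖F p φ‖ ^ 2 = ∑ i, ∑ j', R i x * R j' x *
        ∑ φ, w p φ * (Z i p φ * (starRingEnd ℂ) (Z j' p φ)).re := by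
      intro p
      have e2 : ∀ φ, ‖F p φ‖ ^ 2 = ∑ i, ∑ j', R i x * R j' x *
          (Z i p φ * (starRingEnd ℂ) (Z j' p φ)).re := by
        intro φ
        have h4 := normSq_expand (Finset.univ : Finset J) 0 (fun i => Z i p φ) (fun i => R i x)
        simp only [zero_sub, norm_neg, norm_zero, zero_mul, Complex.zero_re, mul_zero,
          Finset.sum_const_zero] at h4
        simp only [hF]
        rw [h4]
        ring
      simp only [e2, Finset.mul_sum]
      rw [Finset.sum_comm]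
      refine Finset.sum_congr rfl fun i _ => ?_
      rw [Finset.sum_comm]
      refine Finset.sum_congr rfl fun j' _ => ?_
      refine Finset.sum_congr rfl fun φ _ => ?_
      ring
    have hzz : ∀ i j', ∀ p : ℕ, p.Prime →
        |∑ φ, w p φ * (Z i p φ * (starRingEnd ℂ) (Z j' p φ)).re| ≤ N * (1 * (Cz i * Cz j')) := by
      intro i j' p hp
      refine hsumle _ _ fun φ => ?_
      rw [abs_mul, abs_of_nonneg (hw0 p hp φ)]
      refine mul_le_mul (hwb p hp φ) ?_ (abs_nonneg _) zero_le_one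
      refine (Complex.abs_re_le_norm _).trans ?_
      rw [norm_mul, Complex.norm_conj]
      exact mul_le_mul (hZ i p hp φ) (hZ j' p hp φ) (norm_nonneg _) (hCz i)
    have e2 : RR (fun p => ∑ φ, w p φ * ‖F p φ‖ ^ 2) x = ∑ i, ∑ j', R i x * R j' x *
        RR (fun p => ∑ φ, w p φ * (Z i p φ * (starRingEnd ℂ) (Z j' p φ)).re) x := by
      have e3 : RR (fun p => ∑ φ, w p φ * ‖F p φ‖ ^ 2) x =
          RR (fun p => ∑ i, ∑ j', R i x * R j' x *
            ∑ φ, w p φ * (Z i p φ * (starRingEnd ℂ) (Z j' p φ)).re) x :=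
        RR_congr (fun p _ => e1 p) x
      rw [e3, RR_finset_sum Finset.univ (fun i p => ∑ j', R i x * R j' x *
        ∑ φ, w p φ * (Z i p φ * (starRingEnd ℂ) (Z j' p φ)).re)
        (fun i => ∑ j', |R i x * R j' x| * (N * (1 * (Cz i * Cz j')))) (fun i _ p hp => by
          refine (Finset.abs_sum_le_sum_abs _ _).trans (Finset.sum_le_sum fun j' _ => ?_)
          rw [abs_mul]
          exact mul_le_mul_of_nonneg_left (hzz i j' p hp) (abs_nonneg _)) hx1']
      refine Finset.sum_congr rfl fun i _ => ?_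
      rw [RR_finset_sum Finset.univ (fun j' p => R i x * R j' x *
        ∑ φ, w p φ * (Z i p φ * (starRingEnd ℂ) (Z j' p φ)).re)
        (fun j' => |R i x * R j' x| * (N * (1 * (Cz i * Cz j')))) (fun j' _ p hp => by
          rw [abs_mul]
          exact mul_le_mul_of_nonneg_left (hzz i j' p hp) (abs_nonneg _)) hx1']
      refine Finset.sum_congr rfl fun j' _ => ?_
      rw [RR_const_mul]
    rw [e2]
    have e4 : ∀ i j', R i x * R j' x *
        RR (fun p => ∑ φ, w p φ * (Z i p φ * (starRingEnd ℂ) (Z j' p φ)).re) x ≤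
        R i x * R j' x * ((if i = j' then 1 else 0) * L) + |R i x| * |R j' x| * (δ * L) := by
      intro i j'
      have h5 : R i x * R j' x * (RR (fun p => ∑ φ, w p φ *
          (Z i p φ * (starRingEnd ℂ) (Z j' p φ)).re) x -
          (if i = j' then 1 else 0) * L) ≤ |R i x| * |R j' x| * (δ * L) := by
        refine (le_abs_self _).trans ?_
        rw [abs_mul, abs_mul]
        exact mul_le_mul_of_nonneg_left (hx i j') (by positivity)
      linarith
    refine (Finset.sum_le_sum fun i _ => Finset.sum_le_sum fun j' _ => e4 i j').trans ?_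
    have e5 : ∑ i, ∑ j', (R i x * R j' x * ((if i = j' then 1 else 0) * L) +
        |R i x| * |R j' x| * (δ * L)) = n ^ 2 * L + (∑ i, |R i x|) ^ 2 * (δ * L) := by
      rw [hnn, pow_two (∑ i, |R i x|), Finset.sum_mul_sum, Finset.sum_mul, Finset.sum_mul,
        ← Finset.sum_add_distrib]
      refine Finset.sum_congr rfl fun i _ => ?_
      rw [Finset.sum_add_distrib, Finset.sum_mul]
      congr 1
      have : ∀ j' ∈ (Finset.univ : Finset J), R i x * R j' x * ((if i = j' then 1 else 0) * L) =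
          if i = j' then R i x * R j' x * L else 0 := by
        intro j' _
        split_ifs <;> ring
      rw [Finset.sum_congr rfl this, Finset.sum_ite_eq Finset.univ i, if_pos (Finset.mem_univ i)]
      ring
    rw [e5]
    have e6 : (∑ i, |R i x|) ^ 2 ≤ k * n ^ 2 := by
      have h6 := sq_sum_le_card_mul_sum_sq (s := (Finset.univ : Finset J)) (f := fun i => |R i x|)
      rw [Finset.card_univ] at h6
      simp only [sq_abs] at h6
      rw [hnn, hk]
      exact h6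
    have e7 := mul_le_mul_of_nonneg_right e6 (by positivity : 0 ≤ δ * L)
    calc n ^ 2 * L + (∑ i, |R i x|) ^ 2 * (δ * L) ≤ n ^ 2 * L + k * n ^ 2 * (δ * L) := by
          linarith
      _ = n ^ 2 * (1 + k * δ) * L := by ring
  set t : ℝ := (1 + k * δ) * L with ht
  have ht0 : 0 < t := by positivity
  have h6 : n ^ 2 ≤ RR (fun p => 1 / 2 * (t * ∑ φ, ‖A p φ‖ ^ 2 +
      t⁻¹ * ∑ φ, w p φ * ‖F p φ‖ ^ 2)) x := by
    refine (le_of_eq h2).trans ?_
    refine RR_mono ⟨N * (D * G), fun p hp => hsumle _ _ fun φ => ?_⟩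
      ⟨1 / 2 * (t * (N * D ^ 2) + t⁻¹ * (N * G ^ 2)), fun p hp => ?_⟩
      (fun p hp => ?_) hx1'
    · refine (Complex.abs_re_le_norm _).trans ?_
      rw [norm_mul]
      exact mul_le_mul (hA' p hp φ) (hFb p hp φ) (norm_nonneg _) hD
    · have h7 : ∑ φ, ‖A p φ‖ ^ 2 ≤ N * D ^ 2 := by
        refine (Finset.sum_le_sum fun φ _ => pow_le_pow_left₀ (norm_nonneg _)
          (hA' p hp φ) 2).trans ?_
        rw [Finset.sum_const, Finset.card_univ, nsmul_eq_mul]
      have h8 : ∑ φ, w p φ * ‖F p φ‖ ^ 2 ≤ N * G ^ 2 := by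
        refine (Finset.sum_le_sum fun φ _ => mul_le_mul (hwb p hp φ)
          (pow_le_pow_left₀ (norm_nonneg _) (hFb p hp φ) 2) (by positivity) zero_le_one).trans ?_
        rw [Finset.sum_const, Finset.card_univ, nsmul_eq_mul, one_mul]
      have h9 : 0 ≤ ∑ φ, ‖A p φ‖ ^ 2 := Finset.sum_nonneg fun φ _ => sq_nonneg _
      have h10 : 0 ≤ ∑ φ, w p φ * ‖F p φ‖ ^ 2 :=
        Finset.sum_nonneg fun φ _ => mul_nonneg (hw0 p hp φ) (by positivity)
      rw [abs_of_nonneg (by positivity)]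
      refine mul_le_mul_of_nonneg_left ?_ (by positivity)
      exact add_le_add (mul_le_mul_of_nonneg_left h7 ht0.le)
        (mul_le_mul_of_nonneg_left h8 (by positivity))
    · have h7 : ∀ φ, (A p φ * F p φ).re ≤ 1 / 2 * (t * ‖A p φ‖ ^ 2 +
          t⁻¹ * (w p φ * ‖F p φ‖ ^ 2)) := by
        intro φ
        have h8 : (A p φ * F p φ).re ≤ ‖A p φ‖ * ‖F p φ‖ := by
          refine (Complex.re_le_norm _).trans ?_
          rw [norm_mul]
        rcases hw01 p hp φ with h | h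
        · have h9 : ‖A p φ‖ = 0 := by
            have := hA p hp φ
            rw [h, mul_zero] at this
            exact le_antisymm this (norm_nonneg _)
          rw [h9, zero_mul] at h8
          rw [h9, h]
          simpa using h8
        · rw [h, one_mul]
          refine h8.trans ?_
          have h10 : 0 ≤ (t * ‖A p φ‖ - ‖F p φ‖) ^ 2 := sq_nonneg _
          have h11 : t * t⁻¹ = 1 := mul_inv_cancel₀ ht0.ne'
          have h12 : 1 / 2 * (t * ‖A p φ‖ ^ 2 + t⁻¹ * ‖F p φ‖ ^ 2) - ‖A p φ‖ * ‖F p φ‖ =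
              1 / 2 * t⁻¹ * (t * ‖A p φ‖ - ‖F p φ‖) ^ 2 := by
            field_simp
            ring
          have h13 : 0 ≤ 1 / 2 * t⁻¹ * (t * ‖A p φ‖ - ‖F p φ‖) ^ 2 := by positivity
          linarith
      refine (Finset.sum_le_sum fun φ _ => h7 φ).trans (le_of_eq ?_)
      rw [← Finset.mul_sum, Finset.sum_add_distrib, ← Finset.mul_sum, ← Finset.mul_sum]
  have h7 : RR (fun p => 1 / 2 * (t * ∑ φ, ‖A p φ‖ ^ 2 + t⁻¹ * ∑ φ, w p φ * ‖F p φ‖ ^ 2)) x =
      1 / 2 * (t * RR (fun p => ∑ φ, ‖A p φ‖ ^ 2) x +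
        t⁻¹ * RR (fun p => ∑ φ, w p φ * ‖F p φ‖ ^ 2) x) := by
    rw [RR_const_mul, RR_add (C := t * (N * D ^ 2)) (D := t⁻¹ * (N * (1 * G ^ 2))) (fun p hp => ?_)
      (fun p hp => ?_) hx1', RR_const_mul, RR_const_mul]
    · rw [abs_mul, abs_of_pos ht0]
      refine mul_le_mul_of_nonneg_left (hsumle _ _ fun φ => ?_) ht0.le
      rw [abs_of_nonneg (sq_nonneg _)]
      exact pow_le_pow_left₀ (norm_nonneg _) (hA' p hp φ) 2
    · rw [abs_mul, abs_of_pos (inv_pos.mpr ht0)]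
      refine mul_le_mul_of_nonneg_left (hsumle _ _ fun φ => ?_) (inv_pos.mpr ht0).le
      rw [abs_of_nonneg (mul_nonneg (hw0 p hp φ) (by positivity))]
      exact mul_le_mul (hwb p hp φ) (pow_le_pow_left₀ (norm_nonneg _) (hFb p hp φ) 2)
        (by positivity) zero_le_one
  rw [h7] at h6
  have h8 : t⁻¹ * RR (fun p => ∑ φ, w p φ * ‖F p φ‖ ^ 2) x ≤ n ^ 2 := by
    have h9 := mul_le_mul_of_nonneg_left h3 (inv_pos.mpr ht0).le
    have h10 : t⁻¹ * (n ^ 2 * (1 + k * δ) * L) = n ^ 2 := by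
      have h11 : n ^ 2 * (1 + k * δ) * L = n ^ 2 * t := by rw [ht]; ring
      rw [h11, mul_comm, mul_assoc, mul_inv_cancel₀ ht0.ne', mul_one]
    rwa [h10] at h9
  set Q := RR (fun p => ∑ φ, ‖A p φ‖ ^ 2) x with hQ
  have hQ0 : 0 ≤ Q := RR_nonneg (fun p _ => Finset.sum_nonneg fun φ _ => sq_nonneg _) x
  have h9 : n ^ 2 ≤ t * Q := by linarith
  rw [← hnn]
  refine h9.trans ?_
  have h10 : k * δ ≤ ε := by
    rw [hδ, mul_div_assoc', div_le_iff₀ (by positivity)]
    nlinarith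
  calc t * Q = (1 + k * δ) * (Q * L) := by rw [ht]; ring
    _ ≤ (1 + ε) * (Q * L) := mul_le_mul_of_nonneg_right (by linarith) (by positivity)
    _ = (1 + ε) * Q * L := by ring

/-- a perturbation of an inequality between sums of squares -/
lemma eventually_perturb_rs {J : Type*} [Fintype J] (D R : J → ℝ → ℝ) (Q Q' : ℝ → ℝ) (K : ℝ)
    (hK : 0 ≤ K) (hQ : ∀ᶠ s : ℝ in 𝓝[>] (1 : ℝ), 0 ≤ Q s ∧ Q s ≤ K * Real.log (1 / (s - 1)))
    (h1 : ∀ ε : ℝ, 0 < ε → ∀ᶠ s : ℝ in 𝓝[>] (1 : ℝ), ∑ i, R i s ^ 2 ≤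
      (1 + ε) * Q s * Real.log (1 / (s - 1)))
    (h2 : ∀ i, ∀ δ : ℝ, 0 < δ → ∀ᶠ s : ℝ in 𝓝[>] (1 : ℝ),
      |D i s - R i s| ≤ δ * Real.log (1 / (s - 1)))
    (h3 : ∃ C : ℝ, ∀ᶠ s : ℝ in 𝓝[>] (1 : ℝ), |Q' s - Q s| ≤ C)
    (ε : ℝ) (hε : 0 < ε) :
    ∀ᶠ s : ℝ in 𝓝[>] (1 : ℝ), ∑ i, D i s ^ 2 ≤
      (Q' s + ε * Real.log (1 / (s - 1))) * Real.log (1 / (s - 1)) := by
  obtain ⟨C, hC⟩ := h3
  set k : ℝ := (Fintype.card J : ℝ) with hk
  have hk0 : 0 ≤ k := Nat.cast_nonneg _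
  -- the parameters
  set η : ℝ := min 1 (ε / (8 * (K + 1))) with hη
  have hη0 : 0 < η := lt_min one_pos (by positivity)
  have hη1 : η ≤ 1 := min_le_left _ _
  have hηK : η * (K + 1) ≤ ε / 8 := by
    have : η ≤ ε / (8 * (K + 1)) := min_le_right _ _
    rw [le_div_iff₀ (by positivity)] at this
    linarith
  set δ : ℝ := min η (ε * η / (8 * (k + 1))) with hδ
  have hδ0 : 0 < δ := lt_min hη0 (by positivity)
  have hδη : δ ≤ η := min_le_left _ _
  have hδk : δ * (k + 1) ≤ ε * η / 8 := by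
    have : δ ≤ ε * η / (8 * (k + 1)) := min_le_right _ _
    rw [le_div_iff₀ (by positivity)] at this
    linarith
  filter_upwards [hQ, h1 η hη0, Filter.eventually_all.mpr fun i => h2 i δ hδ0, hC,
    eventually_log_ge (4 * |C| / ε), eventually_log_ge 0] with s hq h4 h5 h6 h7 h8
  set L := Real.log (1 / (s - 1)) with hL
  obtain ⟨hq0, hqK⟩ := hq
  -- `(R + E)² ≤ (1 + η) R² + (1 + 1/η) E²`
  have hstep : ∑ i, D i s ^ 2 ≤ (1 + η) * ∑ i, R i s ^ 2 + (1 + 1 / η) * (k * (δ * L) ^ 2) := by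
    have e1 : ∀ i, D i s ^ 2 ≤ (1 + η) * R i s ^ 2 + (1 + 1 / η) * (δ * L) ^ 2 := by
      intro i
      set E := D i s - R i s with hE
      have e2 : D i s = R i s + E := by rw [hE]; ring
      have e3 : E ^ 2 ≤ (δ * L) ^ 2 := sq_le_sq' (abs_le.mp (h5 i)).1 (abs_le.mp (h5 i)).2
      have e4 : 2 * (R i s * E) ≤ η * R i s ^ 2 + 1 / η * E ^ 2 := by
        have e5 : 0 ≤ 1 / η * (η * R i s - E) ^ 2 := by positivity
        have e6 : 1 / η * (η * R i s - E) ^ 2 =
            η * R i s ^ 2 - 2 * (R i s * E) + 1 / η * E ^ 2 := by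
          field_simp
          ring
        linarith
      have e7 : (1 + 1 / η) * E ^ 2 ≤ (1 + 1 / η) * (δ * L) ^ 2 :=
        mul_le_mul_of_nonneg_left e3 (by positivity)
      rw [e2]
      nlinarith
    refine (Finset.sum_le_sum fun i _ => e1 i).trans (le_of_eq ?_)
    rw [Finset.sum_add_distrib, ← Finset.mul_sum, Finset.sum_const, Finset.card_univ,
      nsmul_eq_mul, hk]
    ring
  refine hstep.trans ?_
  have h9 : (1 + η) * ∑ i, R i s ^ 2 ≤ (1 + η) * ((1 + η) * Q s * L) :=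
    mul_le_mul_of_nonneg_left h4 (by positivity)
  have h10 : (1 + η) * ((1 + η) * Q s * L) ≤ Q s * L + 3 * η * (K * L) * L := by
    have e1 : (1 + η) * ((1 + η) * Q s * L) = Q s * L + (2 * η + η ^ 2) * (Q s * L) := by ring
    have e2 : 2 * η + η ^ 2 ≤ 3 * η := by nlinarith
    have e3 : 0 ≤ Q s * L := by positivity
    have e4 : Q s * L ≤ K * L * L := mul_le_mul_of_nonneg_right hqK h8
    have e5 : (2 * η + η ^ 2) * (Q s * L) ≤ 3 * η * (K * L * L) :=
      mul_le_mul e2 e4 e3 (by positivity)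
    rw [e1]
    nlinarith
  have h11 : (1 + 1 / η) * (k * (δ * L) ^ 2) ≤ ε / 4 * (L * L) := by
    have e1 : 1 + 1 / η ≤ 2 / η := by
      rw [le_div_iff₀ hη0]
      have : (1 + 1 / η) * η = η + 1 := by field_simp
      linarith
    have e2 : (1 + 1 / η) * (k * (δ * L) ^ 2) ≤ 2 / η * (k * (δ * L) ^ 2) :=
      mul_le_mul_of_nonneg_right e1 (by positivity)
    have e3 : 2 / η * (k * (δ * L) ^ 2) = 2 / η * (k * δ * δ) * (L * L) := by ring
    have e4 : 2 / η * (k * δ * δ) ≤ ε / 4 := by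
      have e5 : k * δ * δ ≤ ε * η / 8 := by
        have e6 : k * δ ≤ ε * η / 8 := by nlinarith
        have e7 : δ ≤ 1 := hδη.trans hη1
        have e8 : 0 ≤ k * δ := by positivity
        nlinarith
      have e9 : 2 / η * (k * δ * δ) ≤ 2 / η * (ε * η / 8) :=
        mul_le_mul_of_nonneg_left e5 (by positivity)
      have e10 : 2 / η * (ε * η / 8) = ε / 4 := by
        field_simp
        ring
      linarith
    rw [e3] at e2
    exact e2.trans (mul_le_mul_of_nonneg_right e4 (by positivity))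
  have h12 : Q s ≤ Q' s + ε / 4 * L := by
    have e1 := (abs_le.mp h6).1
    rw [div_le_iff₀ hε] at h7
    have e2 := le_abs_self C
    linarith
  have h13 : Q s * L ≤ (Q' s + ε / 4 * L) * L := mul_le_mul_of_nonneg_right h12 h8
  have h14 : 3 * η * (K * L) * L ≤ 3 * (ε / 8) * (L * L) := by
    have e1 : η * K ≤ ε / 8 := by nlinarith
    have e2 : 0 ≤ L * L := by positivity
    have e3 := mul_le_mul_of_nonneg_right e1 e2
    have e4 : 3 * η * (K * L) * L = 3 * (η * K * (L * L)) := by ring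
    rw [e4]
    linarith
  have h15 : 0 ≤ L * L := by positivity
  have h16 : (Q' s + ε / 4 * L) * L = Q' s * L + ε / 4 * (L * L) := by ring
  have h17 : (Q' s + ε * L) * L = Q' s * L + ε * (L * L) := by ring
  have h18 : ε * (L * L) = 8 * (ε / 8 * (L * L)) := by ring
  have h19 : 0 ≤ ε / 8 * (L * L) := by positivity
  rw [h17, h18]
  rw [h16] at h13
  have h20 : ε / 4 * (L * L) = 2 * (ε / 8 * (L * L)) := by ring
  have h21 : 3 * (ε / 8) * (L * L) = 3 * (ε / 8 * (L * L)) := by ring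
  rw [h20] at h11 h13
  rw [h21] at h14
  linarith

end TatePole.AT
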