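import Mathlib
import Pool.Agent.Lib.MP_058a58_ag.HK.Stm

/-!
# Twists by Hecke characters: extensions `F / F₀` and conjugate characters
-/

open Polynomial Filter Topology NumberField

namespace TatePole

section
variable {F : Type*} [Field F] [NumberField F]

/-- The conjugate of `Ψ` by the automorphism `a`. -/
noncomputable def cj (a : F ≃+* F) (Ψ : Ideal (𝓞 F) → ℂ) (I : Ideal (𝓞 F)) : ℂ :=
  Ψ (I.comap (RingOfIntegers.mapRingEquiv a))

lemma GF_le_res (F₀ : Type*) [Field F₀] [NumberField F₀] [Algebra F₀ F] (e : F →ₐ[ℚ] QBar) :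
    GF e ≤ GF (resEmb F₀ F e) := fun _ hg x => hg (algebraMap F₀ F x)

/-- The restriction to `GF e` of a representation of the Galois group of the smaller field. -/
noncomputable def resF {F₀ : Type*} [Field F₀] [NumberField F₀] [Algebra F₀ F]
    {e : F →ₐ[ℚ] QBar} {k W : Type*} [Field k] [AddCommGroup W] [Module k W]
    (ρ : Representation k (GF (resEmb F₀ F e)) W) : Representation k (GF e) W :=
  ρ.comp (Subgroup.inclusion (GF_le_res F₀ e))

end

/-! ### Auxiliary results -/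

section
variable {F : Type*} [Field F] [NumberField F]

/-- precomposition of an embedding with an automorphism -/
noncomputable def pc (a : F ≃+* F) (ψ : F →ₐ[ℚ] QBar) : F →ₐ[ℚ] QBar :=
  ψ.comp (a : F →+* F).toRatAlgHom

lemma pc_apply (a : F ≃+* F) (ψ : F →ₐ[ℚ] QBar) (y : F) : pc a ψ y = ψ (a y) := rfl

/-- precomposition is a bijection -/
noncomputable def pcE (a : F ≃+* F) : (F →ₐ[ℚ] QBar) ≃ (F →ₐ[ℚ] QBar) where
  toFun := pc a
  invFun := pc a.symm
  left_inv ψ := by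
    ext y
    rw [pc_apply, pc_apply, RingEquiv.apply_symm_apply]
  right_inv ψ := by
    ext y
    rw [pc_apply, pc_apply, RingEquiv.symm_apply_apply]

lemma pcE_apply (a : F ≃+* F) (ψ : F →ₐ[ℚ] QBar) : pcE a ψ = pc a ψ := rfl

lemma smul_pc (g : GQ) (a : F ≃+* F) (ψ : F →ₐ[ℚ] QBar) : g • pc a ψ = pc a (g • ψ) := rfl

lemma smul_pc_iff (g : GQ) (a : F ≃+* F) (ψ : F →ₐ[ℚ] QBar) :
    g • pc a ψ = pc a ψ ↔ g • ψ = ψ := by
  rw [smul_pc]
  exact (pcE a).injective.eq_iff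

lemma EPsi_pc (𝔓 : ℕ → Ideal ZBar) (Ψ : Ideal (𝓞 F) → ℂ) (a : F ≃+* F) (ψ : F →ₐ[ℚ] QBar)
    (p : ℕ) : EPsi 𝔓 Ψ (pc a ψ) p = EPsi 𝔓 (cj a Ψ) ψ p := by
  unfold EPsi cj
  congr 1

omit [NumberField F] in
lemma isCoprime_map (f : 𝓞 F ≃+* 𝓞 F) {I : Ideal (𝓞 F)} {M : ℕ}
    (h : IsCoprime I (Ideal.span {(M : 𝓞 F)})) :
    IsCoprime (I.map f) (Ideal.span {(M : 𝓞 F)}) := by
  have h1 := h.map (Ideal.mapHom (f : 𝓞 F →+* 𝓞 F))
  have h2 : (Ideal.mapHom (f : 𝓞 F →+* 𝓞 F)) (Ideal.span {(M : 𝓞 F)})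
      = Ideal.span {(M : 𝓞 F)} := by
    show Ideal.map (f : 𝓞 F →+* 𝓞 F) _ = _
    rw [Ideal.map_span, Set.image_singleton, map_natCast]
  rw [h2] at h1
  exact h1

theorem cj_hecke (a : F ≃+* F) {Ψ : Ideal (𝓞 F) → ℂ} (h : IsHecke Ψ) : IsHecke (cj a Ψ) := by
  obtain ⟨M, k, τ, h⟩ := h
  set f := RingOfIntegers.mapRingEquiv a with hf
  have hcm : ∀ I : Ideal (𝓞 F), cj a Ψ I = Ψ (I.map f.symm) := fun I => by
    unfold cj
    rw [Ideal.map_symm]
  refine ⟨M, fun φ => k (φ.comp (a : F →+* F)), fun φ => τ (φ.comp (a : F →+* F)), h.pos, ?_, ?_,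
    ?_, ?_, ?_⟩
  · rw [hcm, Ideal.one_eq_top, Ideal.map_top, ← Ideal.one_eq_top, h.one]
  · intro I J
    rw [hcm, hcm, hcm, Ideal.map_mul, h.mul]
  · intro I hI hIM
    rw [hcm]
    refine h.norm _ ?_ (isCoprime_map f.symm hIM)
    rw [Ne, Ideal.map_eq_bot_iff_of_injective f.symm.injective]
    exact hI
  · intro I hI
    rw [hcm]
    refine h.zero _ ?_
    rcases hI with hI | hI
    · left
      rw [hI, Ideal.map_bot]
    · right
      intro h1
      apply hI
      have h2 := isCoprime_map f h1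
      rwa [Ideal.map_symm, Ideal.map_comap_of_surjective _ f.surjective] at h2
  · intro x hx hM
    rw [hcm, Ideal.map_span, Set.image_singleton]
    have h1 : f.symm x ≠ 0 := by
      rw [Ne, EmbeddingLike.map_eq_zero_iff]
      exact hx
    have h2 : (M : 𝓞 F) ∣ f.symm x - 1 := by
      obtain ⟨y, hy⟩ := hM
      refine ⟨f.symm y, ?_⟩
      have h3 := congrArg f.symm hy
      rwa [map_sub, map_one, map_mul, map_natCast] at h3
    have h3 := h.ray (f.symm x) h1 h2
    refine h3.trans ?_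
    unfold infVal
    let E : (F →+* ℂ) ≃ (F →+* ℂ) :=
      { toFun := fun φ => φ.comp (a : F →+* F)
        invFun := fun φ => φ.comp (a.symm : F →+* F)
        left_inv := fun φ => by
          ext y
          show φ (a (a.symm y)) = φ y
          rw [RingEquiv.apply_symm_apply]
        right_inv := fun φ => by
          ext y
          show φ (a.symm (a y)) = φ y
          rw [RingEquiv.symm_apply_apply] }
    rw [← E.prod_comp]
    refine Finset.prod_congr rfl fun φ _ => ?_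
    have h4 : (E φ) ((f.symm x : 𝓞 F) : F) = φ (x : F) := by
      show φ (a ((f.symm x : 𝓞 F) : F)) = φ (x : F)
      congr 1
      exact a.apply_symm_apply (x : F)
    rw [h4]
    rfl

lemma exists_pc (F₀ : Type*) [Field F₀] [NumberField F₀] [Algebra F₀ F] (e : F →ₐ[ℚ] QBar)
    (a : F ≃ₐ[F₀] F) : ∃ t : GQ, t ∈ GF (resEmb F₀ F e) ∧ t • e = pc (a : F ≃+* F) e := by
  obtain ⟨t, ht⟩ := MulAction.exists_smul_eq GQ e (pc (a : F ≃+* F) e)
  refine ⟨t, fun y => ?_, ht⟩
  have h1 : (t • e) (algebraMap F₀ F y) = pc (a : F ≃+* F) e (algebraMap F₀ F y) := by rw [ht]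
  rw [pc_apply] at h1
  have h2 : ((a : F ≃+* F)) (algebraMap F₀ F y) = algebraMap F₀ F y := a.commutes y
  rw [h2] at h1
  exact h1

end

end TatePole
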