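import Mathlib
import Pool.Agent.Lib.MP_058a58_ag.HK.StmC
import Pool.Agent.Lib.MP_058a58_ag.HK.StmRS

/-!
# Twists by Hecke characters of number fields: the definitions in a compact form
-/

open Polynomial Filter Topology NumberField
open scoped TensorProduct

namespace TateHecke

open TatePole

section
variable {F : Type*} [Field F] [NumberField F]

/-- The embeddings of `F` into `QBar`. -/
abbrev Emb (F : Type*) [Field F] [NumberField F] : Type _ := F →ₐ[ℚ] QBar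

/-- The prime ideals of the ring of all algebraic integers are of this type. -/
abbrev IdZ : Type := Ideal ZBar

/-- The absolute Galois group of `F`, as a type. -/
abbrev Gal (e : Emb F) : Type := GF e

noncomputable instance monGal (e : Emb F) : Monoid (Gal e) := inferInstance

/-- The representations over `k` of the absolute Galois group of `F` on the space `W`. -/
abbrev RepG (k W : Type*) [Field k] [AddCommGroup W] [Module k W] (e : Emb F) : Type _ :=
  Representation k (Gal e) W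

/-- An element of the absolute Galois group of `F`, as an automorphism of `QBar`. -/
noncomputable def toGQ {e : Emb F} (g : Gal e) : GQ := g

/-- The action of the absolute Galois group of `F` on `QBar`. -/
noncomputable def act {e : Emb F} (g : Gal e) (x : QBar) : QBar := toGQ g x

variable {e : Emb F} {k W : Type*} [Field k] [AddCommGroup W] [Module k W]

/-- The operator of `g`. -/
noncomputable def op (ρ : RepG k W e) (g : Gal e) : W →ₗ[k] W := ρ g

/-- The operator of `g⁻¹`. -/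
noncomputable def opI (ρ : RepG k W e) (g : Gal e) : W →ₗ[k] W := ρ g⁻¹

/-- The inclusion of the Galois group of the larger field into the one of the smaller field. -/
noncomputable def incl (F₀ : Type*) [Field F₀] [NumberField F₀] [Algebra F₀ F] (e : Emb F) :
    Gal e →* Gal (resEmb F₀ F e) := Subgroup.inclusion (GF_le_res F₀ e)

/-- The restriction of a representation of the Galois group of the smaller field. -/
noncomputable def resR {F₀ : Type*} [Field F₀] [NumberField F₀] [Algebra F₀ F]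
    (ρ : RepG k W (resEmb F₀ F e)) : RepG k W e := MonoidHom.comp ρ (incl F₀ e)

/-- The subspace `B` is stable. -/
def Stable (ρ : RepG k W e) (B : Submodule k W) : Prop := ∀ g : Gal e, ∀ x ∈ B, op ρ g x ∈ B

lemma Stable.inv {ρ : RepG k W e} {B : Submodule k W} (h : Stable ρ B) (g : Gal e) :
    ∀ x ∈ B, opI ρ g x ∈ B := h g⁻¹

/-- The trace of `g⁻¹` on the stable subspace `B`. -/
noncomputable def trB (ρ : RepG k W e) (B : Submodule k W) (h : Stable ρ B) (g : Gal e) : k :=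
  LinearMap.trace k B ((opI ρ g).restrict (h.inv g))

/-- The representation `T ⊗ T^∨`, where `T = W / B` is the quotient of the representation `W` by
the stable subspace `B`. -/
noncomputable def selfR (ρ : RepG k W e) (B : Submodule k W) (h : Stable ρ B) :
    RepG k ((W ⧸ B) ⊗[k] Module.Dual k (W ⧸ B)) e := selfG ρ B h

/-- The trivial representation. -/
noncomputable def trivR (e : Emb F) : RepG ℂ ℂ e := Representation.trivial ℂ (Gal e) ℂ

/-- `α` is trivial on all elements that fix a certain finite set of algebraic numbers. -/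
def FinIm {V : Type*} [AddCommGroup V] [Module ℂ V] (α : RepG ℂ V e) : Prop :=
  ∃ A : Finset QBar, ∀ g : Gal e, (∀ x ∈ A, act g x = x) → op α g = 1

/-- The dimension of the invariants of `β ⊗ α`. -/
noncomputable def mult {U V : Type*} [AddCommGroup U] [Module ℂ U] [AddCommGroup V] [Module ℂ V]
    (β : RepG ℂ U e) (α : RepG ℂ V e) : ℕ :=
  Module.finrank ℂ (Representation.tprod β α).invariants

/-- The representation is unramified at `𝔭`: the inertia groups act trivially. -/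
def Unram (ρ : RepG k W e) (𝔭 : Ideal (𝓞 F)) : Prop :=
  ∀ 𝔓 : IdZ, LiesOver e 𝔓 𝔭 → ∀ g : Gal e, IsInertia 𝔓 (toGQ g) → op ρ g = 1

end

section
variable {F : Type*} [Field F] [NumberField F] {e : Emb F} {ℓ : ℕ} [Fact ℓ.Prime]
  {W : Type*} [AddCommGroup W] [Module ℚ_[ℓ] W] {V : Type*} [AddCommGroup V] [Module ℂ V]
  [Algebra ℚ_[ℓ] ℂ]

/-- The operator of `g⁻¹` on the tensor product `(ℂ ⊗ W) ⊗ V`. -/
noncomputable def tOp (ρ : RepG ℚ_[ℓ] W e) (α : RepG ℂ V e) (g : Gal e) :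
    (ℂ ⊗[ℚ_[ℓ]] W) ⊗[ℂ] V →ₗ[ℂ] (ℂ ⊗[ℚ_[ℓ]] W) ⊗[ℂ] V :=
  TensorProduct.map ((opI ρ g).baseChange ℂ) (opI α g)

/-- `W` is unramified at `𝔭`, and pure of weight `w`: all eigenvalues of the geometric Frobenius
elements at `𝔭` have absolute value `N(𝔭) ^ (w / 2)`. -/
structure PureAt [FiniteDimensional ℚ_[ℓ] W] (ρ : RepG ℚ_[ℓ] W e) (w : ℤ)
    (𝔭 : Ideal (𝓞 F)) : Prop where
  unramified : Unram ρ 𝔭
  pure : ∀ g : Gal e, IsFrobAt e 𝔭 g → ∀ z : ℂ,
    ((opI ρ g).charpoly.map (algebraMap ℚ_[ℓ] ℂ)).eval z = 0 →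
      ‖z‖ = (Ideal.absNorm 𝔭 : ℝ) ^ ((w : ℝ) / 2)

/-- Both `W` and `V` are unramified at `𝔭`, and `R` is the local factor of `W ⊗ V ⊗ Ψ` at `𝔭`,
normalised to weight `0`: `det (1 - Ψ(𝔭) N(𝔭) ^ (-w/2) T Frob_𝔭 | W ⊗ V)`. -/
structure LocFactor [FiniteDimensional ℚ_[ℓ] W] [FiniteDimensional ℂ V]
    (ρ : RepG ℚ_[ℓ] W e) (w : ℤ) (α : RepG ℂ V e)
    (Ψ : Ideal (𝓞 F) → ℂ) (𝔭 : Ideal (𝓞 F)) (R : ℂ[X]) : Prop where
  unramified : Unram ρ 𝔭
  unramified' : Unram α 𝔭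
  eq_det : ∀ g : Gal e, IsFrobAt e 𝔭 g →
    R = ((tOp ρ α g).charpoly.reverse).comp
      (C (Ψ 𝔭 * (((Ideal.absNorm 𝔭 : ℝ) ^ (-(w : ℝ) / 2) : ℝ) : ℂ)) * X)

/-- The `R 𝔭` are, for all primes `𝔭` outside the finite set `S`, the local factors of
`W ⊗ V ⊗ Ψ`, and `R 𝔭` does not vanish at `N(𝔭) ^ (-1)`, for any `𝔭`. -/
def Factors [FiniteDimensional ℚ_[ℓ] W] [FiniteDimensional ℂ V]
    (ρ : RepG ℚ_[ℓ] W e) (w : ℤ) (α : RepG ℂ V e)
    (Ψ : Ideal (𝓞 F) → ℂ) (S : Finset (Ideal (𝓞 F))) (R : Ideal (𝓞 F) → ℂ[X]) : Prop :=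
  (∀ 𝔭 : Ideal (𝓞 F), 𝔭.IsPrime → 𝔭 ≠ ⊥ → 𝔭 ∉ S → LocFactor ρ w α Ψ 𝔭 (R 𝔭)) ∧
  ∀ 𝔭 : Ideal (𝓞 F), 𝔭.IsPrime → 𝔭 ≠ ⊥ → (R 𝔭).eval ((Ideal.absNorm 𝔭 : ℂ)⁻¹) ≠ 0

/-- The `Q 𝔭` are, outside `S`, the local factors of `T ⊗ T^∨`, `T = W / B`. -/
def SelfFactors [FiniteDimensional ℚ_[ℓ] W] (ρ : RepG ℚ_[ℓ] W e) (B : Submodule ℚ_[ℓ] W)
    (h : Stable ρ B) (S : Finset (Ideal (𝓞 F))) (Q : Ideal (𝓞 F) → ℂ[X]) : Prop :=
  Factors (selfR ρ B h) 0 (trivR e) (oneH F) S Q

/-- The potentially abelian part of `W`: a stable subspace `B` whose Frobenius traces are those of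
the direct sum of the `β l ⊗ (Φ l)⁻¹` (in weight `w`), for representations `β l` with finite image
and unitary Hecke characters `Φ l`. -/
structure AbPart [FiniteDimensional ℚ_[ℓ] W] (ρ : RepG ℚ_[ℓ] W e) (w : ℤ)
    (S : Finset (Ideal (𝓞 F))) (B : Submodule ℚ_[ℓ] W) {L : Type*} [Fintype L]
    (Φ : L → Ideal (𝓞 F) → ℂ) {U : L → Type*} [∀ l, AddCommGroup (U l)] [∀ l, Module ℂ (U l)]
    (β : ∀ l, RepG ℂ (U l) e) : Prop where
  stable : Stable ρ B
  hecke : ∀ l, IsHecke (Φ l)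
  finite : ∀ l, FinIm (β l)
  trace : ∀ 𝔭 : Ideal (𝓞 F), 𝔭.IsPrime → 𝔭 ≠ ⊥ → 𝔭 ∉ S → ∀ g : Gal e, IsFrobAt e 𝔭 g →
    algebraMap ℚ_[ℓ] ℂ (trB ρ B stable g) =
      (((Ideal.absNorm 𝔭 : ℝ) ^ ((w : ℝ) / 2) : ℝ) : ℂ) *
        ∑ l, (starRingEnd ℂ) (Φ l 𝔭) * LinearMap.trace ℂ (U l) (opI (β l) g)

open Classical in
/-- The multiplicity with which `(Ψ, α)` is dual to a constituent of the potentially abelian part. -/
noncomputable def rk {L : Type*} [Fintype L] (Φ : L → Ideal (𝓞 F) → ℂ) {U : L → Type*}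
    [∀ l, AddCommGroup (U l)] [∀ l, Module ℂ (U l)] (β : ∀ l, RepG ℂ (U l) e)
    (Ψ : Ideal (𝓞 F) → ℂ) (α : RepG ℂ V e) : ℕ :=
  ∑ l, if Φ l = Ψ then mult (β l) α else 0

end

end TateHecke
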