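import Mathlib
import Pool.Agent.Lib.MP_058a58_ag.HK.StmH

/-!
# The compact definitions agree with the ones used in the proofs
-/

open Polynomial Filter Topology NumberField
open scoped TensorProduct

namespace TateHecke

open TatePole

section
variable {F : Type*} [Field F] [NumberField F] {e : Emb F} {k W : Type*} [Field k]
  [AddCommGroup W] [Module k W]

lemma resR_eq {F₀ : Type*} [Field F₀] [NumberField F₀] [Algebra F₀ F]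
    (ρ : RepG k W (resEmb F₀ F e)) : resR ρ = TatePole.resF ρ := rfl

lemma selfR_eq (ρ : RepG k W e) (B : Submodule k W) (h : Stable ρ B) :
    selfR ρ B h = selfG ρ B h := rfl

lemma finIm_iff {V : Type*} [AddCommGroup V] [Module ℂ V] (α : RepG ℂ V e) :
    FinIm α ↔ TatePole.IsFin α := Iff.rfl

end

section
variable {F : Type*} [Field F] [NumberField F] {e : Emb F} {ℓ : ℕ} [Fact ℓ.Prime]
  {W : Type*} [AddCommGroup W] [Module ℚ_[ℓ] W] {V : Type*} [AddCommGroup V] [Module ℂ V]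
  [Algebra ℚ_[ℓ] ℂ]

lemma pureAt_iff [FiniteDimensional ℚ_[ℓ] W] (ρ : RepG ℚ_[ℓ] W e) (w : ℤ)
    (𝔭 : Ideal (𝓞 F)) : PureAt ρ w 𝔭 ↔ TatePole.IsPureAt ρ w 𝔭 :=
  ⟨fun h => ⟨h.unramified, h.pure⟩, fun h => ⟨h.unramified, h.pure⟩⟩

lemma locFactor_iff [FiniteDimensional ℚ_[ℓ] W] [FiniteDimensional ℂ V]
    (ρ : RepG ℚ_[ℓ] W e) (w : ℤ) (α : RepG ℂ V e)
    (Ψ : Ideal (𝓞 F) → ℂ) (𝔭 : Ideal (𝓞 F)) (R : ℂ[X]) :
    LocFactor ρ w α Ψ 𝔭 R ↔ TatePole.IsHeckeFactor ρ w α Ψ 𝔭 R :=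
  ⟨fun h => ⟨fun 𝔓 h1 g hg => ⟨h.unramified 𝔓 h1 g hg, h.unramified' 𝔓 h1 g hg⟩, h.eq_det⟩,
    fun h => ⟨fun 𝔓 h1 g hg => (h.unramified 𝔓 h1 g hg).1,
      fun 𝔓 h1 g hg => (h.unramified 𝔓 h1 g hg).2, h.eq_det⟩⟩

lemma factors_iff [FiniteDimensional ℚ_[ℓ] W] [FiniteDimensional ℂ V]
    (ρ : RepG ℚ_[ℓ] W e) (w : ℤ) (α : RepG ℂ V e)
    (Ψ : Ideal (𝓞 F) → ℂ) (S : Finset (Ideal (𝓞 F))) (R : Ideal (𝓞 F) → ℂ[X]) :
    Factors ρ w α Ψ S R ↔ TatePole.HeckeFactors ρ w α Ψ S R :=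
  and_congr (forall_congr' fun 𝔭 => forall_congr' fun _ => forall_congr' fun _ =>
    forall_congr' fun _ => locFactor_iff ρ w α Ψ 𝔭 (R 𝔭)) Iff.rfl

lemma abPart_iff [FiniteDimensional ℚ_[ℓ] W] (ρ : RepG ℚ_[ℓ] W e) (w : ℤ)
    (S : Finset (Ideal (𝓞 F))) (B : Submodule ℚ_[ℓ] W) {L : Type*} [Fintype L]
    (Φ : L → Ideal (𝓞 F) → ℂ) {U : L → Type*} [∀ l, AddCommGroup (U l)] [∀ l, Module ℂ (U l)]
    (β : ∀ l, RepG ℂ (U l) e) :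
    AbPart ρ w S B Φ β ↔ TatePole.AbelianPart ρ w S B Φ β :=
  ⟨fun h => ⟨h.stable, h.hecke, h.finite, h.trace⟩,
    fun h => ⟨h.stable, h.hecke, h.finite, h.trace⟩⟩

lemma rk_eq {L : Type*} [Fintype L] (Φ : L → Ideal (𝓞 F) → ℂ) {U : L → Type*}
    [∀ l, AddCommGroup (U l)] [∀ l, Module ℂ (U l)] (β : ∀ l, RepG ℂ (U l) e)
    (Ψ : Ideal (𝓞 F) → ℂ) (α : RepG ℂ V e) :
    rk Φ β Ψ α = TatePole.abRank Φ β Ψ α := rfl

end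

end TateHecke
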