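import Mathlib
import Pool.Agent.Lib.MP_058a58_ag.HK.StmH
import Pool.Agent.Lib.MP_058a58_ag.HK.StmW

/-!
# Twists by representations of the Weil group: the definitions in a compact form
-/

open Polynomial Filter Topology NumberField
open scoped TensorProduct

namespace TateHecke

open TatePole

section
variable {E F : Type*} [Field E] [NumberField E] [Field F] [NumberField F]

/-- `e₀ E ⊆ e F`: the absolute Galois group of `F` is contained in the one of `E`. -/
def Above (e : Emb F) (e₀ : Emb E) : Prop := GF e ≤ GF e₀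

/-- The composite of the embedding `e` with the automorphism `g` of `QBar`. -/
noncomputable def mv (g : GQ) (e : Emb F) : Emb F := g • e

/-- The prime ideal of `F` under `𝔓`, for the embedding `e`. -/
noncomputable def under (𝔓 : IdZ) (e : Emb F) : Ideal (𝓞 F) := 𝔓.comap (intMap e)

/-- The inclusion of the absolute Galois groups. -/
noncomputable def inclW {e : Emb F} {e₀ : Emb E} (h : Above e e₀) : Gal e →* Gal e₀ :=
  Subgroup.inclusion h

/-- The restriction of a representation to the Galois group of the larger field. -/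
noncomputable def resW {k W : Type*} [Field k] [AddCommGroup W] [Module k W]
    {e : Emb F} {e₀ : Emb E} (h : Above e e₀) (ρ : RepG k W e₀) : RepG k W e :=
  MonoidHom.comp ρ (inclW h)

lemma Stable.res {k W : Type*} [Field k] [AddCommGroup W] [Module k W]
    {e : Emb F} {e₀ : Emb E} {ρ : RepG k W e₀} {B : Submodule k W} (hB : Stable ρ B)
    (h : Above e e₀) : Stable (resW h ρ) B := fun g => hB (inclW h g)

/-- The cosets of the absolute Galois group of `F` in the one of `E`. -/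
def Cosets (e₀ : Emb E) (e : Emb F) : Type := GF e₀ ⧸ (GF e).subgroupOf (GF e₀)

/-- A representative of a coset. -/
noncomputable def repr {e₀ : Emb E} {e : Emb F} (y : Cosets e₀ e) : GQ :=
  ((Quotient.out y : GF e₀) : GQ)

/-- `y⁻¹ g y`, for a representative `y` of a coset. -/
noncomputable def cnj {e₀ : Emb E} {e : Emb F} (y : Cosets e₀ e) (g : GQ) : GQ :=
  (repr y)⁻¹ * g * repr y

/-- The trace at `g` (a Frobenius element for the prime `𝔓` of `ZBar`) of the representation of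
the Weil group of `E` that is induced from the one of the Weil group of `F` with the character
`f ⊗ Ψ`: the sum over the cosets `y` of `GF e` in `GF e₀` with `y⁻¹ g y ∈ GF e` of
`f (y⁻¹ g y) Ψ(𝔭_y)`, `𝔭_y` the prime of `F` under `𝔓` for the embedding `y • e`. -/
noncomputable def indW (e₀ : Emb E) (e : Emb F) (f : Gal e → ℂ) (Ψ : Ideal (𝓞 F) → ℂ)
    (𝔓 : IdZ) (g : GQ) : ℂ :=
  ∑ᶠ y : Cosets e₀ e, extG e f (cnj y g) * Ψ (under 𝔓 (mv (repr y) e))

/-- The trace of `g⁻¹` on the representation induced from `β ⊗ Ψ⁻¹`. -/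
noncomputable def indTrI {U : Type*} [AddCommGroup U] [Module ℂ U] (e₀ : Emb E) {e : Emb F}
    (β : RepG ℂ U e) (Ψ : Ideal (𝓞 F) → ℂ) (𝔓 : IdZ) (g : Gal e₀) : ℂ :=
  indW e₀ e (fun h => LinearMap.trace ℂ U (opI β h)) (fun I => (starRingEnd ℂ) (Ψ I)) 𝔓 (toGQ g)

/-- The number of automorphisms of `K` over `E`: the index of the absolute Galois group of `K` in
its normalizer in the one of `E`. -/
noncomputable def numAut {K : Type*} [Field K] [NumberField K] (eK : Emb K) (e₀ : Emb E) : ℕ :=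
  (GF eK).relIndex (Subgroup.normalizer (GF eK) ⊓ GF e₀)

/-- The infinity types `(k, τ)` at `φ ∘ e` and `(k', τ')` at `φ ∘ e'` are different, for some
embedding `φ` of `QBar` into `ℂ`. -/
def DiffTy {F' : Type*} [Field F'] [NumberField F'] (e : Emb F) (k : (F →+* ℂ) → ℤ)
    (τ : (F →+* ℂ) → ℝ) (e' : Emb F') (k' : (F' →+* ℂ) → ℤ) (τ' : (F' →+* ℂ) → ℝ) : Prop :=
  ∃ φ : QBar →+* ℂ, infTy k τ (φ.comp (e : F →+* QBar)) ≠ infTy k' τ' (φ.comp (e' : F' →+* QBar))

end

section
variable {E : Type*} [Field E] [NumberField E] {e₀ : Emb E} {ℓ : ℕ} [Fact ℓ.Prime]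
  {W : Type*} [AddCommGroup W] [Module ℚ_[ℓ] W] [FiniteDimensional ℚ_[ℓ] W] [Algebra ℚ_[ℓ] ℂ]

/-- The potentially abelian part of `W`: a stable subspace `B` whose Frobenius traces are those of
the direct sum, over `t`, of the representations of the Weil group of `E` (in weight `w`) induced
from `β t ⊗ (Ψ t)⁻¹`. -/
structure WPart (ρ : RepG ℚ_[ℓ] W e₀) (w : ℤ) (S : Finset (Ideal (𝓞 E)))
    (B : Submodule ℚ_[ℓ] W) {T : Type*} [Fintype T] (F : T → Type*) [∀ t, Field (F t)]
    [∀ t, NumberField (F t)] (e : ∀ t, Emb (F t)) (Ψ : ∀ t, Ideal (𝓞 (F t)) → ℂ)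
    {U : T → Type*} [∀ t, AddCommGroup (U t)] [∀ t, Module ℂ (U t)]
    (β : ∀ t, RepG ℂ (U t) (e t)) : Prop where
  stable : Stable ρ B
  finite : ∀ t, FinIm (β t)
  trace : ∀ 𝔭 : Ideal (𝓞 E), 𝔭.IsPrime → 𝔭 ≠ ⊥ → 𝔭 ∉ S → ∀ 𝔓 : IdZ, LiesOver e₀ 𝔓 𝔭 →
    ∀ g : Gal e₀, IsArithFrob (Ideal.absNorm 𝔭) 𝔓 (toGQ g) →
    algebraMap ℚ_[ℓ] ℂ (trB ρ B stable g) =
      (((Ideal.absNorm 𝔭 : ℝ) ^ ((w : ℝ) / 2) : ℝ) : ℂ) * ∑ t, indTrI e₀ (β t) (Ψ t) 𝔓 g

end

end TateHecke
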