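import Mathlib
import Pool.Agent.Lib.MP_058a58_ag.HK.StmHW
import Pool.Agent.Lib.MP_058a58_ag.HK.BridgeH

/-!
# The compact definitions of the Weil form agree with the ones used in the proofs
-/

open Polynomial Filter Topology NumberField
open scoped TensorProduct

namespace TateHecke

open TatePole

section
variable {E F : Type*} [Field E] [NumberField E] [Field F] [NumberField F]

lemma resW_eq {k W : Type*} [Field k] [AddCommGroup W] [Module k W]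
    {e : Emb F} {e₀ : Emb E} (h : Above e e₀) (ρ : RepG k W e₀) :
    resW h ρ = TatePole.resG (e₀ := e₀) (e := e) h ρ := rfl

lemma indW_eq (e₀ : Emb E) (e : Emb F) (f : Gal e → ℂ) (Ψ : Ideal (𝓞 F) → ℂ)
    (𝔓 : IdZ) (g : GQ) : indW e₀ e f Ψ 𝔓 g = TatePole.indTr e₀ e f Ψ 𝔓 g := rfl

end

section
variable {E : Type*} [Field E] [NumberField E] {e₀ : Emb E} {ℓ : ℕ} [Fact ℓ.Prime]
  {W : Type*} [AddCommGroup W] [Module ℚ_[ℓ] W] [FiniteDimensional ℚ_[ℓ] W] [Algebra ℚ_[ℓ] ℂ]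

lemma wPart_iff (ρ : RepG ℚ_[ℓ] W e₀) (w : ℤ) (S : Finset (Ideal (𝓞 E)))
    (B : Submodule ℚ_[ℓ] W) {T : Type*} [Fintype T] (F : T → Type*) [∀ t, Field (F t)]
    [∀ t, NumberField (F t)] (e : ∀ t, Emb (F t)) (Ψ : ∀ t, Ideal (𝓞 (F t)) → ℂ)
    {U : T → Type*} [∀ t, AddCommGroup (U t)] [∀ t, Module ℂ (U t)]
    (β : ∀ t, RepG ℂ (U t) (e t)) :
    WPart ρ w S B F e Ψ β ↔ TatePole.WeilPart ρ w S B F e Ψ β :=
  ⟨fun h => ⟨h.stable, h.finite, h.trace⟩, fun h => ⟨h.stable, h.finite, h.trace⟩⟩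

end

end TateHecke
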