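import Pool.Agent.Lib.MP_058a58_ag.HK.Defs

set_option autoImplicit false

/-!
# The Euler product of the Dirichlet series of a completely multiplicative function on the ideals
-/

namespace Pool.Agent.Lib.MP_058a58_ag.HK

open NumberField Filter Topology nonZeroDivisors TatePole.Ded
open Pool.Agent.Lib.MP_058a58_ag.Ch (summable_ideal log_one_sub)

variable {K : Type*} [Field K] [NumberField K]

/-- The term of the Dirichlet series. -/
noncomputable def gI (ψ : Ideal (𝓞 K) → ℂ) (s : ℝ) (I : Ideal (𝓞 K)) : ℂ :=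
  ψ I * (((Ideal.absNorm I : ℝ) ^ (-s) : ℝ) : ℂ)

lemma gI_mul {ψ : Ideal (𝓞 K) → ℂ} (hm : ∀ I J, ψ (I * J) = ψ I * ψ J) (s : ℝ)
    (I J : Ideal (𝓞 K)) : gI ψ s (I * J) = gI ψ s I * gI ψ s J := by
  unfold gI
  rw [hm, map_mul, Nat.cast_mul, Real.mul_rpow (Nat.cast_nonneg _) (Nat.cast_nonneg _),
    Complex.ofReal_mul]
  ring

lemma gI_norm_le {ψ : Ideal (𝓞 K) → ℂ} (hc : ∀ I, ‖ψ I‖ ≤ 1) (s : ℝ) (I : Ideal (𝓞 K)) :
    ‖gI ψ s I‖ ≤ (Ideal.absNorm I : ℝ) ^ (-s) := by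
  unfold gI
  rw [norm_mul, Complex.norm_real, Real.norm_of_nonneg (Real.rpow_nonneg (Nat.cast_nonneg _) _)]
  exact mul_le_of_le_one_left (Real.rpow_nonneg (Nat.cast_nonneg _) _) (hc _)

lemma summable_gI {ψ : Ideal (𝓞 K) → ℂ} (hc : ∀ I, ‖ψ I‖ ≤ 1) {s : ℝ} (hs : 1 < s) :
    Summable fun I : (Ideal (𝓞 K))⁰ => ‖gI ψ s (I : Ideal (𝓞 K))‖ :=
  Summable.of_nonneg_of_le (fun _ => norm_nonneg _) (fun I => gI_norm_le hc s _)
    (summable_ideal K hs)

open Classical in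
/-- The sum over the ideals not divisible by the primes in `S`. -/
noncomputable def LS (ψ : Ideal (𝓞 K) → ℂ) (s : ℝ) (S : Finset (Ideal (𝓞 K))) : ℂ :=
  ∑' I : (Ideal (𝓞 K))⁰, if (∀ P ∈ S, ¬ P ∣ (I : Ideal (𝓞 K))) then gI ψ s I else 0

lemma LS_empty (ψ : Ideal (𝓞 K) → ℂ) (s : ℝ) : LS ψ s (∅ : Finset (Ideal (𝓞 K))) = LI K ψ s := by
  unfold LS LI gI
  refine tsum_congr fun I => ?_
  rw [if_pos (by simp)]

lemma summable_ite {ψ : Ideal (𝓞 K) → ℂ} (hc : ∀ I, ‖ψ I‖ ≤ 1) {s : ℝ} (hs : 1 < s)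
    (q : (Ideal (𝓞 K))⁰ → Prop) [DecidablePred q] :
    Summable fun I : (Ideal (𝓞 K))⁰ => if q I then gI ψ s (I : Ideal (𝓞 K)) else 0 := by
  refine Summable.of_norm (Summable.of_nonneg_of_le (fun _ => norm_nonneg _) (fun I => ?_)
    (summable_gI hc hs))
  split_ifs
  · exact le_rfl
  · rw [norm_zero]; exact norm_nonneg _

open Classical in
lemma LS_insert {ψ : Ideal (𝓞 K) → ℂ} (hm : ∀ I J, ψ (I * J) = ψ I * ψ J)
    (hc : ∀ I, ‖ψ I‖ ≤ 1) {s : ℝ}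
    (hs : 1 < s) (S : Finset (Ideal (𝓞 K))) (hS : ∀ Q ∈ S, Q.IsPrime ∧ Q ≠ ⊥)
    (P : Ideal (𝓞 K)) (hP : P.IsPrime) (hP0 : P ≠ ⊥) (hPS : P ∉ S) :
    LS ψ s (insert P S) = (1 - gI ψ s P) * LS ψ s S := by
  set P' : (Ideal (𝓞 K))⁰ := ⟨P, mem_nonZeroDivisors_of_ne_zero hP0⟩ with hP'
  have hinj : Function.Injective fun I : (Ideal (𝓞 K))⁰ => P' * I := fun _ _ h =>
    mul_left_cancel h
  have hprime : Prime P := Ideal.prime_of_isPrime hP0 hP
  -- the multiples of `P`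
  have h1 : ∑' I : (Ideal (𝓞 K))⁰, (if (P ∣ (I : Ideal (𝓞 K)) ∧
      ∀ Q ∈ S, ¬ Q ∣ (I : Ideal (𝓞 K))) then gI ψ s I else 0) = gI ψ s P * LS ψ s S := by
    unfold LS
    rw [← tsum_mul_left, ← hinj.tsum_eq]
    · refine tsum_congr fun I => ?_
      have h2 : ((P' * I : (Ideal (𝓞 K))⁰) : Ideal (𝓞 K)) = P * I := rfl
      rw [h2, gI_mul hm]
      have h3 : (P ∣ P * (I : Ideal (𝓞 K)) ∧ ∀ Q ∈ S, ¬ Q ∣ P * (I : Ideal (𝓞 K))) ↔
          ∀ Q ∈ S, ¬ Q ∣ (I : Ideal (𝓞 K)) := by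
        constructor
        · rintro ⟨-, h⟩ Q hQ hd
          exact h Q hQ (hd.mul_left P)
        · intro h
          refine ⟨dvd_mul_right _ _, fun Q hQ hd => ?_⟩
          have hQp : Prime Q := Ideal.prime_of_isPrime (hS Q hQ).2 (hS Q hQ).1
          rcases hQp.dvd_or_dvd hd with h4 | h4
          · have h5 : Associated Q P := hQp.associated_of_dvd hprime h4
            rw [associated_iff_eq] at h5
            exact hPS (h5 ▸ hQ)
          · exact h Q hQ h4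
      by_cases h4 : ∀ Q ∈ S, ¬ Q ∣ (I : Ideal (𝓞 K))
      · rw [if_pos (h3.2 h4), if_pos h4]
      · rw [if_neg fun h => h4 (h3.1 h), if_neg h4, mul_zero]
    · intro I hI
      have h2 : P ∣ (I : Ideal (𝓞 K)) := by
        by_contra hcon
        apply hI
        exact if_neg fun h => hcon h.1
      obtain ⟨J, hJ⟩ := h2
      have hJ0 : J ≠ 0 := by
        rintro rfl
        rw [mul_zero] at hJ
        exact nonZeroDivisors.ne_zero I.2 hJ
      exact ⟨⟨J, mem_nonZeroDivisors_of_ne_zero hJ0⟩, Subtype.ext hJ.symm⟩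
  have h2 : LS ψ s S = LS ψ s (insert P S) + ∑' I : (Ideal (𝓞 K))⁰,
      (if (P ∣ (I : Ideal (𝓞 K)) ∧ ∀ Q ∈ S, ¬ Q ∣ (I : Ideal (𝓞 K))) then gI ψ s I else 0) := by
    unfold LS
    rw [← (summable_ite hc hs _).tsum_add (summable_ite hc hs _)]
    refine tsum_congr fun I => ?_
    simp only [Finset.forall_mem_insert]
    by_cases h3 : P ∣ (I : Ideal (𝓞 K)) <;> by_cases h4 : ∀ Q ∈ S, ¬ Q ∣ (I : Ideal (𝓞 K))
    · simp [h3]
    · rw [if_neg h4, if_neg (fun h => h4 h.2), if_neg (fun h => h4 h.2), add_zero]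
    · rw [if_pos h4, if_pos ⟨h3, h4⟩, if_neg (fun h => h3 h.1), add_zero]
    · rw [if_neg h4, if_neg (fun h => h4 h.2), if_neg (fun h => h4 h.2), add_zero]
  rw [h1] at h2
  linear_combination (-1 : ℂ) * h2

lemma LS_eq {ψ : Ideal (𝓞 K) → ℂ} (hm : ∀ I J, ψ (I * J) = ψ I * ψ J) (hc : ∀ I, ‖ψ I‖ ≤ 1)
    {s : ℝ} (hs : 1 < s) (S : Finset (Ideal (𝓞 K))) (hS : ∀ Q ∈ S, Q.IsPrime ∧ Q ≠ ⊥) :
    LS ψ s S = (∏ P ∈ S, (1 - gI ψ s P)) * LI K ψ s := by
  classical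
  induction S using Finset.induction_on with
  | empty => rw [LS_empty, Finset.prod_empty, one_mul]
  | insert P S hPS ih =>
    have hS' : ∀ Q ∈ S, Q.IsPrime ∧ Q ≠ ⊥ := fun Q hQ => hS Q (Finset.mem_insert_of_mem hQ)
    rw [LS_insert hm hc hs S hS' P (hS P (Finset.mem_insert_self _ _)).1
      (hS P (Finset.mem_insert_self _ _)).2 hPS, ih hS', Finset.prod_insert hPS]
    ring

open Classical in
lemma tendsto_LS {ψ : Ideal (𝓞 K) → ℂ} (h1 : ψ ⊤ = 1) (hc : ∀ I, ‖ψ I‖ ≤ 1) {s : ℝ} (hs : 1 < s) :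
    Tendsto (fun N => LS ψ s (TT K N)) atTop (𝓝 1) := by
  have hlim : ∑' I : (Ideal (𝓞 K))⁰, (if I = 1 then (1 : ℂ) else 0) = 1 := by
    rw [tsum_ite_eq]
  rw [← hlim]
  unfold LS
  refine tendsto_tsum_of_dominated_convergence (summable_gI (K := K) hc hs) ?_ ?_
  · intro I
    by_cases hI : I = 1
    · subst hI
      rw [if_pos rfl]
      refine tendsto_const_nhds.congr fun N => ?_
      rw [if_pos]
      · show (1 : ℂ) = gI ψ s (1 : Ideal (𝓞 K))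
        unfold gI
        rw [Ideal.one_eq_top, Ideal.absNorm_top, h1, Nat.cast_one, Real.one_rpow]
        simp
      · intro P hP hd
        have hP' := ((mem_TT K).1 hP).2
        apply hP'.ne_top
        rw [← Ideal.one_eq_top]
        have h2 : P ∣ (1 : Ideal (𝓞 K)) := hd
        rw [Ideal.one_eq_top] at h2 ⊢
        exact top_le_iff.1 (Ideal.le_of_dvd h2)
    · rw [if_neg hI]
      have hne : (I : Ideal (𝓞 K)) ≠ ⊤ := by
        intro h
        apply hI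
        apply Subtype.ext
        rw [h, ← Ideal.one_eq_top]
        rfl
      obtain ⟨P, hPm, hle⟩ := Ideal.exists_le_maximal _ hne
      have hP0 : P ≠ ⊥ := by
        rintro rfl
        exact nonZeroDivisors.ne_zero I.2 (le_bot_iff.1 hle)
      refine tendsto_const_nhds.congr' ?_
      filter_upwards [eventually_ge_atTop (Ideal.absNorm P)] with N hN
      rw [if_neg]
      intro h
      exact h P ((mem_TT K).2 ⟨⟨hN, hP0⟩, hPm.isPrime⟩) (Ideal.dvd_iff_le.2 hle)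
  · refine Filter.Eventually.of_forall fun N I => ?_
    split_ifs
    · exact le_rfl
    · rw [norm_zero]; exact norm_nonneg _

lemma gI_norm_le_half {ψ : Ideal (𝓞 K) → ℂ} (hc : ∀ I, ‖ψ I‖ ≤ 1) {s : ℝ} (hs : 1 ≤ s) {N : ℕ}
    {P : Ideal (𝓞 K)} (hP : P ∈ TT K N) : ‖gI ψ s P‖ ≤ 1 / 2 := by
  refine (gI_norm_le hc s P).trans ?_
  have h1 := (mem_TT K).1 hP
  have h2 : 2 ≤ Ideal.absNorm P := by
    have h3 : Ideal.absNorm P ≠ 0 := fun h => h1.1.2 (Ideal.absNorm_eq_zero_iff.1 h)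
    have h4 : Ideal.absNorm P ≠ 1 := fun h => h1.2.ne_top (Ideal.absNorm_eq_one_iff.1 h)
    omega
  have h2' : (2 : ℝ) ≤ (Ideal.absNorm P : ℝ) := by exact_mod_cast h2
  have h3 : (Ideal.absNorm P : ℝ) ^ (-s) ≤ (Ideal.absNorm P : ℝ) ^ (-1 : ℝ) :=
    Real.rpow_le_rpow_of_exponent_le (by linarith) (by linarith)
  refine h3.trans ?_
  rw [Real.rpow_neg_one, one_div]
  exact inv_anti₀ (by norm_num) h2'

/-- The sum over the primes of prime norm. -/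
lemma sum_TT_prime_I (ψ : Ideal (𝓞 K) → ℂ) (x : ℝ) (N : ℕ) :
    ∑ P ∈ (TT K N).filter (fun P => (Ideal.absNorm P).Prime), (gI ψ x P).re =
      ∑ p ∈ PP N, (AI K ψ p).re * (p : ℝ) ^ (-x) := by
  classical
  have hmaps : ∀ P ∈ (TT K N).filter (fun P => (Ideal.absNorm P).Prime),
      Ideal.absNorm P ∈ PP N := by
    intro P hP
    rw [Finset.mem_filter, mem_TT] at hP
    exact mem_PP.mpr ⟨hP.1.1.1, hP.2⟩
  rw [← Finset.sum_fiberwise_of_maps_to hmaps]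
  refine Finset.sum_congr rfl fun p hp => ?_
  rw [mem_PP] at hp
  have hset : ((TT K N).filter (fun P => (Ideal.absNorm P).Prime)).filter
      (fun I => Ideal.absNorm I = p) =
      (Ideal.finite_setOfPred_absNorm_eq (S := 𝓞 K) p).toFinset := by
    ext I
    rw [mem_AI, Finset.mem_filter, Finset.mem_filter, mem_TT]
    refine ⟨fun h => h.2, fun h => ⟨⟨⟨⟨h.le.trans hp.1, ?_⟩, ?_⟩, ?_⟩, h⟩⟩
    · rintro rfl
      rw [Ideal.absNorm_bot] at h
      exact hp.2.ne_zero h.symm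
    · refine Ideal.isPrime_of_irreducible_absNorm ?_
      rw [h]
      exact hp.2
    · rw [h]
      exact hp.2
  rw [hset]
  unfold AI
  rw [Complex.re_sum, Finset.sum_mul]
  refine Finset.sum_congr rfl fun I hI => ?_
  rw [mem_AI] at hI
  unfold gI
  rw [Complex.re_mul_ofReal, hI]

lemma norm_AI_le {ψ : Ideal (𝓞 K) → ℂ} (hc : ∀ I, ‖ψ I‖ ≤ 1) (n : ℕ) : ‖AI K ψ n‖ ≤ A K n := by
  unfold AI
  refine (norm_sum_le _ _).trans ?_
  rw [card_eq_A K (Ideal.finite_setOfPred_absNorm_eq (S := 𝓞 K) n).toFinset fun I => mem_AI]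
  refine (Finset.sum_le_card_nsmul _ _ 1 fun I _ => hc I).trans ?_
  rw [nsmul_eq_mul, mul_one]

lemma abs_re_AI_le {ψ : Ideal (𝓞 K) → ℂ} (hc : ∀ I, ‖ψ I‖ ≤ 1) (n : ℕ) :
    |(AI K ψ n).re| ≤ A K n := (Complex.abs_re_le_norm _).trans (norm_AI_le hc n)

lemma summable_SI {ψ : Ideal (𝓞 K) → ℂ} (hc : ∀ I, ‖ψ I‖ ≤ 1) {s : ℝ} (hs : 1 < s) :
    Summable fun p : Nat.Primes => (AI K ψ p).re * (p : ℝ) ^ (-s) := by
  refine Summable.of_norm (Summable.of_nonneg_of_le (fun _ => norm_nonneg _) (fun p => ?_)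
    (summable_S K hs))
  rw [norm_mul, Real.norm_eq_abs, Real.norm_of_nonneg (Real.rpow_nonneg (Nat.cast_nonneg _) _)]
  exact mul_le_mul_of_nonneg_right (abs_re_AI_le hc _) (Real.rpow_nonneg (Nat.cast_nonneg _) _)

lemma tendsto_SI {ψ : Ideal (𝓞 K) → ℂ} (hc : ∀ I, ‖ψ I‖ ≤ 1) {s : ℝ} (hs : 1 < s) :
    Tendsto (fun N => ∑ p ∈ PP N, (AI K ψ p).re * (p : ℝ) ^ (-s)) atTop (𝓝 (SI K ψ s)) := by
  classical
  have hsum := summable_SI (K := K) hc hs
  have h1 : Summable fun n : ℕ => if n.Prime then (AI K ψ n).re * (n : ℝ) ^ (-s) else 0 := by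
    have h2 := (summable_subtype_iff_indicator (s := {n : ℕ | n.Prime})
      (f := fun n : ℕ => (AI K ψ n).re * (n : ℝ) ^ (-s))).1 hsum
    refine h2.congr fun n => ?_
    rw [Set.indicator_apply]
    rfl
  have h3 : ∑' n : ℕ, (if n.Prime then (AI K ψ n).re * (n : ℝ) ^ (-s) else 0) = SI K ψ s := by
    unfold SI
    have h2 := tsum_subtype {n : ℕ | n.Prime} (fun n : ℕ => (AI K ψ n).re * (n : ℝ) ^ (-s))
    rw [show (∑' p : Nat.Primes, (AI K ψ p).re * (p : ℝ) ^ (-s)) =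
      ∑' p : {n : ℕ | n.Prime}, (AI K ψ p).re * ((p : ℕ) : ℝ) ^ (-s) from rfl, h2]
    refine tsum_congr fun n => ?_
    rw [Set.indicator_apply]
    rfl
  rw [← h3]
  have h4 := (tendsto_add_atTop_iff_nat 1).2 h1.hasSum.tendsto_sum_nat
  refine h4.congr fun N => ?_
  rw [← Finset.sum_filter]
  rfl

/-- **The logarithm of the Dirichlet series.** -/
theorem log_LI {ψ : Ideal (𝓞 K) → ℂ} (h1 : ψ ⊤ = 1) (hm : ∀ I J, ψ (I * J) = ψ I * ψ J)
    (hc : ∀ I, ‖ψ I‖ ≤ 1) {s : ℝ} (hs : 1 < s) :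
    LI K ψ s ≠ 0 ∧ |Real.log ‖LI K ψ s‖ - SI K ψ s| ≤ 2 * cc K := by
  classical
  have hT := tendsto_LS (K := K) h1 hc hs
  have hprime : ∀ N : ℕ, ∀ Q ∈ TT K N, Q.IsPrime ∧ Q ≠ ⊥ := fun N Q hQ =>
    ⟨((mem_TT K).1 hQ).2, ((mem_TT K).1 hQ).1.2⟩
  have hT2 : Tendsto (fun N => (∏ P ∈ TT K N, (1 - gI ψ s P)) * LI K ψ s) atTop (𝓝 1) :=
    hT.congr fun N => LS_eq hm hc hs _ (hprime N)
  have hL0 : LI K ψ s ≠ 0 := by
    intro h
    rw [h] at hT2
    simp only [mul_zero] at hT2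
    exact zero_ne_one (tendsto_nhds_unique tendsto_const_nhds hT2)
  refine ⟨hL0, ?_⟩
  have hfac : ∀ N : ℕ, ∀ P ∈ TT K N, ‖1 - gI ψ s P‖ ≠ 0 := by
    intro N P hP
    have h2 := gI_norm_le_half hc hs.le hP
    rw [norm_ne_zero_iff]
    intro h3
    have h4 : gI ψ s P = 1 := (sub_eq_zero.1 h3).symm
    rw [h4, norm_one] at h2
    norm_num at h2
  have hlog : Tendsto (fun N => ∑ P ∈ TT K N, Real.log ‖1 - gI ψ s P‖ +
      Real.log ‖LI K ψ s‖) atTop (𝓝 0) := by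
    have h2 := (Real.continuousAt_log (one_ne_zero)).tendsto.comp (by
      have := hT2.norm
      rwa [norm_one] at this)
    rw [Real.log_one] at h2
    refine h2.congr fun N => ?_
    show Real.log ‖(∏ P ∈ TT K N, (1 - gI ψ s P)) * LI K ψ s‖ = _
    rw [norm_mul, norm_prod, Real.log_mul (Finset.prod_ne_zero_iff.2 (hfac N))
      (norm_ne_zero_iff.2 hL0), Real.log_prod fun P hP => hfac N P hP]
  -- comparison for finite `N`
  have hcomp : ∀ N : ℕ, |∑ P ∈ TT K N, Real.log ‖1 - gI ψ s P‖ +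
      ∑ p ∈ PP N, (AI K ψ p).re * (p : ℝ) ^ (-s)| ≤ 2 * cc K := by
    intro N
    have h2 : ∑ p ∈ PP N, (AI K ψ p).re * (p : ℝ) ^ (-s) =
        ∑ P ∈ TT K N, (gI ψ s P).re -
          ∑ P ∈ (TT K N).filter (fun P => ¬ (Ideal.absNorm P).Prime), (gI ψ s P).re := by
      rw [← sum_TT_prime_I ψ s N, ← Finset.sum_filter_add_sum_filter_not (TT K N)
        (fun P => (Ideal.absNorm P).Prime) fun P => (gI ψ s P).re, add_sub_cancel_right]
    rw [h2]
    have h3 : |∑ P ∈ TT K N, (Real.log ‖1 - gI ψ s P‖ + (gI ψ s P).re)| ≤ cc K := by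
      refine (Finset.abs_sum_le_sum_abs _ _).trans (le_trans ?_ (sum_TT_sq K hs.le N))
      refine Finset.sum_le_sum fun P hP => ?_
      refine (log_one_sub (gI_norm_le_half hc hs.le hP)).trans ?_
      exact pow_le_pow_left₀ (norm_nonneg _) (gI_norm_le hc s P) 2
    have h4 : |∑ P ∈ (TT K N).filter (fun P => ¬ (Ideal.absNorm P).Prime), (gI ψ s P).re| ≤
        cc K := by
      refine (Finset.abs_sum_le_sum_abs _ _).trans (le_trans ?_ (sum_TT_nonprime K hs.le N))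
      exact Finset.sum_le_sum fun P _ => (Complex.abs_re_le_norm _).trans (gI_norm_le hc s P)
    rw [Finset.sum_add_distrib] at h3
    rw [abs_le] at h3 h4 ⊢
    constructor <;> linarith [h3.1, h3.2, h4.1, h4.2]
  have hlim : Tendsto (fun N => (∑ P ∈ TT K N, Real.log ‖1 - gI ψ s P‖ +
      ∑ p ∈ PP N, (AI K ψ p).re * (p : ℝ) ^ (-s)) -
      (∑ P ∈ TT K N, Real.log ‖1 - gI ψ s P‖ + Real.log ‖LI K ψ s‖)) atTop
      (𝓝 (SI K ψ s - Real.log ‖LI K ψ s‖)) := by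
    have h2 : (fun N => (∑ P ∈ TT K N, Real.log ‖1 - gI ψ s P‖ +
        ∑ p ∈ PP N, (AI K ψ p).re * (p : ℝ) ^ (-s)) -
        (∑ P ∈ TT K N, Real.log ‖1 - gI ψ s P‖ + Real.log ‖LI K ψ s‖)) =
        fun N => ∑ p ∈ PP N, (AI K ψ p).re * (p : ℝ) ^ (-s) - Real.log ‖LI K ψ s‖ := by
      funext N
      ring
    rw [h2]
    exact (tendsto_SI hc hs).sub_const _
  have h5 := hlim.add hlog
  rw [add_zero] at h5
  have h6 := h5.abs
  rw [abs_sub_comm]
  refine le_of_tendsto h6 (Filter.Eventually.of_forall fun N => ?_)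
  have h7 := hcomp N
  rw [sub_add_cancel]
  exact h7

end Pool.Agent.Lib.MP_058a58_ag.HK
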