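import Pool.Agent.Lib.MP_058a58_ag.HK.Quo
import Pool.Agent.Lib.MP_058a58_ag.HK.Euler

set_option autoImplicit false

/-!
# The sum over all ideals of a function on the ideals as a sum over the classes of weighted sums
over the ring of integers
-/

namespace Pool.Agent.Lib.MP_058a58_ag.HK

open NumberField Filter Topology nonZeroDivisors
open Pool.Agent.Lib.MP_058a58_ag.Ch (rep mk0_rep absNorm_pos' mul_rep_inj WOK Fs hasSum_unfold
  prI_coe WOK_ww)
open Pool.Agent.MP_058a58_ag.Ch (io ww LipAt)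

variable {K : Type*} [Field K] [NumberField K]

lemma rep_ne_bot (C : ClassGroup (𝓞 K)) : (rep C : Ideal (𝓞 K)) ≠ ⊥ :=
  nonZeroDivisors.ne_zero (rep C).2

open Classical in
/-- The function on the multiples of `rep C`. -/
noncomputable def GI (f : Ideal (𝓞 K) → ℂ) (C : ClassGroup (𝓞 K)) (I : (Ideal (𝓞 K))⁰) : ℂ :=
  if (rep C : Ideal (𝓞 K)) ∣ I then f (quo (rep C : Ideal (𝓞 K)) I) else 0

lemma GI_mul (f : Ideal (𝓞 K) → ℂ) (C : ClassGroup (𝓞 K)) (I : (Ideal (𝓞 K))⁰) :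
    GI f C (rep C * I) = f I := by
  unfold GI
  rw [if_pos, Submonoid.coe_mul, quo_mul (rep_ne_bot C)]
  exact ⟨I, rfl⟩

lemma GI_zero (f : Ideal (𝓞 K) → ℂ) (C : ClassGroup (𝓞 K)) (I : (Ideal (𝓞 K))⁰)
    (h : I ∉ Set.range fun I : (Ideal (𝓞 K))⁰ => rep C * I) : GI f C I = 0 := by
  unfold GI
  rw [if_neg]
  rintro ⟨J, hJ⟩
  have hJ0 : J ≠ 0 := by
    rintro rfl
    rw [mul_zero] at hJ
    exact nonZeroDivisors.ne_zero I.2 hJ
  exact h ⟨⟨J, mem_nonZeroDivisors_of_ne_zero hJ0⟩, Subtype.ext hJ.symm⟩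

lemma summable_GI {f : Ideal (𝓞 K) → ℂ} (C : ClassGroup (𝓞 K))
    (hf : Summable fun I : (Ideal (𝓞 K))⁰ => ‖f I‖) :
    Summable fun I : (Ideal (𝓞 K))⁰ => ‖GI f C I‖ := by
  rw [← (mul_rep_inj C).summable_iff]
  · refine hf.congr fun I => ?_
    show _ = ‖GI f C (rep C * I)‖
    rw [GI_mul]
  · intro I hI
    rw [GI_zero f C I hI, norm_zero]

open Classical in
lemma tsum_GI {f : Ideal (𝓞 K) → ℂ} (C : ClassGroup (𝓞 K)) :
    ∑' I : (Ideal (𝓞 K))⁰, (if (I : Ideal (𝓞 K)).IsPrincipal then GI f C I else 0) =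
      ∑' I : (Ideal (𝓞 K))⁰, if ClassGroup.mk0 I = C then f I else 0 := by
  rw [← (mul_rep_inj C).tsum_eq]
  · refine tsum_congr fun I => ?_
    rw [GI_mul]
    have h : ((rep C * I : (Ideal (𝓞 K))⁰) : Ideal (𝓞 K)).IsPrincipal ↔ ClassGroup.mk0 I = C := by
      rw [← ClassGroup.mk0_eq_one_iff (SetLike.coe_mem _)]
      have h2 : ClassGroup.mk0 (⟨((rep C * I : (Ideal (𝓞 K))⁰) : Ideal (𝓞 K)),
          SetLike.coe_mem _⟩ : (Ideal (𝓞 K))⁰) = ClassGroup.mk0 (rep C) * ClassGroup.mk0 I := by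
        rw [← map_mul]
      rw [h2, mk0_rep, inv_mul_eq_one, eq_comm]
    by_cases h1 : ClassGroup.mk0 I = C
    · rw [if_pos (h.2 h1), if_pos h1]
    · rw [if_neg fun h' => h1 (h.1 h'), if_neg h1]
  · intro I hI
    by_contra hcon
    apply hI
    have := GI_zero f C I hcon
    simp only [this, ite_self]

/-- The coefficient function on the ring of integers. -/
noncomputable def psiI (f : Ideal (𝓞 K) → ℂ) (J : Ideal (𝓞 K)) (x : 𝓞 K) : ℂ := by
  classical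
  exact if x ∈ J then f (quo J (Ideal.span {x})) else 0

/-- The sum over all ideals. -/
theorem sum_ideals_I {w : 𝓞 K → ℝ} (hw : WOK K w) {f : Ideal (𝓞 K) → ℂ}
    (hf : Summable fun I : (Ideal (𝓞 K))⁰ => ‖f I‖) :
    ∑' I : (Ideal (𝓞 K))⁰, f I =
      ∑ C : ClassGroup (𝓞 K), ∑' x : {x : 𝓞 K // x ≠ 0}, (w x.1 : ℂ) * psiI f (rep C) x.1 := by
  classical
  have h1 : ∀ C : ClassGroup (𝓞 K),
      ∑' x : {x : 𝓞 K // x ≠ 0}, (w x.1 : ℂ) * psiI f (rep C) x.1 =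
        ∑' I : (Ideal (𝓞 K))⁰, if ClassGroup.mk0 I = C then f I else 0 := by
    intro C
    rw [← tsum_GI, ← (hasSum_unfold hw (GI f C) (summable_GI C hf)).tsum_eq]
    refine tsum_congr fun x => ?_
    congr 1
    unfold psiI GI
    simp only [prI_coe, Ideal.dvd_span_singleton]
  simp only [h1]
  rw [← Summable.tsum_finsetSum]
  · refine tsum_congr fun I => ?_
    rw [Finset.sum_ite_eq Finset.univ]
    simp
  · intro C _
    refine Summable.of_norm (Summable.of_nonneg_of_le (fun _ => norm_nonneg _) (fun I => ?_) hf)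
    split_ifs
    · exact le_rfl
    · rw [norm_zero]; exact norm_nonneg _

lemma absNorm_quo {J : Ideal (𝓞 K)} {x : 𝓞 K} (hx : x ∈ J) :
    (Algebra.norm ℤ x).natAbs = Ideal.absNorm J * Ideal.absNorm (quo J (Ideal.span {x})) := by
  rw [← Ideal.absNorm_span_singleton, ← map_mul, ← mul_quo (Ideal.dvd_span_singleton.2 hx)]

/-- The Dirichlet series of a function on the ideals. -/
theorem LI_eq {w : 𝓞 K → ℝ} (hw : WOK K w) {ψ : Ideal (𝓞 K) → ℂ} (hc : ∀ I, ‖ψ I‖ ≤ 1) {s : ℝ}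
    (hs : 1 < s) :
    LI K ψ s = ∑ C : ClassGroup (𝓞 K), (((Ideal.absNorm (rep C : Ideal (𝓞 K)) : ℝ) ^ s : ℝ) : ℂ) *
        ∑' x : 𝓞 K, psiI ψ (rep C) x * ((Fs K w s x : ℝ) : ℂ) := by
  classical
  have h := sum_ideals_I hw (f := gI ψ s) (summable_gI hc hs)
  have h0 : LI K ψ s = ∑' I : (Ideal (𝓞 K))⁰, gI ψ s I := rfl
  rw [h0, h]
  refine Finset.sum_congr rfl fun C _ => ?_
  rw [← tsum_mul_left]
  have hN := absNorm_pos' (rep C)
  have hNr : (0 : ℝ) < (Ideal.absNorm (rep C : Ideal (𝓞 K)) : ℝ) := by exact_mod_cast hN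
  have hpt : ∀ x : 𝓞 K, (w x : ℂ) * psiI (gI ψ s) (rep C) x =
      (((Ideal.absNorm (rep C : Ideal (𝓞 K)) : ℝ) ^ s : ℝ) : ℂ) *
        (psiI ψ (rep C) x * ((Fs K w s x : ℝ) : ℂ)) := by
    intro x
    unfold psiI Fs
    by_cases hx : x ∈ (rep C : Ideal (𝓞 K))
    · rw [if_pos hx, if_pos hx]
      unfold gI
      have h1 : |(Algebra.norm ℤ x : ℝ)| = (Ideal.absNorm (rep C : Ideal (𝓞 K)) : ℝ) *
          (Ideal.absNorm (quo (rep C : Ideal (𝓞 K)) (Ideal.span {x})) : ℝ) := by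
        rw [← Int.cast_abs, ← Nat.cast_natAbs, absNorm_quo hx]
        push_cast
        rfl
      rw [h1, Real.mul_rpow hNr.le (Nat.cast_nonneg _)]
      have h2 : ((Ideal.absNorm (rep C : Ideal (𝓞 K)) : ℝ) ^ s : ℝ) *
          (Ideal.absNorm (rep C : Ideal (𝓞 K)) : ℝ) ^ (-s) = 1 := by
        rw [← Real.rpow_add hNr, add_neg_cancel, Real.rpow_zero]
      have h3 : ((((Ideal.absNorm (rep C : Ideal (𝓞 K)) : ℝ) ^ s : ℝ) : ℂ)) *
          (((Ideal.absNorm (rep C : Ideal (𝓞 K)) : ℝ) ^ (-s) : ℝ) : ℂ) = 1 := by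
        exact_mod_cast congrArg (fun v : ℝ => (v : ℂ)) h2
      push_cast
      linear_combination (-(w x : ℂ) * ψ (quo (rep C : Ideal (𝓞 K)) (Ideal.span {x})) *
        (((Ideal.absNorm (quo (rep C : Ideal (𝓞 K)) (Ideal.span {x})) : ℝ) ^ (-s) : ℝ) : ℂ)) * h3
    · rw [if_neg hx, if_neg hx]
      simp
  rw [← tsum_subtype_eq_of_support_subset (s := {x : 𝓞 K | x ≠ 0})
    (f := fun x : 𝓞 K => (((Ideal.absNorm (rep C : Ideal (𝓞 K)) : ℝ) ^ s : ℝ) : ℂ) *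
        (psiI ψ (rep C) x * ((Fs K w s x : ℝ) : ℂ)))]
  · exact tsum_congr fun x => hpt x.1
  · intro x hx hx0
    apply hx
    have hx0' : x = 0 := hx0
    subst hx0'
    have h0 : Fs K w s 0 = 0 := by
      unfold Fs
      rw [Algebra.norm_zero, Int.cast_zero, abs_zero, Real.zero_rpow (by linarith), mul_zero]
    beta_reduce
    rw [h0]
    simp

end Pool.Agent.Lib.MP_058a58_ag.HK
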