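import Pool.Agent.Lib.MP_058a58_ag.HK.Defs
import Pool.Agent.Lib.MP_058a58_ag.Embed

set_option autoImplicit false

/-!
# The sum of a function over the ideals of norm `p` as a sum over the embeddings fixed by a
Frobenius element, and its relation to the relative norm
-/

namespace Pool.Agent.Lib.MP_058a58_ag.HK

open NumberField Filter Topology nonZeroDivisors TatePole

variable {K : Type*} [Field K] [NumberField K]

open Classical in
/-- The sum over the ideals of norm `p` is a sum over the embeddings fixed by a Frobenius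
element at `p`. -/
theorem AI_eq_sum_fixed {p : ℕ} (hp : p.Prime) (hgood : GoodFor K p) {𝔓 : Ideal ZBar}
    (h𝔓 : 𝔓.IsPrime) (hp𝔓 : (p : ZBar) ∈ 𝔓) {σ : GQ} (hσ : IsArithFrob p 𝔓 σ)
    (ψ : Ideal (𝓞 K) → ℂ) :
    AI K ψ p = ∑ φ : K →ₐ[ℚ] QBar, if σ • φ = φ then ψ (𝔓.comap (intMap φ)) else 0 := by
  have hfix : ∀ φ : K →ₐ[ℚ] QBar, σ • φ = φ ↔ ∀ x, σ (φ x) = φ x := by
    intro φ
    constructor
    · intro h x
      rw [← smul_emb_apply, h]
    · intro h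
      ext x
      rw [smul_emb_apply]
      exact h x
  rw [← Finset.sum_filter]
  unfold AI
  symm
  refine Finset.sum_bij (fun φ _ => 𝔓.comap (intMap φ)) ?_ ?_ ?_ ?_
  · intro φ hφ
    rw [Finset.mem_filter] at hφ
    rw [mem_AI]
    exact absNorm_comap_of_fixed hp h𝔓 hp𝔓 hσ ((hfix φ).1 hφ.2)
  · intro φ hφ φ' hφ' h
    rw [Finset.mem_filter] at hφ hφ'
    exact hgood 𝔓 h𝔓 hp𝔓 φ φ' fun x =>
      red_eq_of_comap_eq hp (absNorm_comap_of_fixed hp h𝔓 hp𝔓 hσ ((hfix φ).1 hφ.2)) rfl h.symm x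
  · intro I hI
    rw [mem_AI] at hI
    obtain ⟨φ, hφ⟩ := exists_emb_comap hp h𝔓 hp𝔓 hI
    refine ⟨φ, ?_, hφ⟩
    rw [Finset.mem_filter, hfix]
    refine ⟨Finset.mem_univ _, ?_⟩
    have h1 : (σ : QBar →ₐ[ℚ] QBar).comp φ = φ := by
      refine hgood 𝔓 h𝔓 hp𝔓 _ _ fun x => ?_
      obtain ⟨y, hy, hyx⟩ := hσ (intMap φ x)
      have h2 : intMap ((σ : QBar →ₐ[ℚ] QBar).comp φ) x - intMap φ x =
          intMap φ (x ^ p - x) + y := by
        apply Subtype.ext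
        have h3 : ((intMap ((σ : QBar →ₐ[ℚ] QBar).comp φ) x : ZBar) : QBar) =
            σ ((intMap φ x : ZBar) : QBar) := rfl
        rw [map_sub, map_pow]
        push_cast
        rw [h3, hyx]
        ring
      rw [h2]
      refine 𝔓.add_mem ?_ hy
      rw [← Ideal.mem_comap, hφ]
      exact pow_sub_self_mem hp hI x
    intro x
    exact congrArg (fun f : K →ₐ[ℚ] QBar => f x) h1
  · intro φ _
    rfl

variable {F : Type*} [Field F] [NumberField F] [Algebra F K]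

/-- The relative norm of an ideal of prime norm is the ideal below it. -/
theorem relNorm_of_absNorm_prime {p : ℕ} (hp : p.Prime) {I : Ideal (𝓞 K)}
    (hI : Ideal.absNorm I = p) :
    Ideal.relNorm (𝓞 F) I = I.comap (algebraMap (𝓞 F) (𝓞 K)) := by
  have h1 : Ideal.absNorm (Ideal.relNorm (𝓞 F) I) = p := by
    rw [Ideal.absNorm_relNorm, hI]
  have hI' : I.IsPrime := Ideal.isPrime_of_irreducible_absNorm (by rw [hI]; exact hp)
  have h2 : (Ideal.relNorm (𝓞 F) I).IsPrime :=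
    Ideal.isPrime_of_irreducible_absNorm (by rw [h1]; exact hp)
  have h3 : Ideal.relNorm (𝓞 F) I ≠ ⊥ := by
    intro h0
    rw [h0, Ideal.absNorm_bot] at h1
    exact hp.ne_zero h1.symm
  have h4 : (Ideal.relNorm (𝓞 F) I).IsMaximal := h2.isMaximal h3
  refine h4.eq_of_le ?_ (Ideal.relNorm_le_comap (𝓞 F) I)
  exact (Ideal.IsPrime.comap (algebraMap (𝓞 F) (𝓞 K))).ne_top

/-- The ideal below `φ⁻¹ 𝔓`. -/
lemma comap_intMap {𝔓 : Ideal ZBar} {φ : K →ₐ[ℚ] QBar} {φ' : F →ₐ[ℚ] QBar}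
    (h : ∀ x : F, φ' x = φ (algebraMap F K x)) :
    (𝔓.comap (intMap φ)).comap (algebraMap (𝓞 F) (𝓞 K)) = 𝔓.comap (intMap φ') := by
  rw [Ideal.comap_comap]
  congr 1
  refine RingHom.ext fun x => Subtype.ext ?_
  show φ ((algebraMap (𝓞 F) (𝓞 K) x : 𝓞 K) : K) = φ' (x : F)
  rw [h]
  rfl

open Classical in
/-- [CNT] -/
theorem AI_relNorm {p : ℕ} (hp : p.Prime) (hgood : GoodFor K p) {𝔓 : Ideal ZBar}
    (h𝔓 : 𝔓.IsPrime) (hp𝔓 : (p : ZBar) ∈ 𝔓) {σ : GQ} (hσ : IsArithFrob p 𝔓 σ)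
    (Ψ : Ideal (𝓞 F) → ℂ) (res : (K →ₐ[ℚ] QBar) → (F →ₐ[ℚ] QBar))
    (hres : ∀ φ x, res φ x = φ (algebraMap F K x)) :
    AI K (fun I => Ψ (Ideal.relNorm (𝓞 F) I)) p =
      ∑ φ : K →ₐ[ℚ] QBar, if σ • φ = φ then Ψ (𝔓.comap (intMap (res φ))) else 0 := by
  rw [AI_eq_sum_fixed hp hgood h𝔓 hp𝔓 hσ]
  refine Finset.sum_congr rfl fun φ _ => ?_
  by_cases h : σ • φ = φ
  · rw [if_pos h, if_pos h]
    have hfix : ∀ x, σ (φ x) = φ x := by
      intro x
      rw [← smul_emb_apply, h]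
    rw [relNorm_of_absNorm_prime hp (absNorm_comap_of_fixed hp h𝔓 hp𝔓 hσ hfix),
      comap_intMap (hres φ)]
  · rw [if_neg h, if_neg h]

end Pool.Agent.Lib.MP_058a58_ag.HK
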