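import Mathlib

/-!
# Products of polynomials in powers of the variable
-/

open Polynomial

namespace TatePole.AT

lemma coeff_one_prod' {ι : Type*} (s : Finset ι) (q : ι → ℂ[X]) (h : ∀ i ∈ s, (q i).coeff 0 = 1) :
    (∏ i ∈ s, q i).coeff 0 = 1 ∧ (∏ i ∈ s, q i).coeff 1 = ∑ i ∈ s, (q i).coeff 1 := by
  classical
  induction s using Finset.induction_on with
  | empty => simp [coeff_one]
  | insert a s ha ih =>
    obtain ⟨h1, h2⟩ := ih fun i hi => h i (Finset.mem_insert_of_mem hi)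
    have h3 := h a (Finset.mem_insert_self a s)
    rw [Finset.prod_insert ha, Finset.sum_insert ha]
    constructor
    · rw [mul_coeff_zero, h3, h1, one_mul]
    · rw [mul_coeff_one, h3, h1, h2]
      ring

lemma comp_eq_expand (D : ℂ[X]) (a : ℂ) (f : ℕ) :
    D.comp (C a * X ^ f) = expand ℂ f (D.comp (C a * X)) := by
  rw [expand_eq_comp_X_pow, comp_assoc]
  simp

lemma comp_coeff_zero (D : ℂ[X]) (a : ℂ) {f : ℕ} (hf : 0 < f) :
    (D.comp (C a * X ^ f)).coeff 0 = D.coeff 0 := by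
  rw [comp_eq_expand, coeff_expand hf, if_pos (dvd_zero f), Nat.zero_div, comp_C_mul_X_coeff,
    pow_zero, mul_one]

lemma comp_coeff_one (D : ℂ[X]) (a : ℂ) {f : ℕ} (hf : 0 < f) :
    (D.comp (C a * X ^ f)).coeff 1 = if f = 1 then a * D.coeff 1 else 0 := by
  rw [comp_eq_expand, coeff_expand hf]
  by_cases h1 : f = 1
  · subst h1
    rw [if_pos (dvd_refl 1), if_pos rfl, Nat.div_self one_pos, comp_C_mul_X_coeff, pow_one,
      mul_comm]
  · rw [if_neg (by rw [Nat.dvd_one]; exact h1), if_neg h1]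

/-- constant term, linear term, zeros and degree of the Euler factor over the base field -/
theorem comp_prod {ι : Type*} (s : Finset ι) (D : ι → ℂ[X]) (a : ι → ℂ) (f : ι → ℕ)
    (hf : ∀ i ∈ s, 0 < f i) (ha : ∀ i ∈ s, ‖a i‖ = 1) (hD : ∀ i ∈ s, (D i).coeff 0 = 1)
    (hr : ∀ i ∈ s, ∀ z : ℂ, (D i).eval z = 0 → ‖z‖ = 1) {n : ℕ}
    (hn : ∀ i ∈ s, (D i).natDegree ≤ n) :
    (∏ i ∈ s, (D i).comp (C (a i) * X ^ f i)).coeff 0 = 1 ∧
    (∏ i ∈ s, (D i).comp (C (a i) * X ^ f i)).coeff 1 =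
      ∑ i ∈ s, (if f i = 1 then a i * (D i).coeff 1 else 0) ∧
    (∀ z : ℂ, (∏ i ∈ s, (D i).comp (C (a i) * X ^ f i)).eval z = 0 → ‖z‖ = 1) ∧
    (∏ i ∈ s, (D i).comp (C (a i) * X ^ f i)).natDegree ≤ n * ∑ i ∈ s, f i := by
  have h0 : ∀ i ∈ s, ((D i).comp (C (a i) * X ^ f i)).coeff 0 = 1 := fun i hi => by
    rw [comp_coeff_zero _ _ (hf i hi), hD i hi]
  obtain ⟨h1, h2⟩ := coeff_one_prod' s _ h0
  refine ⟨h1, ?_, ?_, ?_⟩
  · rw [h2]
    exact Finset.sum_congr rfl fun i hi => comp_coeff_one _ _ (hf i hi)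
  · intro z hz
    rw [eval_prod, Finset.prod_eq_zero_iff] at hz
    obtain ⟨i, hi, hz⟩ := hz
    rw [eval_comp, eval_mul, eval_C, eval_pow, eval_X] at hz
    have h3 := hr i hi _ hz
    rw [norm_mul, ha i hi, one_mul, norm_pow] at h3
    exact (pow_eq_one_iff_of_nonneg (norm_nonneg _) (hf i hi).ne').mp h3
  · refine (natDegree_prod_le s _).trans ?_
    rw [Finset.mul_sum]
    refine Finset.sum_le_sum fun i hi => ?_
    refine natDegree_comp_le.trans ?_
    refine Nat.mul_le_mul (hn i hi) ?_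
    exact natDegree_C_mul_X_pow_le _ _

end TatePole.AT
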