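import Mathlib
import Pool.Agent.Lib.MP_058a58_ag.HK.Stm2
import Pool.Agent.Lib.MP_058a58_ag.Stable

/-!
# Preparations for the final inequality
-/

open Polynomial Filter Topology NumberField

namespace TatePole.HK

open TatePole AT

/-- the trace against the trace on a stable subspace -/
theorem trace_sub_restrict_le {k W : Type*} [Field k] [AddCommGroup W] [Module k W]
    [FiniteDimensional k W] (ι : k →+* ℂ) (φ : W →ₗ[k] W) (B : Submodule k W)
    (hle : ∀ x ∈ B, φ x ∈ B) (r : ℝ)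
    (h : ∀ z : ℂ, (φ.charpoly.map ι).eval z = 0 → ‖z‖ ≤ r) :
    ‖ι (LinearMap.trace k W φ) - ι (LinearMap.trace k B (φ.restrict hle))‖ ≤
      ((Module.finrank k W : ℝ) - Module.finrank k B) * r := by
  have hle' : B ≤ B.comap φ := hle
  have h1 := charpoly_eq_mul B φ hle'
  set φB := φ.restrict hle' with hφB
  set φQ := B.mapQ B φ hle' with hφQ
  have hmB : (φB.charpoly.map ι).Monic := (LinearMap.charpoly_monic _).map ι
  have hmQ : (φQ.charpoly.map ι).Monic := (LinearMap.charpoly_monic _).map ι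
  have h2 : (φ.charpoly.map ι).roots = (φB.charpoly.map ι).roots + (φQ.charpoly.map ι).roots := by
    rw [h1, Polynomial.map_mul, roots_mul (mul_ne_zero hmB.ne_zero hmQ.ne_zero)]
  have hcardQ : (φQ.charpoly.map ι).roots.card =
      Module.finrank k W - Module.finrank k B := by
    rw [← (IsAlgClosed.splits (φQ.charpoly.map ι)).natDegree_eq_card_roots,
      (LinearMap.charpoly_monic _).natDegree_map, LinearMap.charpoly_natDegree,
      Submodule.finrank_quotient]
  have h6 : ∀ z ∈ (φQ.charpoly.map ι).roots, ‖z‖ ≤ r := by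
    intro z hz
    have h7 : z ∈ (φ.charpoly.map ι).roots := by
      rw [h2]; exact Multiset.mem_add.mpr (Or.inr hz)
    exact h z (Polynomial.isRoot_of_mem_roots h7)
  have h8 : (φB.charpoly.map ι).roots.sum = ι (LinearMap.trace k B φB) :=
    sum_roots_map_charpoly ι φB
  have h9 : (φ.charpoly.map ι).roots.sum = ι (LinearMap.trace k W φ) :=
    sum_roots_map_charpoly ι φ
  rw [← h9, ← h8, h2, Multiset.sum_add, add_sub_cancel_left]
  have h10 : ‖(φQ.charpoly.map ι).roots.sum‖ ≤ ((φQ.charpoly.map ι).roots.card : ℝ) * r := by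
    have key : ∀ s : Multiset ℂ, (∀ z ∈ s, ‖z‖ ≤ r) → ‖s.sum‖ ≤ (s.card : ℝ) * r := by
      intro s
      induction s using Multiset.induction with
      | empty => simp
      | cons a s ih =>
        intro hs
        rw [Multiset.sum_cons, Multiset.card_cons]
        push_cast
        have h11 := ih fun z hz => hs z (Multiset.mem_cons_of_mem hz)
        have h12 := hs a (Multiset.mem_cons_self a s)
        have h13 := norm_add_le a s.sum
        linarith
    exact key _ h6
  refine h10.trans (le_of_eq ?_)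
  rw [hcardQ, Nat.cast_sub (Submodule.finrank_le B)]

section
variable {F : Type*} [Field F] [NumberField F]

attribute [local instance] topZBar discZBar contZBar invZBar

/-- conjugate Frobenius elements -/
lemma liesOver_conj {e ψ : F →ₐ[ℚ] QBar} {x : GQ} (hx : x • e = ψ) {𝔓 : Ideal ZBar}
    (h𝔓 : 𝔓.IsPrime) : LiesOver e (𝔓.comap (MulSemiringAction.toRingHom GQ ZBar x))
      (𝔓.comap (intMap ψ)) := by
  refine ⟨Ideal.comap_isPrime _ _, ?_⟩
  ext a
  rw [Ideal.mem_comap, Ideal.mem_comap, Ideal.mem_comap]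
  have h1 : MulSemiringAction.toRingHom GQ ZBar x (intMap e a) = intMap ψ a := by
    apply Subtype.ext
    rw [coe_intMap, ← hx, MulSemiringAction.toRingHom_apply, coe_smul_ZBar, coe_intMap]
    rfl
  rw [h1]

lemma isArithFrob_conj {q : ℕ} {𝔓 : Ideal ZBar} {σ x : GQ} (hσ : IsArithFrob q 𝔓 σ) :
    IsArithFrob q (𝔓.comap (MulSemiringAction.toRingHom GQ ZBar x)) (x⁻¹ * σ * x) := by
  intro z
  obtain ⟨y, hy, hyz⟩ := hσ (x • z)
  refine ⟨x⁻¹ • y, ?_, ?_⟩
  · rw [Ideal.mem_comap, MulSemiringAction.toRingHom_apply, smul_inv_smul]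
    exact hy
  · have h1 : (x⁻¹ * σ * x) (z : QBar) = x⁻¹ (σ (x (z : QBar))) := rfl
    have h2 : ((x • z : ZBar) : QBar) = x (z : QBar) := coe_smul_ZBar x z
    have h3 : ((x⁻¹ • y : ZBar) : QBar) = x⁻¹ (y : QBar) := coe_smul_ZBar x⁻¹ y
    rw [h1, h3]
    rw [h2] at hyz
    rw [hyz, map_add, map_pow]
    congr 2
    show (x⁻¹ * x) (z : QBar) = z
    rw [inv_mul_cancel]
    rfl

lemma conj_mem_GF {e ψ : F →ₐ[ℚ] QBar} {x s : GQ} (hx : x • e = ψ) :
    x⁻¹ * s * x ∈ GF e ↔ s • ψ = ψ := by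
  rw [mem_GF, mul_smul, mul_smul, hx, inv_smul_eq_iff, hx]

/-- the Frobenius elements of `F` at the primes of degree one -/
lemma isFrobAt_conj {e ψ : F →ₐ[ℚ] QBar} {x s : GQ} (hx : x • e = ψ) {p : ℕ} (hp : p.Prime)
    {𝔓 : Ideal ZBar} (h𝔓 : 𝔓.IsPrime) (hp𝔓 : (p : ZBar) ∈ 𝔓) (hs : IsArithFrob p 𝔓 s)
    (hfix : s • ψ = ψ) :
    Ideal.absNorm (𝔓.comap (intMap ψ)) = p ∧
    IsFrobAt e (𝔓.comap (intMap ψ)) ⟨x⁻¹ * s * x, (conj_mem_GF hx).mpr hfix⟩ := by
  have h1 : Ideal.absNorm (𝔓.comap (intMap ψ)) = p := absNorm_comap_of_fixed hp h𝔓 hp𝔓 hs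
    fun y => congrArg (fun φ : F →ₐ[ℚ] QBar => φ y) hfix
  refine ⟨h1, 𝔓.comap (MulSemiringAction.toRingHom GQ ZBar x), liesOver_conj hx h𝔓, ?_⟩
  rw [h1]
  exact isArithFrob_conj hs

end

/-- conjugation of characters of finite image -/
lemma char_conj_inv {G : Type*} [Group G] (N : Subgroup G) [N.Normal] [Finite (G ⧸ N)]
    {V : Type*} [AddCommGroup V] [Module ℂ V] [FiniteDimensional ℂ V]
    (α : Representation ℂ G V) (hα : ∀ g ∈ N, α g = 1) (g : G) :
    α.character g⁻¹ = (starRingEnd ℂ) (α.character g) := by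
  have h1 := conj_character (liftRep N α hα) (g : G ⧸ N)
  rw [← QuotientGroup.mk_inv] at h1
  unfold Representation.character at h1 ⊢
  rw [liftRep_mk, liftRep_mk] at h1
  exact h1.symm

end TatePole.HK
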