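import Mathlib
import Pool.Agent.Lib.MP_058a58_ag.HK.Lin
import Pool.Agent.Lib.MP_058a58_ag.HK.BesselF
import Pool.Agent.Lib.MP_058a58_ag.AT.Final

/-!
# The inequality for twists by Hecke characters, from its parts
-/

open Polynomial Filter Topology NumberField

namespace TatePole.HK

open TatePole AT

section
variable {F : Type} [Field F] [NumberField F] {e : F →ₐ[ℚ] QBar}

lemma extG_mem {f : GF e → ℂ} {g : GQ} (h : g ∈ GF e) : extG e f g = f ⟨g, h⟩ := by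
  unfold extG
  rw [dif_pos h]

lemma extG_not {f : GF e → ℂ} {g : GQ} (h : g ∉ GF e) : extG e f g = 0 := by
  unfold extG
  rw [dif_neg h]

lemma norm_extG_le {f : GF e → ℂ} {C : ℝ} (hC : ∀ g, ‖f g‖ ≤ C) (hC0 : 0 ≤ C) (g : GQ) :
    ‖extG e f g‖ ≤ C := by
  by_cases h : g ∈ GF e
  · rw [extG_mem h]; exact hC _
  · rw [extG_not h, norm_zero]; exact hC0

lemma extG_mul_conj (f1 f2 : GF e → ℂ) (g : GQ) :
    extG e f1 g * (starRingEnd ℂ) (extG e f2 g) =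
      extG e (fun g => f1 g * (starRingEnd ℂ) (f2 g)) g := by
  by_cases h : g ∈ GF e
  · rw [extG_mem h, extG_mem h, extG_mem h]
  · rw [extG_not h, extG_not h, extG_not h, zero_mul]

lemma extG_mul (f1 f2 : GF e → ℂ) (g : GQ) :
    extG e f1 g * extG e f2 g = extG e (fun g => f1 g * f2 g) g := by
  by_cases h : g ∈ GF e
  · rw [extG_mem h, extG_mem h, extG_mem h]
  · rw [extG_not h, extG_not h, extG_not h, zero_mul]

lemma IsHeckeChar.norm_le {M : ℕ} {k : (F →+* ℂ) → ℤ} {τ : (F →+* ℂ) → ℝ}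
    {Ψ : Ideal (𝓞 F) → ℂ} (h : IsHeckeChar F M k τ Ψ) (I : Ideal (𝓞 F)) : ‖Ψ I‖ ≤ 1 := by
  by_cases h1 : I = ⊥ ∨ ¬ IsCoprime I (Ideal.span {(M : 𝓞 F)})
  · rw [h.zero I h1, norm_zero]; exact zero_le_one
  · push Not at h1
    exact (h.norm I h1.1 h1.2).le

lemma norm_hecke_le {Ψ : Ideal (𝓞 F) → ℂ} (h : IsHecke Ψ) (I : Ideal (𝓞 F)) : ‖Ψ I‖ ≤ 1 := by
  obtain ⟨M, k, τ, h⟩ := h
  exact IsHeckeChar.norm_le h I

/-- the values at almost all primes have absolute value one -/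
lemma norm_EPsi {Ψ : Ideal (𝓞 F) → ℂ} (h : IsHecke Ψ) : ∃ T : Finset ℕ,
    ∀ {σ : ℕ → GQ} {𝔓 : ℕ → Ideal ZBar}, FrobSysP σ 𝔓 → ∀ p : ℕ, p.Prime → p ∉ T →
      ∀ ψ : F →ₐ[ℚ] QBar, ‖EPsi 𝔓 Ψ ψ p‖ = 1 := by
  obtain ⟨M, k, τ, h⟩ := h
  refine ⟨M.primeFactors, fun {σ 𝔓} hσ p hp hpT ψ => ?_⟩
  have hpM : ¬ p ∣ M := fun hd => hpT (Nat.mem_primeFactors.mpr ⟨hp, hd, h.pos⟩)
  have hcop : Nat.Coprime p M := (Nat.Prime.coprime_iff_not_dvd hp).mpr hpM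
  have hmem : (p : 𝓞 F) ∈ (𝔓 p).comap (intMap ψ) := by
    rw [Ideal.mem_comap, map_natCast]
    exact (hσ p hp).2.1
  unfold EPsi
  refine h.norm _ ?_ ?_
  · intro h0
    rw [h0, Ideal.mem_bot] at hmem
    have : (p : 𝓞 F) ≠ 0 := by exact_mod_cast hp.ne_zero
    exact this hmem
  · rw [Ideal.isCoprime_iff_exists]
    have h1 : IsCoprime (p : ℤ) (M : ℤ) := Nat.isCoprime_iff_coprime.mpr hcop
    obtain ⟨a, b, hab⟩ := h1
    refine ⟨(a : 𝓞 F) * (p : 𝓞 F), Ideal.mul_mem_left _ _ hmem, (b : 𝓞 F) * (M : 𝓞 F),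
      Ideal.mul_mem_left _ _ (Ideal.mem_span_singleton_self _), ?_⟩
    have := congrArg (fun z : ℤ => (z : 𝓞 F)) hab
    push_cast at this
    exact this

lemma norm_EPsi_le {Ψ : Ideal (𝓞 F) → ℂ} (h : IsHecke Ψ) (𝔓 : ℕ → Ideal ZBar)
    (ψ : F →ₐ[ℚ] QBar) (p : ℕ) : ‖EPsi 𝔓 Ψ ψ p‖ ≤ 1 := norm_hecke_le h _

lemma exists_frobSysP : ∃ (σ : ℕ → GQ) (𝔓 : ℕ → Ideal ZBar), FrobSysP σ 𝔓 := by
  classical
  obtain ⟨σ, hσ⟩ := exists_frobSys
  have h : ∀ p : ℕ, ∃ 𝔓 : Ideal ZBar, p.Prime → 𝔓.IsPrime ∧ (p : ZBar) ∈ 𝔓 ∧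
      IsArithFrob p 𝔓 (σ p) := by
    intro p
    by_cases hp : p.Prime
    · obtain ⟨𝔓, h𝔓⟩ := hσ p hp
      exact ⟨𝔓, fun _ => h𝔓⟩
    · exact ⟨⊥, fun h => (hp h).elim⟩
  choose 𝔓 h𝔓 using h
  exact ⟨σ, 𝔓, h𝔓⟩

lemma FrobSysP.frobSys {σ : ℕ → GQ} {𝔓 : ℕ → Ideal ZBar} (h : FrobSysP σ 𝔓) : FrobSys σ :=
  fun p hp => ⟨𝔓 p, h p hp⟩

/-- a normal open subgroup inside `GF e` -/
lemma exists_bigN_le (e : F →ₐ[ℚ] QBar) (A : Finset QBar) :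
    ∃ M : IntermediateField ℚ QBar, FiniteDimensional ℚ M ∧ M.fixingSubgroup.Normal ∧
      (∀ g ∈ M.fixingSubgroup, ∀ x ∈ A, g x = x) ∧ M.fixingSubgroup ≤ GF e := by
  classical
  set b := Module.finBasis ℚ F
  obtain ⟨M, h1, h2, h3⟩ := exists_bigN (A ∪ Finset.univ.image fun i => e (b i))
  refine ⟨M, h1, h2, fun g hg x hx => h3 g hg x (Finset.mem_union_left _ hx), fun g hg x => ?_⟩
  have h4 : ∀ i, g (e (b i)) = e (b i) := fun i => h3 g hg _ (Finset.mem_union_right _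
    (Finset.mem_image.mpr ⟨i, Finset.mem_univ i, rfl⟩))
  have h5 := b.sum_repr x
  rw [← h5, map_sum, map_sum]
  refine Finset.sum_congr rfl fun i _ => ?_
  have h6 : e (b.repr x i • b i) = b.repr x i • e (b i) := e.toLinearMap.map_smul _ _
  have h7 : g (b.repr x i • e (b i)) = b.repr x i • g (e (b i)) := g.toLinearMap.map_smul _ _
  rw [h6, h7, h4]

/-- primes of `F` in a finite set do not lie over the big primes -/
lemma exists_bad_primes (S : Finset (Ideal (𝓞 F))) : ∃ T : Finset ℕ, ∀ 𝔭 : Ideal (𝓞 F),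
    Ideal.absNorm 𝔭 ∉ T → 𝔭 ∉ S := by
  classical
  exact ⟨S.image Ideal.absNorm, fun 𝔭 h1 h2 => h1 (Finset.mem_image_of_mem _ h2)⟩

end

lemma HasDens.congr' {g h : ℕ → ℝ} {a : ℝ} (hg : HasDens g a)
    (hgh : ∀ p : ℕ, p.Prime → h p = g p) : HasDens h a := by
  intro ε' hε'
  filter_upwards [hg ε' hε'] with x hx
  rwa [RR_congr hgh x]

/-- a perturbation of an inequality between sums of squares -/
lemma eventually_perturb {J : Type*} [Fintype J] (D R : J → ℝ → ℝ) (v : ℝ) (hv : 0 ≤ v)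
    (h1 : ∀ ε : ℝ, 0 < ε → ∀ᶠ s : ℝ in 𝓝[>] (1 : ℝ), ∑ i, R i s ^ 2 ≤
      ((v + ε) * Real.log (1 / (s - 1))) ^ 2)
    (h2 : ∀ i, ∀ δ : ℝ, 0 < δ → ∀ᶠ s : ℝ in 𝓝[>] (1 : ℝ),
      |D i s - R i s| ≤ δ * Real.log (1 / (s - 1)))
    (ε : ℝ) (hε : 0 < ε) :
    ∀ᶠ s : ℝ in 𝓝[>] (1 : ℝ), ∑ i, D i s ^ 2 ≤ ((v + ε) * Real.log (1 / (s - 1))) ^ 2 := by
  set k : ℝ := (Fintype.card J : ℝ) with hk
  have hk0 : 0 ≤ k := Nat.cast_nonneg _
  set δ : ℝ := ε / (2 * (k + 1)) with hδ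
  have hδ0 : 0 < δ := by positivity
  filter_upwards [h1 (ε / 2) (by positivity), Filter.eventually_all.mpr fun i => h2 i δ hδ0,
    eventually_log_ge 0] with s h3 h4 h5
  set L := Real.log (1 / (s - 1)) with hL
  set E : J → ℝ := fun i => D i s - R i s with hE
  have hEb : ∑ i, E i ^ 2 ≤ (k * δ * L) ^ 2 := by
    have e1 : ∑ i, E i ^ 2 ≤ ∑ _i : J, (δ * L) ^ 2 := by
      refine Finset.sum_le_sum fun i _ => ?_
      exact sq_le_sq' (abs_le.mp (h4 i)).1 (abs_le.mp (h4 i)).2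
    rw [Finset.sum_const, Finset.card_univ, nsmul_eq_mul, ← hk] at e1
    refine e1.trans ?_
    rw [mul_assoc, mul_pow k]
    refine mul_le_mul_of_nonneg_right ?_ (sq_nonneg _)
    rcases Nat.eq_zero_or_pos (Fintype.card J) with h | h
    · rw [hk, h]; simp
    · have h7 : (1 : ℝ) ≤ k := by rw [hk]; exact_mod_cast h
      nlinarith
  have hmin := minkowski_aux (fun i => R i s) E ((v + ε / 2) * L) (k * δ * L)
    (by positivity) (by positivity) h3 hEb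
  have hsum : ∑ i, D i s ^ 2 = ∑ i, (R i s + E i) ^ 2 := by
    refine Finset.sum_congr rfl fun i _ => ?_
    simp only [hE]
    ring
  rw [hsum]
  refine hmin.trans ?_
  have h8 : 0 ≤ (v + ε / 2) * L + k * δ * L := by positivity
  refine pow_le_pow_left₀ h8 ?_ 2
  have h9 : k * δ ≤ ε / 2 := by
    rw [hδ, mul_div_assoc', div_le_div_iff₀ (by positivity) (by norm_num)]
    nlinarith
  nlinarith

end TatePole.HK
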