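import Mathlib
import Pool.Agent.Lib.MP_058a58_ag.HK.StmRS
import Pool.Agent.Lib.MP_058a58_ag.AT.RSLog

/-!
# The Rankin-Selberg square of the transcendental part: linear algebra
-/

open Polynomial Filter Topology
open scoped TensorProduct

namespace TatePole.HK

open TatePole AT

/-- the trace of the inverse of a matrix whose eigenvalues have absolute value `r` -/
lemma trace_inv_conj_r {n : Type*} [Fintype n] [DecidableEq n] (M : Matrix n n ℂ) {r : ℝ}
    (hr : 0 < r) (h1 : ∀ z ∈ M.charpoly.roots, ‖z‖ = r) :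
    (M⁻¹).trace * ((r ^ 2 : ℝ) : ℂ) = (starRingEnd ℂ) M.trace := by
  have hdet : M.det ≠ 0 := by
    intro h0
    have h2 : (0 : ℂ) ∈ M.charpoly.roots := by
      rw [mem_roots (Matrix.charpoly_monic M).ne_zero, IsRoot.def, ← coeff_zero_eq_eval_zero]
      have h3 := Matrix.det_eq_sign_charpoly_coeff M
      rw [h0] at h3
      rcases mul_eq_zero.mp h3.symm with h | h
      · exact absurd h (pow_ne_zero _ (by norm_num))
      · exact h
    have h3 := h1 0 h2
    rw [norm_zero] at h3
    exact hr.ne h3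
  have hunit : IsUnit M := (Matrix.isUnit_iff_isUnit_det M).mpr hdet.isUnit
  set R := M.charpoly.roots with hR
  have hsplit : M.charpoly.Splits := IsAlgClosed.splits _
  have hcard : Multiset.card R = Fintype.card n := by
    rw [hR, ← hsplit.natDegree_eq_card_roots, Matrix.charpoly_natDegree_eq_dim]
  have hne : ∀ a ∈ R, a ≠ 0 := by
    intro a ha h0
    have h3 := h1 a ha
    rw [h0, norm_zero] at h3
    exact hr.ne h3
  have hdetR : M.det = R.prod := Matrix.det_eq_prod_roots_charpoly M
  have h2 : (M⁻¹).charpoly = ((R.map (fun a => a⁻¹)).map (fun a => X - C a)).prod := by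
    apply Polynomial.funext
    intro x
    have h3 := Matrix.charpoly_inv M hunit
    rw [← Matrix.reverse_charpoly] at h3
    rw [h3, eval_mul, eval_mul, eval_C, eval_pow, eval_neg, eval_one,
      reverse_eval_eq_prod _ (Matrix.charpoly_monic M), Ring.inverse_eq_inv', hdetR, ← hR,
      eval_multiset_prod, Multiset.map_map, Multiset.map_map, ← hcard]
    have h4 : ((-1 : ℂ)) ^ Multiset.card R = (R.map (fun _ => (-1 : ℂ))).prod := by
      rw [Multiset.map_const', Multiset.prod_replicate]
    have h5 : (R.prod)⁻¹ = (R.map (fun a => a⁻¹)).prod := by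
      rw [Multiset.prod_map_inv, Multiset.map_id']
    rw [h4, h5, ← Multiset.prod_map_mul, ← Multiset.prod_map_mul]
    refine congrArg Multiset.prod (Multiset.map_congr rfl fun a ha => ?_)
    have h6 := hne a ha
    simp only [Function.comp_apply, eval_sub, eval_X, eval_C]
    field_simp
    ring
  have h3 : (M⁻¹).charpoly.roots = R.map (fun a => a⁻¹) := by
    rw [h2, roots_multiset_prod_X_sub_C]
  rw [Matrix.trace_eq_sum_roots_charpoly, h3, Matrix.trace_eq_sum_roots_charpoly M, ← hR,
    map_multiset_sum, ← Multiset.sum_map_mul_right]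
  refine congrArg Multiset.sum (Multiset.map_congr rfl fun a ha => ?_)
  have h7 := h1 a ha
  rw [Complex.inv_def, Complex.normSq_eq_norm_sq, h7, mul_assoc, ← Complex.ofReal_mul,
    inv_mul_cancel₀ (by positivity), Complex.ofReal_one, mul_one]

/-- the same for an operator defined over a subfield -/
lemma trace_inv_conj_r' {K T : Type*} [Field K] [AddCommGroup T] [Module K T]
    [FiniteDimensional K T] (ι : K →+* ℂ) (φ ψ : T →ₗ[K] T) (hφψ : φ * ψ = 1) {r : ℝ}
    (hr : 0 < r) (h1 : ∀ z ∈ (φ.charpoly.map ι).roots, ‖z‖ = r) :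
    ι (LinearMap.trace K T ψ) * ((r ^ 2 : ℝ) : ℂ) =
      (starRingEnd ℂ) (ι (LinearMap.trace K T φ)) := by
  classical
  let b := Module.Free.chooseBasis K T
  set M := (LinearMap.toMatrix b b φ).map ι with hM
  set M' := (LinearMap.toMatrix b b ψ).map ι with hM'
  have h2 : M * M' = 1 := by
    rw [hM, hM', ← Matrix.map_mul, ← LinearMap.toMatrix_mul, hφψ, LinearMap.toMatrix_one,
      Matrix.map_one ι (map_zero ι) (map_one ι)]
  have h3 : M⁻¹ = M' := Matrix.inv_eq_right_inv h2
  have h4 : M.charpoly = φ.charpoly.map ι := by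
    rw [hM, Matrix.charpoly_map, LinearMap.charpoly_toMatrix]
  have h5 := trace_inv_conj_r M hr (by rw [h4]; exact h1)
  rw [h3] at h5
  have h6 : M.trace = ι (LinearMap.trace K T φ) := by
    rw [LinearMap.trace_eq_matrix_trace K b, hM]
    exact (AddMonoidHom.map_trace ι.toAddMonoidHom _).symm
  have h7 : M'.trace = ι (LinearMap.trace K T ψ) := by
    rw [LinearMap.trace_eq_matrix_trace K b, hM']
    exact (AddMonoidHom.map_trace ι.toAddMonoidHom _).symm
  rw [← h7, h5, h6]

section
variable {k : Type*} [Field k] {G : Type*} [Group G] {W : Type*} [AddCommGroup W] [Module k W]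
  [FiniteDimensional k W]

lemma trace_selfG (ρ : Representation k G W) (B : Submodule k W)
    (hB : ∀ g : G, ∀ w ∈ B, ρ g w ∈ B) (g : G) :
    LinearMap.trace k _ (selfG ρ B hB g) =
      LinearMap.trace k _ (ρ.quotient B hB g) * LinearMap.trace k _ (ρ.quotient B hB g⁻¹) := by
  have h1 := congrFun (Representation.char_tensor (ρ.quotient B hB) (ρ.quotient B hB).dual) g
  have h2 := Representation.char_dual (ρ.quotient B hB) g
  have h3 : LinearMap.trace k _ (selfG ρ B hB g) =
      (ρ.quotient B hB).character g * (ρ.quotient B hB).dual.character g := h1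
  rw [h3, h2]
  rfl

lemma trace_quoG (ρ : Representation k G W) (B : Submodule k W)
    (hB : ∀ g : G, ∀ w ∈ B, ρ g w ∈ B) (ι : k →+* ℂ) (g : G) :
    ι (LinearMap.trace k W (ρ g)) = ι (LinearMap.trace k B ((ρ g).restrict (hB g))) +
      ι (LinearMap.trace k _ (ρ.quotient B hB g)) := by
  have h1 : (ρ g).charpoly = ((ρ g).restrict (hB g)).charpoly *
      (ρ.quotient B hB g).charpoly := charpoly_eq_mul B (ρ g) (hB g)
  have hmB : (((ρ g).restrict (hB g)).charpoly.map ι).Monic := (LinearMap.charpoly_monic _).map ι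
  have hmQ : ((ρ.quotient B hB g).charpoly.map ι).Monic := (LinearMap.charpoly_monic _).map ι
  rw [← sum_roots_map_charpoly, h1, Polynomial.map_mul,
    roots_mul (mul_ne_zero hmB.ne_zero hmQ.ne_zero), Multiset.sum_add, sum_roots_map_charpoly,
    sum_roots_map_charpoly]

lemma quoG_root_norm (ρ : Representation k G W) (B : Submodule k W)
    (hB : ∀ g : G, ∀ w ∈ B, ρ g w ∈ B) (ι : k →+* ℂ) (g : G) {r : ℝ}
    (h1 : ∀ z ∈ ((ρ g).charpoly.map ι).roots, ‖z‖ = r) :
    ∀ z ∈ ((ρ.quotient B hB g).charpoly.map ι).roots, ‖z‖ = r := by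
  intro z hz
  refine h1 z ?_
  have h2 : (ρ g).charpoly = ((ρ g).restrict (hB g)).charpoly *
      (ρ.quotient B hB g).charpoly := charpoly_eq_mul B (ρ g) (hB g)
  have hmB : (((ρ g).restrict (hB g)).charpoly.map ι).Monic := (LinearMap.charpoly_monic _).map ι
  have hmQ : ((ρ.quotient B hB g).charpoly.map ι).Monic := (LinearMap.charpoly_monic _).map ι
  rw [h2, Polynomial.map_mul, roots_mul (mul_ne_zero hmB.ne_zero hmQ.ne_zero)]
  exact Multiset.mem_add.mpr (Or.inr hz)

/-- the trace on `T ⊗ T^∨` of an element whose eigenvalues on `W` have absolute value `r` -/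
theorem trace_selfG_norm (ρ : Representation k G W) (B : Submodule k W)
    (hB : ∀ g : G, ∀ w ∈ B, ρ g w ∈ B) (ι : k →+* ℂ) (g : G) {r : ℝ} (hr : 0 < r)
    (h1 : ∀ z ∈ ((ρ g).charpoly.map ι).roots, ‖z‖ = r) :
    ι (LinearMap.trace k _ (selfG ρ B hB g)) =
      (((‖ι (LinearMap.trace k W (ρ g)) - ι (LinearMap.trace k B ((ρ g).restrict (hB g)))‖ / r) ^ 2
        : ℝ) : ℂ) := by
  have h2 := trace_inv_conj_r' ι (ρ.quotient B hB g) (ρ.quotient B hB g⁻¹)
    (by rw [← map_mul, mul_inv_cancel, map_one]) hr (quoG_root_norm ρ B hB ι g h1)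
  have h3 : ι (LinearMap.trace k W (ρ g)) - ι (LinearMap.trace k B ((ρ g).restrict (hB g))) =
      ι (LinearMap.trace k _ (ρ.quotient B hB g)) := by
    rw [trace_quoG ρ B hB ι g]
    ring
  rw [h3, trace_selfG, map_mul]
  set t := ι (LinearMap.trace k _ (ρ.quotient B hB g)) with ht
  set t' := ι (LinearMap.trace k _ (ρ.quotient B hB g⁻¹)) with ht'
  have hr2 : ((r ^ 2 : ℝ) : ℂ) ≠ 0 := by
    rw [Ne, Complex.ofReal_eq_zero]
    positivity
  have h4 : t' = (starRingEnd ℂ) t / ((r ^ 2 : ℝ) : ℂ) := by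
    rw [eq_div_iff hr2]
    exact h2
  rw [h4, mul_div_assoc', Complex.mul_conj, Complex.normSq_eq_norm_sq, div_pow,
    Complex.ofReal_div]

end

end TatePole.HK
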