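import Mathlib
import Pool.Agent.Lib.MP_058a58_ag.HK.Core
import Pool.Agent.Lib.MP_058a58_ag.HK.RSG
import Pool.Agent.Lib.MP_058a58_ag.HK.BesselRS

/-!
# The inequality for twists by Hecke characters, from its parts: the main theorem
-/

open Polynomial Filter Topology NumberField

namespace TatePole.HK

open TatePole AT

section
variable {F : Type} [Field F] [NumberField F] {e : F →ₐ[ℚ] QBar}

/-- the results on prime sums that are used -/
structure Parts (e : F →ₐ[ℚ] QBar) (x : (F →ₐ[ℚ] QBar) → GQ) (σ : ℕ → GQ)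
    (𝔓 : ℕ → Ideal ZBar) (N : Subgroup GQ) : Prop where
  inf : ∀ Ψ : Ideal (𝓞 F) → ℂ, IsHecke Ψ → InfOrder Ψ → ∀ f : GF e → ℂ, ClsF e N f →
    HasDens (fun p => (sumFix e x σ f (EPsi 𝔓 Ψ) p).re) 0
  mean : ∀ f : GF e → ℂ, ClsF e N f →
    HasDens (fun p => (sumFix e x σ f (fun _ _ => 1) p).re)
      (gavg fun γ : GF e ⧸ N.subgroupOf (GF e) => (f γ.out).re)

variable {N : Subgroup GQ}

lemma _root_.TatePole.ClsF.mul {f1 f2 : GF e → ℂ} (h1 : ClsF e N f1) (h2 : ClsF e N f2) :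
    ClsF e N (fun g => f1 g * f2 g) where
  inv g h hh := by rw [h1.inv g h hh, h2.inv g h hh]
  cls x g := by rw [h1.cls x g, h2.cls x g]
  conj g := by rw [h1.conj g, h2.conj g, map_mul]

lemma _root_.TatePole.ClsF.star {f : GF e → ℂ} (h1 : ClsF e N f) :
    ClsF e N (fun g => (starRingEnd ℂ) (f g)) where
  inv g h hh := by rw [h1.inv g h hh]
  cls x g := by rw [h1.cls x g]
  conj g := by rw [h1.conj g]

lemma _root_.TatePole.ClsF.bdd [Finite (GF e ⧸ N.subgroupOf (GF e))] {f : GF e → ℂ} (h : ClsF e N f) :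
    ∃ C : ℝ, 0 ≤ C ∧ ∀ g, ‖f g‖ ≤ C := by
  obtain ⟨C, hC⟩ := Finite.exists_le
    (fun γ : GF e ⧸ N.subgroupOf (GF e) => ‖f γ.out‖)
  refine ⟨C, (norm_nonneg _).trans (hC (QuotientGroup.mk 1)), fun g => ?_⟩
  have h1 := hC (QuotientGroup.mk g)
  set o := (QuotientGroup.mk g : GF e ⧸ N.subgroupOf (GF e)).out with ho
  have h2 : o⁻¹ * g ∈ N.subgroupOf (GF e) := QuotientGroup.eq.mp (QuotientGroup.out_eq' _)
  have h3 : f (o * (o⁻¹ * g)) = f o := h.inv o _ (Subgroup.mem_subgroupOf.mp h2)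
  rw [mul_inv_cancel_left] at h3
  rw [h3]
  exact h1

lemma clsF_char [N.Normal] [Finite (GF e ⧸ N.subgroupOf (GF e))] {V : Type*}
    [AddCommGroup V] [Module ℂ V] [FiniteDimensional ℂ V] (α : Representation ℂ (GF e) V)
    (hα : ∀ g ∈ N.subgroupOf (GF e), α g = 1) :
    ClsF e N (fun g => α.character g⁻¹) where
  inv g h hh := by
    have h1 : α h⁻¹ = 1 := hα _ (inv_mem (Subgroup.mem_subgroupOf.mpr hh))
    unfold Representation.character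
    rw [mul_inv_rev, map_mul, h1, one_mul]
  cls x g := by
    have h1 := Representation.char_conj α g⁻¹ x⁻¹
    rw [inv_inv] at h1
    rw [mul_inv_rev, mul_inv_rev, inv_inv, ← mul_assoc]
    exact h1
  conj g := char_conj_inv (N.subgroupOf (GF e)) α hα g⁻¹

lemma sumFix_bdd {x : (F →ₐ[ℚ] QBar) → GQ} {σ : ℕ → GQ} {f : GF e → ℂ} {C : ℝ} (hC0 : 0 ≤ C)
    (hC : ∀ g, ‖f g‖ ≤ C) {E : (F →ₐ[ℚ] QBar) → ℕ → ℂ}
    (hE : ∀ ψ, ∀ p : ℕ, p.Prime → ‖E ψ p‖ ≤ 1) :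
    BddPrimes (fun p => (sumFix e x σ f E p).re) := by
  refine ⟨∑ _ψ : F →ₐ[ℚ] QBar, C, fun p hp => ?_⟩
  refine (Complex.abs_re_le_norm _).trans ?_
  unfold sumFix
  refine (norm_sum_le _ _).trans (Finset.sum_le_sum fun ψ _ => ?_)
  rw [norm_mul]
  calc _ ≤ C * 1 := mul_le_mul (norm_extG_le hC hC0 _) (hE ψ p hp) (norm_nonneg _) hC0
    _ = C := mul_one _

lemma ratio_self_ne {Ψ : Ideal (𝓞 F) → ℂ} (h : IsHecke Ψ) : ¬ InfOrder (ratio Ψ Ψ) := by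
  intro hinf
  obtain ⟨I, h1, h2⟩ := hinf 1 one_pos
  obtain ⟨M, k, τ, hM⟩ := h
  unfold ratio at h1 h2
  have h3 : Ψ I ≠ 0 := fun h0 => h1 (by rw [h0, zero_mul])
  have h4 : ‖Ψ I‖ = 1 := by
    by_cases h5 : I = ⊥ ∨ ¬ IsCoprime I (Ideal.span {(M : 𝓞 F)})
    · exact (h3 (hM.zero I h5)).elim
    · push Not at h5
      exact hM.norm I h5.1 h5.2
  rw [pow_one, Complex.mul_conj, Complex.normSq_eq_norm_sq, h4] at h2
  norm_num at h2

lemma ratio_symm {Ψ Φ : Ideal (𝓞 F) → ℂ} (h : InfOrder (ratio Φ Ψ)) :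
    InfOrder (ratio Ψ Φ) := by
  intro n hn
  obtain ⟨I, h1, h2⟩ := h n hn
  have h3 : ratio Ψ Φ I = (starRingEnd ℂ) (ratio Φ Ψ I) := by
    unfold ratio
    rw [map_mul, Complex.conj_conj, mul_comm]
  refine ⟨I, ?_, ?_⟩
  · rw [h3]
    exact (_root_.map_ne_zero (starRingEnd ℂ)).mpr h1
  · rw [h3, ← map_pow]
    intro h4
    apply h2
    have h5 := congrArg (starRingEnd ℂ) h4
    rwa [Complex.conj_conj, map_one] at h5

lemma EPsi_ratio (𝔓 : ℕ → Ideal ZBar) (Ψ Φ : Ideal (𝓞 F) → ℂ) (ψ : F →ₐ[ℚ] QBar) (p : ℕ) :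
    EPsi 𝔓 (ratio Ψ Φ) ψ p = EPsi 𝔓 Ψ ψ p * (starRingEnd ℂ) (EPsi 𝔓 Φ ψ p) := rfl

lemma ratio_norm_le {Ψ Φ : Ideal (𝓞 F) → ℂ} (h : IsHecke Ψ) (h' : IsHecke Φ) (I : Ideal (𝓞 F)) :
    ‖ratio Ψ Φ I‖ ≤ 1 := by
  unfold ratio
  rw [norm_mul, Complex.norm_conj]
  calc _ ≤ (1 : ℝ) * 1 := mul_le_mul (norm_hecke_le h I) (norm_hecke_le h' I) (norm_nonneg _)
        zero_le_one
    _ = 1 := mul_one _

/-- the mean for a trivial ratio -/
lemma dens_self {x : (F →ₐ[ℚ] QBar) → GQ} {σ : ℕ → GQ} {𝔓 : ℕ → Ideal ZBar}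
    [Finite (GF e ⧸ N.subgroupOf (GF e))]
    (hσ : FrobSysP σ 𝔓) (hP : Parts e x σ 𝔓 N) {Ψ : Ideal (𝓞 F) → ℂ} (h : IsHecke Ψ)
    {f : GF e → ℂ} (hf : ClsF e N f) :
    HasDens (fun p => (sumFix e x σ f (EPsi 𝔓 (ratio Ψ Ψ)) p).re)
      (gavg fun γ : GF e ⧸ N.subgroupOf (GF e) => (f γ.out).re) := by
  obtain ⟨T, hT⟩ := norm_EPsi h
  obtain ⟨C, hC0, hC⟩ := hf.bdd
  refine (hP.mean f hf).congr_finite T (fun p hp hpT => ?_)
    (sumFix_bdd hC0 hC fun ψ p _ => by rw [norm_one])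
    (sumFix_bdd hC0 hC fun ψ p _ => ratio_norm_le h h _)
  congr 1
  unfold sumFix
  refine Finset.sum_congr rfl fun ψ _ => ?_
  rw [EPsi_ratio, Complex.mul_conj, Complex.normSq_eq_norm_sq, hT hσ p hp hpT ψ]
  norm_num

end

section
variable {F : Type} [Field F] [NumberField F] {e : F →ₐ[ℚ] QBar} {ℓ : ℕ} [Fact ℓ.Prime]
  {W : Type*} [AddCommGroup W] [Module ℚ_[ℓ] W] [FiniteDimensional ℚ_[ℓ] W]
  [Algebra ℚ_[ℓ] ℂ]

theorem hecke_core (ρ : Representation ℚ_[ℓ] (GF e) W) (w : ℤ) (S : Finset (Ideal (𝓞 F)))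
    (hpure : ∀ 𝔭 : Ideal (𝓞 F), 𝔭.IsPrime → 𝔭 ≠ ⊥ → 𝔭 ∉ S → IsPureAt ρ w 𝔭)
    (B : Submodule ℚ_[ℓ] W) {L : Type*} [Fintype L] (Φ : L → Ideal (𝓞 F) → ℂ) {U : L → Type*}
    [∀ l, AddCommGroup (U l)] [∀ l, Module ℂ (U l)] [∀ l, FiniteDimensional ℂ (U l)]
    (β : ∀ l, Representation ℂ (GF e) (U l)) (hB : AbelianPart ρ w S B Φ β)
    {J : Type*} [Fintype J] {V : J → Type*} [∀ i, AddCommGroup (V i)]
    [∀ i, Module ℂ (V i)] [∀ i, FiniteDimensional ℂ (V i)]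
    (α : ∀ i, Representation ℂ (GF e) (V i)) (Ψ : J → Ideal (𝓞 F) → ℂ)
    (hα : ∀ i, IsFin (α i)) (hΨ : ∀ i, IsHecke (Ψ i))
    (hne : ∀ i j, i ≠ j → InfOrder (ratio (Ψ i) (Ψ j)) ∨
      (Ψ i = Ψ j ∧ IsEmpty ((α i).Equiv (α j))))
    (hBne : ∀ l i, InfOrder (ratio (Φ l) (Ψ i)) ∨ Φ l = Ψ i)
    (R : J → Ideal (𝓞 F) → ℂ[X]) (Q : Ideal (𝓞 F) → ℂ[X])
    -- the parts
    (hParts : ∀ (σ : ℕ → GQ) (𝔓 : ℕ → Ideal ZBar), FrobSysP σ 𝔓 →
      ∀ (N : Subgroup GQ) [N.Normal] (M : IntermediateField ℚ QBar) [FiniteDimensional ℚ M],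
      N = M.fixingSubgroup → ∀ (j : QBar →ₐ[ℚ] ℂ) (c : GQ),
      (∀ x, j (c x) = (starRingEnd ℂ) (j x)) → c ∉ N → N ≤ GF e →
      ∀ x : (F →ₐ[ℚ] QBar) → GQ, (∀ ψ, x ψ • e = ψ) → Parts e x σ 𝔓 N)
    (hRATIO : ∀ Ψ Φ : Ideal (𝓞 F) → ℂ, IsHecke Ψ → IsHecke Φ → IsHecke (ratio Ψ Φ))
    (hLOG : ∀ (i : J) (x : (F →ₐ[ℚ] QBar) → GQ) (σ : ℕ → GQ) (𝔓 : ℕ → Ideal ZBar),
      (∀ ψ, x ψ • e = ψ) → FrobSysP σ 𝔓 → LogF e ρ w (α i) (Ψ i) (R i) x σ 𝔓)
    (hLOGQ : ∀ (x : (F →ₐ[ℚ] QBar) → GQ) (σ : ℕ → GQ) (𝔓 : ℕ → Ideal ZBar),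
      (∀ ψ, x ψ • e = ψ) → FrobSysP σ 𝔓 → LogF e (selfG ρ B hB.stable) 0
        (Representation.trivial ℂ (GF e) ℂ) (oneH F) Q x σ 𝔓)
    (hORTH : ∀ (i j : J) (N : Subgroup (GF e)) [N.Normal] [Finite (GF e ⧸ N)],
      (∀ g ∈ N, α i g = 1) → (∀ g ∈ N, α j g = 1) →
      (Nonempty ((α i).Equiv (α j)) → gavg (fun γ : GF e ⧸ N =>
        ((α i).character γ.out⁻¹ * (starRingEnd ℂ) ((α j).character γ.out⁻¹)).re) = 1) ∧
      (IsEmpty ((α i).Equiv (α j)) → gavg (fun γ : GF e ⧸ N =>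
        ((α i).character γ.out⁻¹ * (starRingEnd ℂ) ((α j).character γ.out⁻¹)).re) = 0))
    (hINV : ∀ (l : L) (i : J) (N : Subgroup (GF e)) [N.Normal] [Finite (GF e ⧸ N)],
      (∀ g ∈ N, β l g = 1) → (∀ g ∈ N, α i g = 1) →
      gavg (fun γ : GF e ⧸ N => ((β l).character γ.out⁻¹ * (α i).character γ.out⁻¹).re) =
        Module.finrank ℂ ((β l).tprod (α i)).invariants)
    (ε : ℝ) (hε : 0 < ε) :
    ∀ᶠ s : ℝ in 𝓝[>] (1 : ℝ), ∑ i, (defF (abRank Φ β (Ψ i) (α i)) (R i) s) ^ 2 ≤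
      (Real.log ‖LFunF Q s‖ + ε * Real.log (1 / (s - 1))) * Real.log (1 / (s - 1)) ∧
      Real.log ‖LFunF Q s‖ ≤ (((Module.finrank ℚ_[ℓ] W : ℝ) - Module.finrank ℚ_[ℓ] B) ^ 2 + ε) *
        Real.log (1 / (s - 1)) := by
  classical
  obtain ⟨σ, 𝔓, hσ⟩ := exists_frobSysP
  choose x hx using fun ψ : F →ₐ[ℚ] QBar => MulAction.exists_smul_eq GQ e ψ
  choose Fα hFα using hα
  choose Fβ hFβ using hB.finite
  obtain ⟨M, hMfin, hnorm, hMA, hMe⟩ := exists_bigN_le e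
    ((Finset.univ.biUnion Fα ∪ Finset.univ.biUnion Fβ) ∪ {zt 4})
  set N := M.fixingSubgroup with hN
  have hfinN : Finite (GQ ⧸ N) := finite_quot N hN
  obtain ⟨j, c, hc⟩ := exists_conj
  have hcN : c ∉ N := fun h => conj_not_fix j c hc (hMA c h (zt 4)
    (Finset.mem_union_right _ (Finset.mem_singleton_self _)))
  have hP : Parts e x σ 𝔓 N := hParts σ 𝔓 hσ N M hN j c hc hcN hMe x hx
  have hNfi : N.FiniteIndex := Subgroup.finiteIndex_of_finite_quotient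
  set N' := N.subgroupOf (GF e) with hN'
  have hfin' : Finite (GF e ⧸ N') := by infer_instance
  have hαN : ∀ i, ∀ g ∈ N', α i g = 1 := fun i g hg => hFα i g fun y hy =>
    hMA g (Subgroup.mem_subgroupOf.mp hg) y (Finset.mem_union_left _
      (Finset.mem_union_left _ (Finset.mem_biUnion.mpr ⟨i, Finset.mem_univ i, hy⟩)))
  have hβN : ∀ l, ∀ g ∈ N', β l g = 1 := fun l g hg => hFβ l g fun y hy =>
    hMA g (Subgroup.mem_subgroupOf.mp hg) y (Finset.mem_union_left _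
      (Finset.mem_union_right _ (Finset.mem_biUnion.mpr ⟨l, Finset.mem_univ l, hy⟩)))
  set D := (Module.finrank ℚ_[ℓ] W : ℝ) - Module.finrank ℚ_[ℓ] B with hD
  have hD0 : 0 ≤ D := by
    rw [hD, sub_nonneg]
    exact_mod_cast Submodule.finrank_le B
  -- characters
  set χ : J → GF e → ℂ := fun i g => (α i).character g⁻¹ with hχ
  set η : L → GF e → ℂ := fun l g => (β l).character g⁻¹ with hη
  have hχc : ∀ i, ClsF e N (χ i) := fun i => clsF_char (α i) (hαN i)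
  have hηc : ∀ l, ClsF e N (η l) := fun l => clsF_char (β l) (hβN l)
  choose Cχ hCχ0 hCχ using fun i => (hχc i).bdd
  choose Cη hCη0 hCη using fun l => (hηc l).bdd
  set gg : ℕ → (F →ₐ[ℚ] QBar) → GQ := fun p ψ => (x ψ)⁻¹ * σ p * x ψ with hgg
  set Z : J → ℕ → (F →ₐ[ℚ] QBar) → ℂ := fun i p ψ =>
    extG e (χ i) (gg p ψ) * EPsi 𝔓 (Ψ i) ψ p with hZ
  set wt : ℕ → (F →ₐ[ℚ] QBar) → ℝ := fun p ψ => if σ p • ψ = ψ then 1 else 0 with hwt
  have hgm : ∀ p ψ, gg p ψ ∈ GF e ↔ σ p • ψ = ψ := fun p ψ => conj_mem_GF (hx ψ)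
  have hZb : ∀ i, ∀ p : ℕ, p.Prime → ∀ ψ, ‖Z i p ψ‖ ≤ Cχ i := by
    intro i p hp ψ
    simp only [hZ]
    rw [norm_mul]
    calc _ ≤ Cχ i * 1 := mul_le_mul (norm_extG_le (hCχ i) (hCχ0 i) _)
          (norm_EPsi_le (hΨ i) 𝔓 ψ p) (norm_nonneg _) (hCχ0 i)
      _ = Cχ i := mul_one _
  obtain ⟨T, hT⟩ := exists_bad_primes S
  set tW : GF e → ℂ := fun g => algebraMap ℚ_[ℓ] ℂ (LinearMap.trace ℚ_[ℓ] W (ρ g⁻¹)) with htW
  set A : ℕ → (F →ₐ[ℚ] QBar) → ℂ := fun p ψ => if p ∈ T then 0 else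
    extG e tW (gg p ψ) * (((p : ℝ) ^ (-(w : ℝ) / 2) : ℝ) : ℂ) -
      ∑ l, extG e (η l) (gg p ψ) * (starRingEnd ℂ) (EPsi 𝔓 (Φ l) ψ p) with hA
  -- the value of `A`
  have hAval : ∀ p : ℕ, p.Prime → p ∉ T → ∀ ψ, σ p • ψ = ψ → ∃ hmem : gg p ψ ∈ GF e,
      A p ψ = (((p : ℝ) ^ (-(w : ℝ) / 2) : ℝ) : ℂ) *
        (algebraMap ℚ_[ℓ] ℂ (LinearMap.trace ℚ_[ℓ] W (ρ (⟨gg p ψ, hmem⟩ : GF e)⁻¹)) -
          algebraMap ℚ_[ℓ] ℂ (LinearMap.trace ℚ_[ℓ] B ((ρ (⟨gg p ψ, hmem⟩ : GF e)⁻¹).restrict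
            (hB.stable _)))) ∧
      (∀ z : ℂ, ((ρ (⟨gg p ψ, hmem⟩ : GF e)⁻¹).charpoly.map (algebraMap ℚ_[ℓ] ℂ)).eval z = 0 →
        ‖z‖ = (p : ℝ) ^ ((w : ℝ) / 2)) ∧ (𝔓 p).comap (intMap ψ) ≠ ⊥ := by
    intro p hp hpT ψ hfix
    have hmem : gg p ψ ∈ GF e := (hgm p ψ).mpr hfix
    obtain ⟨hnm, hfr⟩ := isFrobAt_conj (hx ψ) hp (hσ p hp).1 (hσ p hp).2.1 (hσ p hp).2.2 hfix
    have h𝔭p : ((𝔓 p).comap (intMap ψ)).IsPrime := by
      have := (hσ p hp).1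
      exact Ideal.comap_isPrime _ _
    have h𝔭0 : (𝔓 p).comap (intMap ψ) ≠ ⊥ := by
      intro h0
      rw [h0, Ideal.absNorm_bot] at hnm
      exact hp.ne_zero hnm.symm
    have h𝔭S : (𝔓 p).comap (intMap ψ) ∉ S := hT _ (by rw [hnm]; exact hpT)
    have hpu := hpure _ h𝔭p h𝔭0 h𝔭S
    have htr := hB.trace _ h𝔭p h𝔭0 h𝔭S _ hfr
    refine ⟨hmem, ?_, fun z hz => by rw [hpu.pure _ hfr z hz, hnm], h𝔭0⟩
    rw [hnm] at htr
    have hp0 : (0 : ℝ) < p := by exact_mod_cast hp.pos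
    have hpw : (p : ℝ) ^ (-(w : ℝ) / 2) * (p : ℝ) ^ ((w : ℝ) / 2) = 1 := by
      rw [← Real.rpow_add hp0]
      have : -(w : ℝ) / 2 + (w : ℝ) / 2 = 0 := by ring
      rw [this, Real.rpow_zero]
    have hpwC : (((p : ℝ) ^ (-(w : ℝ) / 2) : ℝ) : ℂ) * (((p : ℝ) ^ ((w : ℝ) / 2) : ℝ) : ℂ) =
        1 := by
      rw [← Complex.ofReal_mul, hpw, Complex.ofReal_one]
    simp only [hA]
    rw [if_neg hpT, mul_sub, htr, ← mul_assoc, hpwC, one_mul, extG_mem hmem, mul_comm]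
    congr 1
    refine Finset.sum_congr rfl fun l _ => ?_
    rw [extG_mem hmem, mul_comm]
    rfl
  have hA0 : ∀ p ψ, ¬ σ p • ψ = ψ → A p ψ = 0 := by
    intro p ψ hfix
    have hmem : gg p ψ ∉ GF e := fun h => hfix ((hgm p ψ).mp h)
    simp only [hA]
    split_ifs with hpT
    · rfl
    rw [extG_not hmem, zero_mul, zero_sub]
    have h2 : ∑ l, extG e (η l) (gg p ψ) * (starRingEnd ℂ) (EPsi 𝔓 (Φ l) ψ p) = 0 :=
      Finset.sum_eq_zero fun l _ => by rw [extG_not hmem, zero_mul]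
    rw [h2, neg_zero]
  have hAb : ∀ p : ℕ, p.Prime → ∀ ψ, ‖A p ψ‖ ≤ D * wt p ψ := by
    intro p hp ψ
    by_cases hpT : p ∈ T
    · simp only [hA, hwt]
      rw [if_pos hpT, norm_zero]
      split_ifs
      · rw [mul_one]; exact hD0
      · rw [mul_zero]
    by_cases hfix : σ p • ψ = ψ
    · simp only [hwt]
      rw [if_pos hfix, mul_one]
      obtain ⟨hmem, hval, hroot, -⟩ := hAval p hp hpT ψ hfix
      have hbd := trace_sub_restrict_le (algebraMap ℚ_[ℓ] ℂ) (ρ (⟨gg p ψ, hmem⟩ : GF e)⁻¹) B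
        (hB.stable _) ((p : ℝ) ^ ((w : ℝ) / 2)) (fun z hz => (hroot z hz).le)
      have hp0 : (0 : ℝ) < p := by exact_mod_cast hp.pos
      have hpw : (p : ℝ) ^ (-(w : ℝ) / 2) * (p : ℝ) ^ ((w : ℝ) / 2) = 1 := by
        rw [← Real.rpow_add hp0]
        have : -(w : ℝ) / 2 + (w : ℝ) / 2 = 0 := by ring
        rw [this, Real.rpow_zero]
      rw [hval, norm_mul, Complex.norm_real, Real.norm_eq_abs,
        abs_of_nonneg (Real.rpow_nonneg hp0.le _)]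
      calc _ ≤ (p : ℝ) ^ (-(w : ℝ) / 2) * (D * (p : ℝ) ^ ((w : ℝ) / 2)) :=
            mul_le_mul_of_nonneg_left hbd (Real.rpow_nonneg hp0.le _)
        _ = D * ((p : ℝ) ^ (-(w : ℝ) / 2) * (p : ℝ) ^ ((w : ℝ) / 2)) := by ring
        _ = D := by rw [hpw, mul_one]
    · rw [hA0 p ψ hfix, norm_zero]
      simp only [hwt]
      rw [if_neg hfix, mul_zero]
  -- the weights
  have hwsum : ∀ p, ∑ ψ, wt p ψ = fixCount F (σ p) := by
    intro p
    rw [fixCount_eq_card, Nat.card_eq_fintype_card, Fintype.card_subtype]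
    simp only [hwt]
    rw [Finset.sum_boole]
  have hw : HasDens (fun p => ∑ ψ, wt p ψ) 1 :=
    HasDens.congr' (HasMean.dens (fixCount_mean' F (FrobSysP.frobSys hσ))) fun p _ => hwsum p
  have hwZ : ∀ p ψ i, (wt p ψ : ℂ) * Z i p ψ = Z i p ψ := by
    intro p ψ i
    simp only [hwt]
    by_cases hfix : σ p • ψ = ψ
    · rw [if_pos hfix]; norm_num
    · rw [if_neg hfix]
      have hmem : gg p ψ ∉ GF e := fun h => hfix ((hgm p ψ).mp h)
      simp only [hZ]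
      rw [extG_not hmem]
      simp
  -- the Gram matrix
  have hgram : ∀ i i', HasDens (fun p => ∑ ψ, wt p ψ * (Z i p ψ *
      (starRingEnd ℂ) (Z i' p ψ)).re) (if i = i' then 1 else 0) := by
    intro i i'
    have hcl : ClsF e N (fun g => χ i g * (starRingEnd ℂ) (χ i' g)) := (hχc i).mul (hχc i').star
    have heq : ∀ p : ℕ, ∑ ψ, wt p ψ * (Z i p ψ * (starRingEnd ℂ) (Z i' p ψ)).re =
        (sumFix e x σ (fun g => χ i g * (starRingEnd ℂ) (χ i' g))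
          (EPsi 𝔓 (ratio (Ψ i) (Ψ i'))) p).re := by
      intro p
      unfold sumFix
      rw [Complex.re_sum]
      refine Finset.sum_congr rfl fun ψ _ => ?_
      rw [← Complex.re_ofReal_mul, ← mul_assoc, hwZ]
      congr 1
      simp only [hZ]
      rw [EPsi_ratio, ← extG_mul_conj, map_mul]
      ring
    have hself : Ψ i = Ψ i' → HasDens (fun p => ∑ ψ, wt p ψ * (Z i p ψ *
      (starRingEnd ℂ) (Z i' p ψ)).re) (gavg fun γ : GF e ⧸ N' =>
        ((α i).character γ.out⁻¹ * (starRingEnd ℂ) ((α i').character γ.out⁻¹)).re) := by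
      intro h
      have h1 := dens_self hσ hP (hΨ i) hcl
      refine HasDens.congr' h1 fun p _ => ?_
      rw [heq, ← h]
    by_cases hij : i = i'
    · subst hij
      rw [if_pos rfl]
      have h1 := hself rfl
      rwa [(hORTH i i N' (hαN i) (hαN i)).1 ⟨Representation.Equiv.refl (α i)⟩] at h1
    · rw [if_neg hij]
      rcases hne i i' hij with h | ⟨h, hemp⟩
      · refine HasDens.congr' (hP.inf _ (hRATIO _ _ (hΨ i) (hΨ i')) h _ hcl) fun p _ => heq p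
      · have h1 := hself h
        rwa [(hORTH i i' N' (hαN i) (hαN i')).2 hemp] at h1
  -- the density of the abelian part
  have habel : ∀ l i, HasDens (fun p => (sumFix e x σ (fun g => η l g * χ i g)
      (EPsi 𝔓 (ratio (Ψ i) (Φ l))) p).re)
      (if Φ l = Ψ i then (Module.finrank ℂ ((β l).tprod (α i)).invariants : ℝ) else 0) := by
    intro l i
    have hcl : ClsF e N (fun g => η l g * χ i g) := (hηc l).mul (hχc i)
    by_cases h : Φ l = Ψ i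
    · rw [if_pos h, h]
      have h1 := dens_self hσ hP (hΨ i) hcl
      have h2 := hINV l i N' (hβN l) (hαN i)
      simp only [hη, hχ] at h1
      rw [h2] at h1
      exact h1
    · rw [if_neg h]
      have h1 : InfOrder (ratio (Φ l) (Ψ i)) := (hBne l i).resolve_right h
      exact hP.inf _ (hRATIO _ _ (hΨ i) (hB.hecke l)) (ratio_symm h1) _ hcl
  have hηχb : ∀ l i, BddPrimes (fun p => (sumFix e x σ (fun g => η l g * χ i g)
      (EPsi 𝔓 (ratio (Ψ i) (Φ l))) p).re) := by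
    intro l i
    obtain ⟨C, hC0, hC⟩ := ((hηc l).mul (hχc i)).bdd
    exact sumFix_bdd hC0 hC fun ψ p _ => ratio_norm_le (hΨ i) (hB.hecke l) _
  set ab : J → ℕ → ℝ := fun i p => ∑ l, (sumFix e x σ (fun g => η l g * χ i g)
      (EPsi 𝔓 (ratio (Ψ i) (Φ l))) p).re with hab
  have habd : ∀ i, HasDens (ab i) (abRank Φ β (Ψ i) (α i)) := by
    intro i
    have h1 := HasDens.sum Finset.univ (fun l _ => habel l i) (fun l _ => hηχb l i)
    have h2 : ((abRank Φ β (Ψ i) (α i) : ℕ) : ℝ) = ∑ l, (if Φ l = Ψ i then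
        (Module.finrank ℂ ((β l).tprod (α i)).invariants : ℝ) else 0) := by
      unfold abRank
      push_cast
      refine Finset.sum_congr rfl fun l _ => ?_
      split_ifs <;> simp
    rw [h2]
    exact h1
  have habb : ∀ i, BddPrimes (ab i) := by
    intro i
    choose C hC using fun l => hηχb l i
    refine ⟨∑ l, C l, fun p hp => ?_⟩
    exact (Finset.abs_sum_le_sum_abs _ _).trans (Finset.sum_le_sum fun l _ => hC l p hp)
  -- the main sums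
  set mn : J → ℕ → ℝ := fun i p => ∑ ψ, (A p ψ * Z i p ψ).re with hmn
  have hmnb : ∀ i, BddPrimes (mn i) := by
    intro i
    refine ⟨∑ _ψ : F →ₐ[ℚ] QBar, D * Cχ i, fun p hp => ?_⟩
    refine (Finset.abs_sum_le_sum_abs _ _).trans (Finset.sum_le_sum fun ψ _ => ?_)
    refine (Complex.abs_re_le_norm _).trans ?_
    rw [norm_mul]
    refine mul_le_mul ((hAb p hp ψ).trans ?_) (hZb i p hp ψ) (norm_nonneg _) hD0
    calc D * wt p ψ ≤ D * 1 := by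
          refine mul_le_mul_of_nonneg_left ?_ hD0
          simp only [hwt]
          split_ifs <;> norm_num
      _ = D := mul_one _
  set lg : J → ℕ → ℝ := fun i p => (sumFix e x σ (trWV ρ (α i))
      (fun ψ p => EPsi 𝔓 (Ψ i) ψ p * (((p : ℝ) ^ (-(w : ℝ) / 2) : ℝ) : ℂ)) p).re with hlg
  have hlgeq : ∀ i, ∀ p : ℕ, p.Prime → p ∉ T → lg i p = mn i p + ab i p := by
    intro i p hp hpT
    simp only [hlg, hmn, hab]
    have h1 : ∑ ψ, (A p ψ * Z i p ψ).re = (∑ ψ, A p ψ * Z i p ψ).re := (Complex.re_sum _ _).symm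
    have h2 : ∑ l, (sumFix e x σ (fun g => η l g * χ i g)
      (EPsi 𝔓 (ratio (Ψ i) (Φ l))) p).re = (∑ l, sumFix e x σ (fun g => η l g * χ i g)
      (EPsi 𝔓 (ratio (Ψ i) (Φ l))) p).re := (Complex.re_sum _ _).symm
    rw [h1, h2, ← Complex.add_re]
    congr 1
    unfold sumFix
    rw [Finset.sum_comm, ← Finset.sum_add_distrib]
    refine Finset.sum_congr rfl fun ψ _ => ?_
    have h3 : extG e (trWV ρ (α i)) ((x ψ)⁻¹ * σ p * x ψ) =
        extG e tW (gg p ψ) * extG e (χ i) (gg p ψ) := by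
      rw [extG_mul]
      rfl
    simp only [hA, hZ]
    rw [if_neg hpT, h3, sub_mul, Finset.sum_mul]
    have h4 : ∀ l, extG e (fun g => η l g * χ i g) ((x ψ)⁻¹ * σ p * x ψ) *
        EPsi 𝔓 (ratio (Ψ i) (Φ l)) ψ p = extG e (η l) (gg p ψ) *
        (starRingEnd ℂ) (EPsi 𝔓 (Φ l) ψ p) * (extG e (χ i) (gg p ψ) * EPsi 𝔓 (Ψ i) ψ p) := by
      intro l
      rw [← extG_mul, EPsi_ratio]
      ring
    rw [Finset.sum_congr rfl fun l _ => h4 l]
    ring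
  have hlgb : ∀ i, BddPrimes (lg i) := by
    intro i
    obtain ⟨C1, hC1⟩ := hmnb i
    obtain ⟨C2, hC2⟩ := habb i
    refine bdd_of_outside T (C1 + C2) fun p hp hpT => ?_
    rw [hlgeq i p hp hpT]
    exact (abs_add_le _ _).trans (add_le_add (hC1 p hp) (hC2 p hp))
  have hcmp : ∀ i, ∀ δ : ℝ, 0 < δ → ∀ᶠ s : ℝ in 𝓝[>] (1 : ℝ),
      |defF (abRank Φ β (Ψ i) (α i)) (R i) s - RR (mn i) s| ≤
        δ * Real.log (1 / (s - 1)) := by
    intro i δ hδ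
    obtain ⟨C1, hC1⟩ := hLOG i x σ 𝔓 hx hσ
    obtain ⟨Cm, hCm⟩ := hmnb i
    obtain ⟨Ca, hCa⟩ := habb i
    have hb2 : BddPrimes (fun p => mn i p + ab i p) :=
      ⟨Cm + Ca, fun p hp => (abs_add_le _ _).trans (add_le_add (hCm p hp) (hCa p hp))⟩
    obtain ⟨C2, hC2⟩ := RR_near T (hlgeq i) (hlgb i) hb2
    filter_upwards [hC1, habd i (δ / 2) (by positivity), self_mem_nhdsWithin,
      eventually_log_ge (2 * (C1 + C2) / δ)] with s h1 h2 h3 h4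
    set Lg := Real.log (1 / (s - 1)) with hLg
    have h3' : 1 < s := h3
    have h6 := hC2 s h3'
    have h7 : RR (fun p => mn i p + ab i p) s = RR (mn i) s + RR (ab i) s := RR_add hCm hCa h3'
    rw [h7] at h6
    have h8 : C1 + C2 ≤ δ / 2 * Lg := by
      rw [div_le_iff₀ hδ] at h4
      linarith
    have h9 := abs_le.mp h1
    have h10 := abs_le.mp h6
    have h11 := abs_le.mp h2
    unfold defF
    rw [← hLg, abs_le]
    simp only [hlg] at h10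
    constructor
    · linarith [h9.1, h10.1, h11.1]
    · linarith [h9.2, h10.2, h11.2]
  have hbes := bessel_L2 A Z wt D hD0 Cχ (fun p _ ψ => by
      simp only [hwt]
      split_ifs
      · exact Or.inr rfl
      · exact Or.inl rfl) hAb hZb hgram
  -- the square of `A`
  set sq : ℕ → ℝ := fun p => ∑ ψ, ‖A p ψ‖ ^ 2 with hsq
  have hsqle : ∀ p : ℕ, p.Prime → sq p ≤ D ^ 2 * ∑ ψ, wt p ψ := by
    intro p hp
    simp only [hsq]
    rw [Finset.mul_sum]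
    refine Finset.sum_le_sum fun ψ _ => ?_
    have h1 := pow_le_pow_left₀ (norm_nonneg _) (hAb p hp ψ) 2
    have h2 : wt p ψ ^ 2 = wt p ψ := by
      simp only [hwt]
      split_ifs <;> norm_num
    rwa [mul_pow, h2] at h1
  have hsq0 : ∀ p, 0 ≤ sq p := fun p => Finset.sum_nonneg fun ψ _ => sq_nonneg _
  have hwtb : ∀ p : ℕ, p.Prime → |∑ ψ, wt p ψ| ≤ Fintype.card (F →ₐ[ℚ] QBar) := by
    intro p hp
    refine (Finset.abs_sum_le_sum_abs _ _).trans ?_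
    have h1 : ∀ ψ ∈ (Finset.univ : Finset (F →ₐ[ℚ] QBar)), |wt p ψ| ≤ 1 := by
      intro ψ _
      simp only [hwt]
      split_ifs <;> norm_num
    refine (Finset.sum_le_sum h1).trans ?_
    rw [Finset.sum_const, Finset.card_univ, nsmul_eq_mul, mul_one]
  have hsqb : BddPrimes sq := by
    refine ⟨D ^ 2 * Fintype.card (F →ₐ[ℚ] QBar), fun p hp => ?_⟩
    rw [abs_of_nonneg (hsq0 p)]
    exact (hsqle p hp).trans (mul_le_mul_of_nonneg_left
      ((le_abs_self _).trans (hwtb p hp)) (sq_nonneg _))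
  have hsqup : ∀ δ : ℝ, 0 < δ → ∀ᶠ s : ℝ in 𝓝[>] (1 : ℝ),
      RR sq s ≤ D ^ 2 * (1 + δ) * Real.log (1 / (s - 1)) := by
    intro δ hδ
    filter_upwards [hw δ hδ, self_mem_nhdsWithin] with s h1 h2
    have h3 : RR sq s ≤ RR (fun p => D ^ 2 * ∑ ψ, wt p ψ) s :=
      RR_mono hsqb ⟨D ^ 2 * Fintype.card (F →ₐ[ℚ] QBar), fun p hp => by
        rw [abs_mul, abs_of_nonneg (sq_nonneg D)]
        exact mul_le_mul_of_nonneg_left (hwtb p hp) (sq_nonneg _)⟩ hsqle h2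
    rw [RR_const_mul] at h3
    have h4 := (abs_le.mp h1).2
    have h5 : RR (fun p => ∑ ψ, wt p ψ) s ≤ (1 + δ) * Real.log (1 / (s - 1)) := by linarith
    calc _ ≤ D ^ 2 * RR (fun p => ∑ ψ, wt p ψ) s := h3
      _ ≤ D ^ 2 * ((1 + δ) * Real.log (1 / (s - 1))) :=
          mul_le_mul_of_nonneg_left h5 (sq_nonneg _)
      _ = _ := by ring
  have hQlog : ∃ C : ℝ, ∀ᶠ s : ℝ in 𝓝[>] (1 : ℝ), |Real.log ‖LFunF Q s‖ - RR sq s| ≤ C := by
    obtain ⟨C1, hC1⟩ := hLOGQ x σ 𝔓 hx hσ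
    set lq : ℕ → ℝ := fun p => (sumFix e x σ (trWV (selfG ρ B hB.stable)
      (Representation.trivial ℂ (GF e) ℂ)) (fun ψ p => EPsi 𝔓 (oneH F) ψ p *
        (((p : ℝ) ^ (-((0 : ℤ) : ℝ) / 2) : ℝ) : ℂ)) p).re with hlq
    have hlqeq : ∀ p : ℕ, p.Prime → p ∉ T → lq p = sq p := by
      intro p hp hpT
      simp only [hlq, hsq]
      unfold sumFix
      rw [Complex.re_sum]
      refine Finset.sum_congr rfl fun ψ _ => ?_
      by_cases hfix : σ p • ψ = ψ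
      · obtain ⟨hmem, hval, hroot, hne0⟩ := hAval p hp hpT ψ hfix
        have hmem' : (x ψ)⁻¹ * σ p * x ψ ∈ GF e := hmem
        have hp0 : (0 : ℝ) < p := by exact_mod_cast hp.pos
        have h1 := trace_selfG_norm ρ B hB.stable (algebraMap ℚ_[ℓ] ℂ)
          (⟨gg p ψ, hmem⟩ : GF e)⁻¹ (r := (p : ℝ) ^ ((w : ℝ) / 2)) (Real.rpow_pos_of_pos hp0 _)
          (fun z hz => hroot z (Polynomial.isRoot_of_mem_roots hz))
        have h2 : EPsi 𝔓 (oneH F) ψ p = 1 := by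
          unfold EPsi oneH
          rw [if_neg hne0]
        have h3 : (Representation.trivial ℂ (GF e) ℂ).character
            (⟨gg p ψ, hmem⟩ : GF e)⁻¹ = 1 := by
          unfold Representation.character
          have h4 : Representation.trivial ℂ (GF e) ℂ (⟨gg p ψ, hmem⟩ : GF e)⁻¹ =
            LinearMap.id := rfl
          rw [h4, LinearMap.trace_id]
          simp
        have h5 : trWV (selfG ρ B hB.stable) (Representation.trivial ℂ (GF e) ℂ)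
            ⟨(x ψ)⁻¹ * σ p * x ψ, hmem'⟩ = ((‖A p ψ‖ ^ 2 : ℝ) : ℂ) := by
          unfold trWV
          have h6 : (⟨(x ψ)⁻¹ * σ p * x ψ, hmem'⟩ : GF e) = ⟨gg p ψ, hmem⟩ := rfl
          rw [h6, h3, mul_one, h1, hval, norm_mul, Complex.norm_real, Real.norm_eq_abs,
            abs_of_nonneg (Real.rpow_nonneg hp0.le _)]
          have h7 : (p : ℝ) ^ (-(w : ℝ) / 2) = ((p : ℝ) ^ ((w : ℝ) / 2))⁻¹ := by
            rw [← Real.rpow_neg hp0.le]
            congr 1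
            ring
          rw [h7, div_eq_inv_mul]
        rw [extG_mem hmem']
        beta_reduce
        rw [h2, h5, Int.cast_zero, neg_zero, zero_div, Real.rpow_zero, Complex.ofReal_one,
          mul_one, mul_one, Complex.ofReal_re]
      · have hmem : (x ψ)⁻¹ * σ p * x ψ ∉ GF e := fun h => hfix ((hgm p ψ).mp h)
        rw [extG_not hmem, hA0 p ψ hfix, zero_mul]
        simp
    have hlqb : BddPrimes lq := by
      obtain ⟨C, hC⟩ := hsqb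
      refine bdd_of_outside T C fun p hp hpT => ?_
      rw [hlqeq p hp hpT]
      exact hC p hp
    obtain ⟨C2, hC2⟩ := RR_near T hlqeq hlqb hsqb
    refine ⟨C1 + C2, ?_⟩
    filter_upwards [hC1, self_mem_nhdsWithin] with s h1 h2
    have h3 := hC2 s h2
    have h4 := abs_sub_le (Real.log ‖LFunF Q s‖) (RR lq s) (RR sq s)
    exact h4.trans (add_le_add h1 h3)
  have hmain2 : ∀ᶠ s : ℝ in 𝓝[>] (1 : ℝ), Real.log ‖LFunF Q s‖ ≤ (D ^ 2 + ε) *
        Real.log (1 / (s - 1)) := by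
    obtain ⟨C, hC⟩ := hQlog
    filter_upwards [hC, hsqup (ε / (2 * (D ^ 2 + 1))) (by positivity),
      eventually_log_ge (2 * |C| / ε)] with s h1 h2 h3
    have h4 := (abs_le.mp h1).2
    have h5 : |C| ≤ ε / 2 * Real.log (1 / (s - 1)) := by
      rw [div_le_iff₀ hε] at h3
      linarith
    have h6 : D ^ 2 * (1 + ε / (2 * (D ^ 2 + 1))) ≤ D ^ 2 + ε / 2 := by
      have h7 : D ^ 2 * (ε / (2 * (D ^ 2 + 1))) ≤ ε / 2 := by
        rw [mul_div_assoc', div_le_iff₀ (by positivity)]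
        nlinarith
      linarith
    have h8 : 0 ≤ Real.log (1 / (s - 1)) := le_trans (by positivity) h3
    have h9 := mul_le_mul_of_nonneg_right h6 h8
    have h10 := le_abs_self C
    linarith
  have hmain : ∀ᶠ s : ℝ in 𝓝[>] (1 : ℝ), ∑ i, (defF (abRank Φ β (Ψ i) (α i)) (R i) s) ^ 2 ≤
      (Real.log ‖LFunF Q s‖ + ε * Real.log (1 / (s - 1))) * Real.log (1 / (s - 1)) := by
    refine eventually_perturb_rs (fun i s => defF (abRank Φ β (Ψ i) (α i)) (R i) s)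
      (fun i s => RR (mn i) s) (RR sq) (fun s => Real.log ‖LFunF Q s‖) (D ^ 2 * (1 + 1))
      (by positivity) ?_ (fun ε' hε' => hbes ε' hε') (fun i δ hδ => ?_) hQlog ε hε
    · filter_upwards [hsqup 1 one_pos] with s h1
      exact ⟨RR_nonneg (fun p _ => hsq0 p) s, h1⟩
    exact hcmp i δ hδ
  filter_upwards [hmain, hmain2] with s h1 h2
  exact ⟨h1, h2⟩

end

end TatePole.HK
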