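import Mathlib
import Pool.Agent.Lib.MP_058a58_ag.HK.Stm2
import Pool.Agent.Lib.MP_058a58_ag.AT.BigPrime

/-!
# The mean of the sums over the fixed embeddings
-/

open Polynomial Filter Topology NumberField

namespace TatePole

open AT

section
variable {F : Type} [Field F] [NumberField F]

lemma gf_smul {e : F →ₐ[ℚ] QBar} {g : GQ} (hg : g ∈ GF e) : g • e = e := mem_GF.mp hg

lemma extG_mem {e : F →ₐ[ℚ] QBar} (f : GF e → ℂ) {g : GQ} (hg : g ∈ GF e) :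
    extG e f g = f ⟨g, hg⟩ := dif_pos hg

lemma extG_not_mem {e : F →ₐ[ℚ] QBar} (f : GF e → ℂ) {g : GQ} (hg : g ∉ GF e) :
    extG e f g = 0 := dif_neg hg

variable {e : F →ₐ[ℚ] QBar} {N : Subgroup GQ} {f : GF e → ℂ}

lemma extG_mul (hN : N ≤ GF e) (hf : ClsF e N f) (g : GQ) {n : GQ} (hn : n ∈ N) :
    extG e f (g * n) = extG e f g := by
  by_cases hg : g ∈ GF e
  · rw [extG_mem f ((GF e).mul_mem hg (hN hn)), extG_mem f hg]
    exact hf.inv ⟨g, hg⟩ ⟨n, hN hn⟩ hn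
  · rw [extG_not_mem f hg, extG_not_mem f]
    intro h
    exact hg ((Subgroup.mul_mem_cancel_right _ (hN hn)).mp h)

lemma extG_conj (hf : ClsF e N f) {x : GQ} (hx : x ∈ GF e) (g : GQ) :
    extG e f (x⁻¹ * g * x) = extG e f g := by
  by_cases hg : g ∈ GF e
  · rw [extG_mem f ((GF e).mul_mem ((GF e).mul_mem ((GF e).inv_mem hx) hg) hx), extG_mem f hg]
    exact hf.cls ⟨x, hx⟩ ⟨g, hg⟩
  · rw [extG_not_mem f hg, extG_not_mem f]
    intro h
    apply hg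
    have h1 := (GF e).mul_mem ((GF e).mul_mem hx h) ((GF e).inv_mem hx)
    have h2 : x * (x⁻¹ * g * x) * x⁻¹ = g := by group
    rwa [h2] at h1

lemma extG_inv (hf : ClsF e N f) (g : GQ) :
    extG e f g⁻¹ = (starRingEnd ℂ) (extG e f g) := by
  by_cases hg : g ∈ GF e
  · rw [extG_mem f ((GF e).inv_mem hg), extG_mem f hg]
    exact hf.conj ⟨g, hg⟩
  · rw [extG_not_mem f hg, extG_not_mem f, map_zero]
    intro h
    exact hg ((GF e).inv_mem_iff.mp h)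

/-- the induced class function -/
noncomputable def indF (e : F →ₐ[ℚ] QBar) (x : (F →ₐ[ℚ] QBar) → GQ) (f : GF e → ℂ) (g : GQ) : ℂ :=
  ∑ ψ : F →ₐ[ℚ] QBar, extG e f ((x ψ)⁻¹ * g * x ψ)

variable {x : (F →ₐ[ℚ] QBar) → GQ}

lemma indF_mul [N.Normal] (hN : N ≤ GF e) (hf : ClsF e N f) (g : GQ) {n : GQ} (hn : n ∈ N) :
    indF e x f (g * n) = indF e x f g := by
  unfold indF
  refine Finset.sum_congr rfl fun ψ _ => ?_
  have h : (x ψ)⁻¹ * (g * n) * x ψ = (x ψ)⁻¹ * g * x ψ * ((x ψ)⁻¹ * n * x ψ) := by group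
  rw [h]
  refine extG_mul hN hf _ ?_
  have h2 := (inferInstance : N.Normal).conj_mem n hn (x ψ)⁻¹
  rwa [inv_inv] at h2

lemma indF_conj (hx : ∀ ψ, x ψ • e = ψ) (hf : ClsF e N f) (y g : GQ) :
    indF e x f (y⁻¹ * g * y) = indF e x f g := by
  unfold indF
  rw [← Equiv.sum_comp (MulAction.toPerm y : Equiv.Perm (F →ₐ[ℚ] QBar))
    fun ψ => extG e f ((x ψ)⁻¹ * g * x ψ)]
  refine Finset.sum_congr rfl fun ψ _ => ?_
  show _ = extG e f ((x (y • ψ))⁻¹ * g * x (y • ψ))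
  -- `y * x ψ = x (y • ψ) * h`
  have hh : (x (y • ψ))⁻¹ * (y * x ψ) ∈ GF e := by
    rw [mem_GF, mul_smul, mul_smul, hx, inv_smul_eq_iff, hx]
  rw [← extG_conj hf hh ((x (y • ψ))⁻¹ * g * x (y • ψ))]
  congr 1
  group

lemma indF_inv (hf : ClsF e N f) (g : GQ) :
    indF e x f g⁻¹ = (starRingEnd ℂ) (indF e x f g) := by
  unfold indF
  rw [map_sum]
  refine Finset.sum_congr rfl fun ψ _ => ?_
  rw [← extG_inv hf, show ((x ψ)⁻¹ * g * x ψ)⁻¹ = (x ψ)⁻¹ * g⁻¹ * x ψ by group]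

/-- the natural map from `GF e / N` to `GQ / N` -/
noncomputable def iotaF (e : F →ₐ[ℚ] QBar) (N : Subgroup GQ) [N.Normal] :
    GF e ⧸ N.subgroupOf (GF e) →* GQ ⧸ N :=
  QuotientGroup.map (N.subgroupOf (GF e)) N (GF e).subtype (fun _ h => h)

lemma iotaF_mk [N.Normal] (g : GF e) :
    iotaF e N (g : GF e ⧸ N.subgroupOf (GF e)) = ((g : GQ) : GQ ⧸ N) := rfl

lemma iotaF_injective [N.Normal] : Function.Injective (iotaF e N) := by
  rw [injective_iff_map_eq_one]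
  intro a ha
  obtain ⟨g, rfl⟩ := QuotientGroup.mk_surjective a
  rw [iotaF_mk, QuotientGroup.eq_one_iff] at ha
  rw [QuotientGroup.eq_one_iff]
  exact ha

/-- `GQ / N` is the disjoint union of the cosets of `GF e / N` -/
lemma card_cosets [N.Normal] (hN : N ≤ GF e) (hx : ∀ ψ, x ψ • e = ψ) :
    Nat.card (GQ ⧸ N) = Nat.card (F →ₐ[ℚ] QBar) * Nat.card (GF e ⧸ N.subgroupOf (GF e)) := by
  rw [← Nat.card_prod]
  refine (Nat.card_congr (Equiv.ofBijective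
    (fun q : (F →ₐ[ℚ] QBar) × (GF e ⧸ N.subgroupOf (GF e)) => (x q.1 : GQ ⧸ N) * iotaF e N q.2)
    ⟨?_, ?_⟩)).symm
  · rintro ⟨ψ, a⟩ ⟨ψ', a'⟩ h
    obtain ⟨g, rfl⟩ := QuotientGroup.mk_surjective a
    obtain ⟨g', rfl⟩ := QuotientGroup.mk_surjective a'
    have h' : ((x ψ * g : GQ) : GQ ⧸ N) = ((x ψ' * g' : GQ) : GQ ⧸ N) := h
    have h1 : ψ = ψ' := by
      rw [QuotientGroup.eq] at h'
      have h2 := gf_smul (hN h')
      rw [mul_smul, inv_smul_eq_iff, mul_smul, mul_smul, gf_smul g.2, gf_smul g'.2, hx, hx] at h2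
      exact h2.symm
    subst h1
    have h2 : iotaF e N (g : GF e ⧸ N.subgroupOf (GF e)) = iotaF e N g' := mul_left_cancel h
    rw [iotaF_injective h2]
  · intro γ
    obtain ⟨g, rfl⟩ := QuotientGroup.mk_surjective γ
    have hh : (x (g • e))⁻¹ * g ∈ GF e := by
      rw [mem_GF, mul_smul, inv_smul_eq_iff, hx]
    refine ⟨(g • e, ((⟨_, hh⟩ : GF e) : GF e ⧸ N.subgroupOf (GF e))), ?_⟩
    show ((x (g • e) * ((x (g • e))⁻¹ * g) : GQ) : GQ ⧸ N) = (g : GQ ⧸ N)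
    rw [mul_inv_cancel_left]

lemma extG_out [N.Normal] (hN : N ≤ GF e) (hf : ClsF e N f) (g : GQ) :
    extG e f (g : GQ ⧸ N).out = extG e f g := by
  have h1 : g⁻¹ * (g : GQ ⧸ N).out ∈ N := by
    rw [← QuotientGroup.eq, QuotientGroup.out_eq']
  have h2 := extG_mul hN hf g h1
  rwa [mul_inv_cancel_left] at h2

lemma f_out [N.Normal] (hf : ClsF e N f) (g : GF e) :
    f (g : GF e ⧸ N.subgroupOf (GF e)).out = f g := by
  have h1 : g⁻¹ * (g : GF e ⧸ N.subgroupOf (GF e)).out ∈ N.subgroupOf (GF e) := by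
    rw [← QuotientGroup.eq, QuotientGroup.out_eq']
  have h2 := hf.inv g _ (Subgroup.mem_subgroupOf.mp h1)
  rwa [mul_inv_cancel_left] at h2

/-- the sum of `f` over `GF e / N` -/
lemma sum_extG [N.Normal] [Fintype (GQ ⧸ N)] [Fintype (GF e ⧸ N.subgroupOf (GF e))]
    (hN : N ≤ GF e) (hf : ClsF e N f) :
    ∑ γ : GQ ⧸ N, extG e f γ.out = ∑ a : GF e ⧸ N.subgroupOf (GF e), f a.out := by
  classical
  symm
  refine Finset.sum_of_injOn (iotaF e N) (fun a _ b _ h => iotaF_injective h)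
    (fun a _ => Finset.mem_coe.mpr (Finset.mem_univ _)) (fun γ _ hγ => ?_) (fun a _ => ?_)
  · obtain ⟨g, rfl⟩ := QuotientGroup.mk_surjective γ
    rw [extG_out hN hf]
    refine extG_not_mem f fun hg => hγ ?_
    exact ⟨((⟨g, hg⟩ : GF e) : GF e ⧸ N.subgroupOf (GF e)), Finset.mem_coe.mpr
      (Finset.mem_univ _), rfl⟩
  · obtain ⟨g, rfl⟩ := QuotientGroup.mk_surjective a
    rw [f_out hf, iotaF_mk, extG_out hN hf, extG_mem f g.2]

lemma sum_indF [N.Normal] [Fintype (GQ ⧸ N)] [Fintype (GF e ⧸ N.subgroupOf (GF e))]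
    (hN : N ≤ GF e) (hf : ClsF e N f) :
    ∑ γ : GQ ⧸ N, indF e x f γ.out =
      (Nat.card (F →ₐ[ℚ] QBar) : ℂ) * ∑ a : GF e ⧸ N.subgroupOf (GF e), f a.out := by
  unfold indF
  rw [Finset.sum_comm, ← sum_extG hN hf, Nat.card_eq_fintype_card, ← Finset.card_univ,
    ← nsmul_eq_mul, ← Finset.sum_const]
  refine Finset.sum_congr rfl fun ψ _ => ?_
  rw [← (MulAut.conj ((x ψ : GQ) : GQ ⧸ N)⁻¹).toEquiv.sum_comp fun γ => extG e f γ.out]
  refine Finset.sum_congr rfl fun γ _ => ?_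
  obtain ⟨g, rfl⟩ := QuotientGroup.mk_surjective γ
  have h1 : (MulAut.conj ((x ψ : GQ) : GQ ⧸ N)⁻¹).toEquiv (g : GQ ⧸ N)
      = (((x ψ)⁻¹ * g * x ψ : GQ) : GQ ⧸ N) := by
    show ((x ψ : GQ) : GQ ⧸ N)⁻¹ * (g : GQ ⧸ N) * (((x ψ : GQ) : GQ ⧸ N)⁻¹)⁻¹ = _
    rw [inv_inv]
    rfl
  rw [h1, extG_out hN hf]
  have h2 : g⁻¹ * (g : GQ ⧸ N).out ∈ N := by
    rw [← QuotientGroup.eq, QuotientGroup.out_eq']
  have h3 : (x ψ)⁻¹ * (g : GQ ⧸ N).out * x ψ
      = (x ψ)⁻¹ * g * x ψ * ((x ψ)⁻¹ * (g⁻¹ * (g : GQ ⧸ N).out) * x ψ) := by group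
  rw [h3]
  refine extG_mul hN hf _ ?_
  have h4 := (inferInstance : N.Normal).conj_mem _ h2 (x ψ)⁻¹
  rwa [inv_inv] at h4

end

theorem mean0 : S_MEAN0 := by
  intro F _ _ σ hσ N _ M _ hN j c hc hcN e hNe x hx f hf
  classical
  have hbig : BigPrimes N := exists_prime_surj N hN
  have hfin : Finite (GQ ⧸ N) := finite_quot N hN
  have hfin' : Finite (GF e ⧸ N.subgroupOf (GF e)) := Finite.of_injective _ iotaF_injective
  have : Fintype (GQ ⧸ N) := Fintype.ofFinite _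
  have : Fintype (GF e ⧸ N.subgroupOf (GF e)) := Fintype.ofFinite _
  have hout : ∀ g : GQ, indF e x f (g : GQ ⧸ N).out = indF e x f g := by
    intro g
    have h1 : g⁻¹ * (g : GQ ⧸ N).out ∈ N := by
      rw [← QuotientGroup.eq, QuotientGroup.out_eq']
    have h2 := indF_mul (x := x) hNe hf g h1
    rwa [mul_inv_cancel_left] at h2
  have h1 := chebotarev_symm N hN hbig j c hc hcN (fun γ => (indF e x f γ.out).re)
    (fun y g => by
      obtain ⟨y', rfl⟩ := QuotientGroup.mk_surjective y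
      obtain ⟨g', rfl⟩ := QuotientGroup.mk_surjective g
      rw [← QuotientGroup.mk_inv, ← QuotientGroup.mk_mul, ← QuotientGroup.mk_mul, hout, hout,
        indF_conj hx hf]) (fun g => by
      obtain ⟨g', rfl⟩ := QuotientGroup.mk_surjective g
      rw [← QuotientGroup.mk_inv, hout, hout, indF_inv hf, Complex.conj_re]) hσ
  have h2 : (fun p => (sumFix e x σ f (fun _ _ => 1) p).re)
      = fun p => (indF e x f (σ p : GQ ⧸ N).out).re := by
    funext p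
    rw [hout]
    unfold sumFix indF
    simp only [mul_one]
  have h3 : gavg (fun γ : GF e ⧸ N.subgroupOf (GF e) => (f γ.out).re)
      = gavg (fun γ : GQ ⧸ N => (indF e x f γ.out).re) := by
    unfold gavg
    rw [finsum_eq_sum_of_fintype, finsum_eq_sum_of_fintype, ← Complex.re_sum, ← Complex.re_sum,
      sum_indF hNe hf, card_cosets hNe hx]
    have h4 : ((Nat.card (F →ₐ[ℚ] QBar) : ℂ) *
        ∑ a : GF e ⧸ N.subgroupOf (GF e), f a.out).re
        = (Nat.card (F →ₐ[ℚ] QBar) : ℝ) *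
          (∑ a : GF e ⧸ N.subgroupOf (GF e), f a.out).re := by
      rw [← Complex.ofReal_natCast, Complex.re_ofReal_mul]
    rw [h4]
    push_cast
    have hne : Nonempty (F →ₐ[ℚ] QBar) := ⟨e⟩
    have h5 : (Nat.card (F →ₐ[ℚ] QBar) : ℝ) ≠ 0 := by exact_mod_cast Nat.card_pos.ne'
    rw [mul_div_mul_left _ _ h5]
  rw [h2, h3]
  exact h1

end TatePole
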