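import Mathlib
import Pool.Agent.Lib.MP_058a58_ag.HK.Core2
import Pool.Agent.Lib.MP_058a58_ag.HK.StmC
import Pool.Agent.Lib.MP_058a58_ag.HK.Mean0

/-!
# The inequality for twists by Hecke characters and their conjugates, from its parts
-/

open Polynomial Filter Topology NumberField

namespace TatePole.HK

open TatePole AT

section
variable {F : Type} [Field F] [NumberField F] {e : F →ₐ[ℚ] QBar}

/-- the value of a class function at the Frobenius element for `ψ ∘ a` -/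
lemma extG_pc {f : GF e → ℂ} (hf : ∀ x g : GF e, f (x⁻¹ * g * x) = f g)
    {x : (F →ₐ[ℚ] QBar) → GQ} (hx : ∀ ψ, x ψ • e = ψ) {a : F ≃+* F} {t : GQ}
    (ht : t • e = pc a e) (s : GQ) (ψ : F →ₐ[ℚ] QBar) :
    extG e f ((x (pc a ψ))⁻¹ * s * x (pc a ψ)) = extG e f (t⁻¹ * ((x ψ)⁻¹ * s * x ψ) * t) := by
  have hh : (x (pc a ψ))⁻¹ * (x ψ * t) ∈ GF e := by
    rw [mem_GF, mul_smul, mul_smul, ht, smul_pc, hx, inv_smul_eq_iff, hx]
  set h := (x (pc a ψ))⁻¹ * (x ψ * t) with hdef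
  have h1 : t⁻¹ * ((x ψ)⁻¹ * s * x ψ) * t = h⁻¹ * ((x (pc a ψ))⁻¹ * s * x (pc a ψ)) * h := by
    rw [hdef]
    group
  rw [h1]
  by_cases hg : (x (pc a ψ))⁻¹ * s * x (pc a ψ) ∈ GF e
  · rw [extG_mem hg, extG_mem ((GF e).mul_mem ((GF e).mul_mem ((GF e).inv_mem hh) hg) hh)]
    exact (hf ⟨h, hh⟩ ⟨_, hg⟩).symm
  · rw [extG_not hg, extG_not]
    intro h2
    apply hg
    have h3 := (GF e).mul_mem ((GF e).mul_mem hh h2) ((GF e).inv_mem hh)
    have h4 : h * (h⁻¹ * ((x (pc a ψ))⁻¹ * s * x (pc a ψ)) * h) * h⁻¹ =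
        (x (pc a ψ))⁻¹ * s * x (pc a ψ) := by group
    rwa [h4] at h3

/-- conjugation by `t` preserves `GF e` -/
lemma conj_t_mem {a : F ≃+* F} {t : GQ} (ht : t • e = pc a e) (g : GQ) :
    t⁻¹ * g * t ∈ GF e ↔ g ∈ GF e := by
  rw [mem_GF, mul_smul, mul_smul, ht, inv_smul_eq_iff, ht, smul_pc_iff, mem_GF]

end

section
variable {F : Type} [Field F] [NumberField F] {e : F →ₐ[ℚ] QBar} {ℓ : ℕ} [Fact ℓ.Prime]
  {W : Type*} [AddCommGroup W] [Module ℚ_[ℓ] W] [FiniteDimensional ℚ_[ℓ] W]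
  [Algebra ℚ_[ℓ] ℂ]

/-- a stable subspace as a representation -/
noncomputable def subR {G : Type*} [Group G] (ρ : Representation ℚ_[ℓ] G W)
    (B : Submodule ℚ_[ℓ] W) (hB : ∀ g, ∀ x ∈ B, ρ g x ∈ B) : Representation ℚ_[ℓ] G B where
  toFun g := (ρ g).restrict (hB g)
  map_one' := by
    ext x
    rw [LinearMap.coe_restrict_apply, map_one]
    rfl
  map_mul' g h := by
    ext x
    rw [LinearMap.coe_restrict_apply, map_mul]
    rfl

theorem hecke_core_conj {F₀ : Type} [Field F₀] [NumberField F₀] [Algebra F₀ F]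
    (ρ : Representation ℚ_[ℓ] (GF (resEmb F₀ F e)) W) (w : ℤ) (S : Finset (Ideal (𝓞 F)))
    (hpure : ∀ 𝔭 : Ideal (𝓞 F), 𝔭.IsPrime → 𝔭 ≠ ⊥ → 𝔭 ∉ S → IsPureAt (resF ρ) w 𝔭)
    (B : Submodule ℚ_[ℓ] W) (hB0 : ∀ g, ∀ x ∈ B, ρ g x ∈ B)
    {L : Type*} [Fintype L] (Φ : L → Ideal (𝓞 F) → ℂ) {U : L → Type*}
    [∀ l, AddCommGroup (U l)] [∀ l, Module ℂ (U l)] [∀ l, FiniteDimensional ℂ (U l)]
    (β : ∀ l, Representation ℂ (GF e) (U l)) (hB : AbelianPart (resF ρ) w S B Φ β)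
    {J : Type*} [Fintype J] {V : J → Type*} [∀ i, AddCommGroup (V i)]
    [∀ i, Module ℂ (V i)] [∀ i, FiniteDimensional ℂ (V i)]
    (α : ∀ i, Representation ℂ (GF e) (V i)) (Ψ : J → Ideal (𝓞 F) → ℂ)
    (hα : ∀ i, IsFin (α i)) (hΨ : ∀ i, IsHecke (Ψ i))
    (hne : ∀ i j, i ≠ j → InfOrder (ratio (Ψ i) (Ψ j)) ∨
      (Ψ i = Ψ j ∧ IsEmpty ((α i).Equiv (α j))))
    (hcj : ∀ i j (a : F ≃ₐ[F₀] F), a ≠ 1 → InfOrder (ratio (cj (a : F ≃+* F) (Ψ i)) (Ψ j)))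
    (hBne : ∀ l i, InfOrder (ratio (Φ l) (Ψ i)) ∨ Φ l = Ψ i)
    (R : J → Ideal (𝓞 F) → ℂ[X]) (Q : Ideal (𝓞 F) → ℂ[X])
    -- the parts
    (hParts : ∀ (σ : ℕ → GQ) (𝔓 : ℕ → Ideal ZBar), FrobSysP σ 𝔓 →
      ∀ (N : Subgroup GQ) [N.Normal] (M : IntermediateField ℚ QBar) [FiniteDimensional ℚ M],
      N = M.fixingSubgroup → ∀ (j : QBar →ₐ[ℚ] ℂ) (c : GQ),
      (∀ x, j (c x) = (starRingEnd ℂ) (j x)) → c ∉ N → N ≤ GF e →
      ∀ x : (F →ₐ[ℚ] QBar) → GQ, (∀ ψ, x ψ • e = ψ) → Parts e x σ 𝔓 N)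
    (hRATIO : ∀ Ψ Φ : Ideal (𝓞 F) → ℂ, IsHecke Ψ → IsHecke Φ → IsHecke (ratio Ψ Φ))
    (hLOG : ∀ (i : J) (x : (F →ₐ[ℚ] QBar) → GQ) (σ : ℕ → GQ) (𝔓 : ℕ → Ideal ZBar),
      (∀ ψ, x ψ • e = ψ) → FrobSysP σ 𝔓 → LogF e (resF ρ) w (α i) (Ψ i) (R i) x σ 𝔓)
    (hLOGQ : ∀ (x : (F →ₐ[ℚ] QBar) → GQ) (σ : ℕ → GQ) (𝔓 : ℕ → Ideal ZBar),
      (∀ ψ, x ψ • e = ψ) → FrobSysP σ 𝔓 → LogF e (selfG (resF ρ) B hB.stable) 0
        (Representation.trivial ℂ (GF e) ℂ) (oneH F) Q x σ 𝔓)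
    (hORTH : ∀ (i j : J) (N : Subgroup (GF e)) [N.Normal] [Finite (GF e ⧸ N)],
      (∀ g ∈ N, α i g = 1) → (∀ g ∈ N, α j g = 1) →
      (Nonempty ((α i).Equiv (α j)) → gavg (fun γ : GF e ⧸ N =>
        ((α i).character γ.out⁻¹ * (starRingEnd ℂ) ((α j).character γ.out⁻¹)).re) = 1) ∧
      (IsEmpty ((α i).Equiv (α j)) → gavg (fun γ : GF e ⧸ N =>
        ((α i).character γ.out⁻¹ * (starRingEnd ℂ) ((α j).character γ.out⁻¹)).re) = 0))
    (hINV : ∀ (l : L) (i : J) (N : Subgroup (GF e)) [N.Normal] [Finite (GF e ⧸ N)],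
      (∀ g ∈ N, β l g = 1) → (∀ g ∈ N, α i g = 1) →
      gavg (fun γ : GF e ⧸ N => ((β l).character γ.out⁻¹ * (α i).character γ.out⁻¹).re) =
        Module.finrank ℂ ((β l).tprod (α i)).invariants)
    (ε : ℝ) (hε : 0 < ε) :
    ∀ᶠ s : ℝ in 𝓝[>] (1 : ℝ), (Nat.card (F ≃ₐ[F₀] F) : ℝ) *
      ∑ i, (defF (abRank Φ β (Ψ i) (α i)) (R i) s) ^ 2 ≤
      (Real.log ‖LFunF Q s‖ + ε * Real.log (1 / (s - 1))) * Real.log (1 / (s - 1)) ∧
      Real.log ‖LFunF Q s‖ ≤ (((Module.finrank ℚ_[ℓ] W : ℝ) - Module.finrank ℚ_[ℓ] B) ^ 2 + ε) *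
        Real.log (1 / (s - 1)) := by
  classical
  -- the automorphisms
  set Au := F ≃ₐ[F₀] F with hAu
  have hpcinj : ∀ a b : Au, pc (a : F ≃+* F) e = pc (b : F ≃+* F) e → a = b := by
    intro a b h
    ext y
    have h1 : pc (a : F ≃+* F) e y = pc (b : F ≃+* F) e y := by rw [h]
    exact e.injective h1
  have hAfin : Finite Au := Finite.of_injective (fun a : Au => pc (a : F ≃+* F) e) hpcinj
  have hAft : Fintype Au := Fintype.ofFinite _
  choose t ht0 ht using fun a : Au => exists_pc F₀ e a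
  obtain ⟨σ, 𝔓, hσ⟩ := exists_frobSysP
  choose x hx using fun ψ : F →ₐ[ℚ] QBar => MulAction.exists_smul_eq GQ e ψ
  choose Fα hFα using hα
  choose Fβ hFβ using hB.finite
  obtain ⟨M, hMfin, hnorm, hMA, hMe⟩ := exists_bigN_le e
    ((Finset.univ.biUnion Fα ∪ Finset.univ.biUnion Fβ) ∪ {zt 4})
  set N := M.fixingSubgroup with hN
  have hfinN : Finite (GQ ⧸ N) := finite_quot N hN
  obtain ⟨j, c, hc⟩ := exists_conj
  have hcN : c ∉ N := fun h => conj_not_fix j c hc (hMA c h (zt 4)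
    (Finset.mem_union_right _ (Finset.mem_singleton_self _)))
  have hP : Parts e x σ 𝔓 N := hParts σ 𝔓 hσ N M hN j c hc hcN hMe x hx
  have hNfi : N.FiniteIndex := Subgroup.finiteIndex_of_finite_quotient
  set N' := N.subgroupOf (GF e) with hN'
  have hfin' : Finite (GF e ⧸ N') := by infer_instance
  have hαN : ∀ i, ∀ g ∈ N', α i g = 1 := fun i g hg => hFα i g fun y hy =>
    hMA g (Subgroup.mem_subgroupOf.mp hg) y (Finset.mem_union_left _
      (Finset.mem_union_left _ (Finset.mem_biUnion.mpr ⟨i, Finset.mem_univ i, hy⟩)))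
  have hβN : ∀ l, ∀ g ∈ N', β l g = 1 := fun l g hg => hFβ l g fun y hy =>
    hMA g (Subgroup.mem_subgroupOf.mp hg) y (Finset.mem_union_left _
      (Finset.mem_union_right _ (Finset.mem_biUnion.mpr ⟨l, Finset.mem_univ l, hy⟩)))
  set D := (Module.finrank ℚ_[ℓ] W : ℝ) - Module.finrank ℚ_[ℓ] B with hD
  have hD0 : 0 ≤ D := by
    rw [hD, sub_nonneg]
    exact_mod_cast Submodule.finrank_le B
  -- characters
  set χ : J → GF e → ℂ := fun i g => (α i).character g⁻¹ with hχ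
  set η : L → GF e → ℂ := fun l g => (β l).character g⁻¹ with hη
  have hχc : ∀ i, ClsF e N (χ i) := fun i => clsF_char (α i) (hαN i)
  have hηc : ∀ l, ClsF e N (η l) := fun l => clsF_char (β l) (hβN l)
  choose Cχ hCχ0 hCχ using fun i => (hχc i).bdd
  choose Cη hCη0 hCη using fun l => (hηc l).bdd
  set gg : ℕ → (F →ₐ[ℚ] QBar) → GQ := fun p ψ => (x ψ)⁻¹ * σ p * x ψ with hgg
  set Z : J → ℕ → (F →ₐ[ℚ] QBar) → ℂ := fun i p ψ =>
    extG e (χ i) (gg p ψ) * EPsi 𝔓 (Ψ i) ψ p with hZ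
  set wt : ℕ → (F →ₐ[ℚ] QBar) → ℝ := fun p ψ => if σ p • ψ = ψ then 1 else 0 with hwt
  have hgm : ∀ p ψ, gg p ψ ∈ GF e ↔ σ p • ψ = ψ := fun p ψ => conj_mem_GF (hx ψ)
  have hZb : ∀ i, ∀ p : ℕ, p.Prime → ∀ ψ, ‖Z i p ψ‖ ≤ Cχ i := by
    intro i p hp ψ
    simp only [hZ]
    rw [norm_mul]
    calc _ ≤ Cχ i * 1 := mul_le_mul (norm_extG_le (hCχ i) (hCχ0 i) _)
          (norm_EPsi_le (hΨ i) 𝔓 ψ p) (norm_nonneg _) (hCχ0 i)
      _ = Cχ i := mul_one _
  obtain ⟨T, hT⟩ := exists_bad_primes S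
  -- the traces
  set tW : GF e → ℂ := fun g => algebraMap ℚ_[ℓ] ℂ (LinearMap.trace ℚ_[ℓ] W (resF ρ g⁻¹))
    with htW
  set tB : GF e → ℂ := fun g => algebraMap ℚ_[ℓ] ℂ (LinearMap.trace ℚ_[ℓ] B
    ((resF ρ g⁻¹).restrict (hB.stable g⁻¹))) with htB
  have htWc : ∀ (y : GF (resEmb F₀ F e)) (g : GF (resEmb F₀ F e)),
      LinearMap.trace ℚ_[ℓ] W (ρ (y⁻¹ * g * y)⁻¹) = LinearMap.trace ℚ_[ℓ] W (ρ g⁻¹) := by
    intro y g
    have h1 := Representation.char_conj ρ g⁻¹ y⁻¹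
    rw [inv_inv] at h1
    rw [mul_inv_rev, mul_inv_rev, inv_inv, ← mul_assoc]
    exact h1
  have htBc : ∀ (y : GF (resEmb F₀ F e)) (g : GF (resEmb F₀ F e)),
      LinearMap.trace ℚ_[ℓ] B (subR ρ B hB0 (y⁻¹ * g * y)⁻¹) =
        LinearMap.trace ℚ_[ℓ] B (subR ρ B hB0 g⁻¹) := by
    intro y g
    have h1 := Representation.char_conj (subR ρ B hB0) g⁻¹ y⁻¹
    rw [inv_inv] at h1
    rw [mul_inv_rev, mul_inv_rev, inv_inv, ← mul_assoc]
    exact h1
  set tD : GF e → ℂ := fun g => tW g - tB g with htD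
  have htDc : ∀ (y : GF (resEmb F₀ F e)) (g g' : GF e), (g' : GQ) = (y : GQ)⁻¹ * g * y →
      tD g' = tD g := by
    intro y g g' h
    have h1 : Subgroup.inclusion (GF_le_res F₀ e) g'
        = y⁻¹ * Subgroup.inclusion (GF_le_res F₀ e) g * y := Subtype.ext h
    have h2 : tW g' = tW g := by
      simp only [htW]
      congr 1
      have h3 := htWc y (Subgroup.inclusion (GF_le_res F₀ e) g)
      rw [← h1] at h3
      exact h3
    have h3 : tB g' = tB g := by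
      simp only [htB]
      congr 1
      have h3 := htBc y (Subgroup.inclusion (GF_le_res F₀ e) g)
      rw [← h1] at h3
      exact h3
    simp only [htD]
    rw [h2, h3]
  have hextD : ∀ g : GQ, extG e tD g = extG e tW g - extG e tB g := by
    intro g
    by_cases hg : g ∈ GF e
    · rw [extG_mem hg, extG_mem hg, extG_mem hg]
    · rw [extG_not hg, extG_not hg, extG_not hg, sub_zero]
  set A : ℕ → (F →ₐ[ℚ] QBar) → ℂ := fun p ψ => if p ∈ T then 0 else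
    extG e tD (gg p ψ) * (((p : ℝ) ^ (-(w : ℝ) / 2) : ℝ) : ℂ) with hA
  -- the value of `A`
  have hAval : ∀ p : ℕ, p.Prime → p ∉ T → ∀ ψ, σ p • ψ = ψ → ∃ hmem : gg p ψ ∈ GF e,
      A p ψ = (((p : ℝ) ^ (-(w : ℝ) / 2) : ℝ) : ℂ) *
        (algebraMap ℚ_[ℓ] ℂ (LinearMap.trace ℚ_[ℓ] W (resF ρ (⟨gg p ψ, hmem⟩ : GF e)⁻¹)) -
          algebraMap ℚ_[ℓ] ℂ (LinearMap.trace ℚ_[ℓ] B ((resF ρ (⟨gg p ψ, hmem⟩ : GF e)⁻¹).restrict
            (hB.stable _)))) ∧
      (∀ z : ℂ, ((resF ρ (⟨gg p ψ, hmem⟩ : GF e)⁻¹).charpoly.map (algebraMap ℚ_[ℓ] ℂ)).eval z = 0 →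
        ‖z‖ = (p : ℝ) ^ ((w : ℝ) / 2)) ∧ (𝔓 p).comap (intMap ψ) ≠ ⊥ := by
    intro p hp hpT ψ hfix
    have hmem : gg p ψ ∈ GF e := (hgm p ψ).mpr hfix
    obtain ⟨hnm, hfr⟩ := isFrobAt_conj (hx ψ) hp (hσ p hp).1 (hσ p hp).2.1 (hσ p hp).2.2 hfix
    have h𝔭p : ((𝔓 p).comap (intMap ψ)).IsPrime := by
      have := (hσ p hp).1
      exact Ideal.comap_isPrime _ _
    have h𝔭0 : (𝔓 p).comap (intMap ψ) ≠ ⊥ := by
      intro h0
      rw [h0, Ideal.absNorm_bot] at hnm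
      exact hp.ne_zero hnm.symm
    have h𝔭S : (𝔓 p).comap (intMap ψ) ∉ S := hT _ (by rw [hnm]; exact hpT)
    have hpu := hpure _ h𝔭p h𝔭0 h𝔭S
    refine ⟨hmem, ?_, fun z hz => by rw [hpu.pure _ hfr z hz, hnm], h𝔭0⟩
    simp only [hA]
    rw [if_neg hpT, extG_mem hmem, mul_comm]
  have hA0 : ∀ p ψ, ¬ σ p • ψ = ψ → A p ψ = 0 := by
    intro p ψ hfix
    have hmem : gg p ψ ∉ GF e := fun h => hfix ((hgm p ψ).mp h)
    simp only [hA]
    split_ifs with hpT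
    · rfl
    rw [extG_not hmem, zero_mul]
  -- invariance of `A`
  have hAinv : ∀ (a : Au) (p : ℕ) (ψ : F →ₐ[ℚ] QBar), A p (pc (a : F ≃+* F) ψ) = A p ψ := by
    intro a p ψ
    simp only [hA, hgg]
    have h1 := extG_pc (f := tD) (fun y g => htDc
      (Subgroup.inclusion (GF_le_res F₀ e) y) g _ rfl) hx (ht a) (σ p) ψ
    rw [h1]
    have h2 : extG e tD ((t a)⁻¹ * ((x ψ)⁻¹ * σ p * x ψ) * t a)
        = extG e tD ((x ψ)⁻¹ * σ p * x ψ) := by
      by_cases hg : (x ψ)⁻¹ * σ p * x ψ ∈ GF e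
      · rw [extG_mem hg, extG_mem ((conj_t_mem (ht a) _).mpr hg)]
        exact htDc ⟨t a, ht0 a⟩ ⟨_, hg⟩ _ rfl
      · rw [extG_not hg, extG_not fun h => hg ((conj_t_mem (ht a) _).mp h)]
    rw [h2]
  have hAeq : ∀ p : ℕ, p.Prime → p ∉ T → ∀ ψ, A p ψ =
      extG e tW (gg p ψ) * (((p : ℝ) ^ (-(w : ℝ) / 2) : ℝ) : ℂ) -
      ∑ l, extG e (η l) (gg p ψ) * (starRingEnd ℂ) (EPsi 𝔓 (Φ l) ψ p) := by
    intro p hp hpT ψ
    simp only [hA]
    rw [if_neg hpT, hextD, sub_mul]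
    congr 1
    by_cases hfix : σ p • ψ = ψ
    · have hmem : gg p ψ ∈ GF e := (hgm p ψ).mpr hfix
      obtain ⟨hnm, hfr⟩ := isFrobAt_conj (hx ψ) hp (hσ p hp).1 (hσ p hp).2.1 (hσ p hp).2.2 hfix
      set 𝔭 := (𝔓 p).comap (intMap ψ) with h𝔭
      have h𝔭p : 𝔭.IsPrime := by
        have := (hσ p hp).1
        exact Ideal.comap_isPrime _ _
      have h𝔭0 : 𝔭 ≠ ⊥ := by
        intro h0
        rw [h0, Ideal.absNorm_bot] at hnm
        exact hp.ne_zero hnm.symm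
      have h𝔭S : 𝔭 ∉ S := hT 𝔭 (by rw [hnm]; exact hpT)
      have htr := hB.trace 𝔭 h𝔭p h𝔭0 h𝔭S _ hfr
      rw [hnm] at htr
      have hp0 : (0 : ℝ) < p := by exact_mod_cast hp.pos
      have hpw : (p : ℝ) ^ (-(w : ℝ) / 2) * (p : ℝ) ^ ((w : ℝ) / 2) = 1 := by
        rw [← Real.rpow_add hp0]
        have : -(w : ℝ) / 2 + (w : ℝ) / 2 = 0 := by ring
        rw [this, Real.rpow_zero]
      have hpwC : (((p : ℝ) ^ (-(w : ℝ) / 2) : ℝ) : ℂ) * (((p : ℝ) ^ ((w : ℝ) / 2) : ℝ) : ℂ) =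
          1 := by
        rw [← Complex.ofReal_mul, hpw, Complex.ofReal_one]
      have h1 : extG e tB (gg p ψ) = (((p : ℝ) ^ ((w : ℝ) / 2) : ℝ) : ℂ) *
          ∑ l, (starRingEnd ℂ) (Φ l 𝔭) * (β l).character (⟨gg p ψ, hmem⟩ : GF e)⁻¹ := by
        rw [extG_mem hmem]
        exact htr
      rw [h1, mul_comm (((p : ℝ) ^ ((w : ℝ) / 2) : ℝ) : ℂ), mul_assoc,
        mul_comm (((p : ℝ) ^ ((w : ℝ) / 2) : ℝ) : ℂ), hpwC, mul_one]
      refine Finset.sum_congr rfl fun l _ => ?_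
      rw [extG_mem hmem, mul_comm]
      rfl
    · have hmem : gg p ψ ∉ GF e := fun h => hfix ((hgm p ψ).mp h)
      rw [extG_not hmem, zero_mul]
      exact (Finset.sum_eq_zero fun l _ => by rw [extG_not hmem, zero_mul]).symm
  have hAb : ∀ p : ℕ, p.Prime → ∀ ψ, ‖A p ψ‖ ≤ D * wt p ψ := by
    intro p hp ψ
    by_cases hpT : p ∈ T
    · simp only [hA, hwt]
      rw [if_pos hpT, norm_zero]
      split_ifs
      · rw [mul_one]; exact hD0
      · rw [mul_zero]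
    by_cases hfix : σ p • ψ = ψ
    · simp only [hwt]
      rw [if_pos hfix, mul_one]
      obtain ⟨hmem, hval, hroot, -⟩ := hAval p hp hpT ψ hfix
      have hbd := trace_sub_restrict_le (algebraMap ℚ_[ℓ] ℂ) (resF ρ (⟨gg p ψ, hmem⟩ : GF e)⁻¹) B
        (hB.stable _) ((p : ℝ) ^ ((w : ℝ) / 2)) (fun z hz => (hroot z hz).le)
      have hp0 : (0 : ℝ) < p := by exact_mod_cast hp.pos
      have hpw : (p : ℝ) ^ (-(w : ℝ) / 2) * (p : ℝ) ^ ((w : ℝ) / 2) = 1 := by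
        rw [← Real.rpow_add hp0]
        have : -(w : ℝ) / 2 + (w : ℝ) / 2 = 0 := by ring
        rw [this, Real.rpow_zero]
      rw [hval, norm_mul, Complex.norm_real, Real.norm_eq_abs,
        abs_of_nonneg (Real.rpow_nonneg hp0.le _)]
      calc _ ≤ (p : ℝ) ^ (-(w : ℝ) / 2) * (D * (p : ℝ) ^ ((w : ℝ) / 2)) :=
            mul_le_mul_of_nonneg_left hbd (Real.rpow_nonneg hp0.le _)
        _ = D * ((p : ℝ) ^ (-(w : ℝ) / 2) * (p : ℝ) ^ ((w : ℝ) / 2)) := by ring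
        _ = D := by rw [hpw, mul_one]
    · rw [hA0 p ψ hfix, norm_zero]
      simp only [hwt]
      rw [if_neg hfix, mul_zero]
  -- the weights
  have hwsum : ∀ p, ∑ ψ, wt p ψ = fixCount F (σ p) := by
    intro p
    rw [fixCount_eq_card, Nat.card_eq_fintype_card, Fintype.card_subtype]
    simp only [hwt]
    rw [Finset.sum_boole]
  have hw : HasDens (fun p => ∑ ψ, wt p ψ) 1 :=
    HasDens.congr' (HasMean.dens (fixCount_mean' F (FrobSysP.frobSys hσ))) fun p _ => hwsum p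
  have hwZ : ∀ p ψ i, (wt p ψ : ℂ) * Z i p ψ = Z i p ψ := by
    intro p ψ i
    simp only [hwt]
    by_cases hfix : σ p • ψ = ψ
    · rw [if_pos hfix]; norm_num
    · rw [if_neg hfix]
      have hmem : gg p ψ ∉ GF e := fun h => hfix ((hgm p ψ).mp h)
      simp only [hZ]
      rw [extG_not hmem]
      simp
  have hwpc : ∀ (a : F ≃+* F) (p : ℕ) (ψ : F →ₐ[ℚ] QBar), wt p (pc a ψ) = wt p ψ := by
    intro a p ψ
    simp only [hwt, smul_pc_iff]
  -- the Gram matrix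
  have hgram : ∀ i i', HasDens (fun p => ∑ ψ, wt p ψ * (Z i p ψ *
      (starRingEnd ℂ) (Z i' p ψ)).re) (if i = i' then 1 else 0) := by
    intro i i'
    have hcl : ClsF e N (fun g => χ i g * (starRingEnd ℂ) (χ i' g)) := (hχc i).mul (hχc i').star
    have heq : ∀ p : ℕ, ∑ ψ, wt p ψ * (Z i p ψ * (starRingEnd ℂ) (Z i' p ψ)).re =
        (sumFix e x σ (fun g => χ i g * (starRingEnd ℂ) (χ i' g))
          (EPsi 𝔓 (ratio (Ψ i) (Ψ i'))) p).re := by
      intro p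
      unfold sumFix
      rw [Complex.re_sum]
      refine Finset.sum_congr rfl fun ψ _ => ?_
      rw [← Complex.re_ofReal_mul, ← mul_assoc, hwZ]
      congr 1
      simp only [hZ]
      rw [EPsi_ratio, ← extG_mul_conj, map_mul]
      ring
    have hself : Ψ i = Ψ i' → HasDens (fun p => ∑ ψ, wt p ψ * (Z i p ψ *
      (starRingEnd ℂ) (Z i' p ψ)).re) (gavg fun γ : GF e ⧸ N' =>
        ((α i).character γ.out⁻¹ * (starRingEnd ℂ) ((α i').character γ.out⁻¹)).re) := by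
      intro h
      have h1 := dens_self hσ hP (hΨ i) hcl
      refine HasDens.congr' h1 fun p _ => ?_
      rw [heq, ← h]
    by_cases hij : i = i'
    · subst hij
      rw [if_pos rfl]
      have h1 := hself rfl
      rwa [(hORTH i i N' (hαN i) (hαN i)).1 ⟨Representation.Equiv.refl (α i)⟩] at h1
    · rw [if_neg hij]
      rcases hne i i' hij with h | ⟨h, hemp⟩
      · refine HasDens.congr' (hP.inf _ (hRATIO _ _ (hΨ i) (hΨ i')) h _ hcl) fun p _ => heq p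
      · have h1 := hself h
        rwa [(hORTH i i' N' (hαN i) (hαN i')).2 hemp] at h1
  -- the conjugate characters
  set χa : Au → J → GF e → ℂ := fun a i g => extG e (χ i) ((t a)⁻¹ * g * t a) with hχa
  have hχac : ∀ a i, ClsF e N (χa a i) := by
    intro a i
    refine ⟨fun g h hh => ?_, fun y g => ?_, fun g => ?_⟩
    · simp only [hχa]
      have h1 : (t a)⁻¹ * ((g * h : GF e) : GQ) * t a
          = (t a)⁻¹ * g * t a * ((t a)⁻¹ * h * t a) := by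
        push_cast
        group
      rw [h1]
      refine _root_.TatePole.extG_mul hMe (hχc i) _ ?_
      have h2 := hnorm.conj_mem _ hh (t a)⁻¹
      rwa [inv_inv] at h2
    · simp only [hχa]
      have h1 : (t a)⁻¹ * ((y⁻¹ * g * y : GF e) : GQ) * t a
          = ((t a)⁻¹ * y * t a)⁻¹ * ((t a)⁻¹ * g * t a) * ((t a)⁻¹ * y * t a) := by
        push_cast
        group
      rw [h1]
      exact extG_conj (hχc i) ((conj_t_mem (ht a) _).mpr y.2) _
    · simp only [hχa]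
      rw [← extG_inv (hχc i)]
      congr 1
  have hZpc : ∀ (a : Au) i p ψ, Z i p (pc (a : F ≃+* F) ψ) =
      extG e (χa a i) (gg p ψ) * EPsi 𝔓 (cj (a : F ≃+* F) (Ψ i)) ψ p := by
    intro a i p ψ
    simp only [hZ, hgg]
    rw [extG_pc (fun y g => (hχc i).cls y g) hx (ht a), EPsi_pc]
    congr 1
    by_cases hg : (x ψ)⁻¹ * σ p * x ψ ∈ GF e
    · rw [extG_mem hg]
    · rw [extG_not hg, extG_not fun h => hg ((conj_t_mem (ht a) _).mp h)]
  have hgramc : ∀ (a : Au), a ≠ 1 → ∀ i i', HasDens (fun p => ∑ ψ, wt p ψ *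
      (Z i p (pc (a : F ≃+* F) ψ) * (starRingEnd ℂ) (Z i' p ψ)).re) 0 := by
    intro a ha i i'
    have hcl : ClsF e N (fun g => χa a i g * (starRingEnd ℂ) (χ i' g)) :=
      (hχac a i).mul (hχc i').star
    refine HasDens.congr' (hP.inf _ (hRATIO _ _ (cj_hecke (a : F ≃+* F) (hΨ i)) (hΨ i'))
      (hcj i i' a ha) _ hcl) fun p _ => ?_
    unfold sumFix
    rw [Complex.re_sum]
    refine Finset.sum_congr rfl fun ψ _ => ?_
    have h1 : (wt p ψ : ℂ) * (Z i p (pc (a : F ≃+* F) ψ) * (starRingEnd ℂ) (Z i' p ψ))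
        = Z i p (pc (a : F ≃+* F) ψ) * (starRingEnd ℂ) (Z i' p ψ) := by
      have h2 := hwZ p (pc (a : F ≃+* F) ψ) i
      rw [hwpc] at h2
      rw [← mul_assoc, h2]
    rw [← Complex.re_ofReal_mul, h1, hZpc]
    congr 1
    simp only [hZ]
    rw [EPsi_ratio, ← extG_mul_conj, map_mul]
    ring
  have hgram' : ∀ q q' : J × Au, HasDens (fun p => ∑ ψ, wt p ψ *
      (Z q.1 p (pc (q.2 : F ≃+* F) ψ) *
        (starRingEnd ℂ) (Z q'.1 p (pc (q'.2 : F ≃+* F) ψ))).re) (if q = q' then 1 else 0) := by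
    rintro ⟨i, a⟩ ⟨i', b⟩
    by_cases hab : a = b
    · subst hab
      have h1 : (if (i, a) = (i', a) then (1 : ℝ) else 0) = if i = i' then 1 else 0 := by
        simp
      rw [h1]
      refine HasDens.congr' (hgram i i') fun p _ => ?_
      rw [← (pcE (a : F ≃+* F)).sum_comp fun ψ => wt p ψ *
        (Z i p ψ * (starRingEnd ℂ) (Z i' p ψ)).re]
      refine Finset.sum_congr rfl fun ψ _ => ?_
      rw [pcE_apply, hwpc]
    · rw [if_neg fun h => hab (Prod.ext_iff.mp h).2]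
      have hne1 : b⁻¹ * a ≠ 1 := fun h => hab (inv_mul_eq_one.mp h).symm
      refine HasDens.congr' (hgramc (b⁻¹ * a) hne1 i i') fun p _ => ?_
      rw [← (pcE (b : F ≃+* F)).sum_comp fun ψ => wt p ψ *
        (Z i p (pc ((b⁻¹ * a : Au) : F ≃+* F) ψ) * (starRingEnd ℂ) (Z i' p ψ)).re]
      refine Finset.sum_congr rfl fun ψ _ => ?_
      have h1 : pc ((b⁻¹ * a : Au) : F ≃+* F) (pc (b : F ≃+* F) ψ) = pc (a : F ≃+* F) ψ := by
        ext y
        rw [pc_apply, pc_apply, pc_apply]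
        congr 1
        show b ((b⁻¹ * a) y) = a y
        rw [← AlgEquiv.mul_apply, mul_inv_cancel_left]
      rw [pcE_apply, hwpc, h1]
  -- the density of the abelian part
  have habel : ∀ l i, HasDens (fun p => (sumFix e x σ (fun g => η l g * χ i g)
      (EPsi 𝔓 (ratio (Ψ i) (Φ l))) p).re)
      (if Φ l = Ψ i then (Module.finrank ℂ ((β l).tprod (α i)).invariants : ℝ) else 0) := by
    intro l i
    have hcl : ClsF e N (fun g => η l g * χ i g) := (hηc l).mul (hχc i)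
    by_cases h : Φ l = Ψ i
    · rw [if_pos h, h]
      have h1 := dens_self hσ hP (hΨ i) hcl
      have h2 := hINV l i N' (hβN l) (hαN i)
      simp only [hη, hχ] at h1
      rw [h2] at h1
      exact h1
    · rw [if_neg h]
      have h1 : InfOrder (ratio (Φ l) (Ψ i)) := (hBne l i).resolve_right h
      exact hP.inf _ (hRATIO _ _ (hΨ i) (hB.hecke l)) (ratio_symm h1) _ hcl
  have hηχb : ∀ l i, BddPrimes (fun p => (sumFix e x σ (fun g => η l g * χ i g)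
      (EPsi 𝔓 (ratio (Ψ i) (Φ l))) p).re) := by
    intro l i
    obtain ⟨C, hC0, hC⟩ := ((hηc l).mul (hχc i)).bdd
    exact sumFix_bdd hC0 hC fun ψ p _ => ratio_norm_le (hΨ i) (hB.hecke l) _
  set ab : J → ℕ → ℝ := fun i p => ∑ l, (sumFix e x σ (fun g => η l g * χ i g)
      (EPsi 𝔓 (ratio (Ψ i) (Φ l))) p).re with hab
  have habd : ∀ i, HasDens (ab i) (abRank Φ β (Ψ i) (α i)) := by
    intro i
    have h1 := HasDens.sum Finset.univ (fun l _ => habel l i) (fun l _ => hηχb l i)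
    have h2 : ((abRank Φ β (Ψ i) (α i) : ℕ) : ℝ) = ∑ l, (if Φ l = Ψ i then
        (Module.finrank ℂ ((β l).tprod (α i)).invariants : ℝ) else 0) := by
      unfold abRank
      push_cast
      refine Finset.sum_congr rfl fun l _ => ?_
      split_ifs <;> simp
    rw [h2]
    exact h1
  have habb : ∀ i, BddPrimes (ab i) := by
    intro i
    choose C hC using fun l => hηχb l i
    refine ⟨∑ l, C l, fun p hp => ?_⟩
    exact (Finset.abs_sum_le_sum_abs _ _).trans (Finset.sum_le_sum fun l _ => hC l p hp)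
  -- the main sums
  set mn : J → ℕ → ℝ := fun i p => ∑ ψ, (A p ψ * Z i p ψ).re with hmn
  have hmnb : ∀ i, BddPrimes (mn i) := by
    intro i
    refine ⟨∑ _ψ : F →ₐ[ℚ] QBar, D * Cχ i, fun p hp => ?_⟩
    refine (Finset.abs_sum_le_sum_abs _ _).trans (Finset.sum_le_sum fun ψ _ => ?_)
    refine (Complex.abs_re_le_norm _).trans ?_
    rw [norm_mul]
    refine mul_le_mul ((hAb p hp ψ).trans ?_) (hZb i p hp ψ) (norm_nonneg _) hD0
    calc D * wt p ψ ≤ D * 1 := by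
          refine mul_le_mul_of_nonneg_left ?_ hD0
          simp only [hwt]
          split_ifs <;> norm_num
      _ = D := mul_one _
  have hmnpc : ∀ (a : Au) i, (fun p => ∑ ψ, (A p ψ * Z i p (pc (a : F ≃+* F) ψ)).re) = mn i := by
    intro a i
    funext p
    simp only [hmn]
    rw [← (pcE (a : F ≃+* F)).sum_comp fun ψ => (A p ψ * Z i p ψ).re]
    refine Finset.sum_congr rfl fun ψ _ => ?_
    rw [pcE_apply, hAinv]
  set lg : J → ℕ → ℝ := fun i p => (sumFix e x σ (trWV (resF ρ) (α i))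
      (fun ψ p => EPsi 𝔓 (Ψ i) ψ p * (((p : ℝ) ^ (-(w : ℝ) / 2) : ℝ) : ℂ)) p).re with hlg
  have hlgeq : ∀ i, ∀ p : ℕ, p.Prime → p ∉ T → lg i p = mn i p + ab i p := by
    intro i p hp hpT
    simp only [hlg, hmn, hab]
    have h1 : ∑ ψ, (A p ψ * Z i p ψ).re = (∑ ψ, A p ψ * Z i p ψ).re := (Complex.re_sum _ _).symm
    have h2 : ∑ l, (sumFix e x σ (fun g => η l g * χ i g)
      (EPsi 𝔓 (ratio (Ψ i) (Φ l))) p).re = (∑ l, sumFix e x σ (fun g => η l g * χ i g)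
      (EPsi 𝔓 (ratio (Ψ i) (Φ l))) p).re := (Complex.re_sum _ _).symm
    rw [h1, h2, ← Complex.add_re]
    congr 1
    unfold sumFix
    rw [Finset.sum_comm, ← Finset.sum_add_distrib]
    refine Finset.sum_congr rfl fun ψ _ => ?_
    have h3 : extG e (trWV (resF ρ) (α i)) ((x ψ)⁻¹ * σ p * x ψ) =
        extG e tW (gg p ψ) * extG e (χ i) (gg p ψ) := by
      rw [extG_mul]
      rfl
    rw [hAeq p hp hpT]
    simp only [hZ]
    rw [h3, sub_mul, Finset.sum_mul]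
    have h4 : ∀ l, extG e (fun g => η l g * χ i g) ((x ψ)⁻¹ * σ p * x ψ) *
        EPsi 𝔓 (ratio (Ψ i) (Φ l)) ψ p = extG e (η l) (gg p ψ) *
        (starRingEnd ℂ) (EPsi 𝔓 (Φ l) ψ p) * (extG e (χ i) (gg p ψ) * EPsi 𝔓 (Ψ i) ψ p) := by
      intro l
      rw [← extG_mul, EPsi_ratio]
      ring
    rw [Finset.sum_congr rfl fun l _ => h4 l]
    ring
  have hlgb : ∀ i, BddPrimes (lg i) := by
    intro i
    obtain ⟨C1, hC1⟩ := hmnb i
    obtain ⟨C2, hC2⟩ := habb i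
    refine bdd_of_outside T (C1 + C2) fun p hp hpT => ?_
    rw [hlgeq i p hp hpT]
    exact (abs_add_le _ _).trans (add_le_add (hC1 p hp) (hC2 p hp))
  have hcmp : ∀ i, ∀ δ : ℝ, 0 < δ → ∀ᶠ s : ℝ in 𝓝[>] (1 : ℝ),
      |defF (abRank Φ β (Ψ i) (α i)) (R i) s - RR (mn i) s| ≤
        δ * Real.log (1 / (s - 1)) := by
    intro i δ hδ
    obtain ⟨C1, hC1⟩ := hLOG i x σ 𝔓 hx hσ
    obtain ⟨Cm, hCm⟩ := hmnb i
    obtain ⟨Ca, hCa⟩ := habb i
    have hb2 : BddPrimes (fun p => mn i p + ab i p) :=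
      ⟨Cm + Ca, fun p hp => (abs_add_le _ _).trans (add_le_add (hCm p hp) (hCa p hp))⟩
    obtain ⟨C2, hC2⟩ := RR_near T (hlgeq i) (hlgb i) hb2
    filter_upwards [hC1, habd i (δ / 2) (by positivity), self_mem_nhdsWithin,
      eventually_log_ge (2 * (C1 + C2) / δ)] with s h1 h2 h3 h4
    set Lg := Real.log (1 / (s - 1)) with hLg
    have h3' : 1 < s := h3
    have h6 := hC2 s h3'
    have h7 : RR (fun p => mn i p + ab i p) s = RR (mn i) s + RR (ab i) s := RR_add hCm hCa h3'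
    rw [h7] at h6
    have h8 : C1 + C2 ≤ δ / 2 * Lg := by
      rw [div_le_iff₀ hδ] at h4
      linarith
    have h9 := abs_le.mp h1
    have h10 := abs_le.mp h6
    have h11 := abs_le.mp h2
    unfold defF
    rw [← hLg, abs_le]
    simp only [hlg] at h10
    constructor
    · linarith [h9.1, h10.1, h11.1]
    · linarith [h9.2, h10.2, h11.2]
  have hbes := bessel_L2 A (fun (q : J × Au) p ψ => Z q.1 p (pc (q.2 : F ≃+* F) ψ)) wt D hD0
    (fun q => Cχ q.1) (fun p _ ψ => by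
      simp only [hwt]
      split_ifs
      · exact Or.inr rfl
      · exact Or.inl rfl) hAb (fun q p hp ψ => hZb q.1 p hp _) hgram'
  have hsum : ∀ s : ℝ, (Nat.card Au : ℝ) *
      ∑ i, (defF (abRank Φ β (Ψ i) (α i)) (R i) s) ^ 2 =
      ∑ q : J × Au, (defF (abRank Φ β (Ψ q.1) (α q.1)) (R q.1) s) ^ 2 := by
    intro s
    rw [Fintype.sum_prod_type, Finset.mul_sum]
    refine Finset.sum_congr rfl fun i _ => ?_
    have h1 : (∑ y : Au, defF (abRank Φ β (Ψ (i, y).1) (α (i, y).1)) (R (i, y).1) s ^ 2) =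
        ∑ _y : Au, (defF (abRank Φ β (Ψ i) (α i)) (R i) s) ^ 2 := rfl
    rw [h1, Finset.sum_const, Finset.card_univ, nsmul_eq_mul, Nat.card_eq_fintype_card]
  -- the square of `A`
  set sq : ℕ → ℝ := fun p => ∑ ψ, ‖A p ψ‖ ^ 2 with hsq
  have hsqle : ∀ p : ℕ, p.Prime → sq p ≤ D ^ 2 * ∑ ψ, wt p ψ := by
    intro p hp
    simp only [hsq]
    rw [Finset.mul_sum]
    refine Finset.sum_le_sum fun ψ _ => ?_
    have h1 := pow_le_pow_left₀ (norm_nonneg _) (hAb p hp ψ) 2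
    have h2 : wt p ψ ^ 2 = wt p ψ := by
      simp only [hwt]
      split_ifs <;> norm_num
    rwa [mul_pow, h2] at h1
  have hsq0 : ∀ p, 0 ≤ sq p := fun p => Finset.sum_nonneg fun ψ _ => sq_nonneg _
  have hwtb : ∀ p : ℕ, p.Prime → |∑ ψ, wt p ψ| ≤ Fintype.card (F →ₐ[ℚ] QBar) := by
    intro p hp
    refine (Finset.abs_sum_le_sum_abs _ _).trans ?_
    have h1 : ∀ ψ ∈ (Finset.univ : Finset (F →ₐ[ℚ] QBar)), |wt p ψ| ≤ 1 := by
      intro ψ _
      simp only [hwt]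
      split_ifs <;> norm_num
    refine (Finset.sum_le_sum h1).trans ?_
    rw [Finset.sum_const, Finset.card_univ, nsmul_eq_mul, mul_one]
  have hsqb : BddPrimes sq := by
    refine ⟨D ^ 2 * Fintype.card (F →ₐ[ℚ] QBar), fun p hp => ?_⟩
    rw [abs_of_nonneg (hsq0 p)]
    exact (hsqle p hp).trans (mul_le_mul_of_nonneg_left
      ((le_abs_self _).trans (hwtb p hp)) (sq_nonneg _))
  have hsqup : ∀ δ : ℝ, 0 < δ → ∀ᶠ s : ℝ in 𝓝[>] (1 : ℝ),
      RR sq s ≤ D ^ 2 * (1 + δ) * Real.log (1 / (s - 1)) := by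
    intro δ hδ
    filter_upwards [hw δ hδ, self_mem_nhdsWithin] with s h1 h2
    have h3 : RR sq s ≤ RR (fun p => D ^ 2 * ∑ ψ, wt p ψ) s :=
      RR_mono hsqb ⟨D ^ 2 * Fintype.card (F →ₐ[ℚ] QBar), fun p hp => by
        rw [abs_mul, abs_of_nonneg (sq_nonneg D)]
        exact mul_le_mul_of_nonneg_left (hwtb p hp) (sq_nonneg _)⟩ hsqle h2
    rw [RR_const_mul] at h3
    have h4 := (abs_le.mp h1).2
    have h5 : RR (fun p => ∑ ψ, wt p ψ) s ≤ (1 + δ) * Real.log (1 / (s - 1)) := by linarith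
    calc _ ≤ D ^ 2 * RR (fun p => ∑ ψ, wt p ψ) s := h3
      _ ≤ D ^ 2 * ((1 + δ) * Real.log (1 / (s - 1))) :=
          mul_le_mul_of_nonneg_left h5 (sq_nonneg _)
      _ = _ := by ring
  have hQlog : ∃ C : ℝ, ∀ᶠ s : ℝ in 𝓝[>] (1 : ℝ), |Real.log ‖LFunF Q s‖ - RR sq s| ≤ C := by
    obtain ⟨C1, hC1⟩ := hLOGQ x σ 𝔓 hx hσ
    set lq : ℕ → ℝ := fun p => (sumFix e x σ (trWV (selfG (resF ρ) B hB.stable)
      (Representation.trivial ℂ (GF e) ℂ)) (fun ψ p => EPsi 𝔓 (oneH F) ψ p *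
        (((p : ℝ) ^ (-((0 : ℤ) : ℝ) / 2) : ℝ) : ℂ)) p).re with hlq
    have hlqeq : ∀ p : ℕ, p.Prime → p ∉ T → lq p = sq p := by
      intro p hp hpT
      simp only [hlq, hsq]
      unfold sumFix
      rw [Complex.re_sum]
      refine Finset.sum_congr rfl fun ψ _ => ?_
      by_cases hfix : σ p • ψ = ψ
      · obtain ⟨hmem, hval, hroot, hne0⟩ := hAval p hp hpT ψ hfix
        have hmem' : (x ψ)⁻¹ * σ p * x ψ ∈ GF e := hmem
        have hp0 : (0 : ℝ) < p := by exact_mod_cast hp.pos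
        have h1 := trace_selfG_norm (resF ρ) B hB.stable (algebraMap ℚ_[ℓ] ℂ)
          (⟨gg p ψ, hmem⟩ : GF e)⁻¹ (r := (p : ℝ) ^ ((w : ℝ) / 2)) (Real.rpow_pos_of_pos hp0 _)
          (fun z hz => hroot z (Polynomial.isRoot_of_mem_roots hz))
        have h2 : EPsi 𝔓 (oneH F) ψ p = 1 := by
          unfold EPsi oneH
          rw [if_neg hne0]
        have h3 : (Representation.trivial ℂ (GF e) ℂ).character
            (⟨gg p ψ, hmem⟩ : GF e)⁻¹ = 1 := by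
          unfold Representation.character
          have h4 : Representation.trivial ℂ (GF e) ℂ (⟨gg p ψ, hmem⟩ : GF e)⁻¹ =
            LinearMap.id := rfl
          rw [h4, LinearMap.trace_id]
          simp
        have h5 : trWV (selfG (resF ρ) B hB.stable) (Representation.trivial ℂ (GF e) ℂ)
            ⟨(x ψ)⁻¹ * σ p * x ψ, hmem'⟩ = ((‖A p ψ‖ ^ 2 : ℝ) : ℂ) := by
          unfold trWV
          have h6 : (⟨(x ψ)⁻¹ * σ p * x ψ, hmem'⟩ : GF e) = ⟨gg p ψ, hmem⟩ := rfl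
          rw [h6, h3, mul_one, h1, hval, norm_mul, Complex.norm_real, Real.norm_eq_abs,
            abs_of_nonneg (Real.rpow_nonneg hp0.le _)]
          have h7 : (p : ℝ) ^ (-(w : ℝ) / 2) = ((p : ℝ) ^ ((w : ℝ) / 2))⁻¹ := by
            rw [← Real.rpow_neg hp0.le]
            congr 1
            ring
          rw [h7, div_eq_inv_mul]
        rw [extG_mem hmem']
        beta_reduce
        rw [h2, h5, Int.cast_zero, neg_zero, zero_div, Real.rpow_zero, Complex.ofReal_one,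
          mul_one, mul_one, Complex.ofReal_re]
      · have hmem : (x ψ)⁻¹ * σ p * x ψ ∉ GF e := fun h => hfix ((hgm p ψ).mp h)
        rw [extG_not hmem, hA0 p ψ hfix, zero_mul]
        simp
    have hlqb : BddPrimes lq := by
      obtain ⟨C, hC⟩ := hsqb
      refine bdd_of_outside T C fun p hp hpT => ?_
      rw [hlqeq p hp hpT]
      exact hC p hp
    obtain ⟨C2, hC2⟩ := RR_near T hlqeq hlqb hsqb
    refine ⟨C1 + C2, ?_⟩
    filter_upwards [hC1, self_mem_nhdsWithin] with s h1 h2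
    have h3 := hC2 s h2
    have h4 := abs_sub_le (Real.log ‖LFunF Q s‖) (RR lq s) (RR sq s)
    exact h4.trans (add_le_add h1 h3)
  have hmain2 : ∀ᶠ s : ℝ in 𝓝[>] (1 : ℝ), Real.log ‖LFunF Q s‖ ≤ (D ^ 2 + ε) *
        Real.log (1 / (s - 1)) := by
    obtain ⟨C, hC⟩ := hQlog
    filter_upwards [hC, hsqup (ε / (2 * (D ^ 2 + 1))) (by positivity),
      eventually_log_ge (2 * |C| / ε)] with s h1 h2 h3
    have h4 := (abs_le.mp h1).2
    have h5 : |C| ≤ ε / 2 * Real.log (1 / (s - 1)) := by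
      rw [div_le_iff₀ hε] at h3
      linarith
    have h6 : D ^ 2 * (1 + ε / (2 * (D ^ 2 + 1))) ≤ D ^ 2 + ε / 2 := by
      have h7 : D ^ 2 * (ε / (2 * (D ^ 2 + 1))) ≤ ε / 2 := by
        rw [mul_div_assoc', div_le_iff₀ (by positivity)]
        nlinarith
      linarith
    have h8 : 0 ≤ Real.log (1 / (s - 1)) := le_trans (by positivity) h3
    have h9 := mul_le_mul_of_nonneg_right h6 h8
    have h10 := le_abs_self C
    linarith
  have hmain : ∀ᶠ s : ℝ in 𝓝[>] (1 : ℝ), (Nat.card Au : ℝ) *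
      ∑ i, (defF (abRank Φ β (Ψ i) (α i)) (R i) s) ^ 2 ≤
      (Real.log ‖LFunF Q s‖ + ε * Real.log (1 / (s - 1))) * Real.log (1 / (s - 1)) := by
    simp only [hsum]
    refine eventually_perturb_rs
      (fun (q : J × Au) s => defF (abRank Φ β (Ψ q.1) (α q.1)) (R q.1) s)
      (fun q s => RR (mn q.1) s) (RR sq) (fun s => Real.log ‖LFunF Q s‖) (D ^ 2 * (1 + 1))
      (by positivity) ?_ (fun ε' hε' => ?_) (fun q δ hδ => hcmp q.1 δ hδ) hQlog ε hε
    · filter_upwards [hsqup 1 one_pos] with s h1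
      exact ⟨RR_nonneg (fun p _ => hsq0 p) s, h1⟩
    · filter_upwards [hbes ε' hε'] with s hs
      refine le_trans (le_of_eq (Finset.sum_congr rfl fun q _ => ?_)) hs
      rw [← hmnpc q.2 q.1]
  filter_upwards [hmain, hmain2] with s h1 h2
  exact ⟨h1, h2⟩

end

end TatePole.HK
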