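import Pool.Agent.Lib.MP_058a58_ag.AT.LatT4

set_option autoImplicit false

/-!
# Hecke characters of a number field: definitions

`ψ` is a function on the ideals, `om` the character at infinity on the mixed space.
-/

namespace Pool.Agent.Lib.MP_058a58_ag.HK

open NumberField Filter Topology nonZeroDivisors
open Pool.Agent.MP_058a58_ag.Ch (io)

variable (K : Type*) [Field K] [NumberField K]

/-- `ψ` is a unitary Hecke character of `K`, in the form of a completely multiplicative function on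
the ideals, with modulus `M` and infinity type `om`. -/
structure IsHecke (M : ℕ) (ψ : Ideal (𝓞 K) → ℂ) (om : mixedEmbedding.mixedSpace K → ℂ) : Prop where
  pos : 1 ≤ M
  one : ψ ⊤ = 1
  mul : ∀ I J : Ideal (𝓞 K), ψ (I * J) = ψ I * ψ J
  norm : ∀ I : Ideal (𝓞 K), I ≠ ⊥ → IsCoprime I (Ideal.span {(M : 𝓞 K)}) → ‖ψ I‖ = 1
  zero : ∀ I : Ideal (𝓞 K), ¬ IsCoprime I (Ideal.span {(M : 𝓞 K)}) → ψ I = 0
  om_norm : ∀ x : 𝓞 K, x ≠ 0 → ‖om (io K x)‖ = 1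
  om_mul : ∀ x y : 𝓞 K, x ≠ 0 → y ≠ 0 → om (io K (x * y)) = om (io K x) * om (io K y)
  prin : ∀ a : 𝓞 K, a ≠ 0 → (M : 𝓞 K) ∣ a - 1 → ψ (Ideal.span {a}) = om (io K a)

/-- The Dirichlet series of a function on the ideals. -/
noncomputable def LI (ψ : Ideal (𝓞 K) → ℂ) (s : ℝ) : ℂ :=
  ∑' I : (Ideal (𝓞 K))⁰, ψ (I : Ideal (𝓞 K)) *
    (((Ideal.absNorm (I : Ideal (𝓞 K)) : ℝ) ^ (-s) : ℝ) : ℂ)

/-- The sum over the ideals of norm `n`. -/
noncomputable def AI (ψ : Ideal (𝓞 K) → ℂ) (n : ℕ) : ℂ :=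
  ∑ I ∈ (Ideal.finite_setOfPred_absNorm_eq (S := 𝓞 K) n).toFinset, ψ I

/-- The sum over the primes. -/
noncomputable def SI (ψ : Ideal (𝓞 K) → ℂ) (s : ℝ) : ℝ :=
  ∑' p : Nat.Primes, (AI K ψ p).re * (p : ℝ) ^ (-s)

variable {K}

lemma mem_AI {n : ℕ} {I : Ideal (𝓞 K)} :
    I ∈ (Ideal.finite_setOfPred_absNorm_eq (S := 𝓞 K) n).toFinset ↔ Ideal.absNorm I = n := by
  simp

lemma IsHecke.norm_le {M : ℕ} {ψ : Ideal (𝓞 K) → ℂ} {om : mixedEmbedding.mixedSpace K → ℂ}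
    (h : IsHecke K M ψ om) (I : Ideal (𝓞 K)) : ‖ψ I‖ ≤ 1 := by
  by_cases hb : I = ⊥
  · subst hb
    have h1 := h.mul ⊥ ⊥
    rw [Ideal.bot_mul] at h1
    have h2 : ψ (⊥ : Ideal (𝓞 K)) = 0 ∨ ψ (⊥ : Ideal (𝓞 K)) = 1 := by
      have h3 : ψ (⊥ : Ideal (𝓞 K)) * (ψ ⊥ - 1) = 0 := by linear_combination -h1
      rcases mul_eq_zero.1 h3 with h4 | h4
      · exact Or.inl h4
      · exact Or.inr (sub_eq_zero.1 h4)
    rcases h2 with h2 | h2
    · rw [h2, norm_zero]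
      exact zero_le_one
    · rw [h2, norm_one]
  by_cases hI : IsCoprime I (Ideal.span {(M : 𝓞 K)})
  · exact (h.norm I hb hI).le
  · rw [h.zero I hI, norm_zero]
    exact zero_le_one

end Pool.Agent.Lib.MP_058a58_ag.HK
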