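import Pool.Agent.Lib.MP_058a58_ag.HK.Defs
import Pool.Agent.Lib.MP_058a58_ag.AT.Dich

set_option autoImplicit false

/-!
# The product of a Hecke character and a Dirichlet character
-/

namespace Pool.Agent.Lib.MP_058a58_ag.HK

open NumberField Filter Topology nonZeroDivisors
open Pool.Agent.MP_058a58_ag.Ch (io)
open Pool.Agent.Lib.MP_058a58_ag.Ch (norm_congr chi_natAbs)

variable {K : Type*} [Field K] [NumberField K]

/-- An ideal whose norm is coprime to `m` is coprime to `m`. -/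
lemma isCoprime_of_absNorm {I : Ideal (𝓞 K)} {m : ℕ} (h : (Ideal.absNorm I).Coprime m) :
    IsCoprime I (Ideal.span {(m : 𝓞 K)}) := by
  obtain ⟨a, b, hab⟩ := Nat.isCoprime_iff_coprime.2 h
  rw [Ideal.isCoprime_iff_exists]
  refine ⟨(Ideal.absNorm I : 𝓞 K) * (a : 𝓞 K), I.mul_mem_right _ (Ideal.absNorm_mem I),
    (m : 𝓞 K) * (b : 𝓞 K), Ideal.mul_mem_right _ _ (Ideal.mem_span_singleton_self _), ?_⟩
  have := congrArg (fun z : ℤ => (z : 𝓞 K)) hab
  push_cast at this
  linear_combination this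

/-- An ideal which is coprime to `m` has norm coprime to `m`. -/
lemma absNorm_coprime {I : Ideal (𝓞 K)} {m : ℕ} (hI : I ≠ ⊥)
    (h : IsCoprime I (Ideal.span {(m : 𝓞 K)})) : (Ideal.absNorm I).Coprime m := by
  rw [Nat.coprime_iff_gcd_eq_one]
  by_contra hne
  obtain ⟨q, hq, hqd⟩ := Nat.exists_prime_and_dvd hne
  have hq1 : q ∣ Ideal.absNorm I := hqd.trans (Nat.gcd_dvd_left _ _)
  have hq2 : q ∣ m := hqd.trans (Nat.gcd_dvd_right _ _)
  have : Fact q.Prime := ⟨hq⟩
  have hfin : Finite (𝓞 K ⧸ I) := Ideal.finiteQuotientOfFreeOfNeBot I hI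
  have hcard : q ∣ Nat.card (𝓞 K ⧸ I) := by
    rw [← Submodule.cardQuot_apply, ← Ideal.absNorm_apply]
    exact hq1
  obtain ⟨x, hx⟩ := exists_prime_addOrderOf_dvd_card' q hcard
  have hx0 : x ≠ 0 := by
    rintro rfl
    rw [addOrderOf_zero] at hx
    exact hq.one_lt.ne hx
  have hqx : (q : 𝓞 K ⧸ I) * x = 0 := by
    have := addOrderOf_nsmul_eq_zero x
    rwa [hx, nsmul_eq_mul] at this
  obtain ⟨a, ha, c, hc, hac⟩ := Ideal.isCoprime_iff_exists.1 h
  obtain ⟨d, hd⟩ := Ideal.mem_span_singleton'.1 hc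
  obtain ⟨e, he⟩ := hq2
  apply hx0
  have h1 : (Ideal.Quotient.mk I) (a + c) = 1 := by rw [hac, map_one]
  rw [map_add, Ideal.Quotient.eq_zero_iff_mem.2 ha, zero_add, ← hd, he] at h1
  push_cast at h1
  rw [map_mul, map_mul, map_natCast, map_natCast] at h1
  calc x = 1 * x := (one_mul x).symm
    _ = ((Ideal.Quotient.mk I) d * (q * e)) * x := by rw [h1]
    _ = ((Ideal.Quotient.mk I) d * e) * (q * x) := by ring
    _ = 0 := by rw [hqx, mul_zero]

omit [NumberField K] in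
lemma isCoprime_natCast_mul {I : Ideal (𝓞 K)} {M m : ℕ} :
    IsCoprime I (Ideal.span {((M * m : ℕ) : 𝓞 K)}) ↔
      IsCoprime I (Ideal.span {(M : 𝓞 K)}) ∧ IsCoprime I (Ideal.span {(m : 𝓞 K)}) := by
  have h : Ideal.span {((M * m : ℕ) : 𝓞 K)} =
      Ideal.span {(M : 𝓞 K)} * Ideal.span {(m : 𝓞 K)} := by
    rw [Ideal.span_singleton_mul_span_singleton]
    push_cast
    rfl
  rw [h]
  exact IsCoprime.mul_right_iff

variable {M : ℕ} {ψ : Ideal (𝓞 K) → ℂ} {om : mixedEmbedding.mixedSpace K → ℂ}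

/-- **the product of a Hecke character and a Dirichlet character** -/
theorem IsHecke.dir (h : IsHecke K M ψ om) {m : ℕ} [NeZero m] (χ : DirichletCharacter ℂ m)
    (hχ : χ.Even ∨ ∀ x : 𝓞 K, 0 ≤ Algebra.norm ℤ x) :
    IsHecke K (M * m) (fun I => ψ I * χ ((Ideal.absNorm I : ℕ) : ZMod m)) om where
  pos := Nat.mul_pos h.pos (NeZero.pos m)
  one := by
    rw [h.one, Ideal.absNorm_top, Nat.cast_one, map_one, one_mul]
  mul I J := by
    rw [h.mul, map_mul, Nat.cast_mul, map_mul]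
    ring
  norm I h0 hI := by
    rw [isCoprime_natCast_mul] at hI
    rw [norm_mul, h.norm I h0 hI.1, one_mul]
    have hc := absNorm_coprime h0 hI.2
    have hu : IsUnit ((Ideal.absNorm I : ℕ) : ZMod m) := (ZMod.isUnit_iff_coprime _ _).2 hc
    exact χ.unit_norm_eq_one hu.unit
  zero I hI := by
    by_cases h1 : IsCoprime I (Ideal.span {(M : 𝓞 K)})
    · have h2 : ¬ (Ideal.absNorm I).Coprime m := fun hc =>
        hI (isCoprime_natCast_mul.2 ⟨h1, isCoprime_of_absNorm hc⟩)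
      have h3 : ¬ IsUnit ((Ideal.absNorm I : ℕ) : ZMod m) := fun hu =>
        h2 ((ZMod.isUnit_iff_coprime _ _).1 hu)
      rw [χ.map_nonunit h3, mul_zero]
    · rw [h.zero I h1, zero_mul]
  om_norm := h.om_norm
  om_mul := h.om_mul
  prin a ha0 ha := by
    have h1 : (M : 𝓞 K) ∣ a - 1 := (Dvd.intro (m : 𝓞 K) (by push_cast; rfl)).trans ha
    have h2 : (m : 𝓞 K) ∣ a - 1 := (Dvd.intro_left (M : 𝓞 K) (by push_cast; rfl)).trans ha
    obtain ⟨b, hb⟩ := h2
    have h3 : a = 1 + (m : 𝓞 K) * b := by linear_combination hb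
    have h4 : ((Algebra.norm ℤ a : ℤ) : ZMod m) = 1 := by
      have h5 := norm_congr m (1 : 𝓞 K) b
      rw [← h3, map_one, ← ZMod.intCast_zmod_eq_zero_iff_dvd] at h5
      push_cast at h5
      exact sub_eq_zero.1 h5
    rw [h.prin a ha0 h1, Ideal.absNorm_span_singleton, chi_natAbs χ _ (hχ.imp id fun h => h a), h4,
      map_one, mul_one]

/-- The norm of an element of a totally complex field is not negative. -/
lemma norm_nonneg_of_totallyComplex [IsTotallyComplex K] (x : 𝓞 K) : 0 ≤ Algebra.norm ℤ x := by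
  rw [← TatePole.AT.an_cast]
  exact Int.natCast_nonneg _

/-- **the product of a Hecke character and a Dirichlet character**, totally complex fields -/
theorem IsHecke.dir' [IsTotallyComplex K] (h : IsHecke K M ψ om) {m : ℕ} [NeZero m]
    (χ : DirichletCharacter ℂ m) :
    IsHecke K (M * m) (fun I => ψ I * χ ((Ideal.absNorm I : ℕ) : ZMod m)) om :=
  h.dir χ (Or.inr norm_nonneg_of_totallyComplex)

end Pool.Agent.Lib.MP_058a58_ag.HK
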