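import Mathlib
import Pool.Agent.Lib.MP_058a58_ag.HK.Lin

/-!
# Frobenius elements at all primes above a good prime
-/

open Polynomial Filter Topology NumberField

namespace TatePole.HK

open TatePole AT

section
variable {F : Type*} [Field F] [NumberField F]

attribute [local instance] topZBar discZBar contZBar invZBar

/-- the primes above `p` -/
lemma mem_over {p : ℕ} (hp : p.Prime) {𝔭 : Ideal (𝓞 F)} :
    𝔭 ∈ IsDedekindDomain.primesOverFinset (Ideal.span {(p : ℤ)}) (𝓞 F) ↔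
      𝔭.IsPrime ∧ (p : 𝓞 F) ∈ 𝔭 := by
  have hpZ : Prime (p : ℤ) := Nat.prime_iff_prime_int.mp hp
  have hq0 : Ideal.span {(p : ℤ)} ≠ ⊥ := by
    simpa using hp.ne_zero
  have hqmax : (Ideal.span {(p : ℤ)}).IsMaximal :=
    ((Ideal.span_singleton_prime hpZ.ne_zero).mpr hpZ).isMaximal hq0
  rw [IsDedekindDomain.mem_primesOverFinset_iff hq0]
  constructor
  · rintro ⟨h1, ⟨h2⟩⟩
    refine ⟨h1, ?_⟩
    have h3 : (p : ℤ) ∈ Ideal.under ℤ 𝔭 := by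
      rw [← h2]; exact Ideal.mem_span_singleton_self _
    rw [Ideal.mem_comap] at h3
    simpa using h3
  · rintro ⟨h1, h2⟩
    refine ⟨h1, ⟨?_⟩⟩
    refine hqmax.eq_of_le ?_ ?_
    · exact (Ideal.IsPrime.comap (algebraMap ℤ (𝓞 F))).ne_top
    · rw [Ideal.span_singleton_le_iff_mem, Ideal.mem_comap]
      simpa using h2

lemma over_ne_bot {p : ℕ} (hp : p.Prime) {𝔭 : Ideal (𝓞 F)} (h : (p : 𝓞 F) ∈ 𝔭) : 𝔭 ≠ ⊥ := by
  rintro rfl
  rw [Ideal.mem_bot] at h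
  exact hp.ne_zero (by exact_mod_cast h)

/-- the degree of a prime above `p` -/
lemma exists_deg {p : ℕ} (hp : p.Prime) {𝔭 : Ideal (𝓞 F)} (h1 : 𝔭.IsPrime)
    (h2 : (p : 𝓞 F) ∈ 𝔭) :
    ∃ f : ℕ, 0 < f ∧ f ≤ Module.finrank ℚ F ∧ Ideal.absNorm 𝔭 = p ^ f := by
  have hpZ : Prime (p : ℤ) := Nat.prime_iff_prime_int.mp hp
  have hq0 : Ideal.span {(p : ℤ)} ≠ ⊥ := by
    simpa using hp.ne_zero
  have hqmax : (Ideal.span {(p : ℤ)}).IsMaximal :=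
    ((Ideal.span_singleton_prime hpZ.ne_zero).mpr hpZ).isMaximal hq0
  have h3 := (IsDedekindDomain.mem_primesOverFinset_iff hq0 (𝓞 F)).mp ((mem_over hp).mpr ⟨h1, h2⟩)
  have h4 : 𝔭.LiesOver (Ideal.span {(p : ℤ)}) := h3.2
  refine ⟨(Ideal.span {(p : ℤ)}).inertiaDeg' 𝔭, ?_, ?_, Ideal.absNorm_eq_pow_inertiaDeg' 𝔭 hp⟩
  · exact Nat.pos_of_ne_zero (Ideal.inertiaDeg'_ne_zero _ 𝔭)
  · exact Ideal.inertiaDeg_le_finrank (𝓞 F) ℚ F 𝔭 hq0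

lemma natCast_mem_of_pow {p f : ℕ} {𝔭 : Ideal (𝓞 F)} (h1 : 𝔭.IsPrime)
    (h : Ideal.absNorm 𝔭 = p ^ f) : (p : 𝓞 F) ∈ 𝔭 := by
  have h2 := Ideal.absNorm_mem 𝔭
  rw [h] at h2
  push_cast at h2
  exact h1.mem_of_pow_mem f h2

/-- the Frobenius congruence in the residue field -/
lemma pow_absNorm_sub_mem {𝔭 : Ideal (𝓞 F)} (h1 : 𝔭.IsPrime) (h0 : 𝔭 ≠ ⊥) (x : 𝓞 F) :
    x ^ Ideal.absNorm 𝔭 - x ∈ 𝔭 := by
  have hmax : 𝔭.IsMaximal := h1.isMaximal h0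
  let _ : Field (𝓞 F ⧸ 𝔭) := Ideal.Quotient.field 𝔭
  have hcard : Nat.card (𝓞 F ⧸ 𝔭) = Ideal.absNorm 𝔭 := by
    rw [Ideal.absNorm_apply, Submodule.cardQuot_apply]
  have hfin : Finite (𝓞 F ⧸ 𝔭) := Nat.finite_of_card_ne_zero (by
    rw [hcard]
    exact fun h => h0 (Ideal.absNorm_eq_zero_iff.mp h))
  let _ : Fintype (𝓞 F ⧸ 𝔭) := Fintype.ofFinite _
  have h2 := FiniteField.pow_card (Ideal.Quotient.mk 𝔭 x)
  rw [← Nat.card_eq_fintype_card, hcard] at h2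
  rw [← Ideal.Quotient.eq_zero_iff_mem, map_sub, map_pow, h2, sub_self]

/-- every prime above `p` comes from an embedding -/
lemma exists_emb_over {p : ℕ} (hp : p.Prime) {𝔓 : Ideal ZBar} (h𝔓 : 𝔓.IsPrime)
    (hp𝔓 : (p : ZBar) ∈ 𝔓) {I : Ideal (𝓞 F)} (hprime : I.IsPrime) (hpI : (p : 𝓞 F) ∈ I) :
    ∃ φ : F →ₐ[ℚ] QBar, 𝔓.comap (intMap φ) = I := by
  let φ₀ : F →ₐ[ℚ] QBar := IsAlgClosed.lift
  let alg : Algebra (𝓞 F) ZBar := (intMap φ₀).toAlgebra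
  have htower : IsScalarTower ℤ (𝓞 F) ZBar := IsScalarTower.of_algebraMap_eq fun n => by
    simp
  have hint : Algebra.IsIntegral (𝓞 F) ZBar := ⟨fun z => IsIntegral.tower_top (R := ℤ)
    (Algebra.IsIntegral.isIntegral z)⟩
  have hinj : Function.Injective (algebraMap (𝓞 F) ZBar) := by
    intro x y hxy
    have h1 : φ₀ (x : F) = φ₀ (y : F) := congrArg (fun z : ZBar => (z : QBar)) hxy
    exact RingOfIntegers.ext (φ₀.injective h1)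
  obtain ⟨𝔓₀, h𝔓₀, hcomap⟩ := Ideal.exists_ideal_over_prime_of_isIntegral_of_isDomain (S := ZBar) I
    (by rw [(RingHom.injective_iff_ker_eq_bot _).mp hinj]; exact bot_le)
  have hp𝔓₀ : (p : ZBar) ∈ 𝔓₀ := by
    have h1 : (p : 𝓞 F) ∈ 𝔓₀.comap (algebraMap (𝓞 F) ZBar) := by
      rw [hcomap]; exact hpI
    rw [Ideal.mem_comap, map_natCast] at h1
    exact h1
  have hunder : 𝔓₀.under ℤ = 𝔓.under ℤ := by
    ext n
    rw [Ideal.mem_comap, Ideal.mem_comap]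
    have h1 := dvd_of_mem hp h𝔓₀ hp𝔓₀ n
    have h2 := dvd_of_mem hp h𝔓 hp𝔓 n
    simp only [eq_intCast] at h1 h2 ⊢
    rw [h1, h2]
  obtain ⟨g, hg⟩ := Algebra.IsInvariant.exists_smul_of_under_eq_of_profinite (A := ℤ) (G := GQ)
    𝔓₀ 𝔓 hunder
  refine ⟨(g : QBar →ₐ[ℚ] QBar).comp φ₀, ?_⟩
  ext x
  have h1 : intMap ((g : QBar →ₐ[ℚ] QBar).comp φ₀) x = g • (intMap φ₀ x) := by
    apply Subtype.ext
    rw [coe_smul_ZBar]
    rfl
  rw [Ideal.mem_comap, h1, hg, Ideal.smul_mem_pointwise_smul_iff, ← hcomap, Ideal.mem_comap]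
  rfl

/-- powers of Frobenius elements -/
lemma isArithFrob_pow {p : ℕ} {𝔓 : Ideal ZBar} {σ : GQ} (hσ : IsArithFrob p 𝔓 σ) (f : ℕ) :
    IsArithFrob (p ^ f) 𝔓 (σ ^ f) := by
  induction f with
  | zero =>
    intro x
    refine ⟨0, 𝔓.zero_mem, ?_⟩
    rw [pow_zero, pow_zero, pow_one]
    show (x : QBar) = (x : QBar) + ((0 : ZBar) : QBar)
    rw [ZeroMemClass.coe_zero, add_zero]
  | succ f ih =>
    intro x
    obtain ⟨y, hy, hyx⟩ := ih x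
    obtain ⟨y', hy', hyx'⟩ := hσ (σ ^ f • x)
    have h1 : ((σ ^ f • x : ZBar) : QBar) = (σ ^ f) (x : QBar) := coe_smul_ZBar _ x
    -- `σ ^ f x = x ^ (p ^ f) + y` in `ZBar`
    have h2 : (σ ^ f • x : ZBar) = x ^ (p ^ f) + y := by
      apply Subtype.ext
      rw [h1, hyx]
      push_cast
      rfl
    have h3 : (σ ^ f • x : ZBar) ^ p - (x ^ (p ^ f)) ^ p ∈ 𝔓 := by
      refine 𝔓.mem_of_dvd (sub_dvd_pow_sub_pow _ _ p) ?_
      rw [h2, add_sub_cancel_left]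
      exact hy
    refine ⟨((σ ^ f • x : ZBar) ^ p - (x ^ (p ^ f)) ^ p) + y', 𝔓.add_mem h3 hy', ?_⟩
    have h4 : (σ ^ (f + 1)) (x : QBar) = σ ((σ ^ f) (x : QBar)) := by
      rw [pow_succ']; rfl
    rw [h4, ← h1, hyx']
    push_cast
    ring

/-- For a good prime `p` there is a Frobenius element at every prime of `F` above `p`. -/
theorem exists_frobAt (e : F →ₐ[ℚ] QBar) {p : ℕ} (hp : p.Prime) (hgood : GoodFor F p)
    {𝔓 : Ideal ZBar} (h𝔓 : 𝔓.IsPrime) (hp𝔓 : (p : ZBar) ∈ 𝔓) {σ : GQ}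
    (hσ : IsArithFrob p 𝔓 σ) {𝔭 : Ideal (𝓞 F)} (h1 : 𝔭.IsPrime) (h2 : (p : 𝓞 F) ∈ 𝔭) :
    ∃ g : GF e, IsFrobAt e 𝔭 g := by
  obtain ⟨f, -, -, hf⟩ := exists_deg hp h1 h2
  obtain ⟨φ, hφ⟩ := exists_emb_over hp h𝔓 hp𝔓 h1 h2
  have h0 := over_ne_bot hp h2
  have hpow := isArithFrob_pow hσ f
  have hfix : (σ ^ f) • φ = φ := by
    have h3 : (((σ ^ f : GQ) : QBar →ₐ[ℚ] QBar)).comp φ = φ := by
      refine hgood 𝔓 h𝔓 hp𝔓 _ _ fun x => ?_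
      obtain ⟨y, hy, hyx⟩ := hpow (intMap φ x)
      have h4 : intMap (((σ ^ f : GQ) : QBar →ₐ[ℚ] QBar).comp φ) x - intMap φ x =
          intMap φ (x ^ (p ^ f) - x) + y := by
        apply Subtype.ext
        have h5 : ((intMap (((σ ^ f : GQ) : QBar →ₐ[ℚ] QBar).comp φ) x : ZBar) : QBar) =
            (σ ^ f) ((intMap φ x : ZBar) : QBar) := rfl
        rw [map_sub, map_pow]
        push_cast
        rw [h5, hyx]
        ring
      rw [h4]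
      refine 𝔓.add_mem ?_ hy
      rw [← Ideal.mem_comap, hφ, ← hf]
      exact pow_absNorm_sub_mem h1 h0 x
    exact h3
  obtain ⟨x, hx⟩ := MulAction.exists_smul_eq GQ e φ
  refine ⟨⟨x⁻¹ * σ ^ f * x, (conj_mem_GF hx).mpr hfix⟩,
    𝔓.comap (MulSemiringAction.toRingHom GQ ZBar x), ?_, ?_⟩
  · have h3 := liesOver_conj hx h𝔓
    rw [hφ] at h3
    exact h3
  · rw [hf]
    exact isArithFrob_conj hpow

end

end TatePole.HK
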