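import Mathlib
import Pool.Agent.Lib.MP_058a58_ag.AT.TwistLogT

/-!
# The logarithm of an Euler product with polynomial factors
-/

open Polynomial Filter Topology

namespace TatePole.AT

/-- factorisation of a polynomial with constant term one -/
lemma poly_factor (q : ℂ[X]) (h0 : q.coeff 0 = 1) {n : ℕ} (hn : q.natDegree ≤ n)
    (hr : ∀ z : ℂ, q.eval z = 0 → ‖z‖ = 1) :
    ∃ β : Fin n → ℂ, (∀ j, ‖β j‖ ≤ 1) ∧ (∀ x, q.eval x = ∏ j, (1 - β j * x)) ∧
      ∑ j, β j = -q.coeff 1 := by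
  have hq0 : q ≠ 0 := by
    rintro rfl
    simp at h0
  have htd : q.natTrailingDegree = 0 := by
    rw [natTrailingDegree_eq_zero]
    right
    rw [h0]
    exact one_ne_zero
  set Q' := q.reverse with hQ'
  have hmon : Q'.Monic := by
    unfold Monic
    rw [hQ', reverse_leadingCoeff, trailingCoeff, htd, h0]
  have hdeg : Q'.natDegree = q.natDegree := by
    rw [hQ', reverse_natDegree, htd, Nat.sub_zero]
  have hrr : Q'.reverse = q := by
    rw [reverse, hdeg, hQ', reverse, reflect_reflect]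
  have hsplit : Q'.Splits := IsAlgClosed.splits Q'
  have hcard : Multiset.card Q'.roots = q.natDegree := by
    rw [← hsplit.natDegree_eq_card_roots, hdeg]
  have hroot : ∀ y ∈ Q'.roots, ‖y‖ ≤ 1 := by
    intro y hy
    rw [mem_roots hmon.ne_zero, IsRoot.def] at hy
    by_cases hy0 : y = 0
    · rw [hy0, norm_zero]; exact zero_le_one
    · have h1 : q.eval y⁻¹ = 0 := by
        rw [← hrr, reverse_eval_eq_prod Q' hmon]
        apply Multiset.prod_eq_zero
        rw [Multiset.mem_map]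
        refine ⟨y, ?_, by rw [mul_inv_cancel₀ hy0, sub_self]⟩
        rw [mem_roots hmon.ne_zero, IsRoot.def]
        exact hy
      have h2 := hr _ h1
      rw [norm_inv, inv_eq_one] at h2
      exact h2.le
  obtain ⟨β, hβ⟩ := exists_fin_enum (Q'.roots + Multiset.replicate (n - q.natDegree) 0) n (by
    rw [Multiset.card_add, hcard, Multiset.card_replicate]
    omega)
  refine ⟨β, fun j => ?_, fun x => ?_, ?_⟩
  · have h1 : β j ∈ Q'.roots + Multiset.replicate (n - q.natDegree) 0 := by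
      rw [← hβ]
      exact Multiset.mem_map.2 ⟨j, Finset.mem_univ j, rfl⟩
    rw [Multiset.mem_add] at h1
    rcases h1 with h1 | h1
    · exact hroot _ h1
    · rw [Multiset.eq_of_mem_replicate h1, norm_zero]
      exact zero_le_one
  · have h1 : ∏ j, (1 - β j * x) = (Multiset.map (fun y => 1 - y * x)
        (Multiset.map β Finset.univ.val)).prod := by
      rw [Multiset.map_map]; rfl
    rw [h1, hβ, Multiset.map_add, Multiset.prod_add, Multiset.map_replicate,
      Multiset.prod_replicate, zero_mul, sub_zero, one_pow, mul_one]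
    conv_lhs => rw [← hrr]
    exact reverse_eval_eq_prod Q' hmon x
  · have h1 : ∑ j, β j = (Multiset.map β Finset.univ.val).sum := rfl
    rw [h1, hβ, Multiset.sum_add, Multiset.sum_replicate, smul_zero, add_zero]
    have h2 : q.coeff 1 = Q'.nextCoeff := by
      rw [← coeff_one_reverse, hrr]
    rw [h2, hsplit.nextCoeff_eq_neg_sum_roots_of_monic hmon, neg_neg]

/-- The logarithm of an Euler product whose factors at the good primes are polynomials of bounded
degree, with constant term one and all zeros on the unit circle, is, up to a bounded error, minus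
the sum over the primes of the linear coefficients. -/
theorem log_of_poly {Q : ℕ → ℂ[X]} {S : Finset ℕ} {n : ℕ}
    (h0 : ∀ p : ℕ, p.Prime → p ∉ S → (Q p).coeff 0 = 1)
    (hn : ∀ p : ℕ, p.Prime → p ∉ S → (Q p).natDegree ≤ n)
    (hr : ∀ p : ℕ, p.Prime → p ∉ S → ∀ z : ℂ, (Q p).eval z = 0 → ‖z‖ = 1)
    (hbad : ∀ p ∈ S, p.Prime → (Q p).eval ((p : ℂ)⁻¹) ≠ 0) :
    ∃ C : ℝ, ∀ᶠ x : ℝ in 𝓝[>] (1 : ℝ), |Real.log ‖TatePole.ZZ Q (fun _ => 1) x‖ -
      RR (fun p => (-(Q p).coeff 1).re) x| ≤ C := by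
  classical
  have hex : ∀ p : ℕ, ∃ β : Fin n → ℂ, p.Prime → p ∉ S → (∀ j, ‖β j‖ ≤ 1) ∧
      (∀ x, (Q p).eval x = ∏ j, (1 - β j * x)) ∧ ∑ j, β j = -(Q p).coeff 1 := by
    intro p
    by_cases hp : p.Prime ∧ p ∉ S
    · obtain ⟨β, hβ⟩ := poly_factor (Q p) (h0 p hp.1 hp.2) (hn p hp.1 hp.2) (hr p hp.1 hp.2)
      exact ⟨β, fun _ _ => hβ⟩
    · exact ⟨0, fun h1 h2 => absurd ⟨h1, h2⟩ hp⟩
  choose β hβ using hex
  have hbad' : ∀ p ∈ S, p.Prime → (Q p).eval ((1 : ℂ) * pw p 1) ≠ 0 := by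
    intro p hpS hp
    simp only [pw_one, one_mul]
    exact hbad p hpS hp
  set A : ℕ → ℂ := fun p => if p ∈ S then 0 else ∑ j, β p j with hA
  have hAbd : ∀ p : ℕ, p.Prime → ‖A p‖ ≤ n := by
    intro p hp
    simp only [hA]
    split_ifs with h
    · rw [norm_zero]; exact Nat.cast_nonneg _
    · refine (norm_sum_le _ _).trans ?_
      refine (Finset.sum_le_sum fun j _ => (hβ p hp h).1 j).trans ?_
      rw [Finset.sum_const, Finset.card_univ, Fintype.card_fin, nsmul_eq_mul, mul_one]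
  obtain ⟨C1, hC1⟩ := log_ZZ_split (Q := Q) (S := S) (β := β) (v := fun _ => 1)
    (fun p hp hpS j => (hβ p hp hpS).1 j) (fun p hp hpS => (hβ p hp hpS).2.1)
    (fun p _ => by rw [norm_one]) hbad' hAbd
    (R0 := fun _ => 0) (K2 := 0) (fun p _ => by simp) (fun p hp hpS => by
      simp only [hA, add_zero, mul_one]
      rw [if_neg hpS])
  have hbd : BddPrimes (fun p => (-(Q p).coeff 1).re) := by
    refine ⟨n + ∑ p ∈ S, ‖(Q p).coeff 1‖, fun p hp => (Complex.abs_re_le_norm _).trans ?_⟩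
    by_cases h : p ∈ S
    · have h1 := Finset.single_le_sum (f := fun p => ‖(Q p).coeff 1‖)
        (fun _ _ => norm_nonneg _) h
      have h2 : (0 : ℝ) ≤ n := Nat.cast_nonneg _
      rw [norm_neg]
      linarith
    · have h1 := hAbd p hp
      simp only [hA] at h1
      rw [if_neg h, (hβ p hp h).2.2] at h1
      have h2 : 0 ≤ ∑ p ∈ S, ‖(Q p).coeff 1‖ := Finset.sum_nonneg fun _ _ => norm_nonneg _
      linarith
  obtain ⟨C2, hC2⟩ := RR_near (g := fun p => (A p).re)
    (h := fun p => (-(Q p).coeff 1).re) S (fun p hp hpS => by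
      simp only [hA]
      rw [if_neg hpS, (hβ p hp hpS).2.2])
    ⟨n, fun p hp => (Complex.abs_re_le_norm _).trans (hAbd p hp)⟩ hbd
  refine ⟨C1 + C2, ?_⟩
  filter_upwards [hC1, self_mem_nhdsWithin] with x hs1 hs2
  have h00 : RR (fun p : ℕ => ((fun _ : ℕ => (0 : ℂ)) p).re) x = 0 := by
    unfold RR
    simp
  rw [h00, add_zero] at hs1
  have h6 := hC2 x hs2
  have h7 := abs_sub_le (Real.log ‖TatePole.ZZ Q (fun _ => 1) x‖)
    (RR (fun p => (A p).re) x) (RR (fun p => (-(Q p).coeff 1).re) x)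
  linarith

end TatePole.AT
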