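import Pool.Agent.Lib.MP_058a58_ag.HK.Defs
import Pool.Agent.Lib.MP_058a58_ag.Embed

set_option autoImplicit false

/-!
# Fixed embeddings and ideals of prime norm, with weights
-/

namespace Pool.Agent.Lib.MP_058a58_ag.HK

open NumberField Filter Topology TatePole
open Pool.Agent.MP_058a58_ag.Ch (io)

section
variable {K : Type*} [Field K] [NumberField K]

open scoped Classical in
/-- for a good prime the sum over the ideals of norm `p` is a sum over the fixed embeddings -/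
theorem AI_eq_fix (ψ : Ideal (𝓞 K) → ℂ) {p : ℕ} (hp : p.Prime) (hgood : GoodFor K p)
    {𝔓 : Ideal ZBar} (h𝔓 : 𝔓.IsPrime) (hp𝔓 : (p : ZBar) ∈ 𝔓) {σ : GQ}
    (hσ : IsArithFrob p 𝔓 σ) :
    AI K ψ p = ∑ φ : K →ₐ[ℚ] QBar with σ • φ = φ, ψ (𝔓.comap (intMap φ)) := by
  symm
  unfold AI
  have hfix : ∀ φ : K →ₐ[ℚ] QBar, σ • φ = φ → ∀ x, σ (φ x) = φ x := by
    intro φ h x
    rw [← smul_emb_apply, h]
  refine Finset.sum_nbij (fun φ => 𝔓.comap (intMap φ)) ?_ ?_ ?_ ?_
  · intro φ hφ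
    rw [Finset.mem_filter] at hφ
    rw [mem_AI]
    exact absNorm_comap_of_fixed hp h𝔓 hp𝔓 hσ (hfix φ hφ.2)
  · intro φ hφ ψ hψ h
    rw [Finset.mem_coe, Finset.mem_filter] at hφ hψ
    have h1 : 𝔓.comap (intMap φ) = 𝔓.comap (intMap ψ) := h
    exact hgood 𝔓 h𝔓 hp𝔓 φ ψ fun x =>
      red_eq_of_comap_eq hp (absNorm_comap_of_fixed hp h𝔓 hp𝔓 hσ (hfix φ hφ.2)) rfl h1.symm x
  · intro I hI
    rw [Finset.mem_coe, mem_AI] at hI
    obtain ⟨φ, hφ⟩ := exists_emb_comap hp h𝔓 hp𝔓 hI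
    refine ⟨φ, ?_, hφ⟩
    rw [Finset.mem_coe, Finset.mem_filter]
    refine ⟨Finset.mem_univ _, ?_⟩
    have h1 : (σ : QBar →ₐ[ℚ] QBar).comp φ = φ := by
      refine hgood 𝔓 h𝔓 hp𝔓 _ _ fun x => ?_
      obtain ⟨y, hy, hyx⟩ := hσ (intMap φ x)
      have h2 : intMap ((σ : QBar →ₐ[ℚ] QBar).comp φ) x - intMap φ x =
          intMap φ (x ^ p - x) + y := by
        apply Subtype.ext
        have h3 : ((intMap ((σ : QBar →ₐ[ℚ] QBar).comp φ) x : ZBar) : QBar) =
            σ ((intMap φ x : ZBar) : QBar) := rfl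
        rw [map_sub, map_pow]
        push_cast
        rw [h3, hyx]
        ring
      rw [h2]
      refine 𝔓.add_mem ?_ hy
      rw [← Ideal.mem_comap, hφ]
      exact pow_sub_self_mem hp hI x
    exact h1
  · intro φ _
    rfl

end

section
variable {K L : Type*} [Field K] [NumberField K] [Field L] [NumberField L] [Algebra K L]

/-- the relative norm of an ideal of prime norm -/
lemma relNorm_of_prime {p : ℕ} (hp : p.Prime) {J : Ideal (𝓞 L)} (hJ : Ideal.absNorm J = p) :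
    Ideal.relNorm (𝓞 K) J = J.comap (algebraMap (𝓞 K) (𝓞 L)) := by
  have h1 : Ideal.absNorm (Ideal.relNorm (𝓞 K) J) = p := by
    rw [Ideal.absNorm_relNorm, hJ]
  have hprime : (Ideal.relNorm (𝓞 K) J).IsPrime := Ideal.isPrime_of_irreducible_absNorm (by
    rw [h1]; exact hp)
  have hne : Ideal.relNorm (𝓞 K) J ≠ ⊥ := by
    intro h
    rw [h, Ideal.absNorm_bot] at h1
    exact hp.ne_zero h1.symm
  have hmax : (Ideal.relNorm (𝓞 K) J).IsMaximal := hprime.isMaximal hne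
  refine hmax.eq_of_le ?_ (Ideal.relNorm_le_comap (𝓞 K) J)
  intro h
  rw [Ideal.eq_top_iff_one, Ideal.mem_comap, map_one, ← Ideal.eq_top_iff_one] at h
  rw [h, Ideal.absNorm_top] at hJ
  exact hp.one_lt.ne hJ

/-- the inclusion -/
noncomputable def incl (K L : Type*) [Field K] [NumberField K] [Field L] [NumberField L]
    [Algebra K L] : K →ₐ[ℚ] L := (algebraMap K L).toRatAlgHom

lemma comap_comap_intMap (𝔓 : Ideal ZBar) (φ : L →ₐ[ℚ] QBar) :
    (𝔓.comap (intMap φ)).comap (algebraMap (𝓞 K) (𝓞 L)) =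
      𝔓.comap (intMap (φ.comp (incl K L))) := by
  ext x
  rw [Ideal.mem_comap, Ideal.mem_comap, Ideal.mem_comap]
  have h : intMap φ (algebraMap (𝓞 K) (𝓞 L) x) = intMap (φ.comp (incl K L)) x := by
    apply Subtype.ext
    rfl
  rw [h]

open scoped Classical in
/-- the composition with the relative norm, as a sum over the fixed embeddings -/
theorem AI_relNorm_eq_fix (ψ : Ideal (𝓞 K) → ℂ) {p : ℕ} (hp : p.Prime) (hgood : GoodFor L p)
    {𝔓 : Ideal ZBar} (h𝔓 : 𝔓.IsPrime) (hp𝔓 : (p : ZBar) ∈ 𝔓) {σ : GQ}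
    (hσ : IsArithFrob p 𝔓 σ) :
    AI L (fun J => ψ (Ideal.relNorm (𝓞 K) J)) p =
      ∑ φ : L →ₐ[ℚ] QBar with σ • φ = φ, ψ (𝔓.comap (intMap (φ.comp (incl K L)))) := by
  rw [AI_eq_fix _ hp hgood h𝔓 hp𝔓 hσ]
  refine Finset.sum_congr rfl fun φ hφ => ?_
  rw [Finset.mem_filter] at hφ
  have hfix : ∀ x, σ (φ x) = φ x := by
    intro x
    rw [← smul_emb_apply, hφ.2]
  rw [relNorm_of_prime hp (absNorm_comap_of_fixed hp h𝔓 hp𝔓 hσ hfix), comap_comap_intMap]

end

section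
variable (K K₀ : Type) [Field K] [NumberField K] [Field K₀] [NumberField K₀]

/-- pairs of embeddings -/
abbrev Pairs : Type := (K →ₐ[ℚ] QBar) × (K₀ →ₐ[ℚ] QBar)

variable {K K₀}

/-- the composite of the images of a pair of embeddings -/
noncomputable def cf (P : Pairs K K₀) : IntermediateField ℚ QBar :=
  P.1.fieldRange ⊔ P.2.fieldRange

instance finCf (P : Pairs K K₀) : FiniteDimensional ℚ (cf P) := by
  unfold cf
  have h1 : FiniteDimensional ℚ P.1.fieldRange :=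
    Module.Finite.of_surjective (P.1.rangeRestrict.toLinearMap) P.1.rangeRestrict_surjective
  have h2 : FiniteDimensional ℚ P.2.fieldRange :=
    Module.Finite.of_surjective (P.2.rangeRestrict.toLinearMap) P.2.rangeRestrict_surjective
  exact IntermediateField.finiteDimensional_sup _ _

instance nfCf (P : Pairs K K₀) : NumberField (cf P) := { }

/-- the first field in the composite -/
noncomputable def e1 (P : Pairs K K₀) : K →ₐ[ℚ] cf P :=
  ((P.1.codRestrict (cf P).toSubalgebra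
    (fun x => (le_sup_left : P.1.fieldRange ≤ cf P) ⟨x, rfl⟩)).toRingHom : K →+* cf P).toRatAlgHom

/-- the second field in the composite -/
noncomputable def e2 (P : Pairs K K₀) : K₀ →ₐ[ℚ] cf P :=
  ((P.2.codRestrict (cf P).toSubalgebra
    (fun x => (le_sup_right : P.2.fieldRange ≤ cf P) ⟨x, rfl⟩)).toRingHom :
    K₀ →+* cf P).toRatAlgHom

lemma e1_apply (P : Pairs K K₀) (x : K) : ((e1 P x : cf P) : QBar) = P.1 x := rfl

lemma e2_apply (P : Pairs K K₀) (x : K₀) : ((e2 P x : cf P) : QBar) = P.2 x := rfl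

/-- an automorphism fixing both embeddings fixes the composite -/
lemma fix_cf (P : Pairs K K₀) (t : GQ) (h1 : t • P.1 = P.1) (h2 : t • P.2 = P.2) (x : QBar)
    (hx : x ∈ cf P) : t x = x := by
  have h3 : cf P ≤ IntermediateField.fixedField (Subgroup.zpowers t) := by
    refine sup_le ?_ ?_
    · rintro _ ⟨y, rfl⟩
      rw [IntermediateField.mem_fixedField_iff]
      intro u hu
      obtain ⟨n, rfl⟩ := Subgroup.mem_zpowers_iff.mp hu
      have h4 : (t ^ n) • P.1 = P.1 := by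
        have : t ∈ MulAction.stabilizer GQ P.1 := h1
        exact Subgroup.zpow_mem _ this n
      exact congrArg (fun f : K →ₐ[ℚ] QBar => f y) h4
    · rintro _ ⟨y, rfl⟩
      rw [IntermediateField.mem_fixedField_iff]
      intro u hu
      obtain ⟨n, rfl⟩ := Subgroup.mem_zpowers_iff.mp hu
      have h4 : (t ^ n) • P.2 = P.2 := by
        have : t ∈ MulAction.stabilizer GQ P.2 := h2
        exact Subgroup.zpow_mem _ this n
      exact congrArg (fun f : K₀ →ₐ[ℚ] QBar => f y) h4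
  have h5 := h3 hx
  rw [IntermediateField.mem_fixedField_iff] at h5
  exact h5 t (Subgroup.mem_zpowers t)

/-- the restriction of an automorphism to the composite -/
noncomputable def gv (P : Pairs K K₀) (g : GQ) : cf P →ₐ[ℚ] QBar :=
  (((g : QBar →+* QBar)).comp ((cf P).val.toRingHom : cf P →+* QBar)).toRatAlgHom

lemma gv_apply (P : Pairs K K₀) (g : GQ) (x : cf P) : gv P g x = g (x : QBar) := rfl

/-- every embedding of the composite comes from an automorphism -/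
lemma exists_act (P : Pairs K K₀) (φ : cf P →ₐ[ℚ] QBar) : ∃ g : GQ, φ = gv P g := by
  obtain ⟨g, hg⟩ := exists_extend (gv P 1) φ
  exact ⟨g, by ext x; exact (hg x).symm⟩

/-- the restrictions of an embedding of the composite -/
noncomputable def rs (P : Pairs K K₀) (φ : cf P →ₐ[ℚ] QBar) : Pairs K K₀ :=
  (φ.comp (e1 P), φ.comp (e2 P))

lemma rs_act (P : Pairs K K₀) (g : GQ) :
    rs P (gv P g) = g • P := by
  apply Prod.ext
  · rfl
  · rfl

lemma rs_smul (P : Pairs K K₀) (g : GQ) (φ : cf P →ₐ[ℚ] QBar) : rs P (g • φ) = g • rs P φ := by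
  apply Prod.ext
  · rfl
  · rfl

lemma rs_injective (P : Pairs K K₀) : Function.Injective (rs P) := by
  intro φ ψ h
  obtain ⟨g, rfl⟩ := exists_act P φ
  obtain ⟨g', rfl⟩ := exists_act P ψ
  rw [rs_act, rs_act] at h
  have h1 : (g'⁻¹ * g) • P = P := by
    rw [mul_smul, h, inv_smul_smul]
  have h2 := fix_cf P (g'⁻¹ * g) (congrArg Prod.fst h1) (congrArg Prod.snd h1)
  ext x
  have h3 := h2 x x.2
  have h4 : g (x : QBar) = g' ((g'⁻¹ * g) (x : QBar)) := by
    have : g = g' * (g'⁻¹ * g) := by group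
    conv_lhs => rw [this]
    rfl
  change g (x : QBar) = g' (x : QBar)
  rw [h4, h3]

lemma rs_range (P Q : Pairs K K₀) :
    (∃ φ, rs P φ = Q) ↔ Q ∈ MulAction.orbit GQ P := by
  constructor
  · rintro ⟨φ, rfl⟩
    obtain ⟨g, rfl⟩ := exists_act P φ
    exact ⟨g, (rs_act P g).symm⟩
  · rintro ⟨g, rfl⟩
    exact ⟨_, rs_act P g⟩

open scoped Classical in
/-- the sum over the fixed pairs of one orbit -/
theorem sum_orbit (P : Pairs K K₀) (σ : GQ) (F : Pairs K K₀ → ℂ) :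
    ∑ φ : cf P →ₐ[ℚ] QBar with σ • φ = φ, F (rs P φ) =
      ∑ Q : Pairs K K₀ with (σ • Q = Q ∧ Q ∈ MulAction.orbit GQ P), F Q := by
  refine Finset.sum_nbij (rs P) ?_ ?_ ?_ ?_
  · intro φ hφ
    rw [Finset.mem_filter] at hφ ⊢
    refine ⟨Finset.mem_univ _, ?_, (rs_range P _).mp ⟨φ, rfl⟩⟩
    rw [← rs_smul, hφ.2]
  · intro φ _ ψ _ h
    exact rs_injective P h
  · intro Q hQ
    rw [Finset.mem_coe, Finset.mem_filter] at hQ
    obtain ⟨φ, hφ⟩ := (rs_range P Q).mpr hQ.2.2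
    refine ⟨φ, ?_, hφ⟩
    rw [Finset.mem_coe, Finset.mem_filter]
    refine ⟨Finset.mem_univ _, rs_injective P ?_⟩
    rw [rs_smul, hφ, hQ.2.1]
  · intro φ _
    rfl

end

section
variable (K K₀ : Type) [Field K] [NumberField K] [Field K₀] [NumberField K₀]

/-- the orbits of the Galois group on the pairs of embeddings -/
abbrev Orb : Type := MulAction.orbitRel.Quotient GQ (Pairs K K₀)

noncomputable instance : Fintype (Orb K K₀) := Fintype.ofFinite _

/-- the field belonging to an orbit -/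
noncomputable abbrev Lo (o : Orb K K₀) : IntermediateField ℚ QBar :=
  cf (Quotient.out o : Pairs K K₀)

noncomputable instance algLo (o : Orb K K₀) : Algebra K₀ (Lo K K₀ o) :=
  (e2 (Quotient.out o : Pairs K K₀)).toRingHom.toAlgebra

open scoped Classical in
/-- the sum over all fixed pairs, over the orbits -/
theorem sum_pairs (σ : GQ) (F : (K₀ →ₐ[ℚ] QBar) → ℂ) :
    (fixCount K σ : ℂ) * ∑ ι : K₀ →ₐ[ℚ] QBar with σ • ι = ι, F ι =
      ∑ o : Orb K K₀, ∑ φ : Lo K K₀ o →ₐ[ℚ] QBar with σ • φ = φ,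
        F (φ.comp (incl K₀ (Lo K K₀ o))) := by
  have h1 : ∀ o : Orb K K₀, ∑ φ : Lo K K₀ o →ₐ[ℚ] QBar with σ • φ = φ,
        F (φ.comp (incl K₀ (Lo K K₀ o))) =
      ∑ Q : Pairs K K₀ with (σ • Q = Q ∧ Q ∈ MulAction.orbit GQ (Quotient.out o : Pairs K K₀)),
        F Q.2 := fun o => sum_orbit (Quotient.out o : Pairs K K₀) σ (fun Q => F Q.2)
  rw [Finset.sum_congr rfl fun o _ => h1 o]
  have h2 : ∀ o : Orb K K₀, ∀ Q : Pairs K K₀,
      Q ∈ MulAction.orbit GQ (Quotient.out o : Pairs K K₀) ↔ (Quotient.mk _ Q : Orb K K₀) = o := by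
    intro o Q
    rw [← MulAction.orbitRel_apply]
    constructor
    · intro h
      have h3 : (Quotient.mk _ Q : Orb K K₀) = Quotient.mk _ (Quotient.out o : Pairs K K₀) :=
        Quotient.sound h
      rw [h3, Quotient.out_eq]
    · intro h
      rw [← h]
      exact (MulAction.orbitRel GQ (Pairs K K₀)).symm'
        (Quotient.mk_out (s := MulAction.orbitRel GQ (Pairs K K₀)) Q)
  have h3 : ∀ o : Orb K K₀,
      ∑ Q : Pairs K K₀ with (σ • Q = Q ∧ Q ∈ MulAction.orbit GQ (Quotient.out o : Pairs K K₀)),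
        F Q.2 =
      ∑ Q ∈ (Finset.univ.filter (fun Q : Pairs K K₀ => σ • Q = Q)) with
        (Quotient.mk _ Q : Orb K K₀) = o, F Q.2 := by
    intro o
    rw [Finset.filter_filter]
    refine Finset.sum_congr (Finset.filter_congr fun Q _ => ?_) fun _ _ => rfl
    rw [h2]
  rw [Finset.sum_congr rfl fun o _ => h3 o, Finset.sum_fiberwise]
  rw [fixCount_eq_card, Nat.card_eq_fintype_card, Fintype.card_subtype]
  have h4 : (Finset.univ.filter (fun Q : Pairs K K₀ => σ • Q = Q)) =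
      (Finset.univ.filter (fun κ : K →ₐ[ℚ] QBar => σ • κ = κ)) ×ˢ
      (Finset.univ.filter (fun ι : K₀ →ₐ[ℚ] QBar => σ • ι = ι)) := by
    ext Q
    rw [Finset.mem_product, Finset.mem_filter, Finset.mem_filter, Finset.mem_filter]
    simp only [Finset.mem_univ, true_and]
    rw [Prod.ext_iff]
    rfl
  rw [h4, Finset.sum_product]
  simp only [Finset.sum_const, nsmul_eq_mul]

end

/-- **The weighted count for the composites.** -/
theorem tens (K K₀ : Type) [Field K] [NumberField K] [Field K₀] [NumberField K₀] :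
    ∃ S : Finset ℕ, ∀ p : ℕ, p.Prime → p ∉ S → ∀ (𝔓 : Ideal ZBar), 𝔓.IsPrime →
      (p : ZBar) ∈ 𝔓 → ∀ σ : GQ, IsArithFrob p 𝔓 σ → ∀ ψ : Ideal (𝓞 K₀) → ℂ,
        (fixCount K σ : ℂ) * AI K₀ ψ p =
          ∑ o : Orb K K₀, AI (Lo K K₀ o) (fun J => ψ (Ideal.relNorm (𝓞 K₀) J)) p := by
  classical
  have hfin : (⋃ o : Orb K K₀, {p : ℕ | p.Prime ∧ ¬ GoodFor (Lo K K₀ o) p}).Finite :=
    Set.finite_iUnion fun o => finite_bad (Lo K K₀ o)
  refine ⟨(finite_bad K₀).toFinset ∪ hfin.toFinset, fun p hp hpS 𝔓 h𝔓 hp𝔓 σ hσ ψ => ?_⟩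
  have hg0 : GoodFor K₀ p := by
    by_contra h
    exact hpS (Finset.mem_union_left _ ((finite_bad K₀).mem_toFinset.mpr ⟨hp, h⟩))
  have hg1 : ∀ o : Orb K K₀, GoodFor (Lo K K₀ o) p := by
    intro o
    by_contra h
    exact hpS (Finset.mem_union_right _ (hfin.mem_toFinset.mpr
      (Set.mem_iUnion.mpr ⟨o, hp, h⟩)))
  rw [AI_eq_fix ψ hp hg0 h𝔓 hp𝔓 hσ, sum_pairs K K₀ σ (fun ι => ψ (𝔓.comap (intMap ι)))]
  refine Finset.sum_congr rfl fun o _ => ?_
  rw [AI_relNorm_eq_fix ψ hp (hg1 o) h𝔓 hp𝔓 hσ]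

end Pool.Agent.Lib.MP_058a58_ag.HK
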