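import Mathlib
import Pool.Agent.Lib.MP_058a58_ag.HK.FrobM
import Pool.Agent.Lib.MP_058a58_ag.HK.LogPoly
import Pool.Agent.Lib.MP_058a58_ag.HK.CompProd
import Pool.Agent.Lib.MP_058a58_ag.HK.Tens
import Pool.Agent.Lib.MP_058a58_ag.AT.Final

/-!
# The logarithm of the `L`-function over the base field
-/

open Polynomial Filter Topology NumberField
open scoped TensorProduct

namespace TatePole.HK

open TatePole AT

/-- the local factor of an operator whose eigenvalues have the same absolute value -/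
lemma factor_props {E : Type*} [AddCommGroup E] [Module ℂ E] [FiniteDimensional ℂ E]
    (T : Module.End ℂ E) {r : ℝ} {a : ℂ} (ha : ‖a‖ * r = 1)
    (h : ∀ x ∈ T.charpoly.roots, ‖x‖ = r) :
    ((T.charpoly.reverse).comp (C a * X)).coeff 0 = 1 ∧
    ((T.charpoly.reverse).comp (C a * X)).coeff 1 = -(a * LinearMap.trace ℂ E T) ∧
    (∀ z : ℂ, ((T.charpoly.reverse).comp (C a * X)).eval z = 0 → ‖z‖ = 1) ∧
    ((T.charpoly.reverse).comp (C a * X)).natDegree ≤ Module.finrank ℂ E := by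
  have hmon : T.charpoly.Monic := LinearMap.charpoly_monic T
  have hsplit : T.charpoly.Splits := IsAlgClosed.splits _
  refine ⟨?_, ?_, ?_, ?_⟩
  · rw [comp_C_mul_X_coeff, pow_zero, mul_one, coeff_zero_reverse]
    exact hmon
  · rw [comp_C_mul_X_coeff, pow_one, coeff_one_reverse,
      hsplit.nextCoeff_eq_neg_sum_roots_of_monic hmon]
    have h2 := sum_roots_map_charpoly (RingHom.id ℂ) T
    rw [Polynomial.map_id] at h2
    rw [h2, RingHom.id_apply]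
    ring
  · intro z hz
    rw [eval_comp, eval_mul, eval_C, eval_X, reverse_eval_eq_prod _ hmon] at hz
    have h1 : (0 : ℂ) ∈ T.charpoly.roots.map (fun β => 1 - β * (a * z)) :=
      Multiset.prod_eq_zero_iff.mp hz
    obtain ⟨y, hy, hyz⟩ := Multiset.mem_map.mp h1
    have h2 : y * (a * z) = 1 := (sub_eq_zero.mp hyz).symm
    have h3 := congrArg norm h2
    rw [norm_mul, norm_mul, h y hy, norm_one] at h3
    have h4 : r * (‖a‖ * ‖z‖) = (‖a‖ * r) * ‖z‖ := by ring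
    rw [h4, ha, one_mul] at h3
    exact h3
  · refine natDegree_comp_le.trans ?_
    have h1 : (C a * X : ℂ[X]).natDegree ≤ 1 := (natDegree_C_mul_le a X).trans natDegree_X_le
    have h2 : T.charpoly.reverse.natDegree ≤ Module.finrank ℂ E := by
      refine (reverse_natDegree_le _).trans ?_
      rw [LinearMap.charpoly_natDegree]
    calc _ ≤ T.charpoly.reverse.natDegree * 1 := Nat.mul_le_mul_left _ h1
      _ ≤ _ := by rw [mul_one]; exact h2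

section
variable {G : Type*} [Group G] {ℓ : ℕ} [Fact ℓ.Prime] {W : Type*} [AddCommGroup W]
  [Module ℚ_[ℓ] W] [FiniteDimensional ℚ_[ℓ] W] [Algebra ℚ_[ℓ] ℂ]
  {V : Type*} [AddCommGroup V] [Module ℂ V] [FiniteDimensional ℂ V]

/-- the eigenvalues of a tensor product with an operator of finite order -/
lemma tRep_root_norm {ρ : Representation ℚ_[ℓ] G W} {α : Representation ℂ G V} {g : G} {r : ℝ}
    (h1 : ∀ z : ℂ, ((ρ g).charpoly.map (algebraMap ℚ_[ℓ] ℂ)).eval z = 0 → ‖z‖ = r)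
    {k : ℕ} (hk : 0 < k) (hα : α g ^ k = 1) :
    ∀ x ∈ (tRep ρ α g).charpoly.roots, ‖x‖ = r := by
  intro x hx
  set A : Module.End ℂ (ℂ ⊗[ℚ_[ℓ]] W) := (ρ g).baseChange ℂ with hA
  set T : Module.End ℂ ((ℂ ⊗[ℚ_[ℓ]] W) ⊗[ℂ] V) := tRep ρ α g with hT
  have hTA : T = TensorProduct.map A (α g) := rfl
  have hx' : x ∈ spectrum ℂ T :=
    (Module.End.mem_spectrum_iff_isRoot_charpoly T x).2 (Polynomial.isRoot_of_mem_roots hx)
  have h2 : x ^ k ∈ spectrum ℂ (T ^ k) := by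
    rw [spectrum.map_pow_of_pos T hk]
    exact ⟨x, hx', rfl⟩
  have h3 : T ^ k = Module.End.rTensorAlgHom ℂ (ℂ ⊗[ℚ_[ℓ]] W) V (A ^ k) := by
    rw [hTA, TensorProduct.map_pow, hα]
    rfl
  rw [h3] at h2
  have h4 := AlgHom.spectrum_apply_subset (Module.End.rTensorAlgHom ℂ (ℂ ⊗[ℚ_[ℓ]] W) V)
    (A ^ k) h2
  rw [spectrum.map_pow_of_pos A hk] at h4
  obtain ⟨y, hy, hyx⟩ := h4
  have h5 : A.charpoly.eval y = 0 := (Module.End.mem_spectrum_iff_isRoot_charpoly A y).1 hy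
  have h6 : A.charpoly = (ρ g).charpoly.map (algebraMap ℚ_[ℓ] ℂ) :=
    LinearMap.charpoly_baseChange (ρ g) ℂ
  rw [h6] at h5
  have h7 := h1 y h5
  have h9 : y ^ k = x ^ k := hyx
  have h8 : ‖x‖ ^ k = ‖y‖ ^ k := by
    rw [← norm_pow, ← h9, norm_pow]
  rw [← h7]
  exact (pow_left_inj₀ (norm_nonneg _) (norm_nonneg _) hk.ne').mp h8

lemma trace_tRep (ρ : Representation ℚ_[ℓ] G W) (α : Representation ℂ G V) (g : G) :
    LinearMap.trace ℂ _ (tRep ρ α g) =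
      algebraMap ℚ_[ℓ] ℂ (LinearMap.trace ℚ_[ℓ] W (ρ g)) * α.character g := by
  have h : tRep ρ α g = TensorProduct.map ((ρ g).baseChange ℂ) (α g) := rfl
  rw [h, LinearMap.trace_tensorProduct', LinearMap.trace_baseChange]
  rfl

end

section
variable {F : Type*} [Field F] [NumberField F] {e : F →ₐ[ℚ] QBar}

/-- representations with finite image have finite order -/
lemma fin_finite {V : Type*} [AddCommGroup V] [Module ℂ V] {α : Representation ℂ (GF e) V}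
    (hα : IsFin α) (g : GF e) : ∃ k : ℕ, 0 < k ∧ α g ^ k = 1 := by
  obtain ⟨A, hA⟩ := hα
  set M : IntermediateField ℚ QBar := IntermediateField.adjoin ℚ (A : Set QBar) with hM
  have hfd : FiniteDimensional ℚ M :=
    IntermediateField.finiteDimensional_adjoin fun x _ => Algebra.IsIntegral.isIntegral x
  have hopen : IsOpen (M.fixingSubgroup : Set GQ) := IntermediateField.fixingSubgroup_isOpen M
  have hfin : Finite (GQ ⧸ M.fixingSubgroup) :=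
    M.fixingSubgroup.quotient_finite_of_isOpen hopen
  have hidx : M.fixingSubgroup.index ≠ 0 := Subgroup.index_ne_zero_of_finite
  obtain ⟨k, hk, -, hmem⟩ := Subgroup.exists_pow_mem_of_index_ne_zero hidx (g : GQ)
  refine ⟨k, hk, ?_⟩
  rw [← map_pow]
  apply hA
  intro x hx
  exact (IntermediateField.mem_fixingSubgroup_iff _ _).1 hmem x
    (IntermediateField.subset_adjoin ℚ _ hx)

end

section
variable {F : Type} [Field F] [NumberField F] {e : F →ₐ[ℚ] QBar} {ℓ : ℕ} [Fact ℓ.Prime]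
  {W : Type*} [AddCommGroup W] [Module ℚ_[ℓ] W] [FiniteDimensional ℚ_[ℓ] W]
  {V : Type*} [AddCommGroup V] [Module ℂ V] [FiniteDimensional ℂ V]
  [Algebra ℚ_[ℓ] ℂ]

/-- the local factor at a good prime -/
lemma hecke_factor_props {ρ : Representation ℚ_[ℓ] (GF e) W} {w : ℤ}
    {α : Representation ℂ (GF e) V} (hα : IsFin α) {Ψ : Ideal (𝓞 F) → ℂ} {𝔭 : Ideal (𝓞 F)}
    (h0 : 𝔭 ≠ ⊥) (hΨ : ‖Ψ 𝔭‖ = 1) {R : ℂ[X]} (hR : IsHeckeFactor ρ w α Ψ 𝔭 R)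
    (hpure : IsPureAt ρ w 𝔭) {g : GF e} (hg : IsFrobAt e 𝔭 g) :
    R.coeff 0 = 1 ∧
    R.coeff 1 = -(Ψ 𝔭 * (((Ideal.absNorm 𝔭 : ℝ) ^ (-(w : ℝ) / 2) : ℝ) : ℂ) * trWV ρ α g) ∧
    (∀ z : ℂ, R.eval z = 0 → ‖z‖ = 1) ∧
    R.natDegree ≤ Module.finrank ℂ ((ℂ ⊗[ℚ_[ℓ]] W) ⊗[ℂ] V) := by
  have hN : (0 : ℝ) < Ideal.absNorm 𝔭 := by
    exact_mod_cast Nat.pos_of_ne_zero fun h => h0 (Ideal.absNorm_eq_zero_iff.mp h)
  obtain ⟨k, hk, hk1⟩ := fin_finite hα g⁻¹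
  have h1 := tRep_root_norm (ρ := ρ) (α := α) (g := g⁻¹) (hpure.pure g hg) hk hk1
  have ha : ‖Ψ 𝔭 * (((Ideal.absNorm 𝔭 : ℝ) ^ (-(w : ℝ) / 2) : ℝ) : ℂ)‖ *
      (Ideal.absNorm 𝔭 : ℝ) ^ ((w : ℝ) / 2) = 1 := by
    rw [norm_mul, hΨ, one_mul, Complex.norm_real, Real.norm_of_nonneg (Real.rpow_nonneg hN.le _),
      ← Real.rpow_add hN]
    have : -(w : ℝ) / 2 + (w : ℝ) / 2 = 0 := by ring
    rw [this, Real.rpow_zero]
  have h2 := factor_props (tRep ρ α g⁻¹) ha h1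
  rw [← hR.eq_det g hg, trace_tRep] at h2
  exact h2

/-- the degree of a prime above `p` -/
noncomputable def fd (p : ℕ) (𝔭 : Ideal (𝓞 F)) : ℕ := Nat.log p (Ideal.absNorm 𝔭)

lemma fd_spec {p : ℕ} (hp : p.Prime) {𝔭 : Ideal (𝓞 F)} (h1 : 𝔭.IsPrime) (h2 : (p : 𝓞 F) ∈ 𝔭) :
    0 < fd p 𝔭 ∧ fd p 𝔭 ≤ Module.finrank ℚ F ∧ Ideal.absNorm 𝔭 = p ^ fd p 𝔭 := by
  obtain ⟨f, hf0, hf1, hf⟩ := exists_deg hp h1 h2
  have h3 : fd p 𝔭 = f := by
    unfold fd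
    rw [hf, Nat.log_pow hp.one_lt]
  rw [h3]
  exact ⟨hf0, hf1, hf⟩

/-- the Euler factor at `p` -/
noncomputable def QF (R : Ideal (𝓞 F) → ℂ[X]) (p : ℕ) : ℂ[X] :=
  ∏ 𝔭 ∈ IsDedekindDomain.primesOverFinset (Ideal.span {(p : ℤ)}) (𝓞 F),
    (R 𝔭).comp (C 1 * X ^ fd p 𝔭)

lemma QF_eval (R : Ideal (𝓞 F) → ℂ[X]) {p : ℕ} (hp : p.Prime) (x : ℝ) :
    (QF R p).eval (pw p x) =
      ∏ 𝔭 ∈ IsDedekindDomain.primesOverFinset (Ideal.span {(p : ℤ)}) (𝓞 F),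
        (R 𝔭).eval ((Ideal.absNorm 𝔭 : ℂ) ^ (-(x : ℂ))) := by
  unfold QF
  rw [eval_prod]
  refine Finset.prod_congr rfl fun 𝔭 h𝔭 => ?_
  rw [mem_over hp] at h𝔭
  obtain ⟨-, -, hf⟩ := fd_spec hp h𝔭.1 h𝔭.2
  rw [eval_comp, eval_mul, eval_C, eval_pow, eval_X, one_mul]
  congr 1
  have h1 : ((Ideal.absNorm 𝔭 : ℂ)) ^ (-(x : ℂ)) = (((Ideal.absNorm 𝔭 : ℝ) ^ (-x) : ℝ) : ℂ) := by
    rw [Complex.ofReal_cpow (Nat.cast_nonneg _)]
    push_cast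
    rfl
  rw [h1, hf]
  unfold pw
  rw [← Complex.ofReal_pow]
  congr 1
  push_cast
  rw [← Real.rpow_natCast, ← Real.rpow_natCast, ← Real.rpow_mul (Nat.cast_nonneg _),
    ← Real.rpow_mul (Nat.cast_nonneg _)]
  congr 1
  ring

lemma LFunF_eq (R : Ideal (𝓞 F) → ℂ[X]) (s : ℝ) :
    LFunF R (s : ℂ) = TatePole.ZZ (QF R) (fun _ => 1) s := by
  unfold LFunF TatePole.ZZ
  refine tprod_congr fun p => ?_
  rw [one_mul, QF_eval R p.2]

/-- a prime above `p` is coprime to `M` if `p` does not divide `M` -/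
lemma coprime_over {p M : ℕ} (hp : p.Prime) (hpM : ¬ p ∣ M) {𝔭 : Ideal (𝓞 F)}
    (h2 : (p : 𝓞 F) ∈ 𝔭) : IsCoprime 𝔭 (Ideal.span {(M : 𝓞 F)}) := by
  rw [Ideal.isCoprime_iff_exists]
  have hcop : IsCoprime (p : ℤ) (M : ℤ) := by
    rw [Nat.isCoprime_iff_coprime]
    exact (Nat.Prime.coprime_iff_not_dvd hp).mpr hpM
  obtain ⟨a, b, hab⟩ := hcop
  refine ⟨(a : 𝓞 F) * (p : 𝓞 F), 𝔭.mul_mem_left _ h2, (b : 𝓞 F) * (M : 𝓞 F),
    Ideal.mul_mem_left _ _ (Ideal.mem_span_singleton_self _), ?_⟩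
  have := congrArg (fun z : ℤ => (z : 𝓞 F)) hab
  push_cast at this
  exact this

theorem log_F (ρ : Representation ℚ_[ℓ] (GF e) W) (w : ℤ)
    (α : Representation ℂ (GF e) V) (Ψ : Ideal (𝓞 F) → ℂ) (S : Finset (Ideal (𝓞 F)))
    (R : Ideal (𝓞 F) → ℂ[X]) (x : (F →ₐ[ℚ] QBar) → GQ) (σ : ℕ → GQ) (𝔓 : ℕ → Ideal ZBar)
    (hpure : ∀ 𝔭 : Ideal (𝓞 F), 𝔭.IsPrime → 𝔭 ≠ ⊥ → 𝔭 ∉ S → IsPureAt ρ w 𝔭)
    (hΨ : IsHecke Ψ) (hα : IsFin α) (hR : HeckeFactors ρ w α Ψ S R) (hx : ∀ ψ, x ψ • e = ψ)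
    (hσ : FrobSysP σ 𝔓) : LogF e ρ w α Ψ R x σ 𝔓 := by
  classical
  obtain ⟨M, k, τ, hM⟩ := hΨ
  set T : Finset ℕ := (finite_bad F).toFinset ∪ (S.biUnion fun 𝔭 =>
    (Ideal.absNorm 𝔭).primeFactors) ∪ M.primeFactors with hT
  -- the good primes
  have hgood : ∀ p : ℕ, p.Prime → p ∉ T → GoodFor F p ∧ ¬ p ∣ M ∧
      ∀ 𝔭 : Ideal (𝓞 F), 𝔭.IsPrime → (p : 𝓞 F) ∈ 𝔭 → 𝔭 ∉ S := by
    intro p hp hpT
    rw [hT, Finset.mem_union, Finset.mem_union, not_or, not_or] at hpT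
    obtain ⟨⟨h1, h2⟩, h3⟩ := hpT
    refine ⟨?_, ?_, ?_⟩
    · by_contra h
      exact h1 ((finite_bad F).mem_toFinset.mpr ⟨hp, h⟩)
    · intro h
      exact h3 (Nat.mem_primeFactors.mpr ⟨hp, h, hM.pos⟩)
    · intro 𝔭 h4 h5 h6
      refine h2 (Finset.mem_biUnion.mpr ⟨𝔭, h6, Nat.mem_primeFactors.mpr ⟨hp, ?_, ?_⟩⟩)
      · obtain ⟨hf0, -, hf⟩ := fd_spec hp h4 h5
        rw [hf]
        exact dvd_pow_self p hf0.ne'
      · exact fun h => over_ne_bot hp h5 (Ideal.absNorm_eq_zero_iff.mp h)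
  set n := Module.finrank ℂ ((ℂ ⊗[ℚ_[ℓ]] W) ⊗[ℂ] V) with hn
  -- the local factors at the good primes
  have hfac : ∀ p : ℕ, p.Prime → p ∉ T → ∀ 𝔭 : Ideal (𝓞 F), 𝔭.IsPrime → (p : 𝓞 F) ∈ 𝔭 →
      ‖Ψ 𝔭‖ = 1 ∧ ∀ g : GF e, IsFrobAt e 𝔭 g → (R 𝔭).coeff 0 = 1 ∧
      (R 𝔭).coeff 1 =
        -(Ψ 𝔭 * (((Ideal.absNorm 𝔭 : ℝ) ^ (-(w : ℝ) / 2) : ℝ) : ℂ) * trWV ρ α g) ∧
      (∀ z : ℂ, (R 𝔭).eval z = 0 → ‖z‖ = 1) ∧ (R 𝔭).natDegree ≤ n := by
    intro p hp hpT 𝔭 h1 h2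
    obtain ⟨-, hpM, hpS⟩ := hgood p hp hpT
    have h0 := over_ne_bot hp h2
    have h3 : ‖Ψ 𝔭‖ = 1 := hM.norm 𝔭 h0 (coprime_over hp hpM h2)
    refine ⟨h3, fun g hg => ?_⟩
    exact hecke_factor_props hα h0 h3 (hR.1 𝔭 h1 h0 (hpS 𝔭 h1 h2)) (hpure 𝔭 h1 h0 (hpS 𝔭 h1 h2)) hg
  have hfac' : ∀ p : ℕ, p.Prime → p ∉ T → ∀ 𝔭 : Ideal (𝓞 F), 𝔭.IsPrime → (p : 𝓞 F) ∈ 𝔭 →
      (R 𝔭).coeff 0 = 1 ∧ (∀ z : ℂ, (R 𝔭).eval z = 0 → ‖z‖ = 1) ∧ (R 𝔭).natDegree ≤ n := by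
    intro p hp hpT 𝔭 h1 h2
    obtain ⟨h𝔓, hp𝔓, hf⟩ := hσ p hp
    obtain ⟨g, hg⟩ := exists_frobAt e hp (hgood p hp hpT).1 h𝔓 hp𝔓 hf h1 h2
    obtain ⟨h3, -, h4, h5⟩ := (hfac p hp hpT 𝔭 h1 h2).2 g hg
    exact ⟨h3, h4, h5⟩
  -- the Euler factor at a good prime
  have hQ : ∀ p : ℕ, p.Prime → p ∉ T → (QF R p).coeff 0 = 1 ∧
      (QF R p).coeff 1 = ∑ 𝔭 ∈ IsDedekindDomain.primesOverFinset (Ideal.span {(p : ℤ)}) (𝓞 F),
        (if fd p 𝔭 = 1 then 1 * (R 𝔭).coeff 1 else 0) ∧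
      (∀ z : ℂ, (QF R p).eval z = 0 → ‖z‖ = 1) ∧
      (QF R p).natDegree ≤ n * (Module.finrank ℚ F * Module.finrank ℚ F) := by
    intro p hp hpT
    obtain ⟨h1, h2, h3, h4⟩ := comp_prod
      (IsDedekindDomain.primesOverFinset (Ideal.span {(p : ℤ)}) (𝓞 F)) R (fun _ => 1)
      (fun 𝔭 => fd p 𝔭) (fun 𝔭 h => by
        rw [mem_over hp] at h
        exact (fd_spec hp h.1 h.2).1) (fun 𝔭 _ => norm_one) (fun 𝔭 h => by
        rw [mem_over hp] at h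
        exact (hfac' p hp hpT 𝔭 h.1 h.2).1) (fun 𝔭 h => by
        rw [mem_over hp] at h
        exact (hfac' p hp hpT 𝔭 h.1 h.2).2.1) (n := n) (fun 𝔭 h => by
        rw [mem_over hp] at h
        exact (hfac' p hp hpT 𝔭 h.1 h.2).2.2)
    refine ⟨h1, h2, h3, h4.trans (Nat.mul_le_mul_left _ ?_)⟩
    have h5 : ∑ 𝔭 ∈ IsDedekindDomain.primesOverFinset (Ideal.span {(p : ℤ)}) (𝓞 F), fd p 𝔭 ≤
        ∑ _𝔭 ∈ IsDedekindDomain.primesOverFinset (Ideal.span {(p : ℤ)}) (𝓞 F),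
          Module.finrank ℚ F := by
      refine Finset.sum_le_sum fun 𝔭 h => ?_
      rw [mem_over hp] at h
      exact (fd_spec hp h.1 h.2).2.1
    refine h5.trans ?_
    rw [Finset.sum_const, smul_eq_mul]
    refine Nat.mul_le_mul_right _ (Ded.card_le_finrank F hp _ fun 𝔭 h => ?_)
    exact (mem_over hp).mp h
  -- the logarithm
  obtain ⟨C1, hC1⟩ := log_of_poly (Q := QF R) (S := T)
    (n := n * (Module.finrank ℚ F * Module.finrank ℚ F))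
    (fun p hp hpT => (hQ p hp hpT).1) (fun p hp hpT => (hQ p hp hpT).2.2.2)
    (fun p hp hpT => (hQ p hp hpT).2.2.1) (fun p _ hp => by
      have h1 := QF_eval R hp 1
      rw [pw_one] at h1
      rw [h1, Finset.prod_ne_zero_iff]
      intro 𝔭 h
      rw [mem_over hp] at h
      have h2 := hR.2 𝔭 h.1 (over_ne_bot hp h.2)
      have h3 : (Ideal.absNorm 𝔭 : ℂ) ^ (-((1 : ℝ) : ℂ)) = (Ideal.absNorm 𝔭 : ℂ)⁻¹ := by
        rw [Complex.ofReal_one, Complex.cpow_neg_one]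
      rw [h3]
      exact h2)
  -- the linear coefficient
  set g1 : ℕ → ℝ := fun p => (-(QF R p).coeff 1).re with hg1
  set g2 : ℕ → ℝ := fun p => (sumFix e x σ (trWV ρ α)
      (fun ψ p => EPsi 𝔓 Ψ ψ p * (((p : ℝ) ^ (-(w : ℝ) / 2) : ℝ) : ℂ)) p).re with hg2
  have hg12 : ∀ p : ℕ, p.Prime → p ∉ T → g1 p = g2 p := by
    intro p hp hpT
    obtain ⟨h𝔓, hp𝔓, hf⟩ := hσ p hp
    simp only [hg1, hg2]
    congr 1
    have h1 : -(QF R p).coeff 1 =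
        Pool.Agent.Lib.MP_058a58_ag.HK.AI F (fun 𝔭 => -(R 𝔭).coeff 1) p := by
      rw [(hQ p hp hpT).2.1, ← Finset.sum_neg_distrib]
      unfold Pool.Agent.Lib.MP_058a58_ag.HK.AI
      have h2 : (Ideal.finite_setOfPred_absNorm_eq (S := 𝓞 F) p).toFinset =
          (IsDedekindDomain.primesOverFinset (Ideal.span {(p : ℤ)}) (𝓞 F)).filter
            (fun 𝔭 => fd p 𝔭 = 1) := by
        ext I
        rw [Pool.Agent.Lib.MP_058a58_ag.HK.mem_AI, Finset.mem_filter, mem_over hp]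
        constructor
        · intro hI
          have hprime : I.IsPrime := Ideal.isPrime_of_irreducible_absNorm (by
            rw [hI]; exact hp)
          refine ⟨⟨hprime, natCast_mem_of_absNorm hI⟩, ?_⟩
          unfold fd
          rw [hI]
          have h3 := Nat.log_pow hp.one_lt 1
          rwa [pow_one] at h3
        · rintro ⟨⟨h3, h4⟩, h5⟩
          obtain ⟨-, -, h6⟩ := fd_spec hp h3 h4
          rw [h6, h5, pow_one]
      rw [h2, Finset.sum_filter]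
      refine Finset.sum_congr rfl fun 𝔭 _ => ?_
      split_ifs
      · rw [one_mul]
      · rw [neg_zero]
    rw [h1, Pool.Agent.Lib.MP_058a58_ag.HK.AI_eq_fix _ hp (hgood p hp hpT).1 h𝔓 hp𝔓 hf]
    unfold sumFix
    rw [Finset.sum_filter]
    refine Finset.sum_congr rfl fun ψ _ => ?_
    by_cases hfix : σ p • ψ = ψ
    · rw [if_pos hfix]
      obtain ⟨h2, h3⟩ := isFrobAt_conj (hx ψ) hp h𝔓 hp𝔓 hf hfix
      have hprime : ((𝔓 p).comap (intMap ψ)).IsPrime :=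
        Ideal.isPrime_of_irreducible_absNorm (by rw [h2]; exact hp)
      obtain ⟨-, h4⟩ := hfac p hp hpT _ hprime (natCast_mem_of_absNorm h2)
      have h5 := (h4 _ h3).2.1
      rw [h5, h2]
      unfold extG EPsi
      rw [dif_pos ((conj_mem_GF (hx ψ)).mpr hfix)]
      ring
    · rw [if_neg hfix]
      unfold extG
      rw [dif_neg (fun h => hfix ((conj_mem_GF (hx ψ)).mp h)), zero_mul]
  -- bounds
  have hb1 : BddPrimes g1 := by
    refine bdd_of_outside T (n * (Module.finrank ℚ F * Module.finrank ℚ F) : ℕ)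
      fun p hp hpT => ?_
    obtain ⟨β, hβ, -, hβs⟩ := poly_factor (QF R p) (hQ p hp hpT).1 (hQ p hp hpT).2.2.2
      (hQ p hp hpT).2.2.1
    simp only [hg1]
    rw [← hβs]
    refine (Complex.abs_re_le_norm _).trans ((norm_sum_le _ _).trans ?_)
    refine (Finset.sum_le_sum fun j _ => hβ j).trans ?_
    rw [Finset.sum_const, Finset.card_univ, Fintype.card_fin, nsmul_eq_mul, mul_one]
  have hb2 : BddPrimes g2 := by
    obtain ⟨C, hC⟩ := hb1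
    refine bdd_of_outside T C fun p hp hpT => ?_
    rw [← hg12 p hp hpT]
    exact hC p hp
  obtain ⟨C2, hC2⟩ := RR_near T hg12 hb1 hb2
  refine ⟨C1 + C2, ?_⟩
  filter_upwards [hC1, self_mem_nhdsWithin] with s hs1 hs2
  rw [← LFunF_eq] at hs1
  have h6 := hC2 s hs2
  have h7 := abs_sub_le (Real.log ‖LFunF R s‖) (RR g1 s) (RR g2 s)
  linarith

end

theorem s_log : S_LOG := by
  intro F _ _ e ℓ _ _ W _ _ _ V _ _ _ ρ w α Ψ S R x σ 𝔓 hpure hΨ hα hR hx hσ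
  exact log_F ρ w α Ψ S R x σ 𝔓 hpure hΨ hα hR hx hσ

end TatePole.HK
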