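import Pool.Agent.Lib.MP_058a58_ag.HK.Stm2

set_option autoImplicit false

/-!
# The ratio of two Hecke characters is a Hecke character
-/

open Polynomial Filter Topology NumberField

namespace TatePole

section
variable {F : Type*} [Field F] [NumberField F]

omit [NumberField F] in
lemma norm_phase_eq {z : ℂ} (hz : z ≠ 0) (k : ℤ) (t : ℝ) :
    ‖(z / (‖z‖ : ℂ)) ^ k * (‖z‖ : ℂ) ^ ((t : ℂ) * Complex.I)‖ = 1 := by
  have h0 : (0 : ℝ) < ‖z‖ := norm_pos_iff.2 hz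
  rw [norm_mul, norm_zpow, norm_div, Complex.norm_real, norm_norm, div_self h0.ne', one_zpow,
    one_mul, Complex.norm_cpow_eq_rpow_re_of_pos h0]
  simp

lemma infVal_sub {a : F} (ha : a ≠ 0) (k k' : (F →+* ℂ) → ℤ) (τ τ' : (F →+* ℂ) → ℝ) :
    infVal F (fun φ => k φ - k' φ) (fun φ => τ φ - τ' φ) a =
      infVal F k τ a * (starRingEnd ℂ) (infVal F k' τ' a) := by
  unfold infVal
  rw [map_prod, ← Finset.prod_mul_distrib]
  refine Finset.prod_congr rfl fun φ _ => ?_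
  have hz : φ a ≠ 0 := (map_ne_zero φ).2 ha
  have h0 : (0 : ℝ) < ‖φ a‖ := norm_pos_iff.2 hz
  have hc : (‖φ a‖ : ℂ) ≠ 0 := by exact_mod_cast h0.ne'
  set u : ℂ := (φ a / (‖φ a‖ : ℂ)) ^ k' φ * (‖φ a‖ : ℂ) ^ ((τ' φ : ℂ) * Complex.I) with hu
  have hu1 : u * (starRingEnd ℂ) u = 1 := by
    rw [Complex.mul_conj, Complex.normSq_eq_norm_sq, hu, norm_phase_eq hz]
    norm_num
  have hu0 : u ≠ 0 := by
    intro h
    rw [h, zero_mul] at hu1
    exact zero_ne_one hu1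
  apply mul_right_cancel₀ hu0
  rw [mul_assoc _ ((starRingEnd ℂ) u) u, mul_comm ((starRingEnd ℂ) u) u, hu1, mul_one, hu]
  have h1 : (φ a / (‖φ a‖ : ℂ)) ≠ 0 := div_ne_zero hz hc
  have h2 : (((τ φ - τ' φ : ℝ) : ℂ)) * Complex.I = (τ φ : ℂ) * Complex.I - (τ' φ : ℂ) * Complex.I := by
    push_cast
    ring
  rw [h2, zpow_sub₀ h1, Complex.cpow_sub _ _ hc]
  have h3 : (φ a / (‖φ a‖ : ℂ)) ^ k' φ ≠ 0 := zpow_ne_zero _ h1
  have h4 : (‖φ a‖ : ℂ) ^ ((τ' φ : ℂ) * Complex.I) ≠ 0 := by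
    rw [Complex.cpow_def_of_ne_zero hc]
    exact Complex.exp_ne_zero _
  rw [div_mul_div_comm, div_mul_cancel₀ _ (mul_ne_zero h3 h4)]

omit [NumberField F] in
lemma isCoprime_natCast_mul' {I : Ideal (𝓞 F)} {M m : ℕ} :
    IsCoprime I (Ideal.span {((M * m : ℕ) : 𝓞 F)}) ↔
      IsCoprime I (Ideal.span {(M : 𝓞 F)}) ∧ IsCoprime I (Ideal.span {(m : 𝓞 F)}) := by
  have h : Ideal.span {((M * m : ℕ) : 𝓞 F)} =
      Ideal.span {(M : 𝓞 F)} * Ideal.span {(m : 𝓞 F)} := by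
    rw [Ideal.span_singleton_mul_span_singleton]
    push_cast
    rfl
  rw [h]
  exact IsCoprime.mul_right_iff

theorem IsHeckeChar.ratio {M M' : ℕ} {k k' : (F →+* ℂ) → ℤ} {τ τ' : (F →+* ℂ) → ℝ}
    {Ψ Φ : Ideal (𝓞 F) → ℂ} (h : IsHeckeChar F M k τ Ψ) (h' : IsHeckeChar F M' k' τ' Φ) :
    IsHeckeChar F (M * M') (fun φ => k φ - k' φ) (fun φ => τ φ - τ' φ) (TatePole.ratio Ψ Φ) where
  pos := mul_ne_zero h.pos h'.pos
  one := by
    unfold TatePole.ratio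
    rw [h.one, h'.one, map_one, one_mul]
  mul I J := by
    unfold TatePole.ratio
    rw [h.mul, h'.mul, map_mul]
    ring
  norm I h0 hI := by
    unfold TatePole.ratio
    rw [isCoprime_natCast_mul'] at hI
    rw [norm_mul, RCLike.norm_conj, h.norm I h0 hI.1, h'.norm I h0 hI.2, one_mul]
  zero I hI := by
    unfold TatePole.ratio
    rcases hI with hI | hI
    · rw [h.zero I (Or.inl hI), zero_mul]
    · by_cases h1 : IsCoprime I (Ideal.span {(M : 𝓞 F)})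
      · have h2 : ¬ IsCoprime I (Ideal.span {(M' : 𝓞 F)}) := fun hc =>
          hI (isCoprime_natCast_mul'.2 ⟨h1, hc⟩)
        rw [h'.zero I (Or.inr h2), map_zero, mul_zero]
      · rw [h.zero I (Or.inr h1), zero_mul]
  ray a ha0 ha := by
    have h1 : (M : 𝓞 F) ∣ a - 1 := (Dvd.intro (M' : 𝓞 F) (by push_cast; rfl)).trans ha
    have h2 : (M' : 𝓞 F) ∣ a - 1 := (Dvd.intro_left (M : 𝓞 F) (by push_cast; rfl)).trans ha
    have ha' : (a : F) ≠ 0 := by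
      intro h0
      exact ha0 (RingOfIntegers.ext h0)
    rw [infVal_sub ha']
    unfold TatePole.ratio
    rw [h.ray a ha0 h1, h'.ray a ha0 h2]

end

/-- [RATIO] -/
theorem ratio_hecke : S_RATIO := by
  rintro F _ _ Ψ Φ ⟨M, k, τ, h⟩ ⟨M', k', τ', h'⟩
  exact ⟨_, _, _, h.ratio h'⟩

end TatePole
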