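import Mathlib
import Pool.Agent.Lib.MP_058a58_ag.AT.TrickT2

/-!
# The trick of Chebotarev over a base field: first part
-/

open Polynomial Filter Topology NumberField Set

namespace TatePole.AT

/-- weighted number of elements conjugating `s` to `y` -/
noncomputable def ccw {Γ : Type*} [Group Γ] (u : Γ → ℂ) (y s : Γ) : ℂ :=
  ∑ᶠ x : {x : Γ // x⁻¹ * s * x = y}, u x.1

section
variable {Γ : Type*} [Group Γ]

lemma ccw_eq [Fintype Γ] [DecidableEq Γ] (u : Γ → ℂ) (y s : Γ) :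
    ccw u y s = ∑ x : Γ, if x⁻¹ * s * x = y then u x else 0 := by
  unfold ccw
  rw [finsum_eq_sum_of_fintype, Finset.sum_ite, Finset.sum_const_zero, add_zero]
  exact (Finset.sum_subtype (Finset.univ.filter fun x : Γ => x⁻¹ * s * x = y) (by simp) u).symm

lemma norm_ccw_le [Finite Γ] (u : Γ → ℂ) (hu : ∀ x, ‖u x‖ ≤ 1) (y s : Γ) :
    ‖ccw u y s‖ ≤ Nat.card Γ := by
  classical
  have : Fintype Γ := Fintype.ofFinite _
  rw [ccw_eq]
  refine (norm_sum_le _ _).trans ?_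
  have h : ∀ x ∈ (Finset.univ : Finset Γ), ‖if x⁻¹ * s * x = y then u x else 0‖ ≤ 1 := by
    intro x _
    split_ifs
    · exact hu x
    · rw [norm_zero]; exact zero_le_one
  refine (Finset.sum_le_sum h).trans ?_
  rw [Finset.sum_const, Finset.card_univ, nsmul_eq_mul, mul_one, Nat.card_eq_fintype_card]

end

section
variable {F : Type*} [Field F] [NumberField F]

/-- the inclusion of the base field in the fixed field -/
lemma exists_incl (N : Subgroup GQ) [N.Normal] (H : Subgroup (GQ ⧸ N)) (e : F →ₐ[ℚ] QBar)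
    (hH : ∀ g : GQ, (g : GQ ⧸ N) ∈ H → g • e = e) :
    ∃ i : F →ₐ[ℚ] (fieldOf N H), (fieldOf N H).val.comp i = e := by
  refine ⟨e.codRestrict (fieldOf N H).toSubalgebra fun x => ?_, ?_⟩
  · rw [IntermediateField.mem_toSubalgebra, IntermediateField.mem_fixedField_iff]
    intro g hg
    rw [Subgroup.mem_comap, QuotientGroup.mk'_apply] at hg
    exact congrArg (fun f : F →ₐ[ℚ] QBar => f x) (hH g hg)
  · ext x
    rfl

open Classical in
/-- weighted version of `card_conj_mem` -/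
theorem sum_conj_mem (N : Subgroup GQ) [N.Normal] {M : IntermediateField ℚ QBar}
    [FiniteDimensional ℚ M] (hN : N = M.fixingSubgroup) [Fintype (GQ ⧸ N)]
    (H : Subgroup (GQ ⧸ N)) [NumberField (fieldOf N H)] (e : F →ₐ[ℚ] QBar)
    (i : F →ₐ[ℚ] (fieldOf N H)) (hi : (fieldOf N H).val.comp i = e)
    (B : (F →ₐ[ℚ] QBar) → ℂ) (s : GQ) :
    ∑ x : GQ ⧸ N, (if x⁻¹ * (s : GQ ⧸ N) * x ∈ H then B (x.out • e) else 0) =
      Nat.card H * ∑ φ : (fieldOf N H) →ₐ[ℚ] QBar, if s • φ = φ then B (φ.comp i) else 0 := by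
  classical
  have hfin := finite_quot N hN
  have hfix := fixingSubgroup_eq N hN H
  set φ₀ : (fieldOf N H) →ₐ[ℚ] QBar := (fieldOf N H).val with hφ₀
  have hstab : ∀ g : GQ, g • φ₀ = φ₀ ↔ ((g : GQ ⧸ N) ∈ H) := by
    intro g
    have h1 : g ∈ (fieldOf N H).fixingSubgroup ↔ (g : GQ ⧸ N) ∈ H := by
      rw [hfix, Subgroup.mem_comap, QuotientGroup.mk'_apply]
    rw [← h1, IntermediateField.mem_fixingSubgroup_iff]
    constructor
    · intro h x hx
      exact congrArg (fun f : (fieldOf N H) →ₐ[ℚ] QBar => f ⟨x, hx⟩) h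
    · intro h
      ext x
      exact h x x.2
  set r : (GQ ⧸ N) → ((fieldOf N H) →ₐ[ℚ] QBar) := fun x => x.out • φ₀ with hr
  have hrout : ∀ (x : GQ ⧸ N) (g : GQ), (r x = g • φ₀ ↔ ((g : GQ ⧸ N))⁻¹ * x ∈ H) := by
    intro x g
    rw [hr]
    simp only
    have h1 : x.out • φ₀ = g • φ₀ ↔ (g⁻¹ * x.out) • φ₀ = φ₀ := by
      rw [mul_smul, inv_smul_eq_iff]
    rw [h1, hstab]
    have h2 : ((g⁻¹ * x.out : GQ) : GQ ⧸ N) = (g : GQ ⧸ N)⁻¹ * x := by
      rw [QuotientGroup.mk_mul, QuotientGroup.mk_inv, QuotientGroup.out_eq']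
    rw [h2]
  have hsurj : ∀ φ : (fieldOf N H) →ₐ[ℚ] QBar, ∃ g : GQ, g • φ₀ = φ := fun φ =>
    MulAction.exists_smul_eq GQ φ₀ φ
  have hmem : ∀ x : GQ ⧸ N, (x⁻¹ * (s : GQ ⧸ N) * x ∈ H ↔ s • r x = r x) := by
    intro x
    have h1 : r x = x.out • φ₀ := rfl
    have h2 : r x = (s * x.out) • φ₀ ↔ s • r x = r x := by
      rw [mul_smul, ← h1]
      exact eq_comm
    rw [← h2, hrout]
    have h3 : ((s * x.out : GQ) : GQ ⧸ N)⁻¹ * x = (x⁻¹ * (s : GQ ⧸ N) * x)⁻¹ := by
      rw [QuotientGroup.mk_mul, QuotientGroup.out_eq']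
      group
    rw [h3, inv_mem_iff]
  have hfib : ∀ φ : (fieldOf N H) →ₐ[ℚ] QBar, Nat.card {x : GQ ⧸ N // r x = φ} = Nat.card H := by
    intro φ
    obtain ⟨g, rfl⟩ := hsurj φ
    refine Nat.card_congr
      { toFun := fun x => ⟨(g : GQ ⧸ N)⁻¹ * x.1, (hrout x.1 g).mp x.2⟩
        invFun := fun y => ⟨(g : GQ ⧸ N) * y.1, (hrout _ g).mpr (by
          rw [← mul_assoc, inv_mul_cancel, one_mul]; exact y.2)⟩
        left_inv := fun x => by simp
        right_inv := fun y => by simp }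
  have hB : ∀ x : GQ ⧸ N, B (x.out • e) = B ((r x).comp i) := by
    intro x
    congr 1
    rw [← hi]
    ext z
    rfl
  have h1 : ∀ x : GQ ⧸ N, (if x⁻¹ * (s : GQ ⧸ N) * x ∈ H then B (x.out • e) else 0) =
      (fun φ : (fieldOf N H) →ₐ[ℚ] QBar => if s • φ = φ then B (φ.comp i) else 0) (r x) := by
    intro x
    simp only [hB x, hmem x]
  simp only [h1]
  rw [← Finset.sum_fiberwise (s := (Finset.univ : Finset (GQ ⧸ N))) (g := r), Finset.mul_sum]
  refine Finset.sum_congr rfl fun φ _ => ?_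
  rw [Finset.sum_congr rfl (fun x hx => by
    rw [(Finset.mem_filter.mp hx).2] : ∀ x ∈ Finset.univ.filter (fun x => r x = φ),
      (if s • r x = r x then B ((r x).comp i) else 0) =
      (if s • φ = φ then B (φ.comp i) else 0)), Finset.sum_const, nsmul_eq_mul]
  congr 1
  rw [← hfib φ, Nat.card_eq_fintype_card, Fintype.card_subtype]

end

end TatePole.AT
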