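import Mathlib
import Pool.Agent.Lib.MP_058a58_ag.HK.TrickF1
import Pool.Agent.Lib.MP_058a58_ag.HK.Stm2

/-!
# The trick of Chebotarev over a base field: second part
-/

open Polynomial Filter Topology NumberField Set

namespace TatePole.AT

lemma ccw_prod {Γ Γ₁ Γ₂ : Type*} [Group Γ] [Group Γ₁] [CommGroup Γ₂] [DecidableEq Γ₂] [Finite Γ]
    (e : Γ ≃* Γ₁ × Γ₂) (u : Γ₁ → ℂ) (γ s : Γ) :
    ccw (fun x => u (e x).1) γ s =
      Nat.card Γ₂ * (if (e s).2 = (e γ).2 then ccw u (e γ).1 (e s).1 else 0) := by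
  classical
  have : Fintype Γ := Fintype.ofFinite _
  have hfin : Finite (Γ₁ × Γ₂) := Finite.of_equiv Γ e.toEquiv
  have h1 : Finite Γ₁ := Finite.of_surjective (fun x : Γ₁ × Γ₂ => x.1) Prod.fst_surjective
  have h2 : Finite Γ₂ := Finite.of_surjective (fun x : Γ₁ × Γ₂ => x.2) Prod.snd_surjective
  have : Fintype Γ₁ := Fintype.ofFinite _
  have : Fintype Γ₂ := Fintype.ofFinite _
  rw [ccw_eq, ccw_eq]
  have hc : ∀ x : Γ, (x⁻¹ * s * x = γ ↔ ((e x).1⁻¹ * (e s).1 * (e x).1 = (e γ).1 ∧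
      (e s).2 = (e γ).2)) := by
    intro x
    rw [← e.injective.eq_iff, map_mul, map_mul, map_inv, Prod.ext_iff]
    simp only [Prod.fst_mul, Prod.fst_inv, Prod.snd_mul, Prod.snd_inv]
    rw [mul_comm ((e x).2⁻¹ * (e s).2), mul_inv_cancel_left]
  have h3 : ∀ x : Γ, (if x⁻¹ * s * x = γ then u (e x).1 else 0) =
      (fun z : Γ₁ × Γ₂ => if z.1⁻¹ * (e s).1 * z.1 = (e γ).1 ∧ (e s).2 = (e γ).2 then u z.1
        else 0) (e x) := by
    intro x
    simp only [hc x]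
  simp only [h3]
  have h4 := e.toEquiv.sum_comp (fun z : Γ₁ × Γ₂ => if z.1⁻¹ * (e s).1 * z.1 = (e γ).1 ∧
    (e s).2 = (e γ).2 then u z.1 else 0)
  rw [Fintype.sum_prod_type] at h4
  refine Eq.trans h4 ?_
  simp only [Finset.sum_const, Finset.card_univ, nsmul_eq_mul]
  rw [← Finset.mul_sum, Nat.card_eq_fintype_card]
  congr 1
  split_ifs with h
  · simp only [h, and_true]
  · simp only [h, and_false, if_false, Finset.sum_const_zero]

open Classical in
lemma ccw_formula {F : Type} [Field F] [NumberField F] {m : ℕ} [NeZero m] (N : Subgroup GQ)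
    [N.Normal] {M : IntermediateField ℚ QBar}
    [FiniteDimensional ℚ M] (hN : N = M.fixingSubgroup) (cq : GQ ⧸ N →* (ZMod m)ˣ)
    (hcq : ∀ g : GQ, cq (g : GQ ⧸ N) = cyc m g) (γ : GQ ⧸ N) (hord : orderOf γ = orderOf (cq γ))
    [NumberField (fieldOf N (Subgroup.zpowers γ))] (e : F →ₐ[ℚ] QBar)
    (i : F →ₐ[ℚ] (fieldOf N (Subgroup.zpowers γ)))
    (hi : (fieldOf N (Subgroup.zpowers γ)).val.comp i = e)
    (B : (F →ₐ[ℚ] QBar) → ℂ) (δ : GQ ⧸ N) (hδ : δ ∈ Subgroup.zpowers γ) (s : GQ) :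
    ccw (fun x : GQ ⧸ N => B (x.out • e)) δ (s : GQ ⧸ N) = (orderOf γ : ℂ) *
      (∑ φ : (fieldOf N (Subgroup.zpowers γ)) →ₐ[ℚ] QBar,
        if s • φ = φ then B (φ.comp i) else 0) *
      (if cyc m s = cq δ then 1 else 0) := by
  have hfin : Finite (GQ ⧸ N) := finite_quot N hN
  have : Fintype (GQ ⧸ N) := Fintype.ofFinite _
  set a := cq γ with ha
  set n := orderOf γ with hn
  have hcardH : Nat.card (Subgroup.zpowers γ) = n := Nat.card_zpowers γ
  have hinj : ∀ y ∈ Subgroup.zpowers γ, ∀ z ∈ Subgroup.zpowers γ, cq y = cq z → y = z := by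
    intro y hy z hz h
    obtain ⟨i, rfl⟩ := Subgroup.mem_zpowers_iff.mp hy
    obtain ⟨j, rfl⟩ := Subgroup.mem_zpowers_iff.mp hz
    rw [map_zpow, map_zpow, ← ha] at h
    have h1 : a ^ (i - j) = 1 := by rw [zpow_sub, h, mul_inv_cancel]
    have h2 : γ ^ (i - j) = 1 := by
      rw [← orderOf_dvd_iff_zpow_eq_one] at h1 ⊢
      rw [← hn, hord]
      exact h1
    rw [zpow_sub, mul_inv_eq_one] at h2
    exact h2
  have hcqconj : ∀ (x : GQ ⧸ N) (s : GQ), cq (x⁻¹ * (s : GQ ⧸ N) * x) = cyc m s := by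
    intro x s
    rw [map_mul, map_mul, map_inv, hcq, mul_comm, mul_inv_cancel_left]
  have h1 := sum_conj_mem N hN (Subgroup.zpowers γ) e i hi B s
  rw [hcardH] at h1
  rw [← h1, ccw_eq]
  split_ifs with h
  · rw [mul_one]
    refine Finset.sum_congr rfl fun x _ => ?_
    have h2 : x⁻¹ * (s : GQ ⧸ N) * x = δ ↔ x⁻¹ * (s : GQ ⧸ N) * x ∈ Subgroup.zpowers γ := by
      constructor
      · intro h1; rw [h1]; exact hδ
      · intro h1
        exact hinj _ h1 _ hδ (by rw [hcqconj, h])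
    simp only [h2]
  · rw [mul_zero]
    refine Finset.sum_eq_zero fun x _ => if_neg fun hx => h ?_
    rw [← hcqconj x s, hx]

lemma char_sum_eq {m : ℕ} [NeZero m] (a u : (ZMod m)ˣ) [DecidableEq (ZMod m)ˣ] :
    ∑ χ : DirichletCharacter ℂ m, (starRingEnd ℂ) (χ (a : ZMod m)) * χ (u : ZMod m) =
      if u = a then (m.totient : ℂ) else 0 := by
  have h1 : ∀ χ : DirichletCharacter ℂ m, (starRingEnd ℂ) (χ (a : ZMod m)) * χ (u : ZMod m) =
      χ ((a⁻¹ * u : (ZMod m)ˣ) : ZMod m) := by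
    intro χ
    have h2 : χ ((a⁻¹ : (ZMod m)ˣ) : ZMod m) = (starRingEnd ℂ) (χ (a : ZMod m)) := by
      have h3 : χ ((a⁻¹ : (ZMod m)ˣ) : ZMod m) * χ (a : ZMod m) = 1 := by
        rw [← map_mul, ← Units.val_mul, inv_mul_cancel, Units.val_one, map_one]
      have h4 : (starRingEnd ℂ) (χ (a : ZMod m)) * χ (a : ZMod m) = 1 := by
        rw [mul_comm, Complex.mul_conj, Complex.normSq_eq_norm_sq, χ.unit_norm_eq_one]
        simp
      have h5 : χ (a : ZMod m) ≠ 0 := by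
        intro h
        rw [h, mul_zero] at h3
        exact zero_ne_one h3
      exact mul_right_cancel₀ h5 (h3.trans h4.symm)
    rw [Units.val_mul, map_mul, h2]
  simp only [h1]
  rw [DirichletCharacter.sum_characters_eq]
  have h7 : ((a⁻¹ * u : (ZMod m)ˣ) : ZMod m) = 1 ↔ u = a := by
    rw [← Units.val_one, Units.ext_iff.symm, inv_mul_eq_one, eq_comm]
  simp only [h7]

/-- first step of the trick -/
theorem trick1F {F : Type} [Field F] [NumberField F] {σ : ℕ → GQ} (hσ : FrobSys σ)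
    {E : (F →ₐ[ℚ] QBar) → ℕ → ℂ} (hE : OscF F σ E)
    {m : ℕ} [NeZero m] (N : Subgroup GQ) [N.Normal] {M : IntermediateField ℚ QBar}
    [FiniteDimensional ℚ M] (hN : N = M.fixingSubgroup) (cq : GQ ⧸ N →* (ZMod m)ˣ)
    (hcq : ∀ g : GQ, cq (g : GQ ⧸ N) = cyc m g) (γ : GQ ⧸ N) (hord : orderOf γ = orderOf (cq γ))
    [NumberField (fieldOf N (Subgroup.zpowers γ))]
    [IsTotallyComplex (fieldOf N (Subgroup.zpowers γ))] (e : F →ₐ[ℚ] QBar)
    (i : F →ₐ[ℚ] (fieldOf N (Subgroup.zpowers γ)))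
    (hi : (fieldOf N (Subgroup.zpowers γ)).val.comp i = e) (z : ℂ) :
    HasDens (fun p => (z * ccw (fun x : GQ ⧸ N => E (x.out • e) p) γ (σ p : GQ ⧸ N) +
      (starRingEnd ℂ) z * ccw (fun x : GQ ⧸ N => E (x.out • e) p) γ⁻¹ (σ p : GQ ⧸ N)).re) 0 := by
  classical
  have hfin : Finite (GQ ⧸ N) := finite_quot N hN
  set a := cq γ with ha
  set n := orderOf γ with hn
  obtain ⟨T, hT⟩ : ∃ T : ℕ → ℂ, T = fun p => ∑ φ : (fieldOf N (Subgroup.zpowers γ)) →ₐ[ℚ] QBar,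
    if σ p • φ = φ then E (φ.comp i) p else 0 := ⟨_, rfl⟩
  have hγH : γ ∈ Subgroup.zpowers γ := Subgroup.mem_zpowers γ
  have hγH' : γ⁻¹ ∈ Subgroup.zpowers γ := Subgroup.inv_mem _ hγH
  have hcc1 : ∀ p : ℕ, ccw (fun x : GQ ⧸ N => E (x.out • e) p) γ (σ p : GQ ⧸ N) = (n : ℂ) * T p *
      (if cyc m (σ p) = a then 1 else 0) := by
    intro p
    rw [hT]
    exact ccw_formula N hN cq hcq γ hord e i hi (fun ψ => E ψ p) γ hγH (σ p)
  have hcc2 : ∀ p : ℕ, ccw (fun x : GQ ⧸ N => E (x.out • e) p) γ⁻¹ (σ p : GQ ⧸ N) =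
      (n : ℂ) * T p * (if cyc m (σ p) = a⁻¹ then 1 else 0) := by
    intro p
    have h := ccw_formula N hN cq hcq γ hord e i hi (fun ψ => E ψ p) γ⁻¹ hγH' (σ p)
    rw [map_inv, ← ha] at h
    rw [hT]
    exact h
  have hφpos : (0 : ℝ) < m.totient := by exact_mod_cast Nat.totient_pos.mpr (NeZero.pos m)
  have hTb : ∀ p : ℕ, p.Prime → ‖T p‖ ≤
      Fintype.card ((fieldOf N (Subgroup.zpowers γ)) →ₐ[ℚ] QBar) := by
    intro p hp
    rw [hT]
    refine (norm_sum_le _ _).trans ?_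
    calc _ ≤ ∑ _φ : (fieldOf N (Subgroup.zpowers γ)) →ₐ[ℚ] QBar, (1 : ℝ) := by
          refine Finset.sum_le_sum fun φ _ => ?_
          split_ifs
          · exact hE.1 _ p hp
          · rw [norm_zero]; exact zero_le_one
      _ = _ := by rw [Finset.sum_const, Finset.card_univ, nsmul_eq_mul, mul_one]
  have hb : ∀ χ : DirichletCharacter ℂ m, BddPrimes (fun p => (χ (p : ZMod m) * T p).re) := by
    intro χ
    refine ⟨Fintype.card ((fieldOf N (Subgroup.zpowers γ)) →ₐ[ℚ] QBar), fun p hp => (Complex.abs_re_le_norm _).trans ?_⟩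
    rw [norm_mul]
    calc _ ≤ 1 * (Fintype.card ((fieldOf N (Subgroup.zpowers γ)) →ₐ[ℚ] QBar) : ℝ) :=
          mul_le_mul (χ.norm_le_one _) (hTb p hp) (norm_nonneg _) zero_le_one
      _ = _ := one_mul _
  have hosc : ∀ χ : DirichletCharacter ℂ m, HasDens (fun p => (χ (p : ZMod m) * T p).re) 0 := by
    intro χ
    let inst : Algebra F (fieldOf N (Subgroup.zpowers γ)) :=
      (i : F →+* (fieldOf N (Subgroup.zpowers γ))).toAlgebra
    rw [hT]
    exact hE.2 (fieldOf N (Subgroup.zpowers γ)) m χ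
  have hmean := HasDens.zero_mul_sum Finset.univ
    (fun χ : DirichletCharacter ℂ m => n * (2 / (m.totient : ℝ)) *
      (z * (starRingEnd ℂ) (χ (a : ZMod m))).re) (fun χ _ => hosc χ) (fun χ _ => hb χ)
  refine hmean.congr_finite m.primeFactors (fun p hp hpS => ?_) ?_ ?_
  · have hpm : ¬ p ∣ m := fun h => hpS (Nat.mem_primeFactors.mpr ⟨hp, h, NeZero.ne m⟩)
    have hu := cyc_frobSys (m := m) hσ hp hpm
    rw [hcc1, hcc2]
    have h1 := char_sum_eq a (cyc m (σ p))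
    have h1' := char_sum_eq a⁻¹ (cyc m (σ p))
    rw [hu] at h1 h1'
    have hinv : ∀ χ : DirichletCharacter ℂ m,
        (starRingEnd ℂ) (χ ((a⁻¹ : (ZMod m)ˣ) : ZMod m)) = χ (a : ZMod m) := by
      intro χ
      have h3 : χ ((a⁻¹ : (ZMod m)ˣ) : ZMod m) * χ (a : ZMod m) = 1 := by
        rw [← map_mul, ← Units.val_mul, inv_mul_cancel, Units.val_one, map_one]
      have h4 : χ ((a⁻¹ : (ZMod m)ˣ) : ZMod m) *
          (starRingEnd ℂ) (χ ((a⁻¹ : (ZMod m)ˣ) : ZMod m)) = 1 := by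
        rw [Complex.mul_conj, Complex.normSq_eq_norm_sq, χ.unit_norm_eq_one]
        simp
      have h5 : χ ((a⁻¹ : (ZMod m)ˣ) : ZMod m) ≠ 0 := by
        intro h
        rw [h, zero_mul] at h3
        exact zero_ne_one h3
      exact mul_left_cancel₀ h5 (h4.trans h3.symm)
    simp only [hinv] at h1'
    have hfc : ((m.totient : ℝ) : ℂ) ≠ 0 := by
      exact_mod_cast hφpos.ne'
    have e1 : (if cyc m (σ p) = a then (1 : ℂ) else 0) = (1 / (m.totient : ℝ) : ℝ) *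
        ∑ χ : DirichletCharacter ℂ m, (starRingEnd ℂ) (χ (a : ZMod m)) * χ (p : ZMod m) := by
      rw [h1]
      push_cast
      split_ifs
      · rw [one_div, inv_mul_cancel₀]
        exact_mod_cast hfc
      · rw [mul_zero]
    have e2 : (if cyc m (σ p) = a⁻¹ then (1 : ℂ) else 0) = (1 / (m.totient : ℝ) : ℝ) *
        ∑ χ : DirichletCharacter ℂ m, χ (a : ZMod m) * χ (p : ZMod m) := by
      rw [h1']
      push_cast
      split_ifs
      · rw [one_div, inv_mul_cancel₀]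
        exact_mod_cast hfc
      · rw [mul_zero]
    rw [e1, e2]
    have e3 : z * ((n : ℂ) * T p * ((1 / (m.totient : ℝ) : ℝ) *
        ∑ χ : DirichletCharacter ℂ m, (starRingEnd ℂ) (χ (a : ZMod m)) * χ (p : ZMod m))) +
        (starRingEnd ℂ) z * ((n : ℂ) * T p * ((1 / (m.totient : ℝ) : ℝ) *
        ∑ χ : DirichletCharacter ℂ m, χ (a : ZMod m) * χ (p : ZMod m))) =
        ∑ χ : DirichletCharacter ℂ m, ((n * (2 / (m.totient : ℝ)) *
          (z * (starRingEnd ℂ) (χ (a : ZMod m))).re : ℝ) : ℂ) * (χ (p : ZMod m) * T p) := by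
      rw [Finset.mul_sum, Finset.mul_sum, Finset.mul_sum, Finset.mul_sum, Finset.mul_sum,
        Finset.mul_sum, ← Finset.sum_add_distrib]
      refine Finset.sum_congr rfl fun χ _ => ?_
      have e4 : (((z * (starRingEnd ℂ) (χ (a : ZMod m))).re : ℝ) : ℂ) =
          (z * (starRingEnd ℂ) (χ (a : ZMod m)) + (starRingEnd ℂ) z * χ (a : ZMod m)) / 2 := by
        rw [Complex.re_eq_add_conj, map_mul, Complex.conj_conj]
      rw [Complex.ofReal_mul, e4]
      push_cast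
      ring
    rw [e3, Complex.re_sum]
    refine Finset.sum_congr rfl fun χ _ => ?_
    rw [Complex.re_ofReal_mul]
  · choose C hC using fun χ : DirichletCharacter ℂ m => (hb χ).const_mul
      (n * (2 / (m.totient : ℝ)) * (z * (starRingEnd ℂ) (χ (a : ZMod m))).re)
    exact ⟨∑ χ, C χ, fun p hp => (Finset.abs_sum_le_sum_abs _ _).trans
      (Finset.sum_le_sum fun χ _ => hC χ p hp)⟩
  · refine ⟨‖z‖ * Nat.card (GQ ⧸ N) + ‖z‖ * Nat.card (GQ ⧸ N), fun p hp => ?_⟩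
    refine (Complex.abs_re_le_norm _).trans ((norm_add_le _ _).trans ?_)
    rw [norm_mul, norm_mul, Complex.norm_conj]
    refine add_le_add ?_ ?_
    · exact mul_le_mul_of_nonneg_left (norm_ccw_le _ (fun x => hE.1 _ p hp) _ _) (norm_nonneg _)
    · exact mul_le_mul_of_nonneg_left (norm_ccw_le _ (fun x => hE.1 _ p hp) _ _) (norm_nonneg _)

end TatePole.AT
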