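import Mathlib
import Pool.Agent.Lib.MP_058a58_ag.HK.TrickF2

/-!
# The trick of Chebotarev over a base field: third part
-/

open Polynomial Filter Topology NumberField Set

namespace TatePole.AT

lemma HasDens.congr' {g h : ℕ → ℝ} {c : ℝ} (hg : HasDens g c)
    (H : ∀ p : ℕ, p.Prime → g p = h p) : HasDens h c := by
  intro ε hε
  filter_upwards [hg ε hε] with x hx
  rw [← RR_congr (g := g) (h := h) H x]
  exact hx

section
variable {F : Type} [Field F] [NumberField F]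

/-- The auxiliary cyclotomic extension in the trick of Chebotarev, over a base field. -/
lemma trick_setupF (N : Subgroup GQ) [N.Normal] {M : IntermediateField ℚ QBar}
    [FiniteDimensional ℚ M] (hN : N = M.fixingSubgroup) (j : QBar →ₐ[ℚ] ℂ) (c : GQ)
    (hc : ∀ x, j (c x) = (starRingEnd ℂ) (j x)) (hcN : c ∉ N) (m : ℕ) [NeZero m]
    (hsurj : ∀ h : (ZMod m)ˣ, ∃ g ∈ N, cyc m g = h) (y : GQ ⧸ N) (h : (ZMod m)ˣ)
    (hdiv : 2 * orderOf y ∣ orderOf h) [DecidableEq (ZMod m)ˣ]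
    (e₀ : F →ₐ[ℚ] QBar) (hNe : ∀ g ∈ N, g • e₀ = e₀) (y₀ : GQ) (hy₀ : (y₀ : GQ ⧸ N) = y)
    (hye : y₀ • e₀ = e₀) :
    ∃ (N' : Subgroup GQ) (_ : N'.Normal) (M' : IntermediateField ℚ QBar)
      (_ : FiniteDimensional ℚ M') (_ : N' = M'.fixingSubgroup) (cq : GQ ⧸ N' →* (ZMod m)ˣ)
      (γ : GQ ⧸ N'), (∀ g : GQ, cq (g : GQ ⧸ N') = cyc m g) ∧ orderOf γ = orderOf (cq γ) ∧
      ∃ (_ : NumberField (fieldOf N' (Subgroup.zpowers γ))),
      IsTotallyComplex (fieldOf N' (Subgroup.zpowers γ)) ∧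
      (∀ g : GQ, (g : GQ ⧸ N') ∈ Subgroup.zpowers γ → g • e₀ = e₀) ∧
      ∀ B : (F →ₐ[ℚ] QBar) → ℂ,
      (∀ s : GQ, ccw (fun x : GQ ⧸ N' => B (x.out • e₀)) γ (s : GQ ⧸ N') = m.totient *
        (if cyc m s = h then ccw (fun x : GQ ⧸ N => B (x.out • e₀)) y (s : GQ ⧸ N) else 0)) ∧
      (∀ s : GQ, ccw (fun x : GQ ⧸ N' => B (x.out • e₀)) γ⁻¹ (s : GQ ⧸ N') = m.totient *
        (if cyc m s = h⁻¹ then ccw (fun x : GQ ⧸ N => B (x.out • e₀)) y⁻¹ (s : GQ ⧸ N)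
          else 0)) := by
  have hfinN : Finite (GQ ⧸ N) := finite_quot N hN
  set Θ : GQ →* (GQ ⧸ N) × (ZMod m)ˣ := (QuotientGroup.mk' N).prod (cyc m) with hΘ
  have hΘs : Function.Surjective Θ := by
    rintro ⟨y, u⟩
    obtain ⟨a, rfl⟩ := QuotientGroup.mk_surjective y
    obtain ⟨b, hb, hbu⟩ := hsurj ((cyc m a)⁻¹ * u)
    refine ⟨a * b, ?_⟩
    rw [hΘ, MonoidHom.prod_apply, map_mul, map_mul, hbu, mul_inv_cancel_left]
    have : (QuotientGroup.mk' N) b = 1 := (QuotientGroup.eq_one_iff b).mpr hb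
    rw [this, mul_one]
    rfl
  have hnorm : Θ.ker.Normal := MonoidHom.normal_ker Θ
  have hmemN' : ∀ s : GQ, s ∈ Θ.ker ↔ s ∈ N ∧ cyc m s = 1 := by
    intro s
    rw [MonoidHom.mem_ker, hΘ, MonoidHom.prod_apply, Prod.mk_eq_one]
    exact and_congr_left fun _ => QuotientGroup.eq_one_iff s
  set M₀ : IntermediateField ℚ QBar := IntermediateField.adjoin ℚ {zt m} with hM₀
  have hfd0 : FiniteDimensional ℚ M₀ := IntermediateField.adjoin.finiteDimensional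
    ((isIntegral_zt (m := m)).tower_top)
  have hfd' : FiniteDimensional ℚ (M ⊔ M₀ : IntermediateField ℚ QBar) :=
    IntermediateField.finiteDimensional_sup M M₀
  have hN' : Θ.ker = (M ⊔ M₀ : IntermediateField ℚ QBar).fixingSubgroup := by
    ext s
    rw [hmemN', hN, ← cyc_fix_iff, ← Subgroup.mem_inf, IntermediateField.fixingSubgroup_sup]
  set e : GQ ⧸ Θ.ker ≃* (GQ ⧸ N) × (ZMod m)ˣ :=
    QuotientGroup.quotientKerEquivOfSurjective Θ hΘs with he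
  have hemk : ∀ s : GQ, e (s : GQ ⧸ Θ.ker) = ((s : GQ ⧸ N), cyc m s) := fun s => rfl
  set cq : GQ ⧸ Θ.ker →* (ZMod m)ˣ := (MonoidHom.snd _ _).comp e.toMonoidHom with hcq
  have hcqmk : ∀ s : GQ, cq (s : GQ ⧸ Θ.ker) = cyc m s := fun s => rfl
  set γ : GQ ⧸ Θ.ker := e.symm (y, h) with hγ
  have heγ : e γ = (y, h) := e.apply_symm_apply _
  have hcqγ : cq γ = h := congrArg Prod.snd heγ
  have hyh : y ^ orderOf h = 1 := by
    rw [← orderOf_dvd_iff_pow_eq_one]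
    exact (Dvd.intro_left 2 rfl).trans hdiv
  have hord : orderOf γ = orderOf (cq γ) := by
    rw [hcqγ]
    refine Nat.dvd_antisymm ?_ ?_
    · rw [orderOf_dvd_iff_pow_eq_one]
      apply e.injective
      rw [map_pow, heγ, map_one, Prod.pow_mk, pow_orderOf_eq_one, hyh]
      rfl
    · rw [← hcqγ]
      exact orderOf_map_dvd cq γ
  have hNF : NumberField (fieldOf Θ.ker (Subgroup.zpowers γ)) := numberField_fieldOf Θ.ker hN' _
  have hfinN' : Finite (GQ ⧸ Θ.ker) := finite_quot _ hN'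
  have hcsq := conj_sq j c hc
  have hTC : IsTotallyComplex (fieldOf Θ.ker (Subgroup.zpowers γ)) := by
    refine isTotallyComplex_of j c hc _ fun φ hφ => hcN ?_
    have h1 := card_conj_mem Θ.ker hN' (Subgroup.zpowers γ) c
    have h2 : 0 < Nat.card {x : GQ ⧸ Θ.ker // x⁻¹ * (c : GQ ⧸ Θ.ker) * x ∈
        Subgroup.zpowers γ} := by
      rw [h1]
      exact Nat.mul_pos Nat.card_pos (fixCount_pos _ hφ)
    obtain ⟨⟨x, hx⟩⟩ := (Nat.card_pos_iff.mp h2).1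
    obtain ⟨k, hk⟩ := Subgroup.mem_zpowers_iff.mp hx
    have h3 := congrArg e hk
    rw [map_zpow, heγ, map_mul, map_mul, map_inv, hemk] at h3
    have h4 : y ^ k = (e x).1⁻¹ * (c : GQ ⧸ N) * (e x).1 := congrArg Prod.fst h3
    have h5 : h ^ k = (e x).2⁻¹ * cyc m c * (e x).2 := congrArg Prod.snd h3
    rw [mul_comm, mul_inv_cancel_left] at h5
    have h6 : h ^ (2 * k) = 1 := by
      rw [mul_comm, zpow_mul, h5, zpow_two, ← map_mul, hcsq, map_one]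
    have h7 : ((2 * orderOf y : ℕ) : ℤ) ∣ 2 * k :=
      (Int.natCast_dvd_natCast.mpr hdiv).trans (orderOf_dvd_iff_zpow_eq_one.mpr h6)
    have h8 : ((orderOf y : ℕ) : ℤ) ∣ k := by
      rw [Nat.cast_mul] at h7
      exact (mul_dvd_mul_iff_left (by norm_num : ((2 : ℕ) : ℤ) ≠ 0)).mp h7
    have h9 : y ^ k = 1 := orderOf_dvd_iff_zpow_eq_one.mp h8
    rw [h9] at h4
    have h10 : (c : GQ ⧸ N) = 1 := by
      have h11 : (c : GQ ⧸ N) = (e x).1 * ((e x).1⁻¹ * (c : GQ ⧸ N) * (e x).1) * (e x).1⁻¹ := by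
        group
      rw [h11, ← h4]
      group
    exact (QuotientGroup.eq_one_iff c).mp h10
  have hcardZ : Nat.card (ZMod m)ˣ = m.totient := by
    rw [Nat.card_eq_fintype_card, ZMod.card_units_eq_totient]
  have hout : ∀ (g : GQ) (x : GQ ⧸ N), (g : GQ ⧸ N) = x → x.out • e₀ = g • e₀ := by
    intro g x hgx
    have h1 : g⁻¹ * x.out ∈ N := by
      rw [← QuotientGroup.eq, hgx, QuotientGroup.out_eq']
    have h2 := hNe _ h1
    rw [mul_smul, inv_smul_eq_iff] at h2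
    exact h2
  have hstab : ∀ g : GQ, (g : GQ ⧸ Θ.ker) ∈ Subgroup.zpowers γ → g • e₀ = e₀ := by
    intro g hg
    obtain ⟨k, hk⟩ := Subgroup.mem_zpowers_iff.mp hg
    have h3 := congrArg e hk
    rw [map_zpow, heγ, hemk] at h3
    have h4 : y ^ k = (g : GQ ⧸ N) := congrArg Prod.fst h3
    have h5 : ((y₀ ^ k : GQ) : GQ ⧸ N) = (g : GQ ⧸ N) := by
      rw [← h4, ← hy₀]; rfl
    have h6 : y₀ ^ k ∈ MulAction.stabilizer GQ e₀ := Subgroup.zpow_mem _ hye k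
    rw [← hout g _ rfl, hout (y₀ ^ k) _ h5]
    exact h6
  have hu : ∀ B : (F →ₐ[ℚ] QBar) → ℂ, (fun x : GQ ⧸ Θ.ker => B (x.out • e₀)) =
      fun x : GQ ⧸ Θ.ker => (fun z : GQ ⧸ N => B (z.out • e₀)) (e x).1 := by
    intro B
    funext x
    show B (x.out • e₀) = B ((e x).1.out • e₀)
    rw [hout x.out (e x).1]
    have h1 : x = ((x.out : GQ) : GQ ⧸ Θ.ker) := (QuotientGroup.out_eq' x).symm
    conv_rhs => rw [h1]
    rw [hemk]
  refine ⟨Θ.ker, hnorm, M ⊔ M₀, hfd', hN', cq, γ, hcqmk, hord, hNF, hTC, hstab,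
    fun B => ⟨fun s => ?_, fun s => ?_⟩⟩
  · rw [hu B]
    refine (ccw_prod e (fun z : GQ ⧸ N => B (z.out • e₀)) γ (s : GQ ⧸ Θ.ker)).trans ?_
    rw [heγ, hemk, hcardZ]
  · rw [hu B]
    refine (ccw_prod e (fun z : GQ ⧸ N => B (z.out • e₀)) γ⁻¹ (s : GQ ⧸ Θ.ker)).trans ?_
    rw [map_inv, heγ, hemk, hcardZ, Prod.inv_mk]

theorem trick2F {σ : ℕ → GQ} (hσ : FrobSys σ) {E : (F →ₐ[ℚ] QBar) → ℕ → ℂ} (hE : OscF F σ E)
    (N : Subgroup GQ) [N.Normal] {M : IntermediateField ℚ QBar}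
    [FiniteDimensional ℚ M] (hN : N = M.fixingSubgroup) (j : QBar →ₐ[ℚ] ℂ) (c : GQ)
    (hc : ∀ x, j (c x) = (starRingEnd ℂ) (j x)) (hcN : c ∉ N) (m : ℕ) [NeZero m]
    (hsurj : ∀ h : (ZMod m)ˣ, ∃ g ∈ N, cyc m g = h) (y : GQ ⧸ N) (h : (ZMod m)ˣ)
    (hdiv : 2 * orderOf y ∣ orderOf h) [DecidableEq (ZMod m)ˣ]
    (e₀ : F →ₐ[ℚ] QBar) (hNe : ∀ g ∈ N, g • e₀ = e₀) (y₀ : GQ) (hy₀ : (y₀ : GQ ⧸ N) = y)
    (hye : y₀ • e₀ = e₀) (z : ℂ) :
    HasDens (fun p => (if cyc m (σ p) = h then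
        (z * ccw (fun x : GQ ⧸ N => E (x.out • e₀) p) y (σ p : GQ ⧸ N)).re else 0) +
      (if cyc m (σ p) = h⁻¹ then
        ((starRingEnd ℂ) z * ccw (fun x : GQ ⧸ N => E (x.out • e₀) p) y⁻¹ (σ p : GQ ⧸ N)).re
        else 0)) 0 := by
  obtain ⟨N', hn', M', hfd', hN', cq, γ, hcq, hord, hNF, hTC, hst, h1⟩ :=
    trick_setupF N hN j c hc hcN m hsurj y h hdiv e₀ hNe y₀ hy₀ hye
  obtain ⟨i, hi⟩ := exists_incl N' (Subgroup.zpowers γ) e₀ hst
  have hφpos : (0 : ℝ) < m.totient := by exact_mod_cast Nat.totient_pos.mpr (NeZero.pos m)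
  have h3 := trick1F hσ hE N' hN' cq hcq γ hord e₀ i hi z
  have h5 := h3.const_mul (1 / (m.totient : ℝ))
  rw [mul_zero] at h5
  refine h5.congr' fun p _ => ?_
  rw [(h1 fun ψ => E ψ p).1 (σ p), (h1 fun ψ => E ψ p).2 (σ p), Complex.add_re]
  have e1 : ∀ (q : Prop) [Decidable q] (a b : ℂ), (a * (m.totient * (if q then b else 0))).re =
      m.totient * (if q then (a * b).re else 0) := by
    intro q _ a b
    split_ifs
    · have : a * ((m.totient : ℂ) * b) = ((m.totient : ℝ) : ℂ) * (a * b) := by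
        push_cast; ring
      rw [this, Complex.re_ofReal_mul]
    · simp
  rw [e1, e1]
  field_simp

end

end TatePole.AT
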