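import Mathlib
import Pool.Agent.Lib.MP_058a58_ag.HK.TrickF3

/-!
# The trick of Chebotarev over a base field: conclusion
-/

open Polynomial Filter Topology NumberField Set

namespace TatePole.AT

/-- the reduction to the auxiliary cyclotomic extensions -/
theorem key_dens {σ : ℕ → GQ} (hσ : FrobSys σ) (N : Subgroup GQ) [N.Normal]
    {M : IntermediateField ℚ QBar} [FiniteDimensional ℚ M] (hN : N = M.fixingSubgroup)
    (j : QBar →ₐ[ℚ] ℂ) (c : GQ) (hc : ∀ x, j (c x) = (starRingEnd ℂ) (j x)) (hcN : c ∉ N)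
    (y : GQ ⧸ N) (a b : ℕ → ℝ) (r : ℝ) (hr0 : 0 < r) (ha : ∀ p : ℕ, p.Prime → |a p| ≤ r)
    (hb : ∀ p : ℕ, p.Prime → |b p| ≤ r)
    (hyp : ∀ (m : ℕ) [NeZero m] [DecidableEq (ZMod m)ˣ] (h : (ZMod m)ˣ),
      (∀ h : (ZMod m)ˣ, ∃ g ∈ N, cyc m g = h) → 2 * orderOf y ∣ orderOf h →
      HasDens (fun p => (if cyc m (σ p) = h then a p else 0) +
        (if cyc m (σ p) = h⁻¹ then b p else 0)) 0) :
    HasDens (fun p => a p + b p) 0 := by
  classical
  intro ε hε
  have hab : ∀ p : ℕ, p.Prime → |a p + b p| ≤ 2 * r := fun p hp =>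
    (abs_add_le _ _).trans (by have := ha p hp; have := hb p hp; linarith)
  obtain ⟨m, hm0, G, hGinv, hGdiv, hsurj, hG⟩ := good_dens N hN j c hc hcN hσ (ε / (4 * r))
    (by positivity)
  have hsum := HasDens.zero_mul_sum G (fun _ => (1:ℝ))
    (fun h hh => hyp m h hsurj (hGdiv h hh y)) (fun h hh => by
      refine ⟨2 * r, fun p hp => (abs_add_le _ _).trans ?_⟩
      have h1 : |if cyc m (σ p) = h then a p else 0| ≤ r := by
        split_ifs
        · exact ha p hp
        · rw [abs_zero]; exact hr0.le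
      have h2 : |if cyc m (σ p) = h⁻¹ then b p else 0| ≤ r := by
        split_ifs
        · exact hb p hp
        · rw [abs_zero]; exact hr0.le
      linarith)
  have e1 : (fun p => ∑ h ∈ G, (1:ℝ) * ((if cyc m (σ p) = h then a p else 0) +
      (if cyc m (σ p) = h⁻¹ then b p else 0))) =
      fun p => if cyc m (σ p) ∈ G then a p + b p else 0 := by
    funext p
    simp only [one_mul]
    rw [sum_ite_add G hGinv]
  rw [e1] at hsum
  filter_upwards [hsum (ε / 2) (by positivity), hG, eventually_log_ge 0,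
    self_mem_nhdsWithin] with x h1 h2 h3 hx
  have hx1 : 1 < x := hx
  set L := Real.log (1 / (x - 1)) with hL
  rw [zero_mul, sub_zero] at h1 ⊢
  have hb1 : ∀ p : ℕ, p.Prime → |if cyc m (σ p) ∈ G then a p + b p else 0| ≤ 2 * r := by
    intro p hp
    split_ifs
    · exact hab p hp
    · rw [abs_zero]; positivity
  have hb2 : ∀ p : ℕ, p.Prime → |if cyc m (σ p) ∈ G then 0 else a p + b p| ≤ 2 * r := by
    intro p hp
    split_ifs
    · rw [abs_zero]; positivity
    · exact hab p hp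
  have hsplit : RR (fun p => a p + b p) x =
      RR (fun p => if cyc m (σ p) ∈ G then a p + b p else 0) x +
      RR (fun p => if cyc m (σ p) ∈ G then 0 else a p + b p) x := by
    rw [← RR_add hb1 hb2 hx1]
    refine RR_congr (fun p _ => ?_) x
    split_ifs <;> ring
  have hbad : |RR (fun p => if cyc m (σ p) ∈ G then 0 else a p + b p) x| ≤
      2 * r * (ε / (4 * r) * L) := by
    have hup : ∀ e : ℝ, |e| ≤ 1 → RR (fun p => e * (if cyc m (σ p) ∈ G then 0 else a p + b p)) x ≤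
        2 * r * (ε / (4 * r) * L) := by
      intro e he
      have h4 : RR (fun p => e * (if cyc m (σ p) ∈ G then 0 else a p + b p)) x ≤
        RR (fun p => 2 * r * (if cyc m (σ p) ∈ G then 0 else 1)) x := by
        refine RR_mono ⟨1 * (2 * r), fun p hp => ?_⟩ ⟨2 * r, fun p _ => ?_⟩ (fun p hp => ?_) hx1
        · rw [abs_mul]
          exact mul_le_mul he (hb2 p hp) (abs_nonneg _) zero_le_one
        · split_ifs
          · rw [mul_zero, abs_zero]; positivity
          · rw [mul_one, abs_of_nonneg (by positivity)]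
        · refine (le_abs_self _).trans ?_
          rw [abs_mul]
          split_ifs
          · simp
          · calc |e| * |a p + b p| ≤ 1 * (2 * r) :=
                  mul_le_mul he (hab p hp) (abs_nonneg _) zero_le_one
              _ = 2 * r * 1 := by ring
      refine h4.trans ?_
      rw [RR_const_mul]
      exact mul_le_mul_of_nonneg_left h2 (by positivity)
    have h5 := hup 1 (by simp)
    have h6 := hup (-1) (by simp)
    rw [RR_const_mul] at h5 h6
    rw [abs_le]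
    constructor <;> linarith
  rw [hsplit]
  refine (abs_add_le _ _).trans ?_
  have h7 : 2 * r * (ε / (4 * r) * L) = ε / 2 * L := by field_simp; ring
  rw [h7] at hbad
  linarith

section
variable {F : Type} [Field F] [NumberField F]

theorem dens_ccF {σ : ℕ → GQ} (hσ : FrobSys σ) {E : (F →ₐ[ℚ] QBar) → ℕ → ℂ} (hE : OscF F σ E)
    (N : Subgroup GQ) [N.Normal] {M : IntermediateField ℚ QBar}
    [FiniteDimensional ℚ M] (hN : N = M.fixingSubgroup)
    (j : QBar →ₐ[ℚ] ℂ) (c : GQ)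
    (hc : ∀ x, j (c x) = (starRingEnd ℂ) (j x)) (hcN : c ∉ N)
    (e₀ : F →ₐ[ℚ] QBar) (hNe : ∀ g ∈ N, g • e₀ = e₀) (y₀ : GQ) (hye : y₀ • e₀ = e₀) (z : ℂ) :
    HasDens (fun p =>
      (z * ccw (fun x : GQ ⧸ N => E (x.out • e₀) p) (y₀ : GQ ⧸ N) (σ p : GQ ⧸ N)).re +
      ((starRingEnd ℂ) z *
        ccw (fun x : GQ ⧸ N => E (x.out • e₀) p) (y₀ : GQ ⧸ N)⁻¹ (σ p : GQ ⧸ N)).re) 0 := by
  have hfinN : Finite (GQ ⧸ N) := finite_quot N hN
  have hbd : ∀ (w : ℂ) (y : GQ ⧸ N) (p : ℕ), p.Prime → ‖w‖ = ‖z‖ →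
      |(w * ccw (fun x : GQ ⧸ N => E (x.out • e₀) p) y (σ p : GQ ⧸ N)).re| ≤
      ‖z‖ * Nat.card (GQ ⧸ N) + 1 := by
    intro w y p hp hw
    refine (Complex.abs_re_le_norm _).trans ?_
    rw [norm_mul, hw]
    refine (mul_le_mul_of_nonneg_left (norm_ccw_le _ (fun x => hE.1 _ p hp) _ _)
      (norm_nonneg _)).trans (by linarith)
  refine key_dens hσ N hN j c hc hcN (y₀ : GQ ⧸ N) _ _ (‖z‖ * Nat.card (GQ ⧸ N) + 1)
    (by positivity) (fun p hp => hbd z _ p hp rfl)
    (fun p hp => hbd _ _ p hp (Complex.norm_conj z)) ?_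
  intro m _ _ h hsurj hdiv
  exact trick2F hσ hE N hN j c hc hcN m hsurj _ h hdiv e₀ hNe y₀ rfl hye z

lemma extG_mul {e : F →ₐ[ℚ] QBar} {N : Subgroup GQ} (hNe : N ≤ GF e) {f : GF e → ℂ}
    (hf : ClsF e N f) (g n : GQ) (hn : n ∈ N) : extG e f (g * n) = extG e f g := by
  unfold extG
  by_cases h : g ∈ GF e
  · have h1 : g * n ∈ GF e := (GF e).mul_mem h (hNe hn)
    rw [dif_pos h, dif_pos h1]
    exact hf.inv ⟨g, h⟩ ⟨n, hNe hn⟩ hn
  · have h1 : g * n ∉ GF e := fun h' => h ((Subgroup.mul_mem_cancel_right _ (hNe hn)).mp h')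
    rw [dif_neg h, dif_neg h1]

lemma extG_conj {e : F →ₐ[ℚ] QBar} {N : Subgroup GQ} {f : GF e → ℂ}
    (hf : ClsF e N f) (x g : GQ) (hx : x ∈ GF e) : extG e f (x⁻¹ * g * x) = extG e f g := by
  unfold extG
  by_cases h : g ∈ GF e
  · have h1 : x⁻¹ * g * x ∈ GF e := (GF e).mul_mem ((GF e).mul_mem ((GF e).inv_mem hx) h) hx
    rw [dif_pos h, dif_pos h1]
    exact hf.cls ⟨x, hx⟩ ⟨g, h⟩
  · have h1 : x⁻¹ * g * x ∉ GF e := fun h' => h (by
      rw [Subgroup.mul_mem_cancel_right _ hx] at h'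
      exact (Subgroup.mul_mem_cancel_left _ ((GF e).inv_mem hx)).mp h')
    rw [dif_neg h, dif_neg h1]

lemma extG_inv {e : F →ₐ[ℚ] QBar} {N : Subgroup GQ} {f : GF e → ℂ}
    (hf : ClsF e N f) (g : GQ) : extG e f g⁻¹ = (starRingEnd ℂ) (extG e f g) := by
  unfold extG
  by_cases h : g ∈ GF e
  · have h1 : g⁻¹ ∈ GF e := (GF e).inv_mem h
    rw [dif_pos h, dif_pos h1]
    exact hf.conj ⟨g, h⟩
  · have h1 : g⁻¹ ∉ GF e := fun h' => h (inv_mem_iff.mp h')
    rw [dif_neg h, dif_neg h1, map_zero]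

/-- the sum over the fixed embeddings as a sum over the conjugating elements -/
lemma sumFix_eq (N : Subgroup GQ) [N.Normal] [Fintype (GQ ⧸ N)] (e : F →ₐ[ℚ] QBar)
    (hNe : N ≤ GF e) (x : (F →ₐ[ℚ] QBar) → GQ) (hx : ∀ ψ, x ψ • e = ψ) (f : GF e → ℂ)
    (hf : ClsF e N f) (E : (F →ₐ[ℚ] QBar) → ℕ → ℂ) (σ : ℕ → GQ) (p : ℕ) :
    (Nat.card {u : GQ ⧸ N // u.out • e = e} : ℂ) * sumFix e x σ f E p =
      ∑ y : GQ ⧸ N, extG e f y.out *
        ccw (fun u : GQ ⧸ N => E (u.out • e) p) y (σ p : GQ ⧸ N) := by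
  classical
  have hNe' : ∀ g ∈ N, g • e = e := fun g hg => mem_GF.mp (hNe hg)
  have hout : ∀ (g : GQ) (x : GQ ⧸ N), (g : GQ ⧸ N) = x → x.out • e = g • e := by
    intro g x hgx
    have h1 : g⁻¹ * x.out ∈ N := by
      rw [← QuotientGroup.eq, hgx, QuotientGroup.out_eq']
    have h2 := hNe' _ h1
    rw [mul_smul, inv_smul_eq_iff] at h2
    exact h2
  have hexo : ∀ g : GQ, extG e f (g : GQ ⧸ N).out = extG e f g := by
    intro g
    have h1 : g⁻¹ * (g : GQ ⧸ N).out ∈ N := by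
      rw [← QuotientGroup.eq, QuotientGroup.out_eq']
    have h2 := extG_mul hNe hf g _ h1
    rw [mul_inv_cancel_left] at h2
    exact h2
  -- the right side
  have h1 : ∑ y : GQ ⧸ N, extG e f y.out *
        ccw (fun u : GQ ⧸ N => E (u.out • e) p) y (σ p : GQ ⧸ N) =
      ∑ u : GQ ⧸ N, extG e f (u.out⁻¹ * σ p * u.out) * E (u.out • e) p := by
    simp only [ccw_eq, Finset.mul_sum]
    rw [Finset.sum_comm]
    refine Finset.sum_congr rfl fun u _ => ?_
    rw [Finset.sum_eq_single (u⁻¹ * (σ p : GQ ⧸ N) * u)]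
    · rw [if_pos rfl]
      congr 1
      rw [← hexo (u.out⁻¹ * σ p * u.out)]
      congr 2
      rw [QuotientGroup.mk_mul, QuotientGroup.mk_mul, QuotientGroup.mk_inv, QuotientGroup.out_eq']
    · intro y _ hy
      rw [if_neg (fun h => hy h.symm), mul_zero]
    · intro h; exact absurd (Finset.mem_univ _) h
  rw [h1, sumFix, Finset.mul_sum,
    ← Finset.sum_fiberwise (s := (Finset.univ : Finset (GQ ⧸ N))) (g := fun u => u.out • e)]
  refine Finset.sum_congr rfl fun ψ _ => ?_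
  have h2 : ∀ u ∈ Finset.univ.filter (fun u : GQ ⧸ N => u.out • e = ψ),
      extG e f (u.out⁻¹ * σ p * u.out) * E (u.out • e) p =
      extG e f ((x ψ)⁻¹ * σ p * x ψ) * E ψ p := by
    intro u hu
    rw [Finset.mem_filter] at hu
    rw [hu.2]
    congr 1
    have h3 : (x ψ)⁻¹ * u.out ∈ GF e := by
      rw [mem_GF, mul_smul, hu.2, inv_smul_eq_iff, hx]
    have h4 := extG_conj hf ((x ψ)⁻¹ * u.out) ((x ψ)⁻¹ * σ p * x ψ) h3
    rw [← h4]
    congr 1
    group
  rw [Finset.sum_congr rfl h2, Finset.sum_const, nsmul_eq_mul]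
  congr 1
  have h5 : Nat.card {u : GQ ⧸ N // u.out • e = ψ} =
      (Finset.univ.filter (fun u : GQ ⧸ N => u.out • e = ψ)).card := by
    rw [Nat.card_eq_fintype_card, Fintype.card_subtype]
  rw [← h5, Nat.cast_inj]
  refine Nat.card_congr
    { toFun := fun u => ⟨(x ψ : GQ ⧸ N) * u.1, ?_⟩
      invFun := fun u => ⟨(x ψ : GQ ⧸ N)⁻¹ * u.1, ?_⟩
      left_inv := fun u => by simp
      right_inv := fun u => by simp }
  · rw [hout (x ψ * u.1.out), mul_smul, u.2, hx]
    rw [QuotientGroup.mk_mul, QuotientGroup.out_eq']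
  · rw [hout ((x ψ)⁻¹ * u.1.out), mul_smul, u.2, inv_smul_eq_iff, hx]
    rw [QuotientGroup.mk_mul, QuotientGroup.mk_inv, QuotientGroup.out_eq']

/-- [TRICKF] -/
theorem trickF : S_TRICKF := by
  intro F _ _ σ hσ E hE N _ M _ hN j c hc hcN e hNe x hx f hf
  classical
  have hfinN : Finite (GQ ⧸ N) := finite_quot N hN
  have : Fintype (GQ ⧸ N) := Fintype.ofFinite _
  have hNe' : ∀ g ∈ N, g • e = e := fun g hg => mem_GF.mp (hNe hg)
  set κ : ℝ := (Nat.card {u : GQ ⧸ N // u.out • e = e} : ℝ) with hκ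
  have hκ0 : 0 < κ := by
    have h1 : Nonempty {u : GQ ⧸ N // u.out • e = e} := by
      refine ⟨⟨1, ?_⟩⟩
      have h2 : (1 : GQ ⧸ N).out ∈ N := by
        rw [← QuotientGroup.eq_one_iff, QuotientGroup.out_eq']
      exact hNe' _ h2
    rw [hκ]
    exact_mod_cast Nat.card_pos
  set A : ℂ → (GQ ⧸ N) → ℕ → ℝ := fun z y p =>
    (z * ccw (fun u : GQ ⧸ N => E (u.out • e) p) y (σ p : GQ ⧸ N)).re with hA
  have hfm : ∀ y : GQ ⧸ N, extG e f y⁻¹.out = (starRingEnd ℂ) (extG e f y.out) := by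
    intro y
    rw [← extG_inv hf]
    have h1 : (y.out⁻¹)⁻¹ * y⁻¹.out ∈ N := by
      rw [← QuotientGroup.eq, QuotientGroup.out_eq', QuotientGroup.mk_inv, QuotientGroup.out_eq']
    have h2 := extG_mul hNe hf (y.out⁻¹) _ h1
    rw [mul_inv_cancel_left] at h2
    exact h2
  have hd : ∀ y : GQ ⧸ N, HasDens (fun p => A (extG e f y.out) y p +
      A ((starRingEnd ℂ) (extG e f y.out)) y⁻¹ p) 0 := by
    intro y
    by_cases hy : y.out ∈ GF e
    · have h1 := dens_ccF hσ hE N hN j c hc hcN e hNe' y.out (mem_GF.mp hy) (extG e f y.out)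
      rw [QuotientGroup.out_eq'] at h1
      exact h1
    · have h2 : extG e f y.out = 0 := dif_neg hy
      have h3 : (fun p => A (extG e f y.out) y p +
          A ((starRingEnd ℂ) (extG e f y.out)) y⁻¹ p) = fun _ => 0 := by
        funext p
        rw [h2, map_zero, hA]
        simp
      rw [h3]
      intro ε hε
      filter_upwards [eventually_log_ge 0] with s hs
      have h4 : RR (fun _ => (0:ℝ)) s = 0 := by
        have := RR_const_mul 0 (fun _ => (0:ℝ)) s
        simpa using this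
      rw [h4, zero_mul, sub_zero, abs_zero]
      positivity
  have hbd : ∀ (z : ℂ) (y : GQ ⧸ N), BddPrimes (A z y) := fun z y =>
    ⟨‖z‖ * Nat.card (GQ ⧸ N), fun p hp => by
      refine (Complex.abs_re_le_norm _).trans ?_
      rw [norm_mul]
      exact mul_le_mul_of_nonneg_left (norm_ccw_le _ (fun x => hE.1 _ p hp) _ _) (norm_nonneg _)⟩
  have hsum := HasDens.zero_mul_sum Finset.univ (fun _ : GQ ⧸ N => 1 / (2 * κ))
    (fun y _ => hd y) (fun y _ => by
      obtain ⟨C, hC⟩ := hbd (extG e f y.out) y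
      obtain ⟨C', hC'⟩ := hbd ((starRingEnd ℂ) (extG e f y.out)) y⁻¹
      exact ⟨C + C', fun p hp => (abs_add_le _ _).trans (add_le_add (hC p hp) (hC' p hp))⟩)
  refine hsum.congr' fun p _ => ?_
  have h1 := sumFix_eq N e hNe x hx f hf E σ p
  have h2 : κ * (sumFix e x σ f E p).re = ∑ y : GQ ⧸ N, A (extG e f y.out) y p := by
    have h3 := congrArg Complex.re h1
    rw [Complex.re_sum] at h3
    have h4 : (Nat.card {u : GQ ⧸ N // u.out • e = e} : ℂ) = ((κ : ℝ) : ℂ) := by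
      rw [hκ]; push_cast; rfl
    rw [h4, Complex.re_ofReal_mul] at h3
    exact h3
  have h5 : ∑ y : GQ ⧸ N, A ((starRingEnd ℂ) (extG e f y.out)) y⁻¹ p =
      ∑ y : GQ ⧸ N, A (extG e f y.out) y p := by
    rw [← Equiv.sum_comp (Equiv.inv (GQ ⧸ N)) fun y => A (extG e f y.out) y p]
    refine Finset.sum_congr rfl fun y _ => ?_
    simp only [Equiv.inv_apply]
    rw [hfm]
  rw [← Finset.mul_sum, Finset.sum_add_distrib, h5, ← h2]
  field_simp
  ring

end

end TatePole.AT
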