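import Mathlib
import Pool.Agent.Lib.MP_058a58_ag.HK.Core2
import Pool.Agent.Lib.MP_058a58_ag.HK.TrickF4
import Pool.Agent.Lib.MP_058a58_ag.HK.Mean0
import Pool.Agent.Lib.MP_058a58_ag.HK.Avg
import Pool.Agent.Lib.MP_058a58_ag.HK.LogF
import Pool.Agent.Lib.MP_058a58_ag.HK.Ratio

/-!
# The inequality for twists by Hecke characters
-/

open Polynomial Filter Topology NumberField

namespace TatePole.HK

open TatePole AT

section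
variable {F : Type} [Field F] [NumberField F] {e : F →ₐ[ℚ] QBar}

/-- the prime sums -/
theorem parts_of (hOSC : S_OSC) (σ : ℕ → GQ) (𝔓 : ℕ → Ideal ZBar) (hσ : FrobSysP σ 𝔓)
    (N : Subgroup GQ) [N.Normal] (M : IntermediateField ℚ QBar) [FiniteDimensional ℚ M]
    (hN : N = M.fixingSubgroup) (j : QBar →ₐ[ℚ] ℂ) (c : GQ)
    (hc : ∀ x, j (c x) = (starRingEnd ℂ) (j x)) (hcN : c ∉ N) (hNe : N ≤ GF e)
    (x : (F →ₐ[ℚ] QBar) → GQ) (hx : ∀ ψ, x ψ • e = ψ) : Parts e x σ 𝔓 N where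
  inf Ψ hΨ hinf f hf := trickF F σ (FrobSysP.frobSys hσ) (EPsi 𝔓 Ψ) (hOSC F σ 𝔓 hσ Ψ hΨ hinf)
    N M hN j c hc hcN e hNe x hx f hf
  mean f hf := mean0 F σ (FrobSysP.frobSys hσ) N M hN j c hc hcN e hNe x hx f hf

/-- the trivial Hecke character -/
lemma isHecke_oneH : IsHecke (oneH F) := by
  classical
  refine ⟨1, fun _ => 0, fun _ => 0, one_ne_zero, ?_, ?_, ?_, ?_, ?_⟩
  · unfold oneH
    rw [if_neg]
    rw [Ideal.one_eq_top]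
    exact top_ne_bot
  · intro I J
    unfold oneH
    by_cases hI : I = ⊥
    · rw [if_pos hI, zero_mul, if_pos (Ideal.mul_eq_bot.mpr (Or.inl hI))]
    · by_cases hJ : J = ⊥
      · rw [if_pos hJ, mul_zero, if_pos (Ideal.mul_eq_bot.mpr (Or.inr hJ))]
      · rw [if_neg hI, if_neg hJ, if_neg, mul_one]
        intro h
        rcases Ideal.mul_eq_bot.mp h with h | h
        · exact hI h
        · exact hJ h
  · intro I hI _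
    unfold oneH
    rw [if_neg hI, norm_one]
  · intro I hI
    unfold oneH
    rw [if_pos]
    rcases hI with h | h
    · exact h
    · exfalso
      apply h
      rw [Nat.cast_one, Ideal.span_singleton_one, Ideal.isCoprime_iff_sup_eq, sup_top_eq]
  · intro a ha _
    unfold oneH
    rw [if_neg (fun h => ha (Ideal.span_singleton_eq_bot.mp h))]
    unfold infVal
    symm
    refine Finset.prod_eq_one fun φ _ => ?_
    rw [zpow_zero, Complex.ofReal_zero, zero_mul, Complex.cpow_zero, mul_one]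

lemma HeckeFactors.mono {ℓ : ℕ} [Fact ℓ.Prime] {W : Type*} [AddCommGroup W] [Module ℚ_[ℓ] W]
    [FiniteDimensional ℚ_[ℓ] W] [Algebra ℚ_[ℓ] ℂ] {V : Type*} [AddCommGroup V] [Module ℂ V]
    [FiniteDimensional ℂ V] {ρ : Representation ℚ_[ℓ] (GF e) W} {w : ℤ}
    {α : Representation ℂ (GF e) V} {Ψ : Ideal (𝓞 F) → ℂ} {S S' : Finset (Ideal (𝓞 F))}
    {R : Ideal (𝓞 F) → ℂ[X]} (h : HeckeFactors ρ w α Ψ S R) (hS : ∀ 𝔭, 𝔭 ∉ S' → 𝔭 ∉ S) :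
    HeckeFactors ρ w α Ψ S' R :=
  ⟨fun 𝔭 h1 h2 h3 => h.1 𝔭 h1 h2 (hS 𝔭 h3), h.2⟩

lemma isFin_trivial : IsFin (Representation.trivial ℂ (GF e) ℂ) := ⟨∅, fun _ _ => rfl⟩

end

section
variable {F : Type} [Field F] [NumberField F] {e : F →ₐ[ℚ] QBar} {ℓ : ℕ} [Fact ℓ.Prime]
  {W : Type*} [AddCommGroup W] [Module ℚ_[ℓ] W] [FiniteDimensional ℚ_[ℓ] W]
  [Algebra ℚ_[ℓ] ℂ]

theorem hecke_final (hOSC : S_OSC) (ρ : Representation ℚ_[ℓ] (GF e) W) (w : ℤ)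
    (S : Finset (Ideal (𝓞 F)))
    (hpure : ∀ 𝔭 : Ideal (𝓞 F), 𝔭.IsPrime → 𝔭 ≠ ⊥ → 𝔭 ∉ S → IsPureAt ρ w 𝔭)
    (B : Submodule ℚ_[ℓ] W) {L : Type*} [Fintype L] (Φ : L → Ideal (𝓞 F) → ℂ) {U : L → Type*}
    [∀ l, AddCommGroup (U l)] [∀ l, Module ℂ (U l)] [∀ l, FiniteDimensional ℂ (U l)]
    (β : ∀ l, Representation ℂ (GF e) (U l)) (hB : AbelianPart ρ w S B Φ β)
    {J : Type*} [Fintype J] {V : J → Type*} [∀ i, AddCommGroup (V i)]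
    [∀ i, Module ℂ (V i)] [∀ i, FiniteDimensional ℂ (V i)]
    (α : ∀ i, Representation ℂ (GF e) (V i)) (Ψ : J → Ideal (𝓞 F) → ℂ)
    (hirr : ∀ i, (α i).IsIrreducible) (hα : ∀ i, IsFin (α i)) (hΨ : ∀ i, IsHecke (Ψ i))
    (hne : ∀ i j, i ≠ j → InfOrder (ratio (Ψ i) (Ψ j)) ∨
      (Ψ i = Ψ j ∧ IsEmpty ((α i).Equiv (α j))))
    (hBne : ∀ l i, InfOrder (ratio (Φ l) (Ψ i)) ∨ Φ l = Ψ i)
    (S' : J → Finset (Ideal (𝓞 F))) (R : J → Ideal (𝓞 F) → ℂ[X])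
    (hR : ∀ i, HeckeFactors ρ w (α i) (Ψ i) (S' i) (R i))
    (S'' : Finset (Ideal (𝓞 F))) (Q : Ideal (𝓞 F) → ℂ[X])
    (hpureQ : ∀ 𝔭 : Ideal (𝓞 F), 𝔭.IsPrime → 𝔭 ≠ ⊥ → 𝔭 ∉ S →
      IsPureAt (selfG ρ B hB.stable) 0 𝔭)
    (hQ : HeckeFactors (selfG ρ B hB.stable) 0 (Representation.trivial ℂ (GF e) ℂ) (oneH F) S'' Q)
    (ε : ℝ) (hε : 0 < ε) :
    ∀ᶠ s : ℝ in 𝓝[>] (1 : ℝ), ∑ i, (defF (abRank Φ β (Ψ i) (α i)) (R i) s) ^ 2 ≤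
      (Real.log ‖LFunF Q s‖ + ε * Real.log (1 / (s - 1))) * Real.log (1 / (s - 1)) ∧
      Real.log ‖LFunF Q s‖ ≤ (((Module.finrank ℚ_[ℓ] W : ℝ) - Module.finrank ℚ_[ℓ] B) ^ 2 + ε) *
        Real.log (1 / (s - 1)) := by
  classical
  refine hecke_core ρ w S hpure B Φ β hB α Ψ hα hΨ hne hBne R Q
    (fun σ 𝔓 hσ N _ M _ hN j c hc hcN hNe x hx =>
      parts_of hOSC σ 𝔓 hσ N M hN j c hc hcN hNe x hx)
    (fun Ψ Φ h h' => ratio_hecke F Ψ Φ h h')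
    (fun i x σ 𝔓 hx hσ => log_F ρ w (α i) (Ψ i) (S ∪ S' i) (R i) x σ 𝔓
      (fun 𝔭 h1 h2 h3 => hpure 𝔭 h1 h2 fun h => h3 (Finset.mem_union_left _ h)) (hΨ i) (hα i)
      (HeckeFactors.mono (hR i) fun 𝔭 h3 h => h3 (Finset.mem_union_right _ h)) hx hσ)
    (fun x σ 𝔓 hx hσ => log_F _ 0 _ (oneH F) (S ∪ S'') Q x σ 𝔓
      (fun 𝔭 h1 h2 h3 => hpureQ 𝔭 h1 h2 fun h => h3 (Finset.mem_union_left _ h)) isHecke_oneH
      isFin_trivial (HeckeFactors.mono hQ fun 𝔭 h3 h => h3 (Finset.mem_union_right _ h)) hx hσ)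
    (fun i j N _ _ h1 h2 => ?_) (fun l i N _ _ h1 h2 => gavg_inv N (β l) (α i) h1 h2) ε hε
  have h := gavg_pair_inv N (α i) (α j) (hirr i) (hirr j) h1 h2
  constructor
  · rintro ⟨e⟩
    rw [h, if_pos ⟨e.symm⟩]
  · intro he
    rw [h, if_neg]
    rintro ⟨e⟩
    exact he.false e.symm

end

end TatePole.HK
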