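import Mathlib
import Pool.Agent.Lib.MP_058a58_ag.HK.RSG

/-!
# Purity of `T ⊗ T^∨`
-/

open Polynomial NumberField
open scoped TensorProduct Kronecker Matrix

namespace TatePole.HK

/-- If `X P = z P X` with `X ≠ 0` and all eigenvalues of `P` have absolute value `r > 0`, then `z`
has absolute value `1`. -/
lemma ratio_root {n : Type*} [Fintype n] [DecidableEq n] (P X : Matrix n n ℂ) {r : ℝ} (hr : 0 < r)
    (hP : ∀ z ∈ P.charpoly.roots, ‖z‖ = r) (hX : X ≠ 0) (z : ℂ) (h : X * P = (z • P) * X) :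
    ‖z‖ = 1 := by
  have hne : Nonempty n := by
    by_contra hn
    rw [not_nonempty_iff] at hn
    exact hX (Subsingleton.elim _ _)
  set q := P.charpoly with hq
  have hmon : q.Monic := Matrix.charpoly_monic P
  have hpow : ∀ k : ℕ, X * P ^ k = (z • P) ^ k * X := by
    intro k
    exact (SemiconjBy.pow_right (a := X) (x := P) (y := z • P) h k).eq
  have h1 : X * aeval P q = aeval (z • P) q * X := by
    rw [aeval_eq_sum_range, aeval_eq_sum_range, Finset.mul_sum, Finset.sum_mul]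
    refine Finset.sum_congr rfl fun k _ => ?_
    rw [mul_smul_comm, smul_mul_assoc, hpow]
  rw [hq, Matrix.aeval_self_charpoly, mul_zero] at h1
  have h2 : (0 : ℂ) ∈ spectrum ℂ (aeval (z • P) q) := by
    rw [spectrum.zero_mem_iff]
    intro hu
    obtain ⟨u, hu⟩ := hu
    apply hX
    have h3 : (u : Matrix n n ℂ) * X = 0 := by rw [hu]; exact h1.symm
    have h4 : ((u⁻¹ : (Matrix n n ℂ)ˣ) : Matrix n n ℂ) * ((u : Matrix n n ℂ) * X) = 0 := by
      rw [h3, mul_zero]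
    rwa [← mul_assoc, Units.inv_mul, one_mul] at h4
  have hdeg : 0 < q.degree := by
    rw [hq, Matrix.charpoly_degree_eq_dim]
    exact_mod_cast Fintype.card_pos
  rw [spectrum.map_polynomial_aeval_of_degree_pos _ _ hdeg] at h2
  obtain ⟨μ, hμ, hμq⟩ := h2
  have h3 : ‖μ‖ = r := by
    apply hP
    rw [mem_roots hmon.ne_zero]
    exact hμq
  have hz : z ≠ 0 := by
    rintro rfl
    rw [zero_smul, spectrum.zero_eq, Set.mem_singleton_iff] at hμ
    rw [hμ, norm_zero] at h3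
    exact hr.ne h3
  have h4 : z • P = (Units.mk0 z hz) • P := rfl
  rw [h4, spectrum.unit_smul_eq_smul, Set.mem_smul_set] at hμ
  obtain ⟨lam, hlam, hlm⟩ := hμ
  have h5 : ‖lam‖ = r := by
    apply hP
    rw [mem_roots hmon.ne_zero]
    exact Matrix.mem_spectrum_iff_isRoot_charpoly.mp hlam
  have h6 : z * lam = μ := hlm
  rw [← h6, norm_mul, h5] at h3
  exact mul_right_cancel₀ hr.ne' (h3.trans (one_mul r).symm)

/-- the eigenvalues of `A ⊗ A^{-T}` -/
lemma kron_root {n : Type*} [Fintype n] [DecidableEq n] (A A' : Matrix n n ℂ) (hA : A' * A = 1)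
    {r : ℝ} (hr : 0 < r) (hAr : ∀ z ∈ A.charpoly.roots, ‖z‖ = r) (z : ℂ)
    (hz : (A ⊗ₖ A'ᵀ).charpoly.eval z = 0) : ‖z‖ = 1 := by
  rw [Matrix.eval_charpoly] at hz
  obtain ⟨v, hv0, hv⟩ := Matrix.exists_mulVec_eq_zero_iff.mpr hz
  obtain ⟨X, rfl⟩ := Matrix.vec_bijective.surjective v
  have hX : X ≠ 0 := by
    rintro rfl
    exact hv0 (Matrix.vec_zero)
  rw [Matrix.sub_mulVec, sub_eq_zero, Matrix.kronecker_mulVec_vec] at hv
  have h1 : (Matrix.scalar (n × n) z) *ᵥ X.vec = (z • X).vec := by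
    rw [Matrix.scalar_apply, ← Matrix.smul_one_eq_diagonal, Matrix.smul_mulVec,
      Matrix.one_mulVec]
    rfl
  rw [h1, Matrix.vec_inj] at hv
  have h2 : Aᵀ * A'ᵀ = 1 := by
    rw [← Matrix.transpose_mul, hA, Matrix.transpose_one]
  have h3 : X * Aᵀ = (z • Aᵀ) * X := by
    have h4 : Aᵀ * (A'ᵀ * X * Aᵀ) = Aᵀ * (z • X) := by rw [hv]
    rw [← mul_assoc, ← mul_assoc, h2, one_mul] at h4
    rw [h4, smul_mul_assoc, mul_smul_comm]
  refine ratio_root Aᵀ X hr ?_ hX z h3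
  rw [Matrix.charpoly_transpose]
  exact hAr

section
variable {k : Type*} [Field k] {G : Type*} [Group G] {W : Type*} [AddCommGroup W] [Module k W]
  [FiniteDimensional k W]

/-- The eigenvalues of `T ⊗ T^∨`. -/
theorem selfG_root_norm (ρ : Representation k G W) (B : Submodule k W)
    (hB : ∀ g : G, ∀ w ∈ B, ρ g w ∈ B) (ι : k →+* ℂ) (g : G) {r : ℝ} (hr : 0 < r)
    (h1 : ∀ z ∈ ((ρ g).charpoly.map ι).roots, ‖z‖ = r) (z : ℂ)
    (hz : ((selfG ρ B hB g).charpoly.map ι).eval z = 0) : ‖z‖ = 1 := by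
  classical
  set τ := ρ.quotient B hB with hτ
  let b := Module.Free.chooseBasis k (W ⧸ B)
  set M := LinearMap.toMatrix b b (τ g) with hM
  set M' := LinearMap.toMatrix b b (τ g⁻¹) with hM'
  have h2 : M' * M = 1 := by
    rw [hM, hM', ← LinearMap.toMatrix_mul, ← map_mul, inv_mul_cancel, map_one,
      LinearMap.toMatrix_one]
  have h3 : selfG ρ B hB g = TensorProduct.map (τ g) (Module.Dual.transpose (τ g⁻¹)) := rfl
  have h4 : LinearMap.toMatrix (b.tensorProduct b.dualBasis) (b.tensorProduct b.dualBasis)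
      (selfG ρ B hB g) = M ⊗ₖ M'ᵀ := by
    rw [h3, TensorProduct.toMatrix_map, LinearMap.toMatrix_transpose]
  rw [← LinearMap.charpoly_toMatrix _ (b.tensorProduct b.dualBasis), h4,
    ← Matrix.charpoly_map] at hz
  have h5 : (M ⊗ₖ M'ᵀ).map ι = (M.map ι) ⊗ₖ (M'.map ι)ᵀ := by
    ext ⟨i, j⟩ ⟨i', j'⟩
    simp [Matrix.kroneckerMap_apply]
  rw [h5] at hz
  refine kron_root (M.map ι) (M'.map ι) ?_ hr ?_ z hz
  · have h6 : (M' * M).map ι = (1 : Matrix _ _ k).map ι := by rw [h2]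
    rw [Matrix.map_mul, Matrix.map_one ι (map_zero ι) (map_one ι)] at h6
    exact h6
  · rw [Matrix.charpoly_map, hM, LinearMap.charpoly_toMatrix]
    exact quoG_root_norm ρ B hB ι g h1

end

section
variable {F : Type*} [Field F] [NumberField F] {e : F →ₐ[ℚ] QBar} {ℓ : ℕ} [Fact ℓ.Prime]
  {W : Type*} [AddCommGroup W] [Module ℚ_[ℓ] W] [FiniteDimensional ℚ_[ℓ] W] [Algebra ℚ_[ℓ] ℂ]

/-- [PUR] -/
theorem isPureAt_selfG {ρ : Representation ℚ_[ℓ] (GF e) W} {w : ℤ} {𝔭 : Ideal (𝓞 F)}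
    (h : IsPureAt ρ w 𝔭) (hp : 𝔭 ≠ ⊥) (B : Submodule ℚ_[ℓ] W)
    (hB : ∀ g : GF e, ∀ x ∈ B, ρ g x ∈ B) : IsPureAt (selfG ρ B hB) 0 𝔭 := by
  have hN : 0 < Ideal.absNorm 𝔭 := Nat.pos_of_ne_zero (by
    rw [Ne, Ideal.absNorm_eq_zero_iff]
    exact hp)
  refine ⟨fun 𝔓 h𝔓 g hg => ?_, fun g hg z hz => ?_⟩
  · have h1 := h.unramified 𝔓 h𝔓 g hg
    have h1' : ρ g⁻¹ = 1 := by
      have h2 : ρ g⁻¹ * ρ g = 1 := by rw [← map_mul, inv_mul_cancel, map_one]
      rwa [h1, mul_one] at h2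
    have h2 : ∀ g : GF e, ρ g = 1 → (ρ.quotient B hB) g = 1 := by
      intro g hg
      ext x
      show (ρ.quotient B hB g) (Submodule.Quotient.mk x) = Submodule.Quotient.mk x
      have h3 : (ρ.quotient B hB g) (Submodule.Quotient.mk x) = Submodule.Quotient.mk (ρ g x) := rfl
      rw [h3, hg]
      rfl
    have h3 : selfG ρ B hB g = TensorProduct.map ((ρ.quotient B hB) g)
      (Module.Dual.transpose ((ρ.quotient B hB) g⁻¹)) := rfl
    rw [h3, h2 g h1, h2 g⁻¹ h1']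
    have h4 : Module.Dual.transpose (1 : (W ⧸ B) →ₗ[ℚ_[ℓ]] (W ⧸ B)) = LinearMap.id := by
      ext f x
      rfl
    rw [h4]
    exact TensorProduct.map_id
  · have h1 : ‖z‖ = 1 := by
      refine selfG_root_norm ρ B hB (algebraMap ℚ_[ℓ] ℂ) g⁻¹
        (r := (Ideal.absNorm 𝔭 : ℝ) ^ ((w : ℝ) / 2)) (Real.rpow_pos_of_pos (by exact_mod_cast hN) _)
        (fun y hy => h.pure g hg y ?_) z hz
      rw [mem_roots'] at hy
      exact hy.2
    rw [h1]
    simp

end

end TatePole.HK
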