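import Mathlib
import Pool.Agent.Lib.MP_058a58_ag.HK.Core3
import Pool.Agent.Lib.MP_058a58_ag.HK.Final
import Pool.Agent.Lib.MP_058a58_ag.HK.Pur

/-!
# The inequality for twists by Hecke characters, for extensions `F / F₀`
-/

open Polynomial Filter Topology NumberField

namespace TatePole.HK

open TatePole AT

section
variable {F : Type} [Field F] [NumberField F] {e : F →ₐ[ℚ] QBar} {ℓ : ℕ} [Fact ℓ.Prime]
  {W : Type*} [AddCommGroup W] [Module ℚ_[ℓ] W] [FiniteDimensional ℚ_[ℓ] W]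
  [Algebra ℚ_[ℓ] ℂ]

theorem hecke_final_conj (hOSC : S_OSC) {F₀ : Type} [Field F₀] [NumberField F₀] [Algebra F₀ F]
    (ρ : Representation ℚ_[ℓ] (GF (resEmb F₀ F e)) W) (w : ℤ) (S : Finset (Ideal (𝓞 F)))
    (hpure : ∀ 𝔭 : Ideal (𝓞 F), 𝔭.IsPrime → 𝔭 ≠ ⊥ → 𝔭 ∉ S → IsPureAt (resF ρ) w 𝔭)
    (B : Submodule ℚ_[ℓ] W) (hB0 : ∀ g, ∀ x ∈ B, ρ g x ∈ B)
    {L : Type*} [Fintype L] (Φ : L → Ideal (𝓞 F) → ℂ) {U : L → Type*}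
    [∀ l, AddCommGroup (U l)] [∀ l, Module ℂ (U l)] [∀ l, FiniteDimensional ℂ (U l)]
    (β : ∀ l, Representation ℂ (GF e) (U l)) (hB : AbelianPart (resF ρ) w S B Φ β)
    {J : Type*} [Fintype J] {V : J → Type*} [∀ i, AddCommGroup (V i)]
    [∀ i, Module ℂ (V i)] [∀ i, FiniteDimensional ℂ (V i)]
    (α : ∀ i, Representation ℂ (GF e) (V i)) (Ψ : J → Ideal (𝓞 F) → ℂ)
    (hirr : ∀ i, (α i).IsIrreducible) (hα : ∀ i, IsFin (α i)) (hΨ : ∀ i, IsHecke (Ψ i))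
    (hne : ∀ i j, i ≠ j → InfOrder (ratio (Ψ i) (Ψ j)) ∨
      (Ψ i = Ψ j ∧ IsEmpty ((α i).Equiv (α j))))
    (hcj : ∀ i j (a : F ≃ₐ[F₀] F), a ≠ 1 → InfOrder (ratio (cj (a : F ≃+* F) (Ψ i)) (Ψ j)))
    (hBne : ∀ l i, InfOrder (ratio (Φ l) (Ψ i)) ∨ Φ l = Ψ i)
    (S' : J → Finset (Ideal (𝓞 F))) (R : J → Ideal (𝓞 F) → ℂ[X])
    (hR : ∀ i, HeckeFactors (resF ρ) w (α i) (Ψ i) (S' i) (R i))
    (S'' : Finset (Ideal (𝓞 F))) (Q : Ideal (𝓞 F) → ℂ[X])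
    (hQ : HeckeFactors (selfG (resF ρ) B hB.stable) 0 (Representation.trivial ℂ (GF e) ℂ)
      (oneH F) S'' Q)
    (ε : ℝ) (hε : 0 < ε) :
    ∀ᶠ s : ℝ in 𝓝[>] (1 : ℝ), (Nat.card (F ≃ₐ[F₀] F) : ℝ) *
      ∑ i, (defF (abRank Φ β (Ψ i) (α i)) (R i) s) ^ 2 ≤
      (Real.log ‖LFunF Q s‖ + ε * Real.log (1 / (s - 1))) * Real.log (1 / (s - 1)) ∧
      Real.log ‖LFunF Q s‖ ≤ (((Module.finrank ℚ_[ℓ] W : ℝ) - Module.finrank ℚ_[ℓ] B) ^ 2 + ε) *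
        Real.log (1 / (s - 1)) := by
  classical
  refine hecke_core_conj ρ w S hpure B hB0 Φ β hB α Ψ hα hΨ hne hcj hBne R Q
    (fun σ 𝔓 hσ N _ M _ hN j c hc hcN hNe x hx =>
      parts_of hOSC σ 𝔓 hσ N M hN j c hc hcN hNe x hx)
    (fun Ψ Φ h h' => ratio_hecke F Ψ Φ h h')
    (fun i x σ 𝔓 hx hσ => log_F (resF ρ) w (α i) (Ψ i) (S ∪ S' i) (R i) x σ 𝔓
      (fun 𝔭 h1 h2 h3 => hpure 𝔭 h1 h2 fun h => h3 (Finset.mem_union_left _ h)) (hΨ i) (hα i)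
      (HeckeFactors.mono (hR i) fun 𝔭 h3 h => h3 (Finset.mem_union_right _ h)) hx hσ)
    (fun x σ 𝔓 hx hσ => log_F _ 0 _ (oneH F) (S ∪ S'') Q x σ 𝔓
      (fun 𝔭 h1 h2 h3 => isPureAt_selfG (hpure 𝔭 h1 h2 fun h => h3 (Finset.mem_union_left _ h))
        h2 B hB.stable) isHecke_oneH
      isFin_trivial (HeckeFactors.mono hQ fun 𝔭 h3 h => h3 (Finset.mem_union_right _ h)) hx hσ)
    (fun i j N _ _ h1 h2 => ?_) (fun l i N _ _ h1 h2 => gavg_inv N (β l) (α i) h1 h2) ε hε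
  have h := gavg_pair_inv N (α i) (α j) (hirr i) (hirr j) h1 h2
  constructor
  · rintro ⟨e⟩
    rw [h, if_pos ⟨e.symm⟩]
  · intro he
    rw [h, if_neg]
    rintro ⟨e⟩
    exact he.false e.symm

end

end TatePole.HK
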