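import Mathlib
import Pool.Agent.Lib.MP_058a58_ag.HK.Stm
import Pool.Agent.Lib.MP_058a58_ag.LocalFactor
import Pool.Agent.Lib.MP_058a58_ag.Stable

/-!
# Frobenius elements over a number field
-/

open Polynomial Filter Topology NumberField
open scoped TensorProduct

namespace TatePole.AT

attribute [local instance] topZBar discZBar contZBar invZBar

section
variable {F : Type*} [Field F] [NumberField F]

/-- every prime over `p` is the restriction of a given prime of `ZBar` along an embedding -/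
lemma exists_emb_comap' {p : ℕ} (hp : p.Prime) {𝔓 : Ideal ZBar} (h𝔓 : 𝔓.IsPrime)
    (hp𝔓 : (p : ZBar) ∈ 𝔓) {I : Ideal (𝓞 F)} (hprime : I.IsPrime) (hpI : (p : 𝓞 F) ∈ I) :
    ∃ φ : F →ₐ[ℚ] QBar, 𝔓.comap (intMap φ) = I := by
  let φ₀ : F →ₐ[ℚ] QBar := IsAlgClosed.lift
  let alg : Algebra (𝓞 F) ZBar := (intMap φ₀).toAlgebra
  have htower : IsScalarTower ℤ (𝓞 F) ZBar := IsScalarTower.of_algebraMap_eq fun n => by
    simp
  have hint : Algebra.IsIntegral (𝓞 F) ZBar := ⟨fun z => IsIntegral.tower_top (R := ℤ)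
    (Algebra.IsIntegral.isIntegral z)⟩
  have hinj : Function.Injective (algebraMap (𝓞 F) ZBar) := by
    intro x y hxy
    have h1 : φ₀ (x : F) = φ₀ (y : F) := congrArg (fun z : ZBar => (z : QBar)) hxy
    exact RingOfIntegers.ext (φ₀.injective h1)
  obtain ⟨𝔓₀, h𝔓₀, hcomap⟩ := Ideal.exists_ideal_over_prime_of_isIntegral_of_isDomain (S := ZBar) I
    (by rw [(RingHom.injective_iff_ker_eq_bot _).mp hinj]; exact bot_le)
  have hp𝔓₀ : (p : ZBar) ∈ 𝔓₀ := by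
    have h1 : (p : 𝓞 F) ∈ 𝔓₀.comap (algebraMap (𝓞 F) ZBar) := by
      rw [hcomap]; exact hpI
    rw [Ideal.mem_comap, map_natCast] at h1
    exact h1
  have hunder : 𝔓₀.under ℤ = 𝔓.under ℤ := by
    ext n
    rw [Ideal.mem_comap, Ideal.mem_comap]
    have h1 := dvd_of_mem hp h𝔓₀ hp𝔓₀ n
    have h2 := dvd_of_mem hp h𝔓 hp𝔓 n
    simp only [eq_intCast] at h1 h2 ⊢
    rw [h1, h2]
  obtain ⟨g, hg⟩ := Algebra.IsInvariant.exists_smul_of_under_eq_of_profinite (A := ℤ) (G := GQ)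
    𝔓₀ 𝔓 hunder
  refine ⟨(g : QBar →ₐ[ℚ] QBar).comp φ₀, ?_⟩
  ext x
  have h1 : intMap ((g : QBar →ₐ[ℚ] QBar).comp φ₀) x = g • (intMap φ₀ x) := by
    apply Subtype.ext
    rw [coe_smul_ZBar]
    rfl
  rw [Ideal.mem_comap, h1, hg, Ideal.smul_mem_pointwise_smul_iff, ← hcomap, Ideal.mem_comap]
  rfl

lemma frob_mem {p : ℕ} (hp : 0 < p) {𝔓 : Ideal ZBar} {σ : GQ} (hσ : IsArithFrob p 𝔓 σ) {y : ZBar}
    (hy : y ∈ 𝔓) : σ • y ∈ 𝔓 := by
  obtain ⟨z, hz, hzy⟩ := hσ y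
  have h1 : σ • y = y ^ p + z := by
    apply Subtype.ext
    rw [coe_smul_ZBar, hzy]
    push_cast
    rfl
  rw [h1]
  exact 𝔓.add_mem (𝔓.pow_mem_of_mem hy p hp) hz

/-- powers of a Frobenius element -/
lemma arithFrob_pow {p : ℕ} (hp : 0 < p) {𝔓 : Ideal ZBar} {σ : GQ} (hσ : IsArithFrob p 𝔓 σ)
    (f : ℕ) : IsArithFrob (p ^ f) 𝔓 (σ ^ f) := by
  induction f with
  | zero =>
    intro x
    exact ⟨0, 𝔓.zero_mem, by simp⟩
  | succ f ih =>
    intro x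
    obtain ⟨y, hy, hyx⟩ := ih x
    obtain ⟨z, hz, hzx⟩ := hσ (x ^ p ^ f)
    have h1 := frob_mem hp hσ hy
    refine ⟨z + σ • y, 𝔓.add_mem hz h1, ?_⟩
    rw [pow_succ' σ, AlgEquiv.mul_apply, hyx, map_add]
    have h2 : ((x : QBar) ^ p ^ f) = ((x ^ p ^ f : ZBar) : QBar) := by push_cast; rfl
    rw [h2, hzx]
    push_cast
    rw [coe_smul_ZBar]
    ring

/-- Fermat's little theorem modulo a prime ideal -/
lemma pow_absNorm_sub_mem {I : Ideal (𝓞 F)} (hI : I.IsPrime) (hI0 : I ≠ ⊥) (x : 𝓞 F) :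
    x ^ (Ideal.absNorm I) - x ∈ I := by
  have hmax : I.IsMaximal := hI.isMaximal hI0
  let inst : Field (𝓞 F ⧸ I) := Ideal.Quotient.field I
  have hfin : Finite (𝓞 F ⧸ I) := Ideal.finiteQuotientOfFreeOfNeBot I hI0
  have : Fintype (𝓞 F ⧸ I) := Fintype.ofFinite _
  rw [← Ideal.Quotient.eq_zero_iff_mem, map_sub, map_pow, sub_eq_zero, Ideal.absNorm_apply,
    Submodule.cardQuot_apply, Nat.card_eq_fintype_card]
  exact FiniteField.pow_card _

/-- the power of the Frobenius element that fixes the embedding -/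
lemma frob_pow_fix {p f : ℕ} (hp : 0 < p) (hgood : GoodFor F p) {𝔓 : Ideal ZBar} (h𝔓 : 𝔓.IsPrime)
    (hp𝔓 : (p : ZBar) ∈ 𝔓) {σ : GQ} (hσ : IsArithFrob p 𝔓 σ) {ψ : F →ₐ[ℚ] QBar}
    {I : Ideal (𝓞 F)} (hI : I.IsPrime) (hI0 : I ≠ ⊥) (hψ : 𝔓.comap (intMap ψ) = I)
    (hN : Ideal.absNorm I = p ^ f) : (σ ^ f) • ψ = ψ := by
  refine hgood 𝔓 h𝔓 hp𝔓 _ _ fun x => ?_
  obtain ⟨y, hy, hyx⟩ := arithFrob_pow hp hσ f (intMap ψ x)
  have h2 : intMap ((σ ^ f) • ψ) x - intMap ψ x = intMap ψ (x ^ p ^ f - x) + y := by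
    apply Subtype.ext
    have h3 : ((intMap ((σ ^ f) • ψ) x : ZBar) : QBar) = (σ ^ f) ((intMap ψ x : ZBar) : QBar) :=
      rfl
    rw [map_sub, map_pow]
    push_cast
    rw [h3, hyx]
    ring
  rw [h2]
  refine 𝔓.add_mem ?_ hy
  rw [← Ideal.mem_comap, hψ, ← hN]
  exact pow_absNorm_sub_mem hI hI0 x

/-- a conjugate of a Frobenius element -/
lemma isFrobAt_conj {e ψ : F →ₐ[ℚ] QBar} {x : GQ} (hx : x • e = ψ) {g : GQ} {𝔓 : Ideal ZBar}
    (h𝔓 : 𝔓.IsPrime) {I : Ideal (𝓞 F)} (hg : IsArithFrob (Ideal.absNorm I) 𝔓 g)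
    (hI : 𝔓.comap (intMap ψ) = I) (hfix : g • ψ = ψ) :
    ∃ h : x⁻¹ * g * x ∈ GF e, IsFrobAt e I ⟨x⁻¹ * g * x, h⟩ := by
  have h1 : x⁻¹ * g * x ∈ GF e := by
    rw [mem_GF, mul_smul, mul_smul, hx, hfix, inv_smul_eq_iff, hx]
  refine ⟨h1, 𝔓.comap (MulSemiringAction.toRingHom GQ ZBar x), ⟨?_, ?_⟩, ?_⟩
  · exact h𝔓.comap _
  · ext a
    rw [Ideal.mem_comap, Ideal.mem_comap, ← hI, Ideal.mem_comap]
    have h2 : (MulSemiringAction.toRingHom GQ ZBar x) (intMap e a) = intMap ψ a := by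
      apply Subtype.ext
      rw [MulSemiringAction.toRingHom_apply, coe_smul_ZBar, ← hx]
      rfl
    rw [h2]
  · intro a
    obtain ⟨y, hy, hyx⟩ := hg (x • a)
    refine ⟨x⁻¹ • y, ?_, ?_⟩
    · rw [Ideal.mem_comap, MulSemiringAction.toRingHom_apply, smul_inv_smul]
      exact hy
    · have h2 : (x⁻¹ * g * x) (a : QBar) = x⁻¹ (g (x (a : QBar))) := by
        rw [AlgEquiv.mul_apply, AlgEquiv.mul_apply]
      show (x⁻¹ * g * x) (a : QBar) = _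
      rw [h2, ← coe_smul_ZBar x a, hyx, map_add, map_pow, coe_smul_ZBar x⁻¹ y, coe_smul_ZBar x a]
      congr 2
      rw [← AlgEquiv.mul_apply, inv_mul_cancel]
      rfl

/-- existence of Frobenius elements -/
lemma exists_isFrobAt (e : F →ₐ[ℚ] QBar) {p : ℕ} (hp : p.Prime) (hgood : GoodFor F p)
    {𝔓 : Ideal ZBar} (h𝔓 : 𝔓.IsPrime) (hp𝔓 : (p : ZBar) ∈ 𝔓) {σ : GQ}
    (hσ : IsArithFrob p 𝔓 σ) {I : Ideal (𝓞 F)} (hI : I.IsPrime) (hI0 : I ≠ ⊥)
    (hpI : (p : 𝓞 F) ∈ I) {f : ℕ} (hN : Ideal.absNorm I = p ^ f) :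
    ∃ g : GF e, IsFrobAt e I g := by
  obtain ⟨ψ, hψ⟩ := exists_emb_comap' hp h𝔓 hp𝔓 hI hpI
  obtain ⟨x, hx⟩ := MulAction.exists_smul_eq GQ e ψ
  have h1 := frob_pow_fix hp.pos hgood h𝔓 hp𝔓 hσ hI hI0 hψ hN
  have h2 := arithFrob_pow hp.pos hσ f
  rw [← hN] at h2
  obtain ⟨h, h3⟩ := isFrobAt_conj hx h𝔓 h2 hψ h1
  exact ⟨_, h3⟩

end

section
variable {F : Type*} [Field F] [NumberField F] {e : F →ₐ[ℚ] QBar} {ℓ : ℕ} [Fact ℓ.Prime]
  {W : Type*} [AddCommGroup W] [Module ℚ_[ℓ] W] [FiniteDimensional ℚ_[ℓ] W]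
  {V : Type*} [AddCommGroup V] [Module ℂ V] [FiniteDimensional ℂ V]
  [Algebra ℚ_[ℓ] ℂ]

/-- the eigenvalues of a tensor product with an operator of finite order -/
lemma tRep_root_norm {ρ : Representation ℚ_[ℓ] (GF e) W} {α : Representation ℂ (GF e) V}
    {g : GF e} {r : ℝ} (hr : 0 ≤ r)
    (h1 : ∀ y : ℂ, ((ρ g).charpoly.map (algebraMap ℚ_[ℓ] ℂ)).eval y = 0 → ‖y‖ = r)
    {k : ℕ} (hk : 0 < k) (hα : α g ^ k = 1) :
    ∀ x : ℂ, (tRep ρ α g).charpoly.eval x = 0 → ‖x‖ = r := by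
  intro x hx
  set A : Module.End ℂ (ℂ ⊗[ℚ_[ℓ]] W) := (ρ g).baseChange ℂ with hA
  set T : Module.End ℂ ((ℂ ⊗[ℚ_[ℓ]] W) ⊗[ℂ] V) := tRep ρ α g with hT
  have hTA : T = TensorProduct.map A (α g) := rfl
  have hx' : x ∈ spectrum ℂ T :=
    (Module.End.mem_spectrum_iff_isRoot_charpoly T x).2 hx
  have h2 : x ^ k ∈ spectrum ℂ (T ^ k) := by
    rw [spectrum.map_pow_of_pos T hk]
    exact ⟨x, hx', rfl⟩
  have h3 : T ^ k = Module.End.rTensorAlgHom ℂ (ℂ ⊗[ℚ_[ℓ]] W) V (A ^ k) := by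
    rw [hTA, TensorProduct.map_pow, hα]
    rfl
  rw [h3] at h2
  have h4 := AlgHom.spectrum_apply_subset (Module.End.rTensorAlgHom ℂ (ℂ ⊗[ℚ_[ℓ]] W) V)
    (A ^ k) h2
  rw [spectrum.map_pow_of_pos A hk] at h4
  obtain ⟨y, hy, hyx⟩ := h4
  have h5 : A.charpoly.eval y = 0 := (Module.End.mem_spectrum_iff_isRoot_charpoly A y).1 hy
  have h6 : A.charpoly = (ρ g).charpoly.map (algebraMap ℚ_[ℓ] ℂ) :=
    LinearMap.charpoly_baseChange (ρ g) ℂ
  rw [h6] at h5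
  have h7 := h1 y h5
  have h9 : y ^ k = x ^ k := hyx
  have h8 : ‖x‖ ^ k = r ^ k := by
    rw [← norm_pow, ← h9, norm_pow, h7]
  exact (pow_left_inj₀ (norm_nonneg x) hr hk.ne').mp h8

lemma trace_tRep (ρ : Representation ℚ_[ℓ] (GF e) W) (α : Representation ℂ (GF e) V) (g : GF e) :
    LinearMap.trace ℂ _ (tRep ρ α g) =
      algebraMap ℚ_[ℓ] ℂ (LinearMap.trace ℚ_[ℓ] W (ρ g)) * α.character g := by
  have h : tRep ρ α g = TensorProduct.map ((ρ g).baseChange ℂ) (α g) := rfl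
  rw [h, LinearMap.trace_tensorProduct', LinearMap.trace_baseChange]
  rfl

omit [FiniteDimensional ℂ V] in
/-- Artin representations of `GF e` have finite order. -/
lemma isFin_pow {α : Representation ℂ (GF e) V} (hα : IsFin α) (g : GF e) :
    ∃ k : ℕ, 0 < k ∧ α g ^ k = 1 := by
  obtain ⟨A, hA⟩ := hα
  set M : IntermediateField ℚ QBar := IntermediateField.adjoin ℚ (A : Set QBar) with hM
  have hfd : FiniteDimensional ℚ M :=
    IntermediateField.finiteDimensional_adjoin fun x _ => Algebra.IsIntegral.isIntegral x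
  have hopen : IsOpen (M.fixingSubgroup : Set GQ) := IntermediateField.fixingSubgroup_isOpen M
  have hfin : Finite (GQ ⧸ M.fixingSubgroup) :=
    M.fixingSubgroup.quotient_finite_of_isOpen hopen
  have hidx : M.fixingSubgroup.index ≠ 0 := Subgroup.index_ne_zero_of_finite
  obtain ⟨k, hk, -, hmem⟩ := Subgroup.exists_pow_mem_of_index_ne_zero hidx (g : GQ)
  refine ⟨k, hk, ?_⟩
  rw [← map_pow]
  apply hA
  intro x hx
  exact (IntermediateField.mem_fixingSubgroup_iff _ _).1 hmem x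
    (IntermediateField.subset_adjoin ℚ _ hx)

/-- the constant term, the linear term and the zeros of the normalised reverse characteristic
polynomial -/
lemma revchar {n : ℕ} {U : Type*} [AddCommGroup U] [Module ℂ U] [FiniteDimensional ℂ U]
    (hn : Module.finrank ℂ U = n) (T : Module.End ℂ U) {r : ℝ} (hr : 0 < r)
    (h : ∀ x : ℂ, T.charpoly.eval x = 0 → ‖x‖ = r) :
    (T.charpoly.reverse.comp (C ((r⁻¹ : ℝ) : ℂ) * X)).coeff 0 = 1 ∧
    (T.charpoly.reverse.comp (C ((r⁻¹ : ℝ) : ℂ) * X)).coeff 1 =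
      -(LinearMap.trace ℂ U T * ((r⁻¹ : ℝ) : ℂ)) ∧
    (T.charpoly.reverse.comp (C ((r⁻¹ : ℝ) : ℂ) * X)).natDegree ≤ n ∧
    ∀ z : ℂ, (T.charpoly.reverse.comp (C ((r⁻¹ : ℝ) : ℂ) * X)).eval z = 0 → ‖z‖ = 1 := by
  have hmon : T.charpoly.Monic := LinearMap.charpoly_monic T
  have h1 : T.charpoly.reverse.coeff 1 = -LinearMap.trace ℂ U T := by
    have hsplit : T.charpoly.Splits := IsAlgClosed.splits _
    have h2 := sum_roots_map_charpoly (RingHom.id ℂ) T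
    rw [Polynomial.map_id, RingHom.id_apply] at h2
    rw [coeff_one_reverse, hsplit.nextCoeff_eq_neg_sum_roots_of_monic hmon, h2]
  refine ⟨?_, ?_, ?_, ?_⟩
  · rw [comp_C_mul_X_coeff, coeff_zero_reverse, hmon.leadingCoeff, pow_zero, mul_one]
  · rw [comp_C_mul_X_coeff, h1, pow_one]
    ring
  · refine natDegree_comp_le.trans ?_
    have h2 := natDegree_C_mul_X_pow_le (((r⁻¹ : ℝ) : ℂ)) 1
    rw [pow_one] at h2
    calc _ ≤ T.charpoly.reverse.natDegree * 1 := Nat.mul_le_mul le_rfl h2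
      _ ≤ T.charpoly.natDegree := by rw [mul_one]; exact reverse_natDegree_le _
      _ = n := by rw [LinearMap.charpoly_natDegree, hn]
  · intro z hz
    rw [eval_comp, eval_mul, eval_C, eval_X, reverse_eval_eq_prod _ hmon] at hz
    rw [Multiset.prod_eq_zero_iff, Multiset.mem_map] at hz
    obtain ⟨y, hy, hyz⟩ := hz
    rw [mem_roots hmon.ne_zero, IsRoot.def] at hy
    have h2 := h y hy
    have h3 : ‖y * (((r⁻¹ : ℝ) : ℂ) * z)‖ = 1 := by
      rw [← sub_eq_zero.mp hyz, norm_one]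
    rw [norm_mul, norm_mul, Complex.norm_real, h2, Real.norm_of_nonneg (by positivity),
      ← mul_assoc, mul_inv_cancel₀ hr.ne', one_mul] at h3
    exact h3

end

end TatePole.AT
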