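import Mathlib
import Pool.Agent.Lib.MP_058a58_ag.HK.FinalC


open Polynomial Filter Topology NumberField

namespace TatePole.HeckeDraft

open TatePole

/-- Tate's formula, twists by Hecke characters and the Rankin-Selberg square.  Let `F / F₀` be an
extension of number fields and let `W` be a representation of the absolute Galois group
`GF (resEmb F₀ F e)` of `F₀`, pure of weight `w` over `F`.  Let `B` be a stable subspace whose
Frobenius traces over `F` are those of the sum of the `β l ⊗ (Φ l)⁻¹`, with `β l` of finite image and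
`Φ l` a unitary Hecke character of `F` (`AbelianPart`), and let `T = W / B`.  Let `(α i, Ψ i)`, for
`i` in a finite set `J`, be pairs of an irreducible representation with finite image of the absolute
Galois group `GF e` of `F` and a unitary Hecke character of `F`, such that two of them have Hecke
characters whose quotient has infinite order, or the same Hecke character and representations that
are not isomorphic; the conjugates of the `Ψ i` by the nontrivial automorphisms of `F / F₀` have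
quotients of infinite order with all `Ψ j`.  Let `R i` be local factors of `W ⊗ α i ⊗ Ψ i` and `Q`
local factors of `T ⊗ T^∨`.  Tate's formula for `W ⊗ α i ⊗ Ψ i` is that the order of its
`L`-function at the edge is `-r i`, where `r i` is the sum of the dimensions of the invariants of
`β l ⊗ α i` over the `l` with `Φ l = Ψ i`.  Unconditionally, for every `ε > 0` and all `s` close
enough to `1` from the right, with `y = log (1 / (s - 1))`, the number of automorphisms of `F / F₀`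
times the sum of the squares of the defects `log |L(W ⊗ α i ⊗ Ψ i, s)| - r i * y` is at most
`(log |L(T ⊗ T^∨, s)| + ε * y) * y`, where `log |L(T ⊗ T^∨, s)| ≤ ((dim T) ^ 2 + ε) * y`. -/
theorem result (hOSC : S_OSC) {F₀ F : Type} [Field F₀] [NumberField F₀] [Field F] [NumberField F] [Algebra F₀ F]
    (e : F →ₐ[ℚ] QBar) {ℓ : ℕ} [Fact ℓ.Prime] [Algebra ℚ_[ℓ] ℂ] {W : Type*} [AddCommGroup W]
    [Module ℚ_[ℓ] W] [FiniteDimensional ℚ_[ℓ] W]
    (ρ : Representation ℚ_[ℓ] (GF (resEmb F₀ F e)) W) (w : ℤ) (S : Finset (Ideal (𝓞 F)))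
    (hpure : ∀ 𝔭 : Ideal (𝓞 F), 𝔭.IsPrime → 𝔭 ≠ ⊥ → 𝔭 ∉ S → IsPureAt (resF ρ) w 𝔭)
    (B : Submodule ℚ_[ℓ] W) (hB0 : ∀ g, ∀ x ∈ B, ρ g x ∈ B)
    {L : Type*} [Fintype L] (Φ : L → Ideal (𝓞 F) → ℂ) {U : L → Type*}
    [∀ l, AddCommGroup (U l)] [∀ l, Module ℂ (U l)] [∀ l, FiniteDimensional ℂ (U l)]
    (β : ∀ l, Representation ℂ (GF e) (U l)) (hB : AbelianPart (resF ρ) w S B Φ β)
    {J : Type*} [Fintype J] {V : J → Type*} [∀ i, AddCommGroup (V i)]
    [∀ i, Module ℂ (V i)] [∀ i, FiniteDimensional ℂ (V i)]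
    (α : ∀ i, Representation ℂ (GF e) (V i)) (Ψ : J → Ideal (𝓞 F) → ℂ)
    (hirr : ∀ i, (α i).IsIrreducible) (hα : ∀ i, IsFin (α i)) (hΨ : ∀ i, IsHecke (Ψ i))
    (hne : ∀ i j, i ≠ j → InfOrder (ratio (Ψ i) (Ψ j)) ∨
      (Ψ i = Ψ j ∧ IsEmpty ((α i).Equiv (α j))))
    (hcj : ∀ i j (a : F ≃ₐ[F₀] F), a ≠ 1 → InfOrder (ratio (cj (a : F ≃+* F) (Ψ i)) (Ψ j)))
    (hΦ : ∀ l i, InfOrder (ratio (Φ l) (Ψ i)) ∨ Φ l = Ψ i)
    (S' : J → Finset (Ideal (𝓞 F))) (R : J → Ideal (𝓞 F) → ℂ[X])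
    (hR : ∀ i, HeckeFactors (resF ρ) w (α i) (Ψ i) (S' i) (R i))
    (S'' : Finset (Ideal (𝓞 F))) (Q : Ideal (𝓞 F) → ℂ[X])
    (hQ : HeckeFactors (selfG (resF ρ) B hB.stable) 0 (Representation.trivial ℂ (GF e) ℂ)
      (oneH F) S'' Q)
    (ε : ℝ) (hε : 0 < ε) :
    ∃ δ : ℝ, 0 < δ ∧ ∀ s : ℝ, 1 < s → s < 1 + δ →
      (Nat.card (F ≃ₐ[F₀] F) : ℝ) * ∑ i, (defF (abRank Φ β (Ψ i) (α i)) (R i) s) ^ 2 ≤
        (Real.log ‖LFunF Q s‖ + ε * Real.log (1 / (s - 1))) * Real.log (1 / (s - 1)) ∧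
      Real.log ‖LFunF Q s‖ ≤
        (((Module.finrank ℚ_[ℓ] W : ℝ) - Module.finrank ℚ_[ℓ] B) ^ 2 + ε) *
          Real.log (1 / (s - 1)) := by
  have h := HK.hecke_final_conj hOSC ρ w S hpure B hB0 Φ β hB α Ψ hirr hα hΨ hne hcj hΦ S' R hR
    S'' Q hQ ε hε
  obtain ⟨u, hu, hsub⟩ := (mem_nhdsGT_iff_exists_Ioo_subset).mp h
  refine ⟨u - 1, sub_pos.mpr hu, fun s h1 h2 => hsub ⟨h1, ?_⟩⟩
  linarith

end TatePole.HeckeDraft
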