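import Pool.Agent.Lib.MP_058a58_ag.HK.Classes
import Pool.Agent.Lib.MP_058a58_ag.AT.LatW2

set_option autoImplicit false

/-!
# The Dirichlet series of a Hecke character of infinite order has a finite limit at `s = 1`
-/

namespace Pool.Agent.Lib.MP_058a58_ag.HK

open NumberField Filter Topology nonZeroDivisors
open Pool.Agent.Lib.MP_058a58_ag.Ch (rep absNorm_pos' Fs WOK_ww)
open Pool.Agent.MP_058a58_ag.Ch (io ww LipAt OmegaOK per_omega)

variable {K : Type*} [Field K] [NumberField K]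
variable {M : ℕ} {ψ : Ideal (𝓞 K) → ℂ} {om : mixedEmbedding.mixedSpace K → ℂ}

lemma psiI_eq (h : IsHecke K M ψ om) (J : Ideal (𝓞 K)) (Q : ℕ) {s : ℝ} (hs : s ≠ 0) (x : 𝓞 K) :
    psiI ψ J x * ((Fs K (ww K) s x : ℝ) : ℂ) =
      gC ψ om J Q x * (om (io K x) * ((Fs K (ww K) s x : ℝ) : ℂ)) := by
  classical
  by_cases hx : x = 0
  · subst hx
    have h0 : Fs K (ww K) s 0 = 0 := by
      unfold Fs
      rw [Algebra.norm_zero, Int.cast_zero, abs_zero, Real.zero_rpow (neg_ne_zero.2 hs), mul_zero]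
    rw [h0]
    simp
  · by_cases hJ : x ∈ J
    · rw [← mul_assoc, gC_mul_om h Q hx hJ]
      unfold psiI
      rw [if_pos hJ]
    · rw [gC_of_notMem Q hJ]
      unfold psiI
      rw [if_neg hJ, zero_mul, zero_mul]

/-- **the Dirichlet series of a Hecke character of infinite order has a finite limit at `s = 1`,
with a Lipschitz rate** -/
theorem LI_lip (h : IsHecke K M ψ om) (hom : OmegaOK K om)
    (hk : ∀ Q : ℕ, 1 ≤ Q → ∃ κ z : 𝓞 K, κ ≠ 0 ∧ κ = 1 + (Q : 𝓞 K) * z ∧ om (io K κ) ≠ 1) :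
    ∃ l, LipAt (LI K ψ) l := by
  have hlip : ∀ C : ClassGroup (𝓞 K), ∃ l, LipAt (fun s => ∑' x : 𝓞 K,
      gC ψ om (rep C : Ideal (𝓞 K)) (M * Ideal.absNorm (rep C : Ideal (𝓞 K))) x *
        (om (io K x) * ((Pool.Agent.MP_058a58_ag.Ch.Fs K (ww K) s x : ℝ) : ℂ))) l := by
    intro C
    have hQ : 1 ≤ M * Ideal.absNorm (rep C : Ideal (𝓞 K)) :=
      Nat.mul_pos h.pos (absNorm_pos' (rep C))
    obtain ⟨κ, z, h0, h1, h2⟩ := hk _ hQ
    exact per_omega hom hQ (gC ψ om (rep C : Ideal (𝓞 K))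
      (M * Ideal.absNorm (rep C : Ideal (𝓞 K)))) (fun x => norm_gC_le h _ hQ x)
      (fun x y => gC_per h (rep_ne_bot C) x y) (fun e x => gC_unit h _ _ e x) κ h0 z h1 h2
  choose l hl using hlip
  have h1 : ∀ C : ClassGroup (𝓞 K), LipAt (fun s =>
      (((Ideal.absNorm (rep C : Ideal (𝓞 K)) : ℝ) ^ s : ℝ) : ℂ) *
      (∑' x : 𝓞 K, gC ψ om (rep C : Ideal (𝓞 K)) (M * Ideal.absNorm (rep C : Ideal (𝓞 K))) x *
        (om (io K x) * ((Pool.Agent.MP_058a58_ag.Ch.Fs K (ww K) s x : ℝ) : ℂ)))) _ :=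
    fun C => (LipAt.rpow (by exact_mod_cast absNorm_pos' (rep C))).mul (hl C)
  refine ⟨_, (LipAt.sum Finset.univ fun C _ => h1 C).congr fun s hs => ?_⟩
  rw [LI_eq (WOK_ww K) h.norm_le hs]
  refine Finset.sum_congr rfl fun C _ => ?_
  congr 1
  exact tsum_congr fun x => psiI_eq h _ _ (by linarith) x

end Pool.Agent.Lib.MP_058a58_ag.HK
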