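import Mathlib
import Pool.Agent.Lib.MP_058a58_ag.HK.StmW2

/-!
# [IND] the trace of an induced representation as a sum over embeddings
-/

open Polynomial Filter Topology NumberField

namespace TatePole.HK

open TatePole

section
variable {E F : Type} [Field E] [NumberField E] [Field F] [NumberField F]

lemma smul_comp_emb (g : GQ) (ψ : F →ₐ[ℚ] QBar) (i : E →ₐ[ℚ] F) :
    (g • ψ).comp i = g • (ψ.comp i) := rfl

/-- a class function, extended by zero, is invariant under conjugation by elements of `GF e` -/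
lemma extG_cls {e : F →ₐ[ℚ] QBar} {f : GF e → ℂ} (hf : ∀ x g : GF e, f (x⁻¹ * g * x) = f g)
    {h : GQ} (hh : h ∈ GF e) (g : GQ) : extG e f (h⁻¹ * g * h) = extG e f g := by
  unfold extG
  by_cases hg : g ∈ GF e
  · have h1 : h⁻¹ * g * h ∈ GF e := (GF e).mul_mem ((GF e).mul_mem ((GF e).inv_mem hh) hg) hh
    rw [dif_pos h1, dif_pos hg]
    exact hf ⟨h, hh⟩ ⟨g, hg⟩
  · rw [dif_neg hg, dif_neg]
    intro h2
    apply hg
    have h3 := (GF e).mul_mem ((GF e).mul_mem hh h2) ((GF e).inv_mem hh)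
    have h4 : h * (h⁻¹ * g * h) * h⁻¹ = g := by group
    rwa [h4] at h3

lemma comap_intMap_smul (g : GQ) (ψ : F →ₐ[ℚ] QBar) (𝔔 : Ideal ZBar) :
    (𝔔.comap (MulSemiringAction.toRingHom GQ ZBar g)).comap (intMap ψ) =
      𝔔.comap (intMap (g • ψ)) := by
  rw [Ideal.comap_comap]
  congr 1
  ext y
  show (((g • intMap ψ y : ZBar)) : QBar) = ((intMap (g • ψ) y : ZBar) : QBar)
  rw [coe_smul_ZBar, coe_intMap, coe_intMap]
  rfl

end

theorem ind : S_IND := by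
  classical
  intro E F _ _ _ _ i e₀ e he x hx f hf Ψ s x₀ 𝔔
  have hle : GF e ≤ GF e₀ := by
    intro g hg
    rw [mem_GF] at hg ⊢
    rw [← he, ← smul_comp_emb, hg]
  -- the map from cosets to embeddings
  let m : (GF e₀ ⧸ (GF e).subgroupOf (GF e₀)) → (F →ₐ[ℚ] QBar) :=
    fun y => x₀ • (y.out : GQ) • e
  have hm : ∀ y, (m y).comp i = x₀ • e₀ := by
    intro y
    show (x₀ • (y.out : GQ) • e).comp i = x₀ • e₀
    rw [smul_comp_emb, smul_comp_emb, he, mem_GF.mp y.out.2]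
  have hinj : Function.Injective m := by
    intro y y' h
    have h1 : (y.out : GQ) • e = (y'.out : GQ) • e := smul_left_cancel x₀ h
    rw [← y.out_eq', ← y'.out_eq', QuotientGroup.eq, Subgroup.mem_subgroupOf, mem_GF]
    push_cast
    rw [mul_smul, ← h1, inv_smul_smul]
  have hsurj : ∀ ψ : F →ₐ[ℚ] QBar, ψ.comp i = x₀ • e₀ → ∃ y, m y = ψ := by
    intro ψ hψ
    have h1 : x₀⁻¹ * x ψ ∈ GF e₀ := by
      rw [mem_GF, mul_smul, ← he, ← smul_comp_emb, hx, hψ, inv_smul_smul, he]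
    refine ⟨((⟨x₀⁻¹ * x ψ, h1⟩ : GF e₀) : GF e₀ ⧸ (GF e).subgroupOf (GF e₀)), ?_⟩
    obtain ⟨z, hz⟩ := QuotientGroup.mk_out_eq_mul ((GF e).subgroupOf (GF e₀))
      (⟨x₀⁻¹ * x ψ, h1⟩ : GF e₀)
    show x₀ • ((((⟨x₀⁻¹ * x ψ, h1⟩ : GF e₀) : GF e₀ ⧸ (GF e).subgroupOf (GF e₀)).out : GF e₀) : GQ)
      • e = ψ
    rw [hz]
    have h2 : (z : GF e₀).1 ∈ GF e := z.2
    rw [Subgroup.coe_mul, mul_smul, mem_GF.mp h2, mul_smul, smul_inv_smul, hx]
  have : Finite (GF e₀ ⧸ (GF e).subgroupOf (GF e₀)) := Finite.of_injective m hinj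
  have := Fintype.ofFinite (GF e₀ ⧸ (GF e).subgroupOf (GF e₀))
  unfold indTr zI
  rw [finsum_eq_sum_of_fintype]
  rw [← Finset.sum_filter]
  refine Finset.sum_bij (fun y _ => m y) ?_ ?_ ?_ ?_
  · intro y _
    rw [Finset.mem_filter]
    exact ⟨Finset.mem_univ _, hm y⟩
  · intro y _ y' _ h
    exact hinj h
  · intro ψ hψ
    obtain ⟨y, hy⟩ := hsurj ψ (Finset.mem_filter.mp hψ).2
    exact ⟨y, Finset.mem_univ _, hy⟩
  · intro y _
    unfold zz
    have h1 : (x (m y))⁻¹ * (x₀ * (y.out : GQ)) ∈ GF e := by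
      rw [mem_GF, mul_smul, mul_smul, inv_smul_eq_iff, hx]
    have h2 : (y.out : GQ)⁻¹ * (x₀⁻¹ * s * x₀) * (y.out : GQ) =
        ((x (m y))⁻¹ * (x₀ * (y.out : GQ)))⁻¹ * ((x (m y))⁻¹ * s * x (m y)) *
          ((x (m y))⁻¹ * (x₀ * (y.out : GQ))) := by group
    rw [h2, extG_cls hf h1, comap_intMap_smul]

end TatePole.HK
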