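import Pool.Agent.Lib.MP_058a58_ag.HK.Ideal

set_option autoImplicit false

/-!
# A Hecke character of infinite order has an infinity type which is not trivial on `1 + Q 𝓞`
-/

namespace Pool.Agent.Lib.MP_058a58_ag.HK

open NumberField Filter Topology nonZeroDivisors
open NumberField.mixedEmbedding
open Pool.Agent.MP_058a58_ag.Ch (io OmegaOK io_add io_nat_mul)

variable {K : Type*} [Field K] [NumberField K]
variable {M : ℕ} {ψ : Ideal (𝓞 K) → ℂ} {om : mixedEmbedding.mixedSpace K → ℂ}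

/-- the absolute values of a nonzero element are bounded below -/
lemma exists_normAtPlace_ge {b : 𝓞 K} (hb : b ≠ 0) :
    ∃ m : ℝ, 0 < m ∧ ∀ w : InfinitePlace K, m ≤ normAtPlace w (io K b) := by
  classical
  have hpos : ∀ w : InfinitePlace K, 0 < normAtPlace w (io K b) := by
    intro w
    unfold io
    rw [normAtPlace_apply]
    exact InfinitePlace.pos_iff.2 (RingOfIntegers.coe_ne_zero_iff.2 hb)
  obtain ⟨w0, -, hw0⟩ := Finset.exists_min_image (Finset.univ : Finset (InfinitePlace K))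
    (fun w => normAtPlace w (io K b)) Finset.univ_nonempty
  exact ⟨_, hpos w0, fun w => hw0 w (Finset.mem_univ w)⟩

open scoped Classical in
/-- the infinity type is slowly varying -/
lemma om_tendsto (hom : OmegaOK K om) {b : 𝓞 K} (hb : b ≠ 0) {Q : ℕ} (hQ : 1 ≤ Q) :
    Tendsto (fun N : ℕ => om (io K (((Q * N : ℕ) : 𝓞 K) * b + 1)) -
      om (io K (((Q * N : ℕ) : 𝓞 K) * b))) atTop (𝓝 0) := by
  obtain ⟨C, hC, hlip⟩ := hom.lip
  obtain ⟨m, hm, hmw⟩ := exists_normAtPlace_ge hb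
  have hbound : Tendsto (fun N : ℕ => (C * ‖io K 1‖ / m) / (N : ℝ)) atTop (𝓝 0) :=
    tendsto_const_div_atTop_nhds_zero_nat _
  have hlarge : ∀ᶠ N : ℕ in atTop, 2 * ‖io K 1‖ / m ≤ (N : ℝ) :=
    tendsto_natCast_atTop_atTop.eventually (eventually_ge_atTop _)
  refine squeeze_zero_norm' ?_ hbound
  filter_upwards [hlarge, eventually_ge_atTop 1] with N hN hN1
  have hN0 : (0 : ℝ) < N := by exact_mod_cast hN1
  have hQN : (N : ℝ) ≤ ((Q * N : ℕ) : ℝ) := by exact_mod_cast Nat.le_mul_of_pos_left N hQ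
  have ha : 0 < (N : ℝ) * m := mul_pos hN0 hm
  have h1 : ∀ w : InfinitePlace K, (N : ℝ) * m ≤
      normAtPlace w (io K (((Q * N : ℕ) : 𝓞 K) * b)) := by
    intro w
    rw [io_nat_mul, normAtPlace_smul, abs_of_nonneg (Nat.cast_nonneg _)]
    exact mul_le_mul hQN (hmw w) hm.le (Nat.cast_nonneg _)
  have h2 : 2 * ‖io K 1‖ ≤ (N : ℝ) * m := by
    rw [div_le_iff₀ hm] at hN
    exact hN
  have h3 := hlip (io K (((Q * N : ℕ) : 𝓞 K) * b)) (io K 1) _ ha h1 h2
  rw [← io_add] at h3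
  refine h3.trans (le_of_eq ?_)
  field_simp

/-- If the infinity type is trivial on `1 + Q 𝓞`, it is trivial. -/
lemma om_eq_one (hom : OmegaOK K om) {Q : ℕ} (hQ : 1 ≤ Q)
    (h : ∀ κ z : 𝓞 K, κ ≠ 0 → κ = 1 + (Q : 𝓞 K) * z → om (io K κ) = 1) {b : 𝓞 K} (hb : b ≠ 0) :
    om (io K b) = 1 := by
  have hkey : ∀ c : 𝓞 K, c ≠ 0 →
      Tendsto (fun N : ℕ => om (io K ((Q * N : ℕ) : 𝓞 K)) * om (io K c)) atTop (𝓝 1) := by
    intro c hc
    have h1 := (om_tendsto hom hc hQ).const_sub 1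
    rw [sub_zero] at h1
    refine h1.congr' ?_
    have hne : ∀ᶠ N : ℕ in atTop, ((Q * N : ℕ) : 𝓞 K) * c + 1 ≠ 0 := by
      by_cases h0 : ∃ N0 : ℕ, ((Q * N0 : ℕ) : 𝓞 K) * c + 1 = 0
      · obtain ⟨N0, hN0⟩ := h0
        filter_upwards [eventually_gt_atTop N0] with N hN h4
        have h5 : (((Q * N : ℕ) : 𝓞 K) - ((Q * N0 : ℕ) : 𝓞 K)) * c = 0 := by
          linear_combination h4 - hN0
        rcases mul_eq_zero.1 h5 with h6 | h6
        · have h7 : Q * N = Q * N0 := by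
            have := sub_eq_zero.1 h6
            exact_mod_cast this
          have h8 := Nat.eq_of_mul_eq_mul_left hQ h7
          omega
        · exact hc h6
      · push Not at h0
        exact Eventually.of_forall h0
    filter_upwards [hne, eventually_ge_atTop 1] with N hN hN1
    have h2 : om (io K (((Q * N : ℕ) : 𝓞 K) * c + 1)) = 1 := by
      refine h _ ((N : 𝓞 K) * c) hN ?_
      push_cast
      ring
    have hQN : ((Q * N : ℕ) : 𝓞 K) ≠ 0 := by
      have : Q * N ≠ 0 := Nat.mul_ne_zero (by omega) (by omega)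
      exact_mod_cast this
    rw [h2, hom.mul _ _ hQN hc]
    ring
  have h1 := hkey b hb
  have h2 := hkey 1 one_ne_zero
  have h3 : om (io K (1 : 𝓞 K)) = 1 := h 1 0 one_ne_zero (by ring)
  rw [h3] at h2
  simp only [mul_one] at h2
  have h4 := h2.mul_const (om (io K b))
  rw [one_mul] at h4
  exact tendsto_nhds_unique h4 h1

lemma psi_pow (h : IsHecke K M ψ om) (I : Ideal (𝓞 K)) (j : ℕ) : ψ (I ^ j) = ψ I ^ j := by
  induction j with
  | zero => rw [pow_zero, pow_zero, Ideal.one_eq_top]; exact h.one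
  | succ j ih => rw [pow_succ, pow_succ, h.mul, ih]

/-- **A Hecke character of infinite order is not trivial on the principal ideals generated by
`1 + Q 𝓞`.** -/
theorem kappa_exists (h : IsHecke K M ψ om) (hom : OmegaOK K om)
    (hinf : ∀ k : ℕ, 1 ≤ k → ∃ I : Ideal (𝓞 K), ψ I ≠ 0 ∧ ψ I ^ k ≠ 1) :
    ∀ Q : ℕ, 1 ≤ Q → ∃ κ z : 𝓞 K, κ ≠ 0 ∧ κ = 1 + (Q : 𝓞 K) * z ∧ om (io K κ) ≠ 1 := by
  classical
  intro Q hQ
  by_contra hcon
  push Not at hcon
  have hone : ∀ b : 𝓞 K, b ≠ 0 → om (io K b) = 1 := fun b hb => om_eq_one hom hQ hcon hb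
  have hM0 : (Ideal.span {(M : 𝓞 K)}) ≠ ⊥ := by
    rw [Ne, Ideal.span_singleton_eq_bot]
    have := h.pos
    exact_mod_cast (by omega : M ≠ 0)
  have : Finite (𝓞 K ⧸ Ideal.span {(M : 𝓞 K)}) := Ideal.finiteQuotientOfFreeOfNeBot _ hM0
  have : Finite (𝓞 K ⧸ Ideal.span {(M : 𝓞 K)})ˣ := inferInstance
  set e := Nat.card (𝓞 K ⧸ Ideal.span {(M : 𝓞 K)})ˣ with he
  have he1 : 1 ≤ e := Nat.card_pos
  set hh := Fintype.card (ClassGroup (𝓞 K)) with hhh
  have hh1 : 1 ≤ hh := Fintype.card_pos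
  obtain ⟨I, hI0, hI1⟩ := hinf (hh * e) (Nat.mul_pos hh1 he1)
  apply hI1
  have hcop : IsCoprime I (Ideal.span {(M : 𝓞 K)}) := by
    by_contra hc
    exact hI0 (h.zero I hc)
  by_cases hbot : I = ⊥
  · subst hbot
    have h1 := h.mul ⊥ ⊥
    rw [Ideal.bot_mul] at h1
    have h3 : ψ (⊥ : Ideal (𝓞 K)) = 1 := by
      have h4 : ψ (⊥ : Ideal (𝓞 K)) * (ψ ⊥ - 1) = 0 := by linear_combination -h1
      rcases mul_eq_zero.1 h4 with h4 | h4
      · exact absurd h4 hI0
      · exact sub_eq_zero.1 h4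
    rw [h3, one_pow]
  -- the power of `I` is principal
  have hIn : I ∈ (Ideal (𝓞 K))⁰ := mem_nonZeroDivisors_of_ne_zero hbot
  have hprin : (I ^ hh).IsPrincipal := by
    have h1 : (ClassGroup.mk0 ⟨I, hIn⟩) ^ hh = 1 := pow_card_eq_one
    rw [← map_pow, ClassGroup.mk0_eq_one_iff] at h1
    simpa using h1
  obtain ⟨a, ha⟩ := hprin
  rw [Ideal.submodule_span_eq] at ha
  have ha0 : a ≠ 0 := by
    rintro rfl
    rw [Ideal.span_singleton_eq_bot.2 rfl] at ha
    exact hbot (pow_eq_zero_iff (by omega : hh ≠ 0) |>.1 ha)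
  -- `a` is a unit modulo `M`
  have hcop2 : IsCoprime (Ideal.span {a}) (Ideal.span {(M : 𝓞 K)}) := by
    rw [← ha]
    exact hcop.pow_left
  have hunit : IsUnit (Ideal.Quotient.mk (Ideal.span {(M : 𝓞 K)}) a) := by
    rw [Ideal.isCoprime_iff_exists] at hcop2
    obtain ⟨i, hi, j, hj, hij⟩ := hcop2
    obtain ⟨c, rfl⟩ := Ideal.mem_span_singleton.1 hi
    refine IsUnit.of_mul_eq_one (Ideal.Quotient.mk _ c) ?_
    rw [← map_mul, ← map_one (Ideal.Quotient.mk _), Ideal.Quotient.eq]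
    have : a * c - 1 = -j := by linear_combination hij
    rw [this]
    exact neg_mem hj
  obtain ⟨u, hu⟩ := hunit
  have hpow : (M : 𝓞 K) ∣ a ^ e - 1 := by
    have h1 : u ^ e = 1 := by
      rw [he]
      exact pow_card_eq_one'
    have h2 : Ideal.Quotient.mk (Ideal.span {(M : 𝓞 K)}) (a ^ e) = Ideal.Quotient.mk _ 1 := by
      rw [map_pow, ← hu, ← Units.val_pow_eq_pow_val, h1, Units.val_one, map_one]
    rw [Ideal.Quotient.eq] at h2
    exact Ideal.mem_span_singleton.1 h2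
  have h5 := h.prin (a ^ e) (pow_ne_zero _ ha0) hpow
  rw [hone _ (pow_ne_zero _ ha0), ← Ideal.span_singleton_pow, ← ha, ← pow_mul, psi_pow h] at h5
  exact h5

end Pool.Agent.Lib.MP_058a58_ag.HK
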