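import Pool.Agent.Lib.MP_058a58_ag.HK.Dir

set_option autoImplicit false

/-!
# Products, conjugates and powers of Hecke characters
-/

namespace Pool.Agent.Lib.MP_058a58_ag.HK

open NumberField Filter Topology nonZeroDivisors
open Pool.Agent.MP_058a58_ag.Ch (io)

variable {K : Type*} [Field K] [NumberField K]
variable {M M' : ℕ} {ψ ψ' : Ideal (𝓞 K) → ℂ} {om om' : mixedEmbedding.mixedSpace K → ℂ}

omit [NumberField K] in
/-- the conjugate of a Hecke character -/
theorem IsHecke.conj (h : IsHecke K M ψ om) :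
    IsHecke K M (fun I => (starRingEnd ℂ) (ψ I)) (fun x => (starRingEnd ℂ) (om x)) where
  pos := h.pos
  one := by rw [h.one, map_one]
  mul I J := by rw [h.mul, map_mul]
  norm I h0 hI := by rw [RCLike.norm_conj, h.norm I h0 hI]
  zero I hI := by rw [h.zero I hI, map_zero]
  om_norm x hx := by rw [RCLike.norm_conj, h.om_norm x hx]
  om_mul x y hx hy := by rw [h.om_mul x y hx hy, map_mul]
  prin a ha0 ha := by rw [h.prin a ha0 ha]

omit [NumberField K] in
/-- the product of two Hecke characters -/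
theorem IsHecke.mul' (h : IsHecke K M ψ om) (h' : IsHecke K M' ψ' om') :
    IsHecke K (M * M') (fun I => ψ I * ψ' I) (fun x => om x * om' x) where
  pos := Nat.mul_pos h.pos h'.pos
  one := by rw [h.one, h'.one, one_mul]
  mul I J := by
    rw [h.mul, h'.mul]
    ring
  norm I h0 hI := by
    rw [isCoprime_natCast_mul] at hI
    rw [norm_mul, h.norm I h0 hI.1, h'.norm I h0 hI.2, one_mul]
  zero I hI := by
    by_cases h1 : IsCoprime I (Ideal.span {(M : 𝓞 K)})
    · have h2 : ¬ IsCoprime I (Ideal.span {(M' : 𝓞 K)}) := fun hc =>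
        hI (isCoprime_natCast_mul.2 ⟨h1, hc⟩)
      rw [h'.zero I h2, mul_zero]
    · rw [h.zero I h1, zero_mul]
  om_norm x hx := by rw [norm_mul, h.om_norm x hx, h'.om_norm x hx, one_mul]
  om_mul x y hx hy := by
    rw [h.om_mul x y hx hy, h'.om_mul x y hx hy]
    ring
  prin a ha0 ha := by
    have h1 : (M : 𝓞 K) ∣ a - 1 := (Dvd.intro (M' : 𝓞 K) (by push_cast; rfl)).trans ha
    have h2 : (M' : 𝓞 K) ∣ a - 1 := (Dvd.intro_left (M : 𝓞 K) (by push_cast; rfl)).trans ha
    rw [h.prin a ha0 h1, h'.prin a ha0 h2]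

/-- the ratio of two Hecke characters -/
theorem IsHecke.ratio (h : IsHecke K M ψ om) (h' : IsHecke K M' ψ' om') :
    IsHecke K (M * M') (fun I => ψ I * (starRingEnd ℂ) (ψ' I))
      (fun x => om x * (starRingEnd ℂ) (om' x)) :=
  h.mul' h'.conj

omit [NumberField K] in
/-- powers of a Hecke character -/
theorem IsHecke.pow (h : IsHecke K M ψ om) {n : ℕ} (hn : n ≠ 0) :
    IsHecke K M (fun I => ψ I ^ n) (fun x => om x ^ n) where
  pos := h.pos
  one := by rw [h.one, one_pow]
  mul I J := by rw [h.mul, mul_pow]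
  norm I h0 hI := by rw [norm_pow, h.norm I h0 hI, one_pow]
  zero I hI := by rw [h.zero I hI, zero_pow hn]
  om_norm x hx := by rw [norm_pow, h.om_norm x hx, one_pow]
  om_mul x y hx hy := by rw [h.om_mul x y hx hy, mul_pow]
  prin a ha0 ha := by rw [h.prin a ha0 ha]

end Pool.Agent.Lib.MP_058a58_ag.HK
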