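import Pool.Agent.Lib.MP_058a58_ag.HK.Kappa
import Pool.Agent.Lib.MP_058a58_ag.HK.Euler
import Pool.Agent.Lib.MP_058a58_ag.HK.Ops
import Pool.Agent.Lib.MP_058a58_ag.AT.LatW3
import Pool.Agent.Lib.MP_058a58_ag.AT.Trick3

set_option autoImplicit false

/-!
# The prime sum of a Hecke character of infinite order is bounded

The Dirichlet series of a Hecke character of infinite order does not vanish at `s = 1`.
-/

namespace Pool.Agent.Lib.MP_058a58_ag.HK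

open NumberField Filter Topology nonZeroDivisors TatePole.Ded Asymptotics
open Pool.Agent.Lib.MP_058a58_ag.Ch (SC SC_one_le summable_SC tendsto_log_inv three_four_one)
open Pool.Agent.MP_058a58_ag.Ch (io LipAt OmegaOK)

variable {K : Type*} [Field K] [NumberField K]
variable {M : ℕ} {ψ : Ideal (𝓞 K) → ℂ} {om : mixedEmbedding.mixedSpace K → ℂ}

/-- the inequality `3 + 4 cos + cos 2 ≥ 0` for the sums over the ideals of a given norm -/
lemma AI_three_four_one (hc : ∀ I, ‖ψ I‖ ≤ 1) (n : ℕ) :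
    0 ≤ 3 * A K n + 4 * (AI K ψ n).re + (AI K (fun I => ψ I ^ 2) n).re := by
  have h1 : A K n = ∑ I ∈ (Ideal.finite_setOfPred_absNorm_eq (S := 𝓞 K) n).toFinset, (1 : ℝ) := by
    rw [card_eq_A K (Ideal.finite_setOfPred_absNorm_eq (S := 𝓞 K) n).toFinset fun I => mem_AI]
    simp
  unfold AI
  rw [h1, Complex.re_sum, Complex.re_sum, Finset.mul_sum, Finset.mul_sum,
    ← Finset.sum_add_distrib, ← Finset.sum_add_distrib]
  refine Finset.sum_nonneg fun I _ => ?_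
  have h2 := three_four_one (hc I)
  linarith

lemma SI_three_four_one (hc : ∀ I, ‖ψ I‖ ≤ 1) {s : ℝ} (hs : 1 < s) :
    0 ≤ 3 * SC K (fun _ => 1) s + 4 * SI K ψ s + SI K (fun I => ψ I ^ 2) s := by
  have hc2 : ∀ I, ‖ψ I ^ 2‖ ≤ 1 := fun I => by
    rw [norm_pow]
    exact pow_le_one₀ (norm_nonneg _) (hc I)
  have h1 := summable_SC (K := K) (c := fun _ => 1) (fun _ => by simp) hs
  have h2 := summable_SI (K := K) hc hs
  have h3 := summable_SI (K := K) hc2 hs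
  unfold SC SI
  rw [← tsum_mul_left, ← tsum_mul_left, ← (h1.mul_left 3).tsum_add (h2.mul_left 4),
    ← ((h1.mul_left 3).add (h2.mul_left 4)).tsum_add h3]
  refine tsum_nonneg fun p => ?_
  have h4 := AI_three_four_one (K := K) hc (p : ℕ)
  have h5 : (0 : ℝ) ≤ (p : ℝ) ^ (-s) := Real.rpow_nonneg (Nat.cast_nonneg _) _
  have h6 := mul_nonneg h4 h5
  simp only [Complex.one_re]
  linarith

/-- a bounded Dirichlet series gives an upper bound for the prime sum -/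
lemma SI_le_of_norm_le (h1 : ψ ⊤ = 1) (hm : ∀ I J, ψ (I * J) = ψ I * ψ J)
    (hc : ∀ I, ‖ψ I‖ ≤ 1) {s B : ℝ} (hs : 1 < s) (h : ‖LI K ψ s‖ ≤ B) :
    SI K ψ s ≤ Real.log B + 2 * cc K := by
  obtain ⟨h0, h2⟩ := log_LI (K := K) h1 hm hc hs
  have h3 := Real.log_le_log (norm_pos_iff.mpr h0) h
  have h4 := (abs_le.mp h2).1
  linarith

/-- **the limit is not zero**, if the Dirichlet series of the square has a finite limit -/
theorem LI_ne (h : IsHecke K M ψ om) {l l2 : ℂ} (hl : LipAt (LI K ψ) l)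
    (hl2 : LipAt (LI K (fun I => ψ I ^ 2)) l2) : l ≠ 0 := by
  rintro rfl
  have h2' := h.pow (n := 2) two_ne_zero
  obtain ⟨C, hC0, hC⟩ := IsBigO.exists_pos hl
  rw [isBigOWith_iff] at hC
  have h2 : ∀ᶠ s in 𝓝[>] (1 : ℝ), ‖LI K (fun I => ψ I ^ 2) s‖ < ‖l2‖ + 1 :=
    hl2.tendsto.norm.eventually (gt_mem_nhds (by linarith))
  obtain ⟨B, hB⟩ := SC_one_le K
  have hbig := tendsto_log_inv.eventually (eventually_gt_atTop
    (3 * B + 4 * (Real.log C + 2 * cc K) + (Real.log (‖l2‖ + 1) + 2 * cc K)))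
  have hself : ∀ᶠ s in 𝓝[>] (1 : ℝ), s ∈ Set.Ioi (1 : ℝ) := self_mem_nhdsWithin
  obtain ⟨s, hs, hC, h2, hB, hbig⟩ :=
    (hself.and (hC.and (h2.and (hB.and hbig)))).exists
  have hs1 : (1 : ℝ) < s := hs
  have hs0 : 0 < s - 1 := by linarith
  have e1 := SI_three_four_one (K := K) h.norm_le hs1
  have e2 := SI_le_of_norm_le (K := K) h2'.one h2'.mul h2'.norm_le hs1 h2.le
  rw [sub_zero, Real.norm_of_nonneg hs0.le] at hC
  have e3 := SI_le_of_norm_le (K := K) h.one h.mul h.norm_le hs1 hC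
  rw [Real.log_mul hC0.ne' hs0.ne'] at e3
  have e4 : Real.log (1 / (s - 1)) = -Real.log (s - 1) := by
    rw [one_div, Real.log_inv]
  rw [e4] at hB hbig
  linarith

/-- the Dirichlet series of a Hecke character of infinite order has a finite limit at `1`, which is
not zero -/
theorem LI_lip_ne (h : IsHecke K M ψ om) (hom : OmegaOK K om)
    (hinf : ∀ k : ℕ, 1 ≤ k → ∃ I : Ideal (𝓞 K), ψ I ≠ 0 ∧ ψ I ^ k ≠ 1) :
    ∃ l, LipAt (LI K ψ) l ∧ l ≠ 0 := by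
  obtain ⟨l, hl⟩ := LI_lip h hom (kappa_exists h hom hinf)
  have hinf2 : ∀ k : ℕ, 1 ≤ k → ∃ I : Ideal (𝓞 K), ψ I ^ 2 ≠ 0 ∧ (ψ I ^ 2) ^ k ≠ 1 := by
    intro k hk
    obtain ⟨I, h1, h2⟩ := hinf (2 * k) (by omega)
    exact ⟨I, pow_ne_zero _ h1, by rwa [← pow_mul]⟩
  obtain ⟨l2, hl2⟩ := LI_lip (h.pow (n := 2) two_ne_zero) (hom.pow 2)
    (kappa_exists (h.pow (n := 2) two_ne_zero) (hom.pow 2) hinf2)
  exact ⟨l, hl, LI_ne h hl hl2⟩

/-- **the prime sum of a Hecke character of infinite order is bounded near `1`** -/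
theorem SI_bdd (h : IsHecke K M ψ om) (hom : OmegaOK K om)
    (hinf : ∀ k : ℕ, 1 ≤ k → ∃ I : Ideal (𝓞 K), ψ I ≠ 0 ∧ ψ I ^ k ≠ 1) :
    ∃ B : ℝ, ∀ᶠ s in 𝓝[>] (1 : ℝ), |SI K ψ s| ≤ B := by
  obtain ⟨l, hl, hl0⟩ := LI_lip_ne h hom hinf
  have hne : ‖l‖ ≠ 0 := norm_ne_zero_iff.mpr hl0
  have h1 : Tendsto (fun s => |Real.log ‖LI K ψ s‖|) (𝓝[>] (1 : ℝ)) (𝓝 |Real.log ‖l‖|) :=
    ((Real.continuousAt_log hne).tendsto.comp hl.tendsto.norm).abs
  have h2 : ∀ᶠ s in 𝓝[>] (1 : ℝ), |Real.log ‖LI K ψ s‖| < |Real.log ‖l‖| + 1 :=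
    h1.eventually (gt_mem_nhds (by linarith))
  refine ⟨|Real.log ‖l‖| + 1 + 2 * cc K, ?_⟩
  filter_upwards [h2, self_mem_nhdsWithin] with s h2 hs
  have h3 := (log_LI (K := K) h.one h.mul h.norm_le hs).2
  rw [abs_le] at h3 ⊢
  have h4 := abs_lt.mp h2
  constructor <;> linarith [h3.1, h3.2, h4.1, h4.2]

/-- the mean value of a Hecke character of infinite order over the primes of degree one is zero -/
theorem hecke_mean (h : IsHecke K M ψ om) (hom : OmegaOK K om)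
    (hinf : ∀ k : ℕ, 1 ≤ k → ∃ I : Ideal (𝓞 K), ψ I ≠ 0 ∧ ψ I ^ k ≠ 1) :
    TatePole.HasMean (fun p => (AI K ψ p).re) 0 := by
  obtain ⟨B, hB⟩ := SI_bdd h hom hinf
  refine ⟨B, hB.mono fun s hs => ?_⟩
  rw [zero_mul, sub_zero]
  exact hs

/-- the same in the form of a density -/
theorem hecke_dens (h : IsHecke K M ψ om) (hom : OmegaOK K om)
    (hinf : ∀ k : ℕ, 1 ≤ k → ∃ I : Ideal (𝓞 K), ψ I ≠ 0 ∧ ψ I ^ k ≠ 1) :
    TatePole.AT.HasDens (fun p => (AI K ψ p).re) 0 :=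
  TatePole.AT.HasMean.dens (hecke_mean h hom hinf)

end Pool.Agent.Lib.MP_058a58_ag.HK
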