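import Pool.Agent.Lib.MP_058a58_ag.HK.Defs

set_option autoImplicit false

/-!
# The composition of a Hecke character with the relative norm
-/

namespace Pool.Agent.Lib.MP_058a58_ag.HK

open NumberField Filter Topology nonZeroDivisors
open Pool.Agent.MP_058a58_ag.Ch (io)

section

variable {K L : Type*} [Field K] [NumberField K] [Field L] [NumberField L] [Algebra K L]

lemma prod_one_add {E ι : Type*} [Field E] (s : Finset ι) (M : ℕ) (t : ι → E)
    (ht : ∀ i, IsIntegral ℤ (t i)) :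
    ∃ c : E, IsIntegral ℤ c ∧ ∏ i ∈ s, (1 + (M : E) * t i) = 1 + (M : E) * c := by
  classical
  induction s using Finset.induction_on with
  | empty => exact ⟨0, isIntegral_zero, by simp⟩
  | insert i s his ih =>
    obtain ⟨c, hc, hp⟩ := ih
    rw [Finset.prod_insert his, hp]
    refine ⟨t i + c + (M : E) * (t i * c), ?_, by ring⟩
    have hM : IsIntegral ℤ (M : E) := by
      have := isIntegral_algebraMap (R := ℤ) (A := E) (x := (M : ℤ))
      simpa using this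
    exact ((ht i).add hc).add (hM.mul ((ht i).mul hc))

/-- the relative norm of an element congruent to one modulo `M` is congruent to one modulo `M` -/
lemma intNorm_congr (M : ℕ) {a : 𝓞 L} (ha : (M : 𝓞 L) ∣ a - 1) :
    (M : 𝓞 K) ∣ Algebra.intNorm (𝓞 K) (𝓞 L) a - 1 := by
  obtain ⟨b, hb⟩ := ha
  rcases Nat.eq_zero_or_pos M with rfl | hM
  · have h1 : a = 1 := by
      have h2 : a - 1 = 0 := by rw [hb]; simp
      exact sub_eq_zero.mp h2
    rw [h1, map_one, sub_self]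
    exact dvd_zero _
  set E := AlgebraicClosure K
  have hn := Algebra.norm_eq_prod_embeddings K E ((a : 𝓞 L) : L)
  have ha' : ((a : 𝓞 L) : L) = 1 + (M : L) * ((b : 𝓞 L) : L) := by
    have h1 : a = 1 + (M : 𝓞 L) * b := by
      rw [← hb]; ring
    rw [h1]
    push_cast
    ring
  obtain ⟨c, hc, hp⟩ := prod_one_add (E := E) (Finset.univ : Finset (L →ₐ[K] E)) M
    (fun σ => σ ((b : 𝓞 L) : L))
    (fun σ => (RingOfIntegers.isIntegral_coe b).map (σ.toRingHom.toIntAlgHom))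
  have h2 : algebraMap K E (Algebra.norm K ((a : 𝓞 L) : L)) = 1 + (M : E) * c := by
    rw [hn, ← hp]
    refine Finset.prod_congr rfl fun σ _ => ?_
    rw [ha']
    simp
  have hM0 : (M : K) ≠ 0 := by exact_mod_cast hM.ne'
  have hME : (M : E) ≠ 0 := by exact_mod_cast hM.ne'
  set d : K := (Algebra.norm K ((a : 𝓞 L) : L) - 1) / M with hd
  have h3 : algebraMap K E d = c := by
    rw [hd, map_div₀, map_sub, h2, map_one, map_natCast, add_sub_cancel_left,
      mul_div_cancel_left₀ _ hME]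
  have h4 : IsIntegral ℤ d := by
    rw [← h3] at hc
    exact (isIntegral_algebraMap_iff (algebraMap K E).injective).mp hc
  obtain ⟨e, he⟩ : ∃ e : 𝓞 K, algebraMap (𝓞 K) K e = d := ⟨⟨d, h4⟩, rfl⟩
  refine ⟨e, ?_⟩
  apply RingOfIntegers.coe_injective
  have h5 := Algebra.algebraMap_intNorm (A := 𝓞 K) (K := K) (L := L) (B := 𝓞 L) a
  rw [map_sub, map_mul, map_one, map_natCast, h5, he, hd, mul_div_cancel₀ _ hM0]

lemma intNorm_mem_relNorm {J : Ideal (𝓞 L)} {x : 𝓞 L} (hx : x ∈ J) :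
    Algebra.intNorm (𝓞 K) (𝓞 L) x ∈ Ideal.relNorm (𝓞 K) J := by
  rw [← Ideal.spanNorm_eq]
  exact Ideal.intNorm_mem_spanNorm (𝓞 K) hx

lemma relNorm_coprime (M : ℕ) (J : Ideal (𝓞 L)) :
    IsCoprime (Ideal.relNorm (𝓞 K) J) (Ideal.span {(M : 𝓞 K)}) ↔
      IsCoprime J (Ideal.span {(M : 𝓞 L)}) := by
  rw [Ideal.isCoprime_iff_exists, Ideal.isCoprime_iff_exists]
  constructor
  · rintro ⟨i, hi, j, hj, hij⟩
    refine ⟨algebraMap (𝓞 K) (𝓞 L) i, ?_, algebraMap (𝓞 K) (𝓞 L) j, ?_, ?_⟩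
    · exact Ideal.relNorm_le_comap (𝓞 K) J hi
    · rw [Ideal.mem_span_singleton] at hj ⊢
      have := map_dvd (algebraMap (𝓞 K) (𝓞 L)) hj
      rwa [map_natCast] at this
    · rw [← map_add, hij, map_one]
  · rintro ⟨i, hi, j, hj, hij⟩
    have h1 : (M : 𝓞 L) ∣ i - 1 := by
      rw [Ideal.mem_span_singleton] at hj
      have h2 : i - 1 = -j := by rw [← hij]; ring
      rw [h2]
      exact hj.neg_right
    obtain ⟨c, hc⟩ := intNorm_congr (K := K) M h1
    refine ⟨Algebra.intNorm (𝓞 K) (𝓞 L) i, intNorm_mem_relNorm hi, -((M : 𝓞 K) * c), ?_, ?_⟩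
    · rw [Ideal.mem_span_singleton]
      exact (dvd_mul_right _ _).neg_right
    · rw [← hc]; ring

/-- **the composition of a Hecke character with the relative norm is a Hecke character** -/
theorem IsHecke.relNorm {M : ℕ} {ψ : Ideal (𝓞 K) → ℂ}
    {om : mixedEmbedding.mixedSpace K → ℂ} {omL : mixedEmbedding.mixedSpace L → ℂ}
    (h : IsHecke K M ψ om)
    (hom : ∀ y : 𝓞 L, y ≠ 0 → omL (io L y) = om (io K (Algebra.intNorm (𝓞 K) (𝓞 L) y))) :
    IsHecke L M (fun J => ψ (Ideal.relNorm (𝓞 K) J)) omL := by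
  have hne : ∀ y : 𝓞 L, y ≠ 0 → Algebra.intNorm (𝓞 K) (𝓞 L) y ≠ 0 := fun y hy => by
    intro h0
    have h5 := Algebra.algebraMap_intNorm (A := 𝓞 K) (K := K) (L := L) (B := 𝓞 L) y
    rw [h0, map_zero] at h5
    exact hy (RingOfIntegers.coe_injective ((Algebra.norm_eq_zero_iff.mp h5.symm).trans
      (map_zero _).symm))
  refine ⟨h.pos, ?_, ?_, ?_, ?_, ?_, ?_, ?_⟩
  · rw [Ideal.relNorm_top]; exact h.one
  · intro I J
    rw [map_mul]; exact h.mul _ _
  · intro J hJ0 hJ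
    exact h.norm _ (fun h0 => hJ0 (Ideal.relNorm_eq_bot_iff.mp h0)) ((relNorm_coprime M J).mpr hJ)
  · intro J hJ
    exact h.zero _ (fun hc => hJ ((relNorm_coprime M J).mp hc))
  · intro x hx
    rw [hom x hx]
    exact h.om_norm _ (hne x hx)
  · intro x y hx hy
    rw [hom (x * y) (mul_ne_zero hx hy), hom x hx, hom y hy, map_mul]
    exact h.om_mul _ _ (hne x hx) (hne y hy)
  · intro a ha hM
    rw [Ideal.relNorm_singleton, hom a ha]
    exact h.prin _ (hne a ha) (intNorm_congr M hM)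

/-- infinite order passes to the composition with the relative norm -/
theorem infinite_relNorm {M : ℕ} {ψ : Ideal (𝓞 K) → ℂ} {om : mixedEmbedding.mixedSpace K → ℂ}
    (h : IsHecke K M ψ om)
    (hinf : ∀ k N : ℕ, 1 ≤ k → 1 ≤ N → ∃ I : Ideal (𝓞 K),
      IsCoprime I (Ideal.span {(N : 𝓞 K)}) ∧ ψ I ^ k ≠ 1) :
    ∀ k N : ℕ, 1 ≤ k → 1 ≤ N → ∃ J : Ideal (𝓞 L),
      IsCoprime J (Ideal.span {(N : 𝓞 L)}) ∧ ψ (Ideal.relNorm (𝓞 K) J) ^ k ≠ 1 := by
  intro k N hk hN
  have hfin : 0 < Module.finrank (𝓞 K) (𝓞 L) := Module.finrank_pos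
  obtain ⟨I, hI, hpow⟩ := hinf (k * Module.finrank (𝓞 K) (𝓞 L)) N
    (Nat.succ_le_of_lt (Nat.mul_pos hk hfin)) hN
  have hψ : ∀ j : ℕ, ψ (I ^ j) = ψ I ^ j := by
    intro j
    induction j with
    | zero => rw [pow_zero, pow_zero, Ideal.one_eq_top]; exact h.one
    | succ j ih => rw [pow_succ, pow_succ, h.mul, ih]
  refine ⟨I.map (algebraMap (𝓞 K) (𝓞 L)), ?_, ?_⟩
  · rw [Ideal.isCoprime_iff_exists] at hI ⊢
    obtain ⟨i, hi, j, hj, hij⟩ := hI
    refine ⟨algebraMap (𝓞 K) (𝓞 L) i, Ideal.mem_map_of_mem _ hi, algebraMap (𝓞 K) (𝓞 L) j, ?_, ?_⟩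
    · rw [Ideal.mem_span_singleton] at hj ⊢
      have := map_dvd (algebraMap (𝓞 K) (𝓞 L)) hj
      rwa [map_natCast] at this
    · rw [← map_add, hij, map_one]
  · rw [Ideal.relNorm_algebraMap, hψ, ← pow_mul, mul_comm]
    exact hpow

end

end Pool.Agent.Lib.MP_058a58_ag.HK
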