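import Mathlib
import Pool.Agent.Lib.MP_058a58_ag.HK.Stm

/-!
# The orders of the twists by Hecke characters
-/

open Polynomial Filter Topology NumberField

namespace TatePole

section
variable {F : Type*} [Field F] [NumberField F]

/-- The order of `LFunF R` at `s = 1` exists and equals `k`: the function `(s - 1)^(-k) * LFunF R s`
has a finite nonzero limit as real `s → 1+`. -/
def HasOrdF (R : Ideal (𝓞 F) → ℂ[X]) (k : ℤ) : Prop :=
  ∃ c : ℂ, c ≠ 0 ∧ Tendsto (fun s : ℝ => ((s - 1 : ℝ) : ℂ) ^ (-k) * LFunF R s) (𝓝[>] 1) (𝓝 c)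

end

namespace HK

variable {F : Type*} [Field F] [NumberField F]

lemma tendsto_logH : Tendsto (fun s : ℝ => Real.log (1 / (s - 1))) (𝓝[>] 1) atTop := by
  have h1 : Tendsto (fun s : ℝ => s - 1) (𝓝[>] 1) (𝓝[>] 0) := by
    refine tendsto_nhdsWithin_iff.mpr ⟨?_, ?_⟩
    · have : Tendsto (fun s : ℝ => s - 1) (𝓝 1) (𝓝 (1 - 1)) :=
        (continuous_id.sub continuous_const).tendsto 1
      rw [sub_self] at this
      exact this.mono_left nhdsWithin_le_nhds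
    · filter_upwards [self_mem_nhdsWithin] with s hs
      exact sub_pos.mpr (Set.mem_Ioi.mp hs)
  have h2 := tendsto_inv_nhdsGT_zero.comp h1
  have h3 := Real.tendsto_log_atTop.comp h2
  refine h3.congr fun s => ?_
  simp [Function.comp, one_div]

/-- an order determines the size of the logarithm -/
lemma ordF_log {R : Ideal (𝓞 F) → ℂ[X]} {k : ℤ} (h : HasOrdF R k) :
    Tendsto (fun s : ℝ => Real.log ‖LFunF R s‖ / Real.log (1 / (s - 1))) (𝓝[>] 1)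
      (𝓝 (-(k : ℝ))) := by
  obtain ⟨c, hc, hL⟩ := h
  have h1 : Tendsto (fun s : ℝ => Real.log ‖((s - 1 : ℝ) : ℂ) ^ (-k) * LFunF R s‖) (𝓝[>] 1)
      (𝓝 (Real.log ‖c‖)) :=
    (Real.continuousAt_log (norm_ne_zero_iff.mpr hc)).tendsto.comp hL.norm
  have h2 := (h1.div_atTop tendsto_logH).add_const (-(k : ℝ))
  rw [zero_add] at h2
  refine h2.congr' ?_
  have hne : ∀ᶠ s : ℝ in 𝓝[>] 1, ((s - 1 : ℝ) : ℂ) ^ (-k) * LFunF R s ≠ 0 := hL.eventually_ne hc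
  filter_upwards [hne, self_mem_nhdsWithin, tendsto_logH.eventually_gt_atTop 0] with s h3 hs hlog
  have hs' : (0 : ℝ) < s - 1 := sub_pos.mpr (Set.mem_Ioi.mp hs)
  have h4 : LFunF R s ≠ 0 := right_ne_zero_of_mul h3
  have h5 : ((s - 1 : ℝ) : ℂ) ^ (-k) ≠ 0 := left_ne_zero_of_mul h3
  rw [norm_mul, Real.log_mul (norm_ne_zero_iff.mpr h5) (norm_ne_zero_iff.mpr h4), norm_zpow,
    Complex.norm_real, Real.norm_of_nonneg hs'.le, Real.log_zpow]
  have h6 : Real.log (s - 1) = -Real.log (1 / (s - 1)) := by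
    rw [one_div, Real.log_inv, neg_neg]
  rw [h6]
  push_cast
  field_simp
  ring

lemma ordF_def {R : Ideal (𝓞 F) → ℂ[X]} {k : ℤ} (h : HasOrdF R k) (r : ℕ) :
    Tendsto (fun s : ℝ => defF r R s / Real.log (1 / (s - 1))) (𝓝[>] 1)
      (𝓝 (-((k : ℝ) + r))) := by
  have h1 := (ordF_log h).sub_const (r : ℝ)
  rw [show -(k : ℝ) - r = -((k : ℝ) + r) by ring] at h1
  refine h1.congr' ?_
  filter_upwards [tendsto_logH.eventually_gt_atTop 0] with s hs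
  unfold defF
  field_simp

/-- From the asymptotic inequalities to the orders: if the order `k i` of `LFunF (R i)` at `s = 1`
exists for all `i`, then `a ∑ (k i + r i)² ≤ v²`; if moreover the order `n` of `LFunF Q` exists, then
`a ∑ (k i + r i)² ≤ -n ≤ v²`; and if `v² < a` then `k i = -r i` for all `i`.  The `L`-functions may
belong to different fields. -/
theorem orders_of_bound_fam {J : Type*} [Fintype J] (Fi : J → Type*) [∀ i, Field (Fi i)]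
    [∀ i, NumberField (Fi i)] (a : ℕ) (v : ℝ) (r : J → ℕ)
    (R : ∀ i, Ideal (𝓞 (Fi i)) → ℂ[X]) (Q : Ideal (𝓞 F) → ℂ[X])
    (h : ∀ ε : ℝ, 0 < ε → ∀ᶠ s : ℝ in 𝓝[>] (1 : ℝ),
      (a : ℝ) * ∑ i, (defF (r i) (R i) s) ^ 2 ≤
        (Real.log ‖LFunF Q s‖ + ε * Real.log (1 / (s - 1))) * Real.log (1 / (s - 1)) ∧
      Real.log ‖LFunF Q s‖ ≤ (v ^ 2 + ε) * Real.log (1 / (s - 1)))
    (k : J → ℤ) (hk : ∀ i, HasOrdF (R i) (k i)) :
    (a : ℝ) * ∑ i, ((k i : ℝ) + r i) ^ 2 ≤ v ^ 2 ∧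
    (∀ n : ℤ, HasOrdF Q n → a * ∑ i, (k i + r i) ^ 2 ≤ -n ∧ -(n : ℝ) ≤ v ^ 2) ∧
    (v ^ 2 < a → ∀ i, k i = -r i) := by
  have h1 : Tendsto (fun s : ℝ => (a : ℝ) * ∑ i, (defF (r i) (R i) s /
      Real.log (1 / (s - 1))) ^ 2) (𝓝[>] 1) (𝓝 ((a : ℝ) * ∑ i, (-((k i : ℝ) + r i)) ^ 2)) :=
    (tendsto_finsetSum _ fun i _ => (ordF_def (hk i) (r i)).pow 2).const_mul _
  have hsq : ∑ i, (-((k i : ℝ) + r i)) ^ 2 = ∑ i, ((k i : ℝ) + r i) ^ 2 :=
    Finset.sum_congr rfl fun i _ => by ring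
  rw [hsq] at h1
  have hdiv : ∀ s : ℝ, (a : ℝ) * ∑ i, (defF (r i) (R i) s / Real.log (1 / (s - 1))) ^ 2 =
      ((a : ℝ) * ∑ i, (defF (r i) (R i) s) ^ 2) / Real.log (1 / (s - 1)) ^ 2 := by
    intro s
    rw [mul_div_assoc, Finset.sum_div]
    congr 1
    exact Finset.sum_congr rfl fun i _ => div_pow _ _ _
  have hA : (a : ℝ) * ∑ i, ((k i : ℝ) + r i) ^ 2 ≤ v ^ 2 := by
    refine le_of_forall_pos_le_add fun ε hε => ?_
    refine le_of_tendsto h1 ?_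
    filter_upwards [h (ε / 2) (by linarith), tendsto_logH.eventually_gt_atTop 0] with s hs hL
    rw [hdiv, div_le_iff₀ (by positivity)]
    refine hs.1.trans ?_
    have h3 : Real.log ‖LFunF Q s‖ + ε / 2 * Real.log (1 / (s - 1)) ≤
        (v ^ 2 + ε) * Real.log (1 / (s - 1)) := by
      have := hs.2
      nlinarith
    calc _ ≤ ((v ^ 2 + ε) * Real.log (1 / (s - 1))) * Real.log (1 / (s - 1)) :=
          mul_le_mul_of_nonneg_right h3 hL.le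
      _ = _ := by ring
  refine ⟨hA, fun n hn => ⟨?_, ?_⟩, fun hv i => ?_⟩
  · have hN := ordF_log hn
    have h5 : (a : ℝ) * ∑ i, ((k i : ℝ) + r i) ^ 2 ≤ -(n : ℝ) := by
      refine le_of_forall_pos_le_add fun ε hε => ?_
      refine le_of_tendsto_of_tendsto h1 (hN.add_const ε) ?_
      filter_upwards [h ε hε, tendsto_logH.eventually_gt_atTop 0] with s hs hL
      show (a : ℝ) * ∑ i, (defF (r i) (R i) s / Real.log (1 / (s - 1))) ^ 2 ≤ _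
      rw [hdiv, div_le_iff₀ (by positivity)]
      refine hs.1.trans (le_of_eq ?_)
      field_simp
    have h7 : (((a * ∑ i, (k i + r i) ^ 2 : ℤ)) : ℝ) ≤ ((-n : ℤ) : ℝ) := by
      push_cast
      exact h5
    exact_mod_cast h7
  · have hN := ordF_log hn
    refine le_of_forall_pos_le_add fun ε hε => ?_
    refine le_of_tendsto hN ?_
    filter_upwards [h ε hε, tendsto_logH.eventually_gt_atTop 0] with s hs hL
    rw [div_le_iff₀ hL]
    exact hs.2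
  · by_contra hne
    have h8 : (1 : ℤ) ≤ (k i + r i) ^ 2 := by
      have h9 : k i + r i ≠ 0 := fun h9 => hne (by linarith)
      have := sq_nonneg (k i + (r i : ℤ))
      have h10 : (k i + (r i : ℤ)) ^ 2 ≠ 0 := pow_ne_zero 2 h9
      omega
    have h9 : (1 : ℝ) ≤ ((k i : ℝ) + r i) ^ 2 := by exact_mod_cast h8
    have h10 : ((k i : ℝ) + r i) ^ 2 ≤ ∑ i, ((k i : ℝ) + r i) ^ 2 :=
      Finset.single_le_sum (f := fun i => ((k i : ℝ) + r i) ^ 2) (fun j _ => sq_nonneg _)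
        (Finset.mem_univ i)
    have h11 : (a : ℝ) * 1 ≤ a * ∑ i, ((k i : ℝ) + r i) ^ 2 :=
      mul_le_mul_of_nonneg_left (h9.trans h10) (Nat.cast_nonneg _)
    linarith

/-- The case of one field. -/
theorem orders_of_bound {J : Type*} [Fintype J] (a : ℕ) (v : ℝ) (r : J → ℕ)
    (R : J → Ideal (𝓞 F) → ℂ[X]) (Q : Ideal (𝓞 F) → ℂ[X])
    (h : ∀ ε : ℝ, 0 < ε → ∀ᶠ s : ℝ in 𝓝[>] (1 : ℝ),
      (a : ℝ) * ∑ i, (defF (r i) (R i) s) ^ 2 ≤
        (Real.log ‖LFunF Q s‖ + ε * Real.log (1 / (s - 1))) * Real.log (1 / (s - 1)) ∧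
      Real.log ‖LFunF Q s‖ ≤ (v ^ 2 + ε) * Real.log (1 / (s - 1)))
    (k : J → ℤ) (hk : ∀ i, HasOrdF (R i) (k i)) :
    (a : ℝ) * ∑ i, ((k i : ℝ) + r i) ^ 2 ≤ v ^ 2 ∧
    (∀ n : ℤ, HasOrdF Q n → a * ∑ i, (k i + r i) ^ 2 ≤ -n ∧ -(n : ℝ) ≤ v ^ 2) ∧
    (v ^ 2 < a → ∀ i, k i = -r i) :=
  orders_of_bound_fam (fun _ => F) a v r R Q h k hk

/-- [ORDW] The double sum of the Weil form. -/
theorem orders_of_bound_weil {T : Type*} [Fintype T] (Ft : T → Type*) [∀ t, Field (Ft t)]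
    [∀ t, NumberField (Ft t)] {J : T → Type*} [∀ t, Fintype (J t)] (a : ℕ) (v : ℝ)
    (r : ∀ t, J t → ℕ) (R : ∀ t, J t → Ideal (𝓞 (Ft t)) → ℂ[X]) (Q : Ideal (𝓞 F) → ℂ[X])
    (h : ∀ ε : ℝ, 0 < ε → ∀ᶠ s : ℝ in 𝓝[>] (1 : ℝ),
      (a : ℝ) * ∑ t, ∑ j, (defF (r t j) (R t j) s) ^ 2 ≤
        (Real.log ‖LFunF Q s‖ + ε * Real.log (1 / (s - 1))) * Real.log (1 / (s - 1)) ∧
      Real.log ‖LFunF Q s‖ ≤ (v ^ 2 + ε) * Real.log (1 / (s - 1)))
    (k : ∀ t, J t → ℤ) (hk : ∀ t j, HasOrdF (R t j) (k t j)) :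
    (a : ℝ) * ∑ t, ∑ j, ((k t j : ℝ) + r t j) ^ 2 ≤ v ^ 2 ∧
    (∀ n : ℤ, HasOrdF Q n → a * ∑ t, ∑ j, (k t j + r t j) ^ 2 ≤ -n ∧ -(n : ℝ) ≤ v ^ 2) ∧
    (v ^ 2 < a → ∀ t j, k t j = -r t j) := by
  have h1 := orders_of_bound_fam (J := Σ t, J t) (fun q => Ft q.1) a v (fun q => r q.1 q.2)
    (fun q => R q.1 q.2) Q (fun ε hε => by
      filter_upwards [h ε hε] with s hs
      rw [Fintype.sum_sigma]
      exact hs) (fun q => k q.1 q.2) fun q => hk q.1 q.2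
  rw [Fintype.sum_sigma, Fintype.sum_sigma] at h1
  exact ⟨h1.1, h1.2.1, fun hv t j => h1.2.2 hv ⟨t, j⟩⟩

end HK

end TatePole
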