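import Pool.Agent.Lib.MP_058a58_ag.HK.Pull
import Pool.Agent.Lib.MP_058a58_ag.HK.Cnt
import Pool.Agent.Lib.MP_058a58_ag.HK.Dir
import Pool.Agent.Lib.MP_058a58_ag.HK.Euler
import Pool.Agent.Lib.MP_058a58_ag.HK.Ops
import Pool.Agent.Lib.MP_058a58_ag.HK.L5
import Pool.Agent.Lib.MP_058a58_ag.HK.Stm2

set_option autoImplicit false

/-!
# The mean values of the weighted counts of fixed embeddings
-/

namespace Pool.Agent.Lib.MP_058a58_ag.HK

open NumberField Filter Topology nonZeroDivisors TatePole TatePole.AT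
open Pool.Agent.MP_058a58_ag.Ch (io omE OmegaOK omegaOK_omE omE_io norm_omE_io omE_io')

section

variable {K : Type*} [Field K] [NumberField K]

/-- a Hecke character times a Dirichlet character, on the ideals of norm `p` -/
lemma AI_mul_dir {m : ℕ} (ψ : Ideal (𝓞 K) → ℂ) (χ : DirichletCharacter ℂ m) (p : ℕ) :
    AI K (fun I => ψ I * χ ((Ideal.absNorm I : ℕ) : ZMod m)) p = χ (p : ZMod m) * AI K ψ p := by
  unfold AI
  rw [Finset.mul_sum]
  refine Finset.sum_congr rfl fun I hI => ?_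
  rw [mem_AI] at hI
  simp only [hI]
  exact mul_comm _ _

lemma isHecke_pow_apply {M : ℕ} {ψ : Ideal (𝓞 K) → ℂ} {om : mixedEmbedding.mixedSpace K → ℂ}
    (h : IsHecke K M ψ om) (I : Ideal (𝓞 K)) (j : ℕ) : ψ (I ^ j) = ψ I ^ j := by
  induction j with
  | zero => rw [pow_zero, pow_zero, Ideal.one_eq_top]; exact h.one
  | succ j ih => rw [pow_succ, pow_succ, h.mul, ih]

end

section

variable {F K : Type} [Field F] [NumberField F] [Field K] [NumberField K] [Algebra F K]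

/-- the composition with the relative norm has infinite order -/
lemma infOrder_relNorm {M : ℕ} {Ψ : Ideal (𝓞 F) → ℂ} {om : mixedEmbedding.mixedSpace F → ℂ}
    (h : IsHecke F M Ψ om) (hinf : InfOrder Ψ) :
    InfOrder (fun J : Ideal (𝓞 K) => Ψ (Ideal.relNorm (𝓞 F) J)) := by
  intro n hn
  have hfin : 0 < Module.finrank (𝓞 F) (𝓞 K) := Module.finrank_pos
  obtain ⟨I, hI, hpow⟩ := hinf (n * Module.finrank (𝓞 F) (𝓞 K)) (Nat.mul_pos hn hfin)
  have h1 : Ψ (Ideal.relNorm (𝓞 F) (I.map (algebraMap (𝓞 F) (𝓞 K)))) =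
      Ψ I ^ Module.finrank (𝓞 F) (𝓞 K) := by
    rw [Ideal.relNorm_algebraMap, isHecke_pow_apply h]
  refine ⟨I.map (algebraMap (𝓞 F) (𝓞 K)), ?_, ?_⟩
  · simp only [h1]
    exact pow_ne_zero _ hI
  · simp only [h1]
    rw [← pow_mul, mul_comm]
    exact hpow

/-- a character on the ideals in the sense of the statement file -/
lemma isHecke_of_char {M : ℕ} {k : (F →+* ℂ) → ℤ} {τ : (F →+* ℂ) → ℝ}
    {Ψ : Ideal (𝓞 F) → ℂ} (h : IsHeckeChar F M k τ Ψ) : IsHecke F M Ψ (omE F k τ) where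
  pos := Nat.one_le_iff_ne_zero.mpr h.pos
  one := by rw [← Ideal.one_eq_top]; exact h.one
  mul := h.mul
  norm I hI0 hI := h.norm I hI0 hI
  zero I hI := h.zero I (Or.inr hI)
  om_norm x hx := norm_omE_io k τ hx
  om_mul := (omegaOK_omE k τ).mul
  prin a ha hM := by
    rw [h.ray a ha hM, omE_io]
    rfl

lemma isHeckeChar_norm_le {M : ℕ} {k : (F →+* ℂ) → ℤ} {τ : (F →+* ℂ) → ℝ}
    {Ψ : Ideal (𝓞 F) → ℂ} (h : IsHeckeChar F M k τ Ψ) (I : Ideal (𝓞 F)) : ‖Ψ I‖ ≤ 1 := by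
  by_cases hI0 : I = ⊥
  · rw [h.zero I (Or.inl hI0), norm_zero]; exact zero_le_one
  · by_cases hI : IsCoprime I (Ideal.span {(M : 𝓞 F)})
    · exact (h.norm I hI0 hI).le
    · rw [h.zero I (Or.inr hI), norm_zero]; exact zero_le_one

end

/-- the part about one field: the mean of a Hecke character of infinite order -/
def L5a : Prop := ∀ (K : Type) [Field K] [NumberField K] (M : ℕ) (ψ : Ideal (𝓞 K) → ℂ)
  (om : mixedEmbedding.mixedSpace K → ℂ), IsHecke K M ψ om → OmegaOK K om →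
  (∀ j : ℕ, 1 ≤ j → ∃ I : Ideal (𝓞 K), ψ I ≠ 0 ∧ ψ I ^ j ≠ 1) →
  HasDens (fun p => (AI K ψ p).re) 0

/-- the part about one field: the infinity type -/
def L5b : Prop := ∀ (K : Type) [Field K] [NumberField K] (M : ℕ) (ψ : Ideal (𝓞 K) → ℂ)
  (om : mixedEmbedding.mixedSpace K → ℂ), IsHecke K M ψ om → OmegaOK K om →
  (∀ j : ℕ, 1 ≤ j → ∃ I : Ideal (𝓞 K), ψ I ≠ 0 ∧ ψ I ^ j ≠ 1) →
  ∀ Q : ℕ, 1 ≤ Q → ∃ κ z : 𝓞 K, κ ≠ 0 ∧ κ = 1 + (Q : 𝓞 K) * z ∧ om (io K κ) ≠ 1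

/-- the twist by a Dirichlet character has infinite order -/
lemma infOrder_dir (h5b : L5b) {K : Type} [Field K] [NumberField K] [IsTotallyComplex K] {M : ℕ}
    {ψ : Ideal (𝓞 K) → ℂ} {om : mixedEmbedding.mixedSpace K → ℂ} (h : IsHecke K M ψ om)
    (hom : OmegaOK K om) (hinf : InfOrder ψ) {m : ℕ} [NeZero m] (χ : DirichletCharacter ℂ m) :
    ∀ j : ℕ, 1 ≤ j → ∃ I : Ideal (𝓞 K), ψ I * χ ((Ideal.absNorm I : ℕ) : ZMod m) ≠ 0 ∧
      (ψ I * χ ((Ideal.absNorm I : ℕ) : ZMod m)) ^ j ≠ 1 := by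
  intro j hj
  have hj0 : j ≠ 0 := Nat.one_le_iff_ne_zero.mp hj
  obtain ⟨κ, z, hκ0, hκ, hne⟩ := h5b K M (fun I => ψ I ^ j) (fun x => om x ^ j) (h.pow hj0)
    (hom.pow j) (fun i hi => by
      obtain ⟨I, hI, hI2⟩ := hinf (j * i) (Nat.mul_pos hj hi)
      exact ⟨I, pow_ne_zero _ hI, by rw [← pow_mul]; exact hI2⟩) (M * m)
    (Nat.one_le_iff_ne_zero.mpr (Nat.mul_ne_zero (Nat.one_le_iff_ne_zero.mp h.pos)
      (NeZero.ne m)))
  have h1 : ψ (Ideal.span {κ}) * χ ((Ideal.absNorm (Ideal.span {κ}) : ℕ) : ZMod m) =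
      om (io K κ) := (h.dir' χ).prin κ hκ0 ⟨z, by rw [hκ, add_sub_cancel_left]⟩
  refine ⟨Ideal.span {κ}, ?_, ?_⟩
  · rw [h1]
    intro h2
    have h3 := h.om_norm κ hκ0
    rw [h2, norm_zero] at h3
    exact zero_ne_one h3
  · rw [h1]
    exact hne

/-- **OSC** -/
theorem osc_of (h5a : L5a) (h5b : L5b) : S_OSC := by
  intro F _ _ σ 𝔓 hσ Ψ hΨ hinf
  obtain ⟨M, k, τ, hΨ⟩ := hΨ
  have hle := isHeckeChar_norm_le hΨ
  refine ⟨fun ψ p _ => hle _, ?_⟩
  intro K _ _ _ _ m _ χ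
  have h0 := isHecke_of_char hΨ
  have h1 : IsHecke K M (fun J => Ψ (Ideal.relNorm (𝓞 F) J)) _ := IsHecke.pull (L := K) h0
  have h2 := infOrder_relNorm (K := K) h0 hinf
  have h3 := h1.dir' χ
  have hom := omegaOK_omE (K := K) (fun φ' => k (φ'.comp (algebraMap F K)))
    (fun φ' => τ (φ'.comp (algebraMap F K)))
  have h4 := infOrder_dir h5b h1 hom h2 χ
  have h5 := h5a K (M * m) _ _ h3 hom h4
  have hbd : ∀ p : ℕ, p.Prime → ‖AI K (fun J => Ψ (Ideal.relNorm (𝓞 F) J)) p‖ ≤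
      Module.finrank ℚ K := fun p hp => (norm_AI_le (fun I => hle _) p).trans
        (by unfold Ded.A; exact_mod_cast card_norm_prime_le K p hp)
  have hbS : ∀ p : ℕ, ‖∑ φ : K →ₐ[ℚ] QBar,
      (by classical exact if σ p • φ = φ then EPsi 𝔓 Ψ (resEmb F K φ) p else 0 : ℂ)‖ ≤
      Nat.card (K →ₐ[ℚ] QBar) := by
    intro p
    classical
    refine (norm_sum_le _ _).trans ?_
    rw [Nat.card_eq_fintype_card, ← Finset.card_univ]
    calc _ ≤ ∑ _φ : K →ₐ[ℚ] QBar, (1:ℝ) := by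
          refine Finset.sum_le_sum fun φ _ => ?_
          split_ifs
          · exact hle _
          · rw [norm_zero]; exact zero_le_one
      _ = _ := by rw [Finset.sum_const, nsmul_eq_mul, mul_one]
  refine h5.congr_finite (finite_bad K).toFinset (fun p hp hpS => ?_) ?_ ?_
  · have hgood : GoodFor K p := by
      by_contra h
      exact hpS ((finite_bad K).mem_toFinset.mpr ⟨hp, h⟩)
    obtain ⟨h𝔓, hp𝔓, hf⟩ := hσ p hp
    rw [AI_mul_dir, AI_relNorm hp hgood h𝔓 hp𝔓 hf Ψ (resEmb F K) (resEmb_apply F K)]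
    rfl
  · refine ⟨Module.finrank ℚ K, fun p hp => ?_⟩
    have hA := AI_mul_dir (fun J : Ideal (𝓞 K) => Ψ (Ideal.relNorm (𝓞 F) J)) χ p
    change |(AI K _ p).re| ≤ _
    rw [hA]
    refine (Complex.abs_re_le_norm _).trans ?_
    rw [norm_mul]
    calc ‖χ (p : ZMod m)‖ * ‖AI K (fun J => Ψ (Ideal.relNorm (𝓞 F) J)) p‖
        ≤ 1 * Module.finrank ℚ K :=
          mul_le_mul (χ.norm_le_one _) (hbd p hp) (norm_nonneg _) zero_le_one
      _ = _ := one_mul _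
  · refine ⟨Nat.card (K →ₐ[ℚ] QBar), fun p hp => ?_⟩
    refine (Complex.abs_re_le_norm _).trans ?_
    rw [norm_mul]
    calc _ ≤ 1 * (Nat.card (K →ₐ[ℚ] QBar) : ℝ) :=
          mul_le_mul (χ.norm_le_one _) (hbS p) (norm_nonneg _) zero_le_one
      _ = _ := one_mul _

/-- **[OSC]**: a Hecke character of infinite order is asymptotically orthogonal to the fixed point
counts of the totally complex extensions, twisted by Dirichlet characters -/
theorem osc : S_OSC :=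
  osc_of (fun _K _ _ _M _ψ _om h hom hinf => hecke_dens h hom hinf)
    (fun _K _ _ _M _ψ _om h hom hinf => kappa_exists h hom hinf)

end Pool.Agent.Lib.MP_058a58_ag.HK

namespace TatePole.HK

/-- **[OSC]** -/
theorem osc : S_OSC := Pool.Agent.Lib.MP_058a58_ag.HK.osc

end TatePole.HK

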