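import Pool.Agent.Lib.MP_058a58_ag.HK.NormChar
import Pool.Agent.Lib.MP_058a58_ag.AT.LatW3

set_option autoImplicit false

/-!
# The infinity type of the composition with the relative norm
-/

namespace Pool.Agent.Lib.MP_058a58_ag.HK

open NumberField Filter Topology nonZeroDivisors
open Pool.Agent.MP_058a58_ag.Ch (io omE phs phs_mul phs_one OmegaOK omegaOK_omE omE_io')

section

variable {K L : Type*} [Field K] [NumberField K] [Field L] [NumberField L] [Algebra K L]

open scoped Classical in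
/-- an embedding at the relative norm is the product over the embeddings above it -/
lemma emb_norm (φ : K →+* ℂ) (y : L) :
    φ (Algebra.norm K y) = ∏ φ' : L →+* ℂ with φ'.comp (algebraMap K L) = φ, φ' y := by
  let alg : Algebra K ℂ := φ.toAlgebra
  have h := Algebra.norm_eq_prod_embeddings K ℂ y
  have h1 : φ (Algebra.norm K y) = algebraMap K ℂ (Algebra.norm K y) := rfl
  rw [h1, h]
  refine Finset.prod_bij (fun (σ : L →ₐ[K] ℂ) _ => (σ : L →+* ℂ)) ?_ ?_ ?_ ?_
  · intro σ _
    rw [Finset.mem_filter]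
    refine ⟨Finset.mem_univ _, ?_⟩
    ext x
    exact σ.commutes x
  · intro σ _ τ _ hστ
    ext x
    exact congrArg (fun f : L →+* ℂ => f x) hστ
  · intro φ' hφ'
    rw [Finset.mem_filter] at hφ'
    refine ⟨{ φ' with commutes' := fun x => congrArg (fun f : K →+* ℂ => f x) hφ'.2 },
      Finset.mem_univ _, ?_⟩
    rfl
  · intro σ _
    rfl

lemma phs_prod {ι : Type*} (s : Finset ι) (k : ℤ) (t : ℝ) (z : ι → ℂ) :
    phs k t (∏ i ∈ s, z i) = ∏ i ∈ s, phs k t (z i) := by
  classical
  induction s using Finset.induction_on with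
  | empty => rw [Finset.prod_empty, Finset.prod_empty]; exact phs_one k t
  | insert i s his ih => rw [Finset.prod_insert his, Finset.prod_insert his, phs_mul, ih]

/-- the infinity type of the composition with the relative norm -/
lemma omE_norm (k : (K →+* ℂ) → ℤ) (tau : (K →+* ℂ) → ℝ) (y : 𝓞 L) :
    omE L (fun φ' => k (φ'.comp (algebraMap K L))) (fun φ' => tau (φ'.comp (algebraMap K L)))
      (io L y) = omE K k tau (io K (Algebra.intNorm (𝓞 K) (𝓞 L) y)) := by
  classical
  rw [omE_io', omE_io']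
  have h5 : ((Algebra.intNorm (𝓞 K) (𝓞 L) y : 𝓞 K) : K) = Algebra.norm K ((y : 𝓞 L) : L) :=
    Algebra.algebraMap_intNorm (A := 𝓞 K) (K := K) (L := L) (B := 𝓞 L) y
  rw [h5, ← Finset.prod_fiberwise (Finset.univ : Finset (L →+* ℂ))
    (fun φ' => φ'.comp (algebraMap K L))]
  refine Finset.prod_congr rfl fun φ _ => ?_
  rw [emb_norm φ, phs_prod]
  refine Finset.prod_congr rfl fun φ' hφ' => ?_
  rw [Finset.mem_filter] at hφ'
  rw [hφ'.2]

/-- **PULL** -/
theorem IsHecke.pull {M : ℕ} {ψ : Ideal (𝓞 K) → ℂ} {k : (K →+* ℂ) → ℤ} {tau : (K →+* ℂ) → ℝ}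
    (h : IsHecke K M ψ (omE K k tau)) :
    IsHecke L M (fun J => ψ (Ideal.relNorm (𝓞 K) J))
      (omE L (fun φ' => k (φ'.comp (algebraMap K L)))
        (fun φ' => tau (φ'.comp (algebraMap K L)))) :=
  h.relNorm fun y _ => omE_norm k tau y

end

end Pool.Agent.Lib.MP_058a58_ag.HK
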