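import Mathlib
import Pool.Agent.Lib.MP_058a58_ag.HK.StmW
import Pool.Agent.Lib.MP_058a58_ag.HK.FrobM
import Pool.Agent.Lib.MP_058a58_ag.HK.FrobF

/-!
# Purity of the restriction to the Galois group of a larger field
-/

open Polynomial Filter Topology NumberField
open scoped TensorProduct

namespace TatePole.HK

open TatePole AT

section
variable {E F : Type*} [Field E] [NumberField E] [Field F] [NumberField F]

attribute [local instance] topZBar discZBar contZBar invZBar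

/-- the map of the rings of integers -/
noncomputable abbrev im (i : E →ₐ[ℚ] F) : 𝓞 E →+* 𝓞 F := RingOfIntegers.mapRingHom (i : E →+* F)

lemma comap_intMap_im {i : E →ₐ[ℚ] F} {e₀ : E →ₐ[ℚ] QBar} {e : F →ₐ[ℚ] QBar}
    (hei : e.comp i = e₀) (𝔓 : Ideal ZBar) :
    𝔓.comap (intMap e₀) = (𝔓.comap (intMap e)).comap (im i) := by
  ext x
  rw [Ideal.mem_comap, Ideal.mem_comap, Ideal.mem_comap]
  have h1 : intMap e₀ x = intMap e (im i x) := by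
    apply Subtype.ext
    show e₀ (x : E) = e (i (x : E))
    rw [← hei]
    rfl
  rw [h1]

lemma absNorm_pow_of_comap (i : E →ₐ[ℚ] F) {𝔮 : Ideal (𝓞 F)} (hq : 𝔮.IsPrime) (hq0 : 𝔮 ≠ ⊥)
    {𝔭 : Ideal (𝓞 E)} (hp : 𝔭.IsPrime) (hp0 : 𝔭 ≠ ⊥) (h : 𝔮.comap (im i) = 𝔭) :
    ∃ n : ℕ, 0 < n ∧ Ideal.absNorm 𝔮 = Ideal.absNorm 𝔭 ^ n := by
  have hmax : 𝔭.IsMaximal := hp.isMaximal hp0
  have hmaxq : 𝔮.IsMaximal := hq.isMaximal hq0
  let _ : Field (𝓞 E ⧸ 𝔭) := Ideal.Quotient.field 𝔭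
  let _ : Field (𝓞 F ⧸ 𝔮) := Ideal.Quotient.field 𝔮
  have hcard : Nat.card (𝓞 E ⧸ 𝔭) = Ideal.absNorm 𝔭 := by
    rw [Ideal.absNorm_apply, Submodule.cardQuot_apply]
  have hcardq : Nat.card (𝓞 F ⧸ 𝔮) = Ideal.absNorm 𝔮 := by
    rw [Ideal.absNorm_apply, Submodule.cardQuot_apply]
  have hfinq : Finite (𝓞 F ⧸ 𝔮) := Nat.finite_of_card_ne_zero (by
    rw [hcardq]
    exact fun h => hq0 (Ideal.absNorm_eq_zero_iff.mp h))
  let φ : 𝓞 E ⧸ 𝔭 →+* 𝓞 F ⧸ 𝔮 := Ideal.quotientMap 𝔮 (im i) h.ge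
  let _ : Algebra (𝓞 E ⧸ 𝔭) (𝓞 F ⧸ 𝔮) := φ.toAlgebra
  have hfin : Module.Finite (𝓞 E ⧸ 𝔭) (𝓞 F ⧸ 𝔮) := Module.Finite.of_finite
  refine ⟨Module.finrank (𝓞 E ⧸ 𝔭) (𝓞 F ⧸ 𝔮), Module.finrank_pos, ?_⟩
  rw [← hcard, ← hcardq]
  exact Module.natCard_eq_pow_finrank

lemma frob_mem_iff {N : ℕ} (hN : 0 < N) {𝔓 : Ideal ZBar} (h𝔓 : 𝔓.IsPrime) {σ : GQ}
    (hσ : IsArithFrob N 𝔓 σ) {y : ZBar} (hy : σ • y ∈ 𝔓) : y ∈ 𝔓 := by
  obtain ⟨z, hz, hzy⟩ := hσ y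
  have h1 : σ • y = y ^ N + z := by
    apply Subtype.ext
    rw [coe_smul_ZBar, hzy]
    push_cast
    rfl
  rw [h1] at hy
  exact h𝔓.mem_of_pow_mem N ((𝔓.add_mem_iff_left hz).mp hy)

/-- two Frobenius elements for the same prime differ by an inertia element -/
lemma inertia_of_frob {N : ℕ} (hN : 0 < N) {𝔓 : Ideal ZBar} (h𝔓 : 𝔓.IsPrime) {σ g : GQ}
    (hσ : IsArithFrob N 𝔓 σ) (hg : IsArithFrob N 𝔓 g) : IsInertia 𝔓 (σ⁻¹ * g) := by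
  intro x
  obtain ⟨y1, hy1, h1⟩ := hg x
  obtain ⟨y2, hy2, h2⟩ := hσ x
  have h3 : g (x : QBar) = σ (x : QBar) + ((y1 - y2 : ZBar) : QBar) := by
    rw [h1, h2]
    push_cast
    ring
  refine ⟨σ⁻¹ • (y1 - y2), ?_, ?_⟩
  · refine frob_mem_iff hN h𝔓 hσ ?_
    rw [smul_inv_smul]
    exact 𝔓.sub_mem hy1 hy2
  · rw [AlgEquiv.mul_apply, h3, map_add, coe_smul_ZBar]
    congr 1
    rw [← AlgEquiv.mul_apply, inv_mul_cancel]
    rfl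

variable {ℓ : ℕ} [Fact ℓ.Prime] {W : Type*} [AddCommGroup W] [Module ℚ_[ℓ] W]
  [FiniteDimensional ℚ_[ℓ] W] [Algebra ℚ_[ℓ] ℂ]

/-- the eigenvalues of a power -/
lemma root_pow (A : Module.End ℚ_[ℓ] W) {n : ℕ} (hn : 0 < n) {z : ℂ}
    (hz : ((A ^ n).charpoly.map (algebraMap ℚ_[ℓ] ℂ)).eval z = 0) :
    ∃ y : ℂ, y ^ n = z ∧ (A.charpoly.map (algebraMap ℚ_[ℓ] ℂ)).eval y = 0 := by
  have h1 : (A ^ n).baseChange ℂ = (A.baseChange ℂ : Module.End ℂ (ℂ ⊗[ℚ_[ℓ]] W)) ^ n := by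
    induction n with
    | zero => rw [pow_zero, pow_zero, Module.End.one_eq_id, LinearMap.baseChange_id]; rfl
    | succ n ih =>
      rcases Nat.eq_zero_or_pos n with rfl | hn'
      · rw [zero_add, pow_one, pow_one]
      · rw [pow_succ, LinearMap.baseChange_mul]
        have h2 : (A ^ n).baseChange ℂ = (A.baseChange ℂ : Module.End ℂ (ℂ ⊗[ℚ_[ℓ]] W)) ^ n := by
          clear ih hz hn
          induction n with
          | zero => exact absurd hn' (lt_irrefl 0)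
          | succ m ihm =>
            rcases Nat.eq_zero_or_pos m with rfl | hm
            · rw [zero_add, pow_one, pow_one]
            · rw [pow_succ, LinearMap.baseChange_mul, ihm hm, ← pow_succ]
        rw [h2, ← pow_succ]
  have h2 : z ∈ spectrum ℂ ((A.baseChange ℂ : Module.End ℂ (ℂ ⊗[ℚ_[ℓ]] W)) ^ n) := by
    rw [Module.End.mem_spectrum_iff_isRoot_charpoly, ← h1, LinearMap.charpoly_baseChange]
    exact hz
  rw [spectrum.map_pow_of_pos _ hn] at h2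
  obtain ⟨y, hy, hyz⟩ := h2
  refine ⟨y, hyz, ?_⟩
  rw [Module.End.mem_spectrum_iff_isRoot_charpoly, LinearMap.charpoly_baseChange] at hy
  exact hy

/-- [PURR] -/
theorem isPureAt_resG {i : E →ₐ[ℚ] F} {e₀ : E →ₐ[ℚ] QBar} {e : F →ₐ[ℚ] QBar}
    (hei : e.comp i = e₀) (h : GF e ≤ GF e₀) {ρ : Representation ℚ_[ℓ] (GF e₀) W} {w : ℤ}
    {p : ℕ} (hp : p.Prime) (hgood : GoodFor E p) {𝔮 : Ideal (𝓞 F)} (hq : 𝔮.IsPrime)
    (hpq : (p : 𝓞 F) ∈ 𝔮) (hpure : IsPureAt ρ w (𝔮.comap (im i))) :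
    IsPureAt (resG h ρ) w 𝔮 := by
  set 𝔭 := 𝔮.comap (im i) with h𝔭
  have h𝔭p : 𝔭.IsPrime := hq.comap _
  have hp𝔭 : (p : 𝓞 E) ∈ 𝔭 := by
    rw [h𝔭, Ideal.mem_comap, map_natCast]
    exact hpq
  have h𝔭0 := over_ne_bot hp hp𝔭
  have h𝔮0 := over_ne_bot hp hpq
  have hover : ∀ 𝔓 : Ideal ZBar, LiesOver e 𝔓 𝔮 → LiesOver e₀ 𝔓 𝔭 := by
    rintro 𝔓 ⟨h1, h2⟩
    exact ⟨h1, by rw [comap_intMap_im hei, h2]⟩
  constructor
  · intro 𝔓 h1 g hg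
    exact hpure.unramified 𝔓 (hover 𝔓 h1) (Subgroup.inclusion h g) hg
  · rintro g ⟨𝔓, h1, hg⟩ z hz
    have h2 := hover 𝔓 h1
    have hp𝔓 : (p : ZBar) ∈ 𝔓 := by
      have h3 : (p : 𝓞 F) ∈ 𝔓.comap (intMap e) := by rw [h1.2]; exact hpq
      rw [Ideal.mem_comap, map_natCast] at h3
      exact h3
    obtain ⟨σ, hσ⟩ := exists_arithFrob p hp 𝔓 h1.1 hp𝔓
    obtain ⟨f, hf0, -, hf⟩ := exists_deg hp h𝔭p hp𝔭
    have hfix := frob_pow_fix hp.pos hgood h1.1 hp𝔓 hσ h𝔭p h𝔭0 h2.2 hf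
    obtain ⟨n, hn, hN⟩ := absNorm_pow_of_comap i hq h𝔮0 h𝔭p h𝔭0 rfl
    set s₀ : GF e₀ := ⟨σ ^ f, mem_GF.mpr hfix⟩ with hs₀
    have hs₀F : IsArithFrob (Ideal.absNorm 𝔭) 𝔓 (s₀ : GQ) := by
      rw [hf]
      exact arithFrob_pow hp.pos hσ f
    have hNpos : 0 < Ideal.absNorm 𝔭 := by
      rw [hf]
      exact pow_pos hp.pos f
    have hs : IsArithFrob (Ideal.absNorm 𝔮) 𝔓 ((s₀ : GQ) ^ n) := by
      rw [hN]
      exact arithFrob_pow hNpos hs₀F n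
    have hin := inertia_of_frob (by rw [hN]; exact pow_pos hNpos n) h1.1 hs hg
    set g' : GF e₀ := Subgroup.inclusion h g with hg'
    have hτ : ρ ((s₀ ^ n)⁻¹ * g') = 1 := hpure.unramified 𝔓 h2 _ hin
    have hτ' : ρ ((s₀ ^ n)⁻¹ * g')⁻¹ = 1 := by
      have h3 : ρ (((s₀ ^ n)⁻¹ * g')⁻¹ * ((s₀ ^ n)⁻¹ * g')) = 1 := by
        rw [inv_mul_cancel, map_one]
      rw [map_mul, hτ, mul_one] at h3
      exact h3
    have hρ : resG h ρ g⁻¹ = ρ s₀⁻¹ ^ n := by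
      show ρ (Subgroup.inclusion h g⁻¹) = _
      have h3 : Subgroup.inclusion h g⁻¹ = ((s₀ ^ n)⁻¹ * g')⁻¹ * (s₀⁻¹) ^ n := by
        rw [map_inv, ← hg', inv_pow]
        group
      rw [h3, map_mul, hτ', one_mul, map_pow]
    rw [hρ] at hz
    obtain ⟨y, hy, hyr⟩ := root_pow (ρ s₀⁻¹) hn hz
    have h4 := hpure.pure s₀ ⟨𝔓, h2, hs₀F⟩ y hyr
    rw [← hy, norm_pow, h4, hN, Nat.cast_pow, ← Real.rpow_natCast, ← Real.rpow_natCast,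
      ← Real.rpow_mul (Nat.cast_nonneg _), ← Real.rpow_mul (Nat.cast_nonneg _), mul_comm]

/-- purity at almost all primes -/
theorem pure_resG {i : E →ₐ[ℚ] F} {e₀ : E →ₐ[ℚ] QBar} {e : F →ₐ[ℚ] QBar}
    (hei : e.comp i = e₀) (h : GF e ≤ GF e₀) {ρ : Representation ℚ_[ℓ] (GF e₀) W} {w : ℤ}
    (S : Finset (Ideal (𝓞 E)))
    (hpure : ∀ 𝔭 : Ideal (𝓞 E), 𝔭.IsPrime → 𝔭 ≠ ⊥ → 𝔭 ∉ S → IsPureAt ρ w 𝔭) :
    ∃ S' : Finset (Ideal (𝓞 F)), ∀ 𝔮 : Ideal (𝓞 F), 𝔮.IsPrime → 𝔮 ≠ ⊥ → 𝔮 ∉ S' →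
      IsPureAt (resG h ρ) w 𝔮 := by
  classical
  set T : Finset ℕ := (finite_bad E).toFinset ∪ (S.biUnion fun 𝔭 =>
    (Ideal.absNorm 𝔭).primeFactors) with hT
  refine ⟨T.biUnion fun p => if p.Prime then
    IsDedekindDomain.primesOverFinset (Ideal.span {(p : ℤ)}) (𝓞 F) else ∅, ?_⟩
  intro 𝔮 hq hq0 hqS
  -- the residue characteristic
  obtain ⟨p, hp, hpq⟩ : ∃ p : ℕ, p.Prime ∧ (p : 𝓞 F) ∈ 𝔮 := by
    have h1 : Ideal.absNorm 𝔮 ≠ 0 := fun h => hq0 (Ideal.absNorm_eq_zero_iff.mp h)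
    have h2 : Ideal.absNorm 𝔮 ≠ 1 := fun h => hq.ne_top (Ideal.absNorm_eq_one_iff.mp h)
    have h3 : ((Ideal.absNorm 𝔮 : ℕ) : 𝓞 F) ∈ 𝔮 := Ideal.absNorm_mem 𝔮
    have h4 : ∀ m : ℕ, m ≠ 0 → (m : 𝓞 F) ∈ 𝔮 → ∃ p : ℕ, p.Prime ∧ (p : 𝓞 F) ∈ 𝔮 := by
      intro m
      induction m using Nat.strong_induction_on with
      | _ m ih =>
        intro hm0 hm
        have hm1 : m ≠ 1 := by
          rintro rfl
          rw [Nat.cast_one] at hm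
          exact hq.ne_top ((Ideal.eq_top_iff_one _).mpr hm)
        obtain ⟨p, hp, k, rfl⟩ := Nat.exists_prime_and_dvd hm1
        rw [Nat.cast_mul] at hm
        rcases hq.mem_or_mem hm with h5 | h5
        · exact ⟨p, hp, h5⟩
        · have hk0 : k ≠ 0 := fun h => hm0 (by rw [h, mul_zero])
          exact ih k (by
            have := hp.two_le
            have hk : 0 < k := Nat.pos_of_ne_zero hk0
            nlinarith) hk0 h5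
    exact h4 _ h1 h3
  have hpT : p ∉ T := by
    intro h1
    apply hqS
    refine Finset.mem_biUnion.mpr ⟨p, h1, ?_⟩
    rw [if_pos hp]
    exact (mem_over hp).mpr ⟨hq, hpq⟩
  rw [hT, Finset.mem_union, not_or] at hpT
  obtain ⟨hpT1, hpT2⟩ := hpT
  have hgood : GoodFor E p := by
    by_contra h1
    exact hpT1 ((finite_bad E).mem_toFinset.mpr ⟨hp, h1⟩)
  have hp𝔭 : (p : 𝓞 E) ∈ 𝔮.comap (im i) := by
    rw [Ideal.mem_comap, map_natCast]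
    exact hpq
  refine isPureAt_resG hei h hp hgood hq hpq (hpure _ (hq.comap _) (over_ne_bot hp hp𝔭) ?_)
  intro h1
  refine hpT2 (Finset.mem_biUnion.mpr ⟨_, h1, Nat.mem_primeFactors.mpr ⟨hp, ?_, ?_⟩⟩)
  · obtain ⟨f, hf0, -, hf⟩ := exists_deg hp (hq.comap _) hp𝔭
    rw [hf]
    exact dvd_pow_self p hf0.ne'
  · exact fun h => over_ne_bot hp hp𝔭 (Ideal.absNorm_eq_zero_iff.mp h)

end

end TatePole.HK
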