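import Pool.Agent.Lib.MP_058a58_ag.HK.Defs

set_option autoImplicit false

/-!
# Hecke characters: the coefficient function on a class of ideals is periodic up to the character
at infinity
-/

namespace Pool.Agent.Lib.MP_058a58_ag.HK

open NumberField Filter Topology nonZeroDivisors
open Pool.Agent.MP_058a58_ag.Ch (io)

variable {K : Type*} [Field K] [NumberField K]

open Classical in
/-- The ideal `I` with `L = J * I` if `J` divides `L`. -/
noncomputable def quo (J L : Ideal (𝓞 K)) : Ideal (𝓞 K) :=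
  if h : J ∣ L then h.choose else ⊤

omit [NumberField K] in
lemma mul_quo {J L : Ideal (𝓞 K)} (h : J ∣ L) : L = J * quo J L := by
  classical
  unfold quo
  rw [dif_pos h]
  exact h.choose_spec

lemma quo_mul {J : Ideal (𝓞 K)} (hJ : J ≠ ⊥) (I : Ideal (𝓞 K)) : quo J (J * I) = I :=
  (mul_left_cancel₀ hJ (mul_quo (Dvd.intro I rfl))).symm

omit [NumberField K] in
lemma span_unit_mul (e : (𝓞 K)ˣ) (x : 𝓞 K) :
    Ideal.span {(e : 𝓞 K) * x} = Ideal.span {x} := by
  rw [Ideal.span_singleton_eq_span_singleton]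
  exact (associated_unit_mul_left x e e.isUnit)

variable {M : ℕ} {ψ : Ideal (𝓞 K) → ℂ} {om : mixedEmbedding.mixedSpace K → ℂ}

lemma key_aux (h : IsHecke K M ψ om) {J : Ideal (𝓞 K)} (hJ : J ≠ ⊥) {x y : 𝓞 K}
    (hx : x ≠ 0) (hy : y ≠ 0) (hxJ : x ∈ J) (hyJ : y ∈ J)
    (hc : ((M * Ideal.absNorm J : ℕ) : 𝓞 K) ∣ x - y)
    (hcop : IsCoprime (quo J (Ideal.span {y})) (Ideal.span {(M : 𝓞 K)})) :
    ψ (quo J (Ideal.span {x})) * om (io K y) = ψ (quo J (Ideal.span {y})) * om (io K x) := by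
  have hA := mul_quo (J := J) (L := Ideal.span {x}) (Ideal.dvd_span_singleton.2 hxJ)
  have hB := mul_quo (J := J) (L := Ideal.span {y}) (Ideal.dvd_span_singleton.2 hyJ)
  set A := quo J (Ideal.span {x}) with hAd
  set B := quo J (Ideal.span {y}) with hBd
  have hB0 : B ≠ ⊥ := by
    intro h0
    rw [h0, Ideal.mul_bot, Ideal.span_singleton_eq_bot] at hB
    exact hy hB
  have hM0 : (M : 𝓞 K) ≠ 0 := by
    have := h.pos
    exact_mod_cast (by omega : M ≠ 0)
  -- an element of `B`, congruent to `1` modulo `M`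
  obtain ⟨t, ht0, htB, htM⟩ : ∃ t : 𝓞 K, t ≠ 0 ∧ t ∈ B ∧ (M : 𝓞 K) ∣ t - 1 := by
    obtain ⟨t, htB, c, hcM, htc⟩ := Ideal.isCoprime_iff_exists.1 hcop
    have h1 : (M : 𝓞 K) ∣ t - 1 := by
      have h2 : (M : 𝓞 K) ∣ c := Ideal.mem_span_singleton.1 hcM
      have h3 : t - 1 = -c := by rw [← htc]; ring
      rw [h3]
      exact (dvd_neg).2 h2
    by_cases ht : t = 0
    · obtain ⟨d, hdB, hd0⟩ := Submodule.exists_mem_ne_zero_of_ne_bot hB0
      refine ⟨t + M * d, ?_, B.add_mem htB (B.mul_mem_left _ hdB), ?_⟩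
      · rw [ht, zero_add]
        exact mul_ne_zero hM0 hd0
      · have h3 : t + M * d - 1 = (t - 1) + M * d := by ring
        rw [h3]
        exact dvd_add h1 (dvd_mul_right _ _)
    · exact ⟨t, ht, htB, h1⟩
  have hBt : B ∣ Ideal.span {t} := Ideal.dvd_span_singleton.2 htB
  have hyt : y ∣ t * x := by
    rw [← Ideal.span_singleton_le_span_singleton, ← Ideal.dvd_iff_le,
      ← Ideal.span_singleton_mul_span_singleton, hA, hB, mul_comm J B]
    exact mul_dvd_mul hBt (dvd_mul_right _ _)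
  obtain ⟨α, hα⟩ := hyt
  have hα0 : α ≠ 0 := by
    rintro rfl
    rw [mul_zero] at hα
    exact mul_ne_zero ht0 hx hα
  have hideal : Ideal.span {α} * B = Ideal.span {t} * A := by
    have h1 : J * (Ideal.span {α} * B) = J * (Ideal.span {t} * A) := by
      calc J * (Ideal.span {α} * B) = (J * B) * Ideal.span {α} := by ring
        _ = Ideal.span {y} * Ideal.span {α} := by rw [← hB]
        _ = Ideal.span {t * x} := by rw [Ideal.span_singleton_mul_span_singleton, hα]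
        _ = Ideal.span {t} * Ideal.span {x} := by rw [Ideal.span_singleton_mul_span_singleton]
        _ = Ideal.span {t} * (J * A) := by rw [← hA]
        _ = J * (Ideal.span {t} * A) := by ring
    exact mul_left_cancel₀ hJ h1
  obtain ⟨z, hz⟩ := hc
  obtain ⟨w, hw⟩ : y ∣ (Ideal.absNorm J : 𝓞 K) * t := by
    rw [← Ideal.span_singleton_le_span_singleton, ← Ideal.dvd_iff_le,
      ← Ideal.span_singleton_mul_span_singleton, hB]
    exact mul_dvd_mul (Ideal.dvd_span_singleton.2 (Ideal.absNorm_mem J)) hBt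
  have hαt : α - t = (M : 𝓞 K) * (w * z) := by
    apply mul_left_cancel₀ hy
    push_cast at hz
    linear_combination -hα + t * hz + ((M : 𝓞 K) * z) * hw
  have hαM : (M : 𝓞 K) ∣ α - 1 := by
    have h3 : α - 1 = (α - t) + (t - 1) := by ring
    rw [h3, hαt]
    exact dvd_add (dvd_mul_right _ _) htM
  have h1 := congrArg ψ hideal
  rw [h.mul, h.mul, h.prin α hα0 hαM, h.prin t ht0 htM] at h1
  have h2 := congrArg (fun v => om (io K v)) hα
  beta_reduce at h2
  rw [h.om_mul t x ht0 hx, h.om_mul y α hy hα0] at h2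
  have ht1 : om (io K t) ≠ 0 := by
    intro h0
    have := h.om_norm t ht0
    rw [h0, norm_zero] at this
    exact zero_ne_one this
  apply mul_left_cancel₀ ht1
  linear_combination (-(om (io K y))) * h1 - (ψ B) * h2

/-- The key congruence. -/
lemma key (h : IsHecke K M ψ om) {J : Ideal (𝓞 K)} (hJ : J ≠ ⊥) {x y : 𝓞 K}
    (hx : x ≠ 0) (hy : y ≠ 0) (hxJ : x ∈ J) (hyJ : y ∈ J)
    (hc : ((M * Ideal.absNorm J : ℕ) : 𝓞 K) ∣ x - y) :
    ψ (quo J (Ideal.span {x})) * om (io K y) = ψ (quo J (Ideal.span {y})) * om (io K x) := by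
  by_cases h1 : IsCoprime (quo J (Ideal.span {y})) (Ideal.span {(M : 𝓞 K)})
  · exact key_aux h hJ hx hy hxJ hyJ hc h1
  · by_cases h2 : IsCoprime (quo J (Ideal.span {x})) (Ideal.span {(M : 𝓞 K)})
    · refine (key_aux h hJ hy hx hyJ hxJ ?_ h2).symm
      have h3 : y - x = -(x - y) := by ring
      rw [h3]
      exact (dvd_neg).2 hc
    · rw [h.zero _ h1, h.zero _ h2, zero_mul, zero_mul]

/-- `x`, and `Q` for `x = 0`. -/
noncomputable def fx (Q : ℕ) (x : 𝓞 K) : 𝓞 K := by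
  classical
  exact if x = 0 then (Q : 𝓞 K) else x

omit [NumberField K] in
lemma fx_of_ne (Q : ℕ) {x : 𝓞 K} (hx : x ≠ 0) : fx Q x = x := if_neg hx

lemma fx_ne {Q : ℕ} (hQ : 1 ≤ Q) (x : 𝓞 K) : fx Q x ≠ 0 := by
  unfold fx
  split_ifs with h
  · exact_mod_cast (by omega : Q ≠ 0)
  · exact h

omit [NumberField K] in
lemma dvd_fx_sub (Q : ℕ) (x : 𝓞 K) : (Q : 𝓞 K) ∣ fx Q x - x := by
  unfold fx
  split_ifs with h
  · rw [h, sub_zero]
  · rw [sub_self]
    exact dvd_zero _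

/-- The coefficient function without the character at infinity. -/
noncomputable def gC (ψ : Ideal (𝓞 K) → ℂ) (om : mixedEmbedding.mixedSpace K → ℂ)
    (J : Ideal (𝓞 K)) (Q : ℕ) (x : 𝓞 K) : ℂ := by
  classical
  exact if x ∈ J then ψ (quo J (Ideal.span {fx Q x})) *
    (starRingEnd ℂ) (om (io K (fx Q x))) else 0

omit [NumberField K] in
lemma om_star (h : IsHecke K M ψ om) {x : 𝓞 K} (hx : x ≠ 0) :
    (starRingEnd ℂ) (om (io K x)) * om (io K x) = 1 := by
  rw [mul_comm, Complex.mul_conj, Complex.normSq_eq_norm_sq, h.om_norm x hx]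
  norm_num

lemma norm_gC_le (h : IsHecke K M ψ om) (J : Ideal (𝓞 K)) {Q : ℕ} (hQ : 1 ≤ Q) (x : 𝓞 K) :
    ‖gC ψ om J Q x‖ ≤ 1 := by
  unfold gC
  split_ifs
  · rw [norm_mul, RCLike.norm_conj, h.om_norm _ (fx_ne hQ x), mul_one]
    exact h.norm_le _
  · rw [norm_zero]
    exact zero_le_one

lemma gC_mul_om (h : IsHecke K M ψ om) {J : Ideal (𝓞 K)} (Q : ℕ) {x : 𝓞 K} (hx : x ≠ 0)
    (hxJ : x ∈ J) : gC ψ om J Q x * om (io K x) = ψ (quo J (Ideal.span {x})) := by
  unfold gC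
  rw [if_pos hxJ, fx_of_ne Q hx, mul_assoc, om_star h hx, mul_one]

omit [NumberField K] in
lemma gC_of_notMem {J : Ideal (𝓞 K)} (Q : ℕ) {x : 𝓞 K} (hxJ : x ∉ J) :
    gC ψ om J Q x = 0 := by
  unfold gC
  rw [if_neg hxJ]

lemma gC_unit (h : IsHecke K M ψ om) (J : Ideal (𝓞 K)) (Q : ℕ) (e : (𝓞 K)ˣ) (x : 𝓞 K) :
    gC ψ om J Q (e * x) * om (io K (e * x)) = gC ψ om J Q x * om (io K x) := by
  by_cases hx : x = 0
  · rw [hx, mul_zero]
  · have hex : (e : 𝓞 K) * x ≠ 0 := mul_ne_zero e.ne_zero hx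
    by_cases hJ : x ∈ J
    · rw [gC_mul_om h Q hx hJ, gC_mul_om h Q hex (J.mul_mem_left _ hJ), span_unit_mul]
    · have h2 : (e : 𝓞 K) * x ∉ J := by
        intro h3
        apply hJ
        have := J.mul_mem_left (e⁻¹ : (𝓞 K)ˣ) h3
        rwa [Units.inv_mul_cancel_left] at this
      rw [gC_of_notMem Q hJ, gC_of_notMem Q h2, zero_mul, zero_mul]

lemma gC_per (h : IsHecke K M ψ om) {J : Ideal (𝓞 K)} (hJ : J ≠ ⊥) (x y : 𝓞 K) :
    gC ψ om J (M * Ideal.absNorm J) (x + ((M * Ideal.absNorm J : ℕ) : 𝓞 K) * y) =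
      gC ψ om J (M * Ideal.absNorm J) x := by
  set Q := M * Ideal.absNorm J with hQd
  have hQ : 1 ≤ Q := by
    have h1 := h.pos
    have h2 : Ideal.absNorm J ≠ 0 := by
      rw [Ne, Ideal.absNorm_eq_zero_iff]
      exact hJ
    exact Nat.mul_pos h1 (Nat.pos_of_ne_zero h2)
  have hQJ : (Q : 𝓞 K) ∈ J := by
    rw [hQd]
    push_cast
    exact J.mul_mem_left _ (Ideal.absNorm_mem J)
  have hfJ : ∀ x : 𝓞 K, x ∈ J → fx Q x ∈ J := by
    intro x hx
    unfold fx
    split_ifs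
    · exact hQJ
    · exact hx
  by_cases hx : x ∈ J
  · have hx' : x + (Q : 𝓞 K) * y ∈ J := J.add_mem hx (J.mul_mem_right _ hQJ)
    have hc : (Q : 𝓞 K) ∣ fx Q (x + (Q : 𝓞 K) * y) - fx Q x := by
      have e : fx Q (x + (Q : 𝓞 K) * y) - fx Q x =
          (fx Q (x + (Q : 𝓞 K) * y) - (x + (Q : 𝓞 K) * y)) - (fx Q x - x) + (Q : 𝓞 K) * y := by
        ring
      rw [e]
      exact dvd_add (dvd_sub (dvd_fx_sub Q _) (dvd_fx_sub Q _)) (dvd_mul_right _ _)
    have hk := key h hJ (fx_ne hQ (x + (Q : 𝓞 K) * y)) (fx_ne hQ x) (hfJ _ hx') (hfJ _ hx) hc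
    have h1 := om_star h (fx_ne hQ (x + (Q : 𝓞 K) * y))
    have h2 := om_star h (fx_ne hQ x)
    unfold gC
    rw [if_pos hx', if_pos hx]
    linear_combination ((starRingEnd ℂ) (om (io K (fx Q (x + (Q : 𝓞 K) * y)))) *
      (starRingEnd ℂ) (om (io K (fx Q x)))) * hk
      + (ψ (quo J (Ideal.span {fx Q x})) * (starRingEnd ℂ) (om (io K (fx Q x)))) * h1
      - (ψ (quo J (Ideal.span {fx Q (x + (Q : 𝓞 K) * y)})) *
        (starRingEnd ℂ) (om (io K (fx Q (x + (Q : 𝓞 K) * y))))) * h2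
  · have hx' : x + (Q : 𝓞 K) * y ∉ J := by
      intro h1
      apply hx
      have := J.sub_mem h1 (J.mul_mem_right y hQJ)
      rwa [add_sub_cancel_right] at this
    rw [gC_of_notMem Q hx, gC_of_notMem Q hx']

end Pool.Agent.Lib.MP_058a58_ag.HK
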