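import Pool.Agent.Lib.MP_058a58_ag.HK.Kappa
import Pool.Agent.Lib.MP_058a58_ag.AT.LatW3

set_option autoImplicit false

/-!
# An infinity type which is of finite order on the integers is trivial
-/

namespace Pool.Agent.Lib.MP_058a58_ag.HK

open NumberField Filter Topology nonZeroDivisors
open NumberField.mixedEmbedding
open Pool.Agent.MP_058a58_ag.Ch (io OmegaOK io_add io_nat_mul omE omegaOK_omE omE_io omE_io' phs
  phs_mul coordE normAtPlace_le_norm cpow_phase norm_omE_io phs_one)

variable {K : Type*} [Field K] [NumberField K]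

open scoped Classical in
/-- the ring of integers is a lattice -/
lemma exists_near (K : Type*) [Field K] [NumberField K] : ∃ C : ℝ, 0 ≤ C ∧
    ∀ y : mixedSpace K, ∃ b : 𝓞 K, ‖io K b - y‖ ≤ C := by
  refine ⟨∑ i, ‖latticeBasis K i‖, Finset.sum_nonneg fun i _ => norm_nonneg _, fun y => ?_⟩
  have h1 : ((ZSpan.floor (latticeBasis K) y : Submodule.span ℤ (Set.range (latticeBasis K))) :
      mixedSpace K) ∈ mixedEmbedding.integerLattice K :=
    (mem_span_latticeBasis K).1 (ZSpan.floor (latticeBasis K) y).2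
  obtain ⟨b, hb⟩ := h1
  refine ⟨b, ?_⟩
  have h2 : io K b = ((ZSpan.floor (latticeBasis K) y :
      Submodule.span ℤ (Set.range (latticeBasis K))) : mixedSpace K) := hb
  rw [h2, norm_sub_rev, ← ZSpan.fract_apply]
  exact ZSpan.norm_fract_le _ _

omit [NumberField K] in
lemma coordE_smul (φ : K →+* ℂ) (c : ℝ) (x : mixedSpace K) :
    coordE K φ (c • x) = (c : ℂ) * coordE K φ x := by
  unfold coordE
  split_ifs <;> simp

lemma omE_smul (k : (K →+* ℂ) → ℤ) (τ : (K →+* ℂ) → ℝ) (N : ℕ) (x : mixedSpace K) :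
    omE K k τ ((N : ℝ) • x) = omE K k τ (io K (N : 𝓞 K)) * omE K k τ x := by
  rw [omE_io']
  unfold omE
  rw [← Finset.prod_mul_distrib]
  refine Finset.prod_congr rfl fun φ _ => ?_
  rw [coordE_smul, ← phs_mul]
  congr 2
  simp

open scoped Classical in
/-- an infinity type whose `n`-th power is trivial on the integers: its `n`-th power is trivial -/
lemma omE_pow_eq_one {k : (K →+* ℂ) → ℤ} {τ : (K →+* ℂ) → ℝ} {n : ℕ}
    (h : ∀ b : 𝓞 K, b ≠ 0 → omE K k τ (io K b) ^ n = 1) {x : mixedSpace K}
    (hx : ∀ w : InfinitePlace K, normAtPlace w x ≠ 0) : omE K k τ x ^ n = 1 := by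
  have hom := (omegaOK_omE k τ).pow n
  obtain ⟨C, hC, hlip⟩ := hom.lip
  obtain ⟨C', hC', hnear⟩ := exists_near K
  obtain ⟨w0, -, hw0⟩ := Finset.exists_min_image (Finset.univ : Finset (InfinitePlace K))
    (fun w => normAtPlace w x) Finset.univ_nonempty
  set m := normAtPlace w0 x with hm
  have hm0 : 0 < m := lt_of_le_of_ne (normAtPlace_nonneg _ _) (hx w0).symm
  have hkey : ∀ᶠ N : ℕ in atTop, ‖1 - omE K k τ x ^ n‖ ≤ (C * C' / m) / (N : ℝ) := by
    have hlarge : ∀ᶠ N : ℕ in atTop, (2 * C' + 1) / m ≤ (N : ℝ) :=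
      tendsto_natCast_atTop_atTop.eventually (eventually_ge_atTop _)
    filter_upwards [hlarge, eventually_ge_atTop 1] with N hN hN1
    have hN0 : (0 : ℝ) < N := by exact_mod_cast hN1
    rw [div_le_iff₀ hm0] at hN
    have ha : 0 < (N : ℝ) * m := mul_pos hN0 hm0
    obtain ⟨b, hb⟩ := hnear ((N : ℝ) • x)
    have hw : ∀ w : InfinitePlace K, (N : ℝ) * m ≤ normAtPlace w ((N : ℝ) • x) := fun w => by
      rw [normAtPlace_smul, abs_of_nonneg (Nat.cast_nonneg _)]
      exact mul_le_mul_of_nonneg_left (hw0 w (Finset.mem_univ w)) (Nat.cast_nonneg _)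
    have hb0 : b ≠ 0 := by
      rintro rfl
      have h0 : io K (0 : 𝓞 K) = 0 := by
        unfold io
        simp
      rw [h0, zero_sub, norm_neg] at hb
      have h1 := (hw w0).trans ((normAtPlace_le_norm K ((N : ℝ) • x) w0).trans hb)
      linarith
    have h1 := hlip ((N : ℝ) • x) (io K b - (N : ℝ) • x) _ ha hw (by linarith)
    rw [add_sub_cancel, h b hb0, omE_smul, mul_pow] at h1
    have hN2 : (N : 𝓞 K) ≠ 0 := by
      have : N ≠ 0 := by omega
      exact_mod_cast this
    rw [h _ hN2, one_mul] at h1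
    refine h1.trans ?_
    rw [div_div, mul_comm m (N : ℝ)]
    exact div_le_div_of_nonneg_right (mul_le_mul_of_nonneg_left hb hC) ha.le
  have hlim : Tendsto (fun N : ℕ => (C * C' / m) / (N : ℝ)) atTop (𝓝 0) :=
    tendsto_const_div_atTop_nhds_zero_nat _
  have h0 : ‖1 - omE K k τ x ^ n‖ ≤ 0 := ge_of_tendsto hlim hkey
  have h1 : 1 - omE K k τ x ^ n = 0 := norm_eq_zero.1 (le_antisymm h0 (norm_nonneg _))
  exact (sub_eq_zero.1 h1).symm

/-! ### test elements -/

open scoped Classical in
/-- the element with the coordinate `r` or `z` at `w` and `1` at the other places -/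
noncomputable def tst (w : InfinitePlace K) (r : ℝ) (z : ℂ) : mixedSpace K :=
  (fun w' => if w'.1 = w then r else 1, fun w' => if w'.1 = w then z else 1)

open scoped Classical in
omit [NumberField K] in
lemma coordE_tst (w : InfinitePlace K) (r : ℝ) (z : ℂ) (φ : K →+* ℂ) :
    coordE K φ (tst w r z) = if InfinitePlace.mk φ = w then
      (if InfinitePlace.IsReal (InfinitePlace.mk φ) then (r : ℂ) else
        if (InfinitePlace.mk φ).embedding = φ then z else (starRingEnd ℂ) z) else 1 := by
  unfold coordE tst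
  split_ifs <;> simp_all

omit [NumberField K] in
lemma normAtPlace_tst (w : InfinitePlace K) {r : ℝ} {z : ℂ} (hr : r ≠ 0) (hz : z ≠ 0)
    (w' : InfinitePlace K) : normAtPlace w' (tst w r z) ≠ 0 := by
  have h1 := Pool.Agent.MP_058a58_ag.Ch.norm_coordE w'.embedding (tst w r z)
  rw [InfinitePlace.mk_embedding] at h1
  rw [← h1, norm_ne_zero_iff, coordE_tst]
  split_ifs
  · exact_mod_cast hr
  · exact hz
  · rw [Ne, map_eq_zero]
    exact hz
  · exact one_ne_zero

lemma phs_exp (k : ℤ) (t r : ℝ) : phs k t ((Real.exp r : ℝ) : ℂ) =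
    Complex.exp (((t * r : ℝ) : ℂ) * Complex.I) := by
  have hpos := Real.exp_pos r
  unfold phs
  rw [Complex.norm_real, Real.norm_of_nonneg hpos.le, cpow_phase hpos, Real.log_exp, div_self,
    one_zpow, one_mul, mul_comm]
  exact_mod_cast hpos.ne'

lemma phs_circle (k : ℤ) (t θ : ℝ) : phs k t (Complex.exp ((θ : ℂ) * Complex.I)) =
    Complex.exp (((k * θ : ℝ) : ℂ) * Complex.I) := by
  unfold phs
  rw [Complex.norm_exp_ofReal_mul_I, Complex.ofReal_one, div_one, Complex.one_cpow, mul_one,
    ← Complex.exp_int_mul]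
  congr 1
  push_cast
  ring

lemma phs_conj (k : ℤ) (t : ℝ) {z : ℂ} (hz : z ≠ 0) :
    phs k t ((starRingEnd ℂ) z) = phs (-k) t z := by
  unfold phs
  rw [RCLike.norm_conj]
  congr 1
  have hn : ((‖z‖ : ℝ) : ℂ) ≠ 0 := by exact_mod_cast (norm_ne_zero_iff.2 hz)
  rw [zpow_neg, ← inv_zpow]
  congr 1
  rw [inv_div, div_eq_div_iff hn hz, mul_comm, ← pow_two]
  exact Complex.mul_conj' z

lemma phs_mul_phs (k k' : ℤ) (t t' : ℝ) {z : ℂ} (hz : z ≠ 0) :
    phs k t z * phs k' t' z = phs (k + k') (t + t') z := by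
  unfold phs
  have hn : ((‖z‖ : ℝ) : ℂ) ≠ 0 := by exact_mod_cast (norm_ne_zero_iff.2 hz)
  have h1 : z / ((‖z‖ : ℝ) : ℂ) ≠ 0 := div_ne_zero hz hn
  rw [zpow_add₀ h1]
  have h2 : (((t + t' : ℝ) : ℂ) * Complex.I) = (t : ℂ) * Complex.I + (t' : ℂ) * Complex.I := by
    push_cast
    ring
  rw [h2, Complex.cpow_add _ _ hn]
  ring

/-- if the `n`-th power of `(z/|z|)^k |z|^(it)` is trivial, then `k = 0` and `t = 0` -/
lemma type_zero {k : ℤ} {t : ℝ} {n : ℕ} (hn : 0 < n) (h : ∀ z : ℂ, z ≠ 0 → phs k t z ^ n = 1) :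
    k = 0 ∧ t = 0 := by
  have hn0 : (n : ℝ) ≠ 0 := by exact_mod_cast hn.ne'
  constructor
  · by_contra hk
    have hk0 : (k : ℝ) ≠ 0 := by exact_mod_cast hk
    have h1 := h _ (Complex.exp_ne_zero (((Real.pi / (n * k) : ℝ) : ℂ) * Complex.I))
    rw [phs_circle, ← Complex.exp_nat_mul] at h1
    have h2 : (n : ℂ) * (((k * (Real.pi / (n * k)) : ℝ) : ℂ) * Complex.I) =
        (Real.pi : ℂ) * Complex.I := by
      have h3 : (k : ℝ) * (Real.pi / (n * k)) = Real.pi / n := by field_simp
      rw [h3]
      have h4 : (n : ℂ) ≠ 0 := by exact_mod_cast hn.ne'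
      push_cast
      field_simp
    rw [h2, Complex.exp_pi_mul_I] at h1
    norm_num at h1
  · by_contra ht
    have h1 := h ((Real.exp (Real.pi / (n * t)) : ℝ) : ℂ) (by exact_mod_cast (Real.exp_pos _).ne')
    rw [phs_exp, ← Complex.exp_nat_mul] at h1
    have h2 : (n : ℂ) * (((t * (Real.pi / (n * t)) : ℝ) : ℂ) * Complex.I) =
        (Real.pi : ℂ) * Complex.I := by
      have h3 : t * (Real.pi / (n * t)) = Real.pi / n := by field_simp
      rw [h3]
      have h4 : (n : ℂ) ≠ 0 := by exact_mod_cast hn.ne'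
      push_cast
      field_simp
    rw [h2, Complex.exp_pi_mul_I] at h1
    norm_num at h1

/-- the same for the absolute values only -/
lemma type_zero_real {k : ℤ} {t : ℝ} {n : ℕ} (hn : 0 < n)
    (h : ∀ r : ℝ, phs k t ((Real.exp r : ℝ) : ℂ) ^ n = 1) : t = 0 := by
  have hn0 : (n : ℝ) ≠ 0 := by exact_mod_cast hn.ne'
  by_contra ht
  have h1 := h (Real.pi / (n * t))
  rw [phs_exp, ← Complex.exp_nat_mul] at h1
  have h2 : (n : ℂ) * (((t * (Real.pi / (n * t)) : ℝ) : ℂ) * Complex.I) =
      (Real.pi : ℂ) * Complex.I := by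
    have h3 : t * (Real.pi / (n * t)) = Real.pi / n := by field_simp
    rw [h3]
    have h4 : (n : ℂ) ≠ 0 := by exact_mod_cast hn.ne'
    push_cast
    field_simp
  rw [h2, Complex.exp_pi_mul_I] at h1
  norm_num at h1

lemma phs_one' (k : ℤ) (t : ℝ) : phs k t 1 = 1 := by
  unfold phs
  simp

/-- the components of an infinity type whose `n`-th power is trivial on the integers -/
theorem infTy_zero {k : (K →+* ℂ) → ℤ} {τ : (K →+* ℂ) → ℝ} {n : ℕ} (hn : 0 < n)
    (h : ∀ b : 𝓞 K, b ≠ 0 → omE K k τ (io K b) ^ n = 1) (w : InfinitePlace K) :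
    k w.embedding - k ((starRingEnd ℂ).comp w.embedding) = 0 ∧
      τ w.embedding + τ ((starRingEnd ℂ).comp w.embedding) = 0 := by
  classical
  have hconj : ∀ φ : K →+* ℂ, (starRingEnd ℂ).comp φ = ComplexEmbedding.conjugate φ := fun φ => by
    ext x
    simp
  by_cases hw : w.IsReal
  · have hcw : (starRingEnd ℂ).comp w.embedding = w.embedding := by
      rw [hconj]
      exact InfinitePlace.conjugate_embedding_eq_of_isReal hw
    rw [hcw, sub_self]
    refine ⟨rfl, ?_⟩
    have h1 : τ w.embedding = 0 := by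
      refine type_zero_real (k := k w.embedding) hn fun r => ?_
      have h2 := omE_pow_eq_one h (x := tst w (Real.exp r) 1)
        (normAtPlace_tst w (Real.exp_pos r).ne' one_ne_zero)
      unfold omE at h2
      rw [Finset.prod_eq_single w.embedding] at h2
      · rwa [coordE_tst, InfinitePlace.mk_embedding, if_pos rfl, if_pos hw] at h2
      · intro φ _ hφ
        rw [coordE_tst, if_neg, phs_one']
        intro h3
        rcases InfinitePlace.embedding_mk_eq φ with h4 | h4
        · rw [h3] at h4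
          exact hφ h4.symm
        · rw [h3] at h4
          apply hφ
          have h5 : ComplexEmbedding.conjugate w.embedding = φ := by
            rw [h4]
            ext x
            simp
          rw [← h5]
          exact InfinitePlace.conjugate_embedding_eq_of_isReal hw
      · intro h3
        exact absurd (Finset.mem_univ _) h3
    rw [h1, add_zero]
  · have hwc : w.IsComplex := InfinitePlace.not_isReal_iff_isComplex.1 hw
    have hne : w.embedding ≠ ComplexEmbedding.conjugate w.embedding := by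
      intro h3
      apply hw
      rw [InfinitePlace.isReal_iff]
      exact h3.symm
    have hmkc : InfinitePlace.mk (ComplexEmbedding.conjugate w.embedding) = w := by
      rw [InfinitePlace.mk_conjugate_eq, InfinitePlace.mk_embedding]
    rw [hconj]
    have h1 := type_zero (k := k w.embedding - k (ComplexEmbedding.conjugate w.embedding))
      (t := τ w.embedding + τ (ComplexEmbedding.conjugate w.embedding)) hn fun z hz => by
      have h2 := omE_pow_eq_one h (x := tst w 1 z) (normAtPlace_tst w one_ne_zero hz)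
      unfold omE at h2
      rw [Finset.prod_eq_mul w.embedding (ComplexEmbedding.conjugate w.embedding) hne] at h2
      · rw [coordE_tst, coordE_tst, InfinitePlace.mk_embedding, hmkc, if_pos rfl, if_pos rfl,
          if_neg hw, if_pos rfl, if_neg hw, if_neg hne, phs_conj _ _ hz, phs_mul_phs _ _ _ _ hz] at h2
        exact h2
      · intro φ _ hφ
        rw [coordE_tst, if_neg, phs_one']
        intro h3
        rcases InfinitePlace.embedding_mk_eq φ with h4 | h4
        · rw [h3] at h4
          exact hφ.1 h4.symm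
        · rw [h3] at h4
          apply hφ.2
          rw [h4]
          ext x
          simp
      · intro h3
        exact absurd (Finset.mem_univ _) h3
      · intro h3
        exact absurd (Finset.mem_univ _) h3
    exact h1

end Pool.Agent.Lib.MP_058a58_ag.HK
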