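import Pool.Agent.Lib.MP_058a58_ag.HK.TypeA
import Pool.Agent.Lib.MP_058a58_ag.HK.StmW2

set_option autoImplicit false

/-!
# A Hecke character with a nontrivial infinity type has infinite order
-/

namespace TatePole.HK

open NumberField Filter Topology nonZeroDivisors
open Pool.Agent.MP_058a58_ag.Ch (io OmegaOK omE omegaOK_omE omE_io norm_omE_io)
open Pool.Agent.Lib.MP_058a58_ag.HK (om_eq_one infTy_zero)

variable {K : Type*} [Field K] [NumberField K]

/-- the universe polymorphic form of [TYPE] -/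
theorem infOrder_of_infTy {M : ℕ} {k : (K →+* ℂ) → ℤ} {τ : (K →+* ℂ) → ℝ}
    {Ψ : Ideal (𝓞 K) → ℂ} (h : IsHeckeChar K M k τ Ψ) (hφ : ∃ φ : K →+* ℂ, infTy k τ φ ≠ 0) :
    InfOrder Ψ := by
  classical
  by_contra hcon
  unfold InfOrder at hcon
  push Not at hcon
  obtain ⟨n, hn, hpow⟩ := hcon
  have h1 : ∀ a : 𝓞 K, a ≠ 0 → (M : 𝓞 K) ∣ a - 1 → omE K k τ (io K a) ^ n = 1 := by
    intro a ha hM
    have h2 := h.ray a ha hM
    have h3 : infVal K k τ (a : K) = omE K k τ (io K a) := by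
      rw [omE_io]
      rfl
    rw [h3] at h2
    have h4 : Ψ (Ideal.span {a}) ≠ 0 := by
      intro h5
      rw [h5] at h2
      have h6 := norm_omE_io k τ ha
      rw [← h2, norm_zero] at h6
      exact zero_ne_one h6
    rw [← h2]
    exact hpow _ h4
  have h2 : ∀ b : 𝓞 K, b ≠ 0 → omE K k τ (io K b) ^ n = 1 := by
    intro b hb
    refine om_eq_one (om := fun x => omE K k τ x ^ n) ((omegaOK_omE k τ).pow n)
      (Nat.one_le_iff_ne_zero.2 h.pos) ?_ hb
    rintro κ z hκ rfl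
    refine h1 _ hκ ?_
    rw [add_sub_cancel_left]
    exact dvd_mul_right _ _
  obtain ⟨φ, hφ⟩ := hφ
  apply hφ
  have h3 := infTy_zero hn h2 (InfinitePlace.mk φ)
  have hcc : ∀ ψ : K →+* ℂ, (starRingEnd ℂ).comp ((starRingEnd ℂ).comp ψ) = ψ := fun ψ => by
    ext x
    simp
  unfold infTy
  rcases InfinitePlace.embedding_mk_eq φ with h4 | h4
  · rw [h4] at h3
    rw [h3.1, h3.2]
    rfl
  · have h5 : (InfinitePlace.mk φ).embedding = (starRingEnd ℂ).comp φ := by
      rw [h4]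
      ext x
      simp
    rw [h5, hcc] at h3
    rw [← neg_sub, h3.1, neg_zero, add_comm, h3.2]
    rfl

/-- [TYPE] -/
theorem type_t : S_TYPE := fun _ _ _ _ _ _ _ h hφ => infOrder_of_infTy h hφ

end TatePole.HK
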