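import Mathlib
import Pool.Agent.Lib.MP_058a58_ag.HK.Core2
import Pool.Agent.Lib.MP_058a58_ag.HK.StmW2

/-!
# Preparations for the inequality for twists by representations of the Weil group
-/

open Polynomial Filter Topology NumberField

namespace TatePole.HK

open TatePole AT

section
variable {E F : Type} [Field E] [NumberField E] [Field F] [NumberField F]

lemma smul_compW (g : GQ) (ψ : F →ₐ[ℚ] QBar) (i : E →ₐ[ℚ] F) : (g • ψ).comp i = g • ψ.comp i := rfl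

/-- a finite set whose pointwise fixer is inside `GF e` -/
lemma exists_fix_set (e : F →ₐ[ℚ] QBar) : ∃ A : Finset QBar, ∀ g : GQ, (∀ x ∈ A, g x = x) →
    g ∈ GF e := by
  classical
  obtain ⟨A, hA⟩ : ∃ A : Finset QBar, A = Finset.univ.image fun i => e (Module.finBasis ℚ F i) :=
    ⟨_, rfl⟩
  refine ⟨A, fun g hg x => ?_⟩
  set b := Module.finBasis ℚ F
  have h4 : ∀ i, g (e (b i)) = e (b i) := fun i => hg _ (by
    rw [hA]
    exact Finset.mem_image.mpr ⟨i, Finset.mem_univ i, rfl⟩)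
  have h5 := b.sum_repr x
  rw [← h5, map_sum, map_sum]
  refine Finset.sum_congr rfl fun i _ => ?_
  have h6 : e (b.repr x i • b i) = b.repr x i • e (b i) := e.toLinearMap.map_smul _ _
  have h7 : g (b.repr x i • e (b i)) = b.repr x i • g (e (b i)) := g.toLinearMap.map_smul _ _
  rw [h6, h7, h4]

/-- transfer of a class function on `GF e₀` -/
lemma extG_transfer (i : E →ₐ[ℚ] F) {e₀ : E →ₐ[ℚ] QBar} {e : F →ₐ[ℚ] QBar} (hei : e.comp i = e₀)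
    (hle : GF e ≤ GF e₀) (f0 : GF e₀ → ℂ) (hcls : ∀ x g : GF e₀, f0 (x⁻¹ * g * x) = f0 g)
    {x0 x : GQ} {ψ : F →ₐ[ℚ] QBar} (hx : x • e = ψ) (hx0 : x0 • e₀ = ψ.comp i) (s : GQ)
    (hmem : x⁻¹ * s * x ∈ GF e) :
    extG e₀ f0 (x0⁻¹ * s * x0) = f0 ⟨x⁻¹ * s * x, hle hmem⟩ := by
  have h1 : x • e₀ = x0 • e₀ := by
    rw [hx0, ← hei, ← smul_compW, hx]
  have h2 : x⁻¹ * x0 ∈ GF e₀ := by
    rw [mem_GF, mul_smul, ← h1, inv_smul_smul]
  have h3 : x0⁻¹ * s * x0 = (x⁻¹ * x0)⁻¹ * (x⁻¹ * s * x) * (x⁻¹ * x0) := by group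
  have h4 : x0⁻¹ * s * x0 ∈ GF e₀ := by
    rw [h3]
    exact mul_mem (mul_mem (inv_mem h2) (hle hmem)) h2
  rw [extG_mem h4]
  have h5 := hcls ⟨x⁻¹ * x0, h2⟩ ⟨x⁻¹ * s * x, hle hmem⟩
  rw [← h5]
  congr 1
  exact Subtype.ext h3

variable {i : E →ₐ[ℚ] F} {e : F →ₐ[ℚ] QBar} {x : (F →ₐ[ℚ] QBar) → GQ} {σ : ℕ → GQ} {f : GF e → ℂ}
  {EE : (F →ₐ[ℚ] QBar) → ℕ → ℂ} {p : ℕ}

lemma zz_not (hx : ∀ ψ, x ψ • e = ψ) {ψ : F →ₐ[ℚ] QBar} (h : ¬ σ p • ψ = ψ) :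
    zz e x σ f EE p ψ = 0 := by
  unfold zz
  rw [extG_not (fun h' => h ((conj_mem_GF (hx ψ)).mp h')), zero_mul]

end

section
variable {E F : Type} [Field E] [NumberField E] [Field F] [NumberField F]
  {i : E →ₐ[ℚ] F} {e : F →ₐ[ℚ] QBar} {x : (F →ₐ[ℚ] QBar) → GQ} {σ : ℕ → GQ} {f : GF e → ℂ}
  {EE : (F →ₐ[ℚ] QBar) → ℕ → ℂ} {p : ℕ}

lemma zI_not (hx : ∀ ψ, x ψ • e = ψ) {ψ₀ : E →ₐ[ℚ] QBar}
    (h : ∀ ψ : F →ₐ[ℚ] QBar, ψ.comp i = ψ₀ → ¬ σ p • ψ = ψ) :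
    zI i e x σ f EE p ψ₀ = 0 := by
  classical
  unfold zI
  refine Finset.sum_eq_zero fun ψ _ => ?_
  split_ifs with h1
  · exact zz_not hx (h ψ h1)
  · rfl

lemma norm_zz_leW {C : ℝ} (hC0 : 0 ≤ C) (hC : ∀ g, ‖f g‖ ≤ C) (hE : ∀ ψ, ‖EE ψ p‖ ≤ 1)
    (ψ : F →ₐ[ℚ] QBar) : ‖zz e x σ f EE p ψ‖ ≤ C := by
  unfold zz
  rw [norm_mul]
  calc _ ≤ C * 1 := mul_le_mul (norm_extG_le hC hC0 _) (hE ψ) (norm_nonneg _) hC0
    _ = C := mul_one _

lemma norm_zI_le {C : ℝ} (hC0 : 0 ≤ C) (hC : ∀ g, ‖f g‖ ≤ C) (hE : ∀ ψ, ‖EE ψ p‖ ≤ 1)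
    (ψ₀ : E →ₐ[ℚ] QBar) : ‖zI i e x σ f EE p ψ₀‖ ≤ Fintype.card (F →ₐ[ℚ] QBar) * C := by
  classical
  unfold zI
  refine (norm_sum_le _ _).trans ?_
  have h1 : ∀ ψ ∈ (Finset.univ : Finset (F →ₐ[ℚ] QBar)),
      ‖if ψ.comp i = ψ₀ then zz e x σ f EE p ψ else 0‖ ≤ C := by
    intro ψ _
    split_ifs
    · exact norm_zz_leW hC0 hC hE ψ
    · rw [norm_zero]; exact hC0
  refine (Finset.sum_le_sum h1).trans ?_
  rw [Finset.sum_const, Finset.card_univ, nsmul_eq_mul]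

/-- the sum over `ψ₀` of a function times `zI` is a sum over the embeddings of `F` -/
lemma sum_mul_zI (G : (E →ₐ[ℚ] QBar) → ℂ) :
    ∑ ψ₀ : E →ₐ[ℚ] QBar, G ψ₀ * zI i e x σ f EE p ψ₀ =
      ∑ ψ : F →ₐ[ℚ] QBar, G (ψ.comp i) * zz e x σ f EE p ψ := by
  classical
  unfold zI
  simp only [Finset.mul_sum]
  rw [Finset.sum_comm]
  refine Finset.sum_congr rfl fun ψ _ => ?_
  simp only [mul_ite, mul_zero]
  rw [Finset.sum_ite_eq Finset.univ (ψ.comp i), if_pos (Finset.mem_univ _)]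

lemma conj_zI (ψ₀ : E →ₐ[ℚ] QBar) : (starRingEnd ℂ) (zI i e x σ f EE p ψ₀) =
    zI i e x σ (fun g => (starRingEnd ℂ) (f g)) (fun ψ p => (starRingEnd ℂ) (EE ψ p)) p ψ₀ := by
  classical
  unfold zI
  rw [map_sum]
  refine Finset.sum_congr rfl fun ψ _ => ?_
  rw [apply_ite (starRingEnd ℂ), map_zero]
  congr 1
  unfold zz
  rw [map_mul]
  congr 1
  by_cases h : (x ψ)⁻¹ * σ p * x ψ ∈ GF e
  · rw [extG_mem h, extG_mem h]
  · rw [extG_not h, extG_not h, map_zero]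

end

section
variable {k : Type*} [Field k] {G : Type*} [Group G] {W : Type*} [AddCommGroup W] [Module k W]
  [FiniteDimensional k W]

/-- the difference of the traces on `W` and on `B` at `g⁻¹` -/
noncomputable def trDiff (ι : k →+* ℂ) (ρ : Representation k G W) (B : Submodule k W)
    (hB : ∀ g : G, ∀ w ∈ B, ρ g w ∈ B) (g : G) : ℂ :=
  ι (LinearMap.trace k W (ρ g⁻¹)) - ι (LinearMap.trace k B ((ρ g⁻¹).restrict (hB g⁻¹)))

lemma trDiff_eq (ι : k →+* ℂ) (ρ : Representation k G W) (B : Submodule k W)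
    (hB : ∀ g : G, ∀ w ∈ B, ρ g w ∈ B) (g : G) :
    trDiff ι ρ B hB g = ι (LinearMap.trace k _ (ρ.quotient B hB g⁻¹)) := by
  unfold trDiff
  rw [trace_quoG ρ B hB ι]
  ring

lemma trDiff_conj (ι : k →+* ℂ) (ρ : Representation k G W) (B : Submodule k W)
    (hB : ∀ g : G, ∀ w ∈ B, ρ g w ∈ B) (x g : G) :
    trDiff ι ρ B hB (x⁻¹ * g * x) = trDiff ι ρ B hB g := by
  rw [trDiff_eq, trDiff_eq]
  have h1 := Representation.char_conj (ρ.quotient B hB) g⁻¹ x⁻¹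
  rw [inv_inv] at h1
  have h2 : (x⁻¹ * g * x)⁻¹ = x⁻¹ * g⁻¹ * x := by group
  rw [h2]
  exact congrArg ι h1

lemma tr_conj (ι : k →+* ℂ) (ρ : Representation k G W) (x g : G) :
    ι (LinearMap.trace k W (ρ (x⁻¹ * g * x)⁻¹)) = ι (LinearMap.trace k W (ρ g⁻¹)) := by
  have h1 := Representation.char_conj ρ g⁻¹ x⁻¹
  rw [inv_inv] at h1
  have h2 : (x⁻¹ * g * x)⁻¹ = x⁻¹ * g⁻¹ * x := by group
  rw [h2]
  exact congrArg ι h1

end

/-- the fibre sums of an indicator -/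
lemma sum_fiber_ge {X Y : Type*} [Fintype X] [Fintype Y] (π : X → Y) (P : X → Prop)
    (a : ℕ) (f : Y → ℝ) (hf : ∀ y, 0 ≤ f y)
    (ha : ∀ y, (∃ x, π x = y ∧ P x) → a ≤ Nat.card {x // π x = y ∧ P x}) (S : Y → Prop)
    (hS : ∀ y, S y → ∃ x, π x = y ∧ P x) [DecidablePred P] [DecidablePred S] :
    (a : ℝ) * ∑ y, (if S y then f y else 0) ≤ ∑ x, if P x then f (π x) else 0 := by
  classical
  have h1 : ∑ x, (if P x then f (π x) else 0) =
      ∑ y, (Nat.card {x // π x = y ∧ P x} : ℝ) * f y := by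
    rw [← Finset.sum_fiberwise (Finset.univ : Finset X) π]
    refine Finset.sum_congr rfl fun y _ => ?_
    rw [Finset.sum_filter]
    have h2 : ∀ x ∈ (Finset.univ : Finset X), (if π x = y then (if P x then f (π x) else 0) else 0) =
        (if π x = y ∧ P x then f y else 0) := by
      intro x _
      by_cases h : π x = y
      · by_cases h' : P x
        · simp [h, h']
        · simp [h, h']
      · simp [h]
    rw [Finset.sum_congr rfl h2, Nat.card_eq_fintype_card, Fintype.card_subtype,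
      ← Finset.sum_filter, Finset.sum_const, nsmul_eq_mul]
  rw [h1, Finset.mul_sum]
  refine Finset.sum_le_sum fun y _ => ?_
  by_cases h : S y
  · rw [if_pos h]
    exact mul_le_mul_of_nonneg_right (by exact_mod_cast ha y (hS y h)) (hf y)
  · rw [if_neg h, mul_zero]
    exact mul_nonneg (Nat.cast_nonneg _) (hf y)

end TatePole.HK
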