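import Mathlib
import Pool.Agent.Lib.MP_058a58_ag.HK.WPrep
import Pool.Agent.Lib.MP_058a58_ag.HK.Avg

/-!
# The inequality for twists by representations of the Weil group, from its parts
-/

open Polynomial Filter Topology NumberField

namespace TatePole.HK

open TatePole AT

section
variable {E : Type} [Field E] [NumberField E] {e₀ : E →ₐ[ℚ] QBar} {ℓ : ℕ} [Fact ℓ.Prime]
  {W : Type*} [AddCommGroup W] [Module ℚ_[ℓ] W] [FiniteDimensional ℚ_[ℓ] W]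
  [Algebra ℚ_[ℓ] ℂ]

theorem weil_core (hPAIR : S_PAIR) (hPAIRD : S_PAIRD) (hIND : S_IND) (hAUT : S_AUT)
    (hINCL : S_INCL)
    (ρ : Representation ℚ_[ℓ] (GF e₀) W) (w : ℤ) (S : Finset (Ideal (𝓞 E)))
    (hpure : ∀ 𝔭 : Ideal (𝓞 E), 𝔭.IsPrime → 𝔭 ≠ ⊥ → 𝔭 ∉ S → IsPureAt ρ w 𝔭)
    (K : Type) [Field K] [NumberField K] (eK : K →ₐ[ℚ] QBar) (hKE : GF eK ≤ GF e₀)
    {T : Type*} [Fintype T] (F : T → Type) [∀ t, Field (F t)] [∀ t, NumberField (F t)]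
    (e : ∀ t, F t →ₐ[ℚ] QBar) (hFE : ∀ t, GF (e t) ≤ GF e₀)
    (M : T → ℕ) (k : ∀ t, (F t →+* ℂ) → ℤ) (τ : ∀ t, (F t →+* ℂ) → ℝ)
    (Ψ : ∀ t, Ideal (𝓞 (F t)) → ℂ) (hΨ : ∀ t, IsHeckeChar (F t) (M t) (k t) (τ t) (Ψ t))
    (hsep : ∀ t u, ∀ y ∈ GF e₀, (∀ h : t = u, y ∉ GF (e t)) →
      ∃ φ : QBar →+* ℂ, infTy (k t) (τ t) (φ.comp (e t : F t →+* QBar)) ≠
        infTy (k u) (τ u) (φ.comp ((y • e u : F u →ₐ[ℚ] QBar) : F u →+* QBar)))
    (B : Submodule ℚ_[ℓ] W) {U : T → Type*} [∀ t, AddCommGroup (U t)] [∀ t, Module ℂ (U t)]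
    [∀ t, FiniteDimensional ℂ (U t)] (β : ∀ t, Representation ℂ (GF (e t)) (U t))
    (hB : WeilPart ρ w S B F e Ψ β)
    {J : T → Type*} [∀ t, Fintype (J t)] {V : ∀ t, J t → Type*} [∀ t j, AddCommGroup (V t j)]
    [∀ t j, Module ℂ (V t j)] [∀ t j, FiniteDimensional ℂ (V t j)]
    (α : ∀ t j, Representation ℂ (GF (e t)) (V t j)) (hα : ∀ t j, IsFin (α t j))
    (hFK : ∀ t, Nonempty (J t) → GF (e t) ≤ GF eK) (hirr : ∀ t j, (α t j).IsIrreducible)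
    (hne : ∀ t j j', j ≠ j' → IsEmpty ((α t j).Equiv (α t j')))
    (R : ∀ t, J t → Ideal (𝓞 (F t)) → ℂ[X]) (Q : Ideal (𝓞 K) → ℂ[X])
    (hLOG : ∀ (t : T) (j : J t) (x : (F t →ₐ[ℚ] QBar) → GQ) (σ : ℕ → GQ) (𝔓 : ℕ → Ideal ZBar),
      (∀ ψ, x ψ • e t = ψ) → FrobSysP σ 𝔓 →
        LogF (e t) (resG (hFE t) ρ) w (α t j) (Ψ t) (R t j) x σ 𝔓)
    (hLOGQ : ∀ (x : (K →ₐ[ℚ] QBar) → GQ) (σ : ℕ → GQ) (𝔓 : ℕ → Ideal ZBar),
      (∀ ψ, x ψ • eK = ψ) → FrobSysP σ 𝔓 →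
        LogF eK (selfG (resG hKE ρ) B fun g => hB.stable _) 0
        (Representation.trivial ℂ (GF eK) ℂ) (oneH K) Q x σ 𝔓)
    (ε : ℝ) (hε : 0 < ε) :
    ∀ᶠ s : ℝ in 𝓝[>] (1 : ℝ), ((GF eK).relIndex (Subgroup.normalizer (GF eK) ⊓ GF e₀) : ℝ) *
        ∑ t, ∑ j, (defF (Module.finrank ℂ ((β t).tprod (α t j)).invariants) (R t j) s) ^ 2 ≤
      (Real.log ‖LFunF Q s‖ + ε * Real.log (1 / (s - 1))) * Real.log (1 / (s - 1)) ∧
      Real.log ‖LFunF Q s‖ ≤ (((Module.finrank ℚ_[ℓ] W : ℝ) - Module.finrank ℚ_[ℓ] B) ^ 2 + ε) *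
        Real.log (1 / (s - 1)) := by
  classical
  obtain ⟨σ, 𝔓, hσ⟩ := exists_frobSysP
  choose x₀ hx₀ using fun ψ : E →ₐ[ℚ] QBar => MulAction.exists_smul_eq GQ e₀ ψ
  choose xK hxK using fun ψ : K →ₐ[ℚ] QBar => MulAction.exists_smul_eq GQ eK ψ
  choose x hx using fun (t : T) (ψ : F t →ₐ[ℚ] QBar) => MulAction.exists_smul_eq GQ (e t) ψ
  choose i hi using fun t => hINCL E (F t) e₀ (e t) (hFE t)
  obtain ⟨iK, hiK⟩ := hINCL E K e₀ eK hKE
  have hcompi : ∀ t, J t → ∃ iKF : K →ₐ[ℚ] F t, i t = iKF.comp iK := by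
    intro t j
    obtain ⟨iKF, hiKF⟩ := hINCL K (F t) eK (e t) (hFK t ⟨j⟩)
    refine ⟨iKF, ?_⟩
    ext y
    have h1 : e t (i t y) = e₀ y := congrArg (fun φ : E →ₐ[ℚ] QBar => φ y) (hi t)
    have h2 : eK (iK y) = e₀ y := congrArg (fun φ : E →ₐ[ℚ] QBar => φ y) hiK
    have h3 : e t (iKF (iK y)) = eK (iK y) :=
      congrArg (fun φ : K →ₐ[ℚ] QBar => φ (iK y)) hiKF
    exact (e t).toRingHom.injective (by
      show e t (i t y) = e t (iKF (iK y))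
      rw [h1, h3, h2])
  choose Fα hFα using hα
  choose Fβ hFβ using hB.finite
  choose Fe hFe using fun t => exists_fix_set (e t)
  obtain ⟨FK, hFKs⟩ := exists_fix_set eK
  obtain ⟨A₀, hA₀⟩ : ∃ A₀ : Finset QBar, (∀ t j, Fα t j ⊆ A₀) ∧ (∀ t, Fβ t ⊆ A₀) ∧
      (∀ t, Fe t ⊆ A₀) ∧ FK ⊆ A₀ ∧ zt 4 ∈ A₀ := by
    refine ⟨(Finset.univ.biUnion fun t => Finset.univ.biUnion (Fα t)) ∪ Finset.univ.biUnion Fβ ∪
      Finset.univ.biUnion Fe ∪ FK ∪ {zt 4}, ?_, ?_, ?_, ?_, ?_⟩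
    · intro t j y hy
      simp only [Finset.mem_union, Finset.mem_biUnion, Finset.mem_univ, true_and]
      exact Or.inl (Or.inl (Or.inl (Or.inl ⟨t, j, hy⟩)))
    · intro t y hy
      simp only [Finset.mem_union, Finset.mem_biUnion, Finset.mem_univ, true_and]
      exact Or.inl (Or.inl (Or.inl (Or.inr ⟨t, hy⟩)))
    · intro t y hy
      simp only [Finset.mem_union, Finset.mem_biUnion, Finset.mem_univ, true_and]
      exact Or.inl (Or.inl (Or.inr ⟨t, hy⟩))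
    · intro y hy
      simp only [Finset.mem_union]
      exact Or.inl (Or.inr hy)
    · exact Finset.mem_union_right _ (Finset.mem_singleton_self _)
  obtain ⟨hA1, hA2, hA3, hA4, hA5⟩ := hA₀
  obtain ⟨L, hLfin, hnorm, hLA⟩ := exists_bigN A₀
  set N := L.fixingSubgroup with hN
  have hfinN : Finite (GQ ⧸ N) := finite_quot N hN
  obtain ⟨jc, c, hc⟩ := exists_conj
  have hcN : c ∉ N := fun h => conj_not_fix jc c hc (hLA c h (zt 4) hA5)
  have hNfi : N.FiniteIndex := Subgroup.finiteIndex_of_finite_quotient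
  have hNe : ∀ t, N ≤ GF (e t) := fun t g hg => hFe t g fun y hy => hLA g hg y (hA3 t hy)
  have hNK : N ≤ GF eK := fun g hg => hFKs g fun y hy => hLA g hg y (hA4 hy)
  have hαN : ∀ t j, ∀ g ∈ N.subgroupOf (GF (e t)), α t j g = 1 := fun t j g hg =>
    hFα t j g fun y hy => hLA g (Subgroup.mem_subgroupOf.mp hg) y (hA1 t j hy)
  have hβN : ∀ t, ∀ g ∈ N.subgroupOf (GF (e t)), β t g = 1 := fun t g hg =>
    hFβ t g fun y hy => hLA g (Subgroup.mem_subgroupOf.mp hg) y (hA2 t hy)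
  have hfin' : ∀ t, Finite (GF (e t) ⧸ N.subgroupOf (GF (e t))) := fun t => by infer_instance
  set D := (Module.finrank ℚ_[ℓ] W : ℝ) - Module.finrank ℚ_[ℓ] B with hD
  have hD0 : 0 ≤ D := by
    rw [hD, sub_nonneg]
    exact_mod_cast Submodule.finrank_le B
  set a : ℕ := (GF eK).relIndex (Subgroup.normalizer (GF eK) ⊓ GF e₀) with ha
  -- characters
  set χ : ∀ t, J t → GF (e t) → ℂ := fun t j g => (α t j).character g⁻¹ with hχ
  set η : ∀ t, GF (e t) → ℂ := fun t g => (β t).character g⁻¹ with hη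
  have hχc : ∀ t j, ClsF (e t) N (χ t j) := fun t j => clsF_char (α t j) (hαN t j)
  have hηc : ∀ t, ClsF (e t) N (η t) := fun t => clsF_char (β t) (hβN t)
  choose Cχ hCχ0 hCχ using fun t j => (hχc t j).bdd
  choose Cη hCη0 hCη using fun t => (hηc t).bdd
  have hH : ∀ t, IsHecke (Ψ t) := fun t => ⟨_, _, _, hΨ t⟩
  set g0 : ℕ → (E →ₐ[ℚ] QBar) → GQ := fun p ψ => (x₀ ψ)⁻¹ * σ p * x₀ ψ with hg0
  have hg0m : ∀ p ψ, g0 p ψ ∈ GF e₀ ↔ σ p • ψ = ψ := fun p ψ => conj_mem_GF (hx₀ ψ)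
  set ZZ : ∀ t, J t → ℕ → (E →ₐ[ℚ] QBar) → ℂ := fun t j p ψ =>
    zI (i t) (e t) (x t) σ (χ t j) (EPsi 𝔓 (Ψ t)) p ψ with hZZ
  set Z : (Σ t, J t) → ℕ → (E →ₐ[ℚ] QBar) → ℂ := fun q p ψ => ZZ q.1 q.2 p ψ with hZ
  set wt : ℕ → (E →ₐ[ℚ] QBar) → ℝ := fun p ψ => if σ p • ψ = ψ then 1 else 0 with hwt
  set sup : ℕ → (E →ₐ[ℚ] QBar) → Prop := fun p ψ =>
    ∃ ψK : K →ₐ[ℚ] QBar, ψK.comp iK = ψ ∧ σ p • ψK = ψK with hsup
  have hfixres : ∀ p (ψ : E →ₐ[ℚ] QBar) t (ψ' : F t →ₐ[ℚ] QBar), ψ'.comp (i t) = ψ →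
      σ p • ψ' = ψ' → σ p • ψ = ψ := by
    intro p ψ t ψ' h1 h2
    rw [← h1, ← smul_compW, h2]
  have hsupZ : ∀ t j p ψ, ¬ sup p ψ → ZZ t j p ψ = 0 := by
    intro t j p ψ h
    obtain ⟨iKF, hiKF⟩ := hcompi t j
    refine zI_not (hx t) fun ψ' h1 h2 => h ⟨ψ'.comp iKF, ?_, ?_⟩
    · rw [← h1, hiKF]; rfl
    · rw [← smul_compW, h2]
  have hZ0 : ∀ t j p ψ, ¬ σ p • ψ = ψ → ZZ t j p ψ = 0 := fun t j p ψ h =>
    zI_not (hx t) fun ψ' h1 h2 => h (hfixres p ψ t ψ' h1 h2)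
  have hZb : ∀ q, ∀ p : ℕ, p.Prime → ∀ ψ, ‖Z q p ψ‖ ≤
      Fintype.card (F q.1 →ₐ[ℚ] QBar) * Cχ q.1 q.2 := fun q p hp ψ =>
    norm_zI_le (hCχ0 q.1 q.2) (hCχ q.1 q.2) (fun ψ => norm_EPsi_le (hH q.1) 𝔓 ψ p) ψ
  obtain ⟨T₀, hT₀⟩ := exists_bad_primes S
  set tW : GF e₀ → ℂ := fun g => algebraMap ℚ_[ℓ] ℂ (LinearMap.trace ℚ_[ℓ] W (ρ g⁻¹)) with htW
  set Y : T → ℕ → (E →ₐ[ℚ] QBar) → ℂ := fun t p ψ =>
    zI (i t) (e t) (x t) σ (η t) (fun ψ p => (starRingEnd ℂ) (EPsi 𝔓 (Ψ t) ψ p)) p ψ with hY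
  have hY0 : ∀ t p ψ, ¬ σ p • ψ = ψ → Y t p ψ = 0 := fun t p ψ h =>
    zI_not (hx t) fun ψ' h1 h2 => h (hfixres p ψ t ψ' h1 h2)
  set A : ℕ → (E →ₐ[ℚ] QBar) → ℂ := fun p ψ => if p ∈ T₀ then 0 else
    extG e₀ tW (g0 p ψ) * (((p : ℝ) ^ (-(w : ℝ) / 2) : ℝ) : ℂ) - ∑ t, Y t p ψ with hA
  -- the value of `A`
  have hAval : ∀ p : ℕ, p.Prime → p ∉ T₀ → ∀ ψ, σ p • ψ = ψ → ∃ hmem : g0 p ψ ∈ GF e₀,
      A p ψ = (((p : ℝ) ^ (-(w : ℝ) / 2) : ℝ) : ℂ) *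
        trDiff (algebraMap ℚ_[ℓ] ℂ) ρ B hB.stable (⟨g0 p ψ, hmem⟩ : GF e₀) ∧
      (∀ z : ℂ, ((ρ (⟨g0 p ψ, hmem⟩ : GF e₀)⁻¹).charpoly.map (algebraMap ℚ_[ℓ] ℂ)).eval z = 0 →
        ‖z‖ = (p : ℝ) ^ ((w : ℝ) / 2)) := by
    intro p hp hpT ψ hfix
    have hmem : g0 p ψ ∈ GF e₀ := (hg0m p ψ).mpr hfix
    obtain ⟨hnm, hfr⟩ := isFrobAt_conj (hx₀ ψ) hp (hσ p hp).1 (hσ p hp).2.1 (hσ p hp).2.2 hfix
    have h𝔭p : ((𝔓 p).comap (intMap ψ)).IsPrime := by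
      have := (hσ p hp).1
      exact Ideal.comap_isPrime _ _
    have h𝔭0 : (𝔓 p).comap (intMap ψ) ≠ ⊥ := by
      intro h0
      rw [h0, Ideal.absNorm_bot] at hnm
      exact hp.ne_zero hnm.symm
    have h𝔭S : (𝔓 p).comap (intMap ψ) ∉ S := hT₀ _ (by rw [hnm]; exact hpT)
    have hpu := hpure _ h𝔭p h𝔭0 h𝔭S
    have htr := hB.trace _ h𝔭p h𝔭0 h𝔭S _ (liesOver_conj (hx₀ ψ) (hσ p hp).1)
      ⟨g0 p ψ, hmem⟩ (by
        rw [hnm]
        exact isArithFrob_conj (hσ p hp).2.2)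
    refine ⟨hmem, ?_, fun z hz => by rw [hpu.pure _ hfr z hz, hnm]⟩
    rw [hnm] at htr
    have hp0 : (0 : ℝ) < p := by exact_mod_cast hp.pos
    have hpw : (p : ℝ) ^ (-(w : ℝ) / 2) * (p : ℝ) ^ ((w : ℝ) / 2) = 1 := by
      rw [← Real.rpow_add hp0]
      have : -(w : ℝ) / 2 + (w : ℝ) / 2 = 0 := by ring
      rw [this, Real.rpow_zero]
    have hpwC : (((p : ℝ) ^ (-(w : ℝ) / 2) : ℝ) : ℂ) * (((p : ℝ) ^ ((w : ℝ) / 2) : ℝ) : ℂ) =
        1 := by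
      rw [← Complex.ofReal_mul, hpw, Complex.ofReal_one]
    have hYI : ∀ t, indTr e₀ (e t) (fun h => (β t).character h⁻¹)
        (fun I => (starRingEnd ℂ) (Ψ t I))
        ((𝔓 p).comap (MulSemiringAction.toRingHom GQ ZBar (x₀ ψ))) (g0 p ψ) = Y t p ψ := by
      intro t
      have h1 := hIND E (F t) (i t) e₀ (e t) (hi t) (x t) (hx t) (η t) (hηc t).cls
        (fun I => (starRingEnd ℂ) (Ψ t I)) (σ p) (x₀ ψ) (𝔓 p)
      rw [hx₀ ψ] at h1
      exact h1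
    simp only [hA]
    unfold trDiff
    rw [if_neg hpT, mul_sub, htr, ← mul_assoc, hpwC, one_mul, extG_mem hmem, mul_comm]
    congr 1
    exact Finset.sum_congr rfl fun t _ => (hYI t).symm
  have hA0 : ∀ p ψ, ¬ σ p • ψ = ψ → A p ψ = 0 := by
    intro p ψ hfix
    have hmem : g0 p ψ ∉ GF e₀ := fun h => hfix ((hg0m p ψ).mp h)
    simp only [hA]
    split_ifs with hpT
    · rfl
    rw [extG_not hmem, zero_mul, zero_sub]
    have h2 : ∑ t, Y t p ψ = 0 := Finset.sum_eq_zero fun t _ => hY0 t p ψ hfix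
    rw [h2, neg_zero]
  have hAb : ∀ p : ℕ, p.Prime → ∀ ψ, ‖A p ψ‖ ≤ D * wt p ψ := by
    intro p hp ψ
    by_cases hpT : p ∈ T₀
    · simp only [hA, hwt]
      rw [if_pos hpT, norm_zero]
      split_ifs
      · rw [mul_one]; exact hD0
      · rw [mul_zero]
    by_cases hfix : σ p • ψ = ψ
    · simp only [hwt]
      rw [if_pos hfix, mul_one]
      obtain ⟨hmem, hval, hroot⟩ := hAval p hp hpT ψ hfix
      have hbd := trace_sub_restrict_le (algebraMap ℚ_[ℓ] ℂ) (ρ (⟨g0 p ψ, hmem⟩ : GF e₀)⁻¹) B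
        (hB.stable _) ((p : ℝ) ^ ((w : ℝ) / 2)) (fun z hz => (hroot z hz).le)
      have hp0 : (0 : ℝ) < p := by exact_mod_cast hp.pos
      have hpw : (p : ℝ) ^ (-(w : ℝ) / 2) * (p : ℝ) ^ ((w : ℝ) / 2) = 1 := by
        rw [← Real.rpow_add hp0]
        have : -(w : ℝ) / 2 + (w : ℝ) / 2 = 0 := by ring
        rw [this, Real.rpow_zero]
      rw [hval, norm_mul, Complex.norm_real, Real.norm_eq_abs,
        abs_of_nonneg (Real.rpow_nonneg hp0.le _)]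
      calc _ ≤ (p : ℝ) ^ (-(w : ℝ) / 2) * (D * (p : ℝ) ^ ((w : ℝ) / 2)) :=
            mul_le_mul_of_nonneg_left hbd (Real.rpow_nonneg hp0.le _)
        _ = D * ((p : ℝ) ^ (-(w : ℝ) / 2) * (p : ℝ) ^ ((w : ℝ) / 2)) := by ring
        _ = D := by rw [hpw, mul_one]
    · rw [hA0 p ψ hfix, norm_zero]
      simp only [hwt]
      rw [if_neg hfix, mul_zero]
  -- `A` on its support
  set A' : ℕ → (E →ₐ[ℚ] QBar) → ℂ := fun p ψ => if sup p ψ then A p ψ else 0 with hA'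
  have hA'b : ∀ p : ℕ, p.Prime → ∀ ψ, ‖A' p ψ‖ ≤ D * wt p ψ := by
    intro p hp ψ
    simp only [hA']
    split_ifs
    · exact hAb p hp ψ
    · rw [norm_zero]
      refine mul_nonneg hD0 ?_
      simp only [hwt]
      split_ifs <;> norm_num
  have hA'Z : ∀ t j p ψ, A' p ψ * ZZ t j p ψ = A p ψ * ZZ t j p ψ := by
    intro t j p ψ
    simp only [hA']
    split_ifs with h
    · rfl
    · rw [hsupZ t j p ψ h, mul_zero, mul_zero]
  have hwZ : ∀ p ψ t j, (wt p ψ : ℂ) * ZZ t j p ψ = ZZ t j p ψ := by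
    intro p ψ t j
    simp only [hwt]
    by_cases hfix : σ p • ψ = ψ
    · rw [if_pos hfix]; norm_num
    · rw [if_neg hfix, hZ0 t j p ψ hfix, mul_zero]
  -- the Gram matrix
  have hgram : ∀ q q', HasDens (fun p => ∑ ψ, wt p ψ * (Z q p ψ *
      (starRingEnd ℂ) (Z q' p ψ)).re) (if q = q' then 1 else 0) := by
    intro q q'
    obtain ⟨t, j⟩ := q
    obtain ⟨t', j'⟩ := q'
    have heq : ∀ p : ℕ, ∑ ψ, wt p ψ * (ZZ t j p ψ * (starRingEnd ℂ) (ZZ t' j' p ψ)).re =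
        (∑ ψ, ZZ t j p ψ * (starRingEnd ℂ) (ZZ t' j' p ψ)).re := by
      intro p
      rw [Complex.re_sum]
      refine Finset.sum_congr rfl fun ψ _ => ?_
      rw [← Complex.re_ofReal_mul, ← mul_assoc, hwZ]
    by_cases htt : t = t'
    · subst htt
      have h1 := hPAIRD E (F t) (i t) σ 𝔓 hσ N L hN jc c hc hcN e₀ (e t) (hi t) (hNe t) (x t)
        (hx t) (χ t j) (χ t j') (hχc t j) (hχc t j') (M t) (k t) (τ t) (Ψ t) (hΨ t)
        (fun y hy hyt => hsep t t y hy fun _ => hyt)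
      have h2 := gavg_pair_inv (N.subgroupOf (GF (e t))) (α t j) (α t j') (hirr t j) (hirr t j')
        (hαN t j) (hαN t j')
      simp only [hχ] at h1
      rw [h2] at h1
      have h3 : (if (⟨t, j⟩ : Σ t, J t) = ⟨t, j'⟩ then (1 : ℝ) else 0) =
          if Nonempty ((α t j').Equiv (α t j)) then 1 else 0 := by
        by_cases hj : j = j'
        · subst hj
          rw [if_pos rfl, if_pos ⟨Representation.Equiv.refl (α t j)⟩]
        · rw [if_neg, if_neg]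
          · rintro ⟨eq⟩
            exact (hne t j' j (Ne.symm hj)).false eq
          · intro h
            rw [Sigma.mk.injEq] at h
            exact hj (eq_of_heq h.2)
      rw [h3]
      exact HasDens.congr' h1 fun p _ => heq p
    · have h1 := hPAIR E (F t) (F t') (i t) (i t') σ 𝔓 hσ N L hN jc c hc hcN e₀ (e t) (e t')
        (hi t) (hi t') (hNe t) (hNe t') (x t) (x t') (hx t) (hx t') (χ t j) (χ t' j') (hχc t j)
        (hχc t' j') (M t) (k t) (τ t) (Ψ t) (hΨ t) (M t') (k t') (τ t') (Ψ t') (hΨ t')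
        (fun y hy => hsep t t' y hy fun h => (htt h).elim)
      rw [if_neg (fun h => htt (congrArg Sigma.fst h))]
      exact HasDens.congr' h1 fun p _ => heq p
  -- the density of the abelian part
  set r : ∀ t, J t → ℕ := fun t j => Module.finrank ℂ ((β t).tprod (α t j)).invariants with hr
  have hYconj : ∀ t p ψ, Y t p ψ = (starRingEnd ℂ) (zI (i t) (e t) (x t) σ
      (fun g => (starRingEnd ℂ) (η t g)) (EPsi 𝔓 (Ψ t)) p ψ) := by
    intro t p ψ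
    rw [conj_zI]
    simp only [Complex.conj_conj]
    rfl
  have habel : ∀ t j t', HasDens (fun p => (∑ ψ, ZZ t j p ψ * Y t' p ψ).re)
      (if t' = t then (r t j : ℝ) else 0) := by
    intro t j t'
    have heq : ∀ p : ℕ, (∑ ψ, ZZ t j p ψ * Y t' p ψ).re = (∑ ψ, ZZ t j p ψ *
        (starRingEnd ℂ) (zI (i t') (e t') (x t') σ
      (fun g => (starRingEnd ℂ) (η t' g)) (EPsi 𝔓 (Ψ t')) p ψ)).re := by
      intro p
      simp only [hYconj]
    by_cases htt : t' = t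
    · subst htt
      rw [if_pos rfl]
      have h1 := hPAIRD E (F t') (i t') σ 𝔓 hσ N L hN jc c hc hcN e₀ (e t') (hi t') (hNe t') (x t')
        (hx t') (χ t' j) (fun g => (starRingEnd ℂ) (η t' g)) (hχc t' j) (hηc t').star (M t') (k t')
        (τ t') (Ψ t') (hΨ t') (fun y hy hyt => hsep t' t' y hy fun _ => hyt)
      have h2 := gavg_inv (N.subgroupOf (GF (e t'))) (β t') (α t' j) (hβN t') (hαN t' j)
      have h3 : (fun γ : GF (e t') ⧸ N.subgroupOf (GF (e t')) => (χ t' j γ.out *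
          (starRingEnd ℂ) ((starRingEnd ℂ) (η t' γ.out))).re) =
          fun γ : GF (e t') ⧸ N.subgroupOf (GF (e t')) =>
            ((β t').character γ.out⁻¹ * (α t' j).character γ.out⁻¹).re := by
        funext γ
        rw [Complex.conj_conj, mul_comm]
      rw [h3, h2] at h1
      exact HasDens.congr' h1 fun p _ => heq p
    · rw [if_neg htt]
      have h1 := hPAIR E (F t) (F t') (i t) (i t') σ 𝔓 hσ N L hN jc c hc hcN e₀ (e t) (e t')
        (hi t) (hi t') (hNe t) (hNe t') (x t) (x t') (hx t) (hx t') (χ t j)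
        (fun g => (starRingEnd ℂ) (η t' g)) (hχc t j) (hηc t').star (M t) (k t) (τ t) (Ψ t) (hΨ t)
        (M t') (k t') (τ t') (Ψ t') (hΨ t')
        (fun y hy => hsep t t' y hy fun h => (htt h.symm).elim)
      exact HasDens.congr' h1 fun p _ => heq p
  have hYb : ∀ t, ∀ p : ℕ, ∀ ψ, ‖Y t p ψ‖ ≤ Fintype.card (F t →ₐ[ℚ] QBar) * Cη t := by
    intro t p ψ
    refine norm_zI_le (hCη0 t) (hCη t) (fun ψ => ?_) ψ
    rw [Complex.norm_conj]
    exact norm_EPsi_le (hH t) 𝔓 ψ p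
  have hZYb : ∀ t j t', BddPrimes (fun p => (∑ ψ, ZZ t j p ψ * Y t' p ψ).re) := by
    intro t j t'
    refine ⟨∑ _ψ : E →ₐ[ℚ] QBar, (Fintype.card (F t →ₐ[ℚ] QBar) * Cχ t j) *
      (Fintype.card (F t' →ₐ[ℚ] QBar) * Cη t'), fun p hp => ?_⟩
    refine (Complex.abs_re_le_norm _).trans ((norm_sum_le _ _).trans
      (Finset.sum_le_sum fun ψ _ => ?_))
    rw [norm_mul]
    exact mul_le_mul (hZb ⟨t, j⟩ p hp ψ) (hYb t' p ψ) (norm_nonneg _)
      (mul_nonneg (Nat.cast_nonneg _) (hCχ0 t j))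
  set ab : ∀ t, J t → ℕ → ℝ := fun t j p => ∑ t', (∑ ψ, ZZ t j p ψ * Y t' p ψ).re with hab
  have habd : ∀ t j, HasDens (ab t j) (r t j) := by
    intro t j
    have h1 := HasDens.sum Finset.univ (fun t' _ => habel t j t') (fun t' _ => hZYb t j t')
    rw [Finset.sum_ite_eq' Finset.univ t, if_pos (Finset.mem_univ t)] at h1
    exact h1
  have habb : ∀ t j, BddPrimes (ab t j) := by
    intro t j
    choose C hC using fun t' => hZYb t j t'
    refine ⟨∑ t', C t', fun p hp => ?_⟩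
    exact (Finset.abs_sum_le_sum_abs _ _).trans (Finset.sum_le_sum fun t' _ => hC t' p hp)
  -- the main sums
  set mn : ∀ t, J t → ℕ → ℝ := fun t j p => ∑ ψ, (A p ψ * ZZ t j p ψ).re with hmn
  have hmnb : ∀ t j, BddPrimes (mn t j) := by
    intro t j
    refine ⟨∑ _ψ : E →ₐ[ℚ] QBar, D * (Fintype.card (F t →ₐ[ℚ] QBar) * Cχ t j),
      fun p hp => ?_⟩
    refine (Finset.abs_sum_le_sum_abs _ _).trans (Finset.sum_le_sum fun ψ _ => ?_)
    refine (Complex.abs_re_le_norm _).trans ?_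
    rw [norm_mul]
    refine mul_le_mul ((hAb p hp ψ).trans ?_) (hZb ⟨t, j⟩ p hp ψ) (norm_nonneg _) hD0
    calc D * wt p ψ ≤ D * 1 := by
          refine mul_le_mul_of_nonneg_left ?_ hD0
          simp only [hwt]
          split_ifs <;> norm_num
      _ = D := mul_one _
  set lg : ∀ t, J t → ℕ → ℝ := fun t j p => (sumFix (e t) (x t) σ (trWV (resG (hFE t) ρ) (α t j))
      (fun ψ p => EPsi 𝔓 (Ψ t) ψ p * (((p : ℝ) ^ (-(w : ℝ) / 2) : ℝ) : ℂ)) p).re with hlg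
  have htWcls : ∀ y g : GF e₀, tW (y⁻¹ * g * y) = tW g := fun y g =>
    tr_conj (algebraMap ℚ_[ℓ] ℂ) ρ y g
  have hlgeq : ∀ t j, ∀ p : ℕ, p.Prime → p ∉ T₀ → lg t j p = mn t j p + ab t j p := by
    intro t j p hp hpT
    simp only [hlg, hmn, hab]
    have h1 : ∑ ψ, (A p ψ * ZZ t j p ψ).re = (∑ ψ, A p ψ * ZZ t j p ψ).re :=
      (Complex.re_sum _ _).symm
    have h2 : ∑ t', (∑ ψ, ZZ t j p ψ * Y t' p ψ).re = (∑ t', ∑ ψ, ZZ t j p ψ * Y t' p ψ).re :=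
      (Complex.re_sum _ _).symm
    rw [h1, h2, ← Complex.add_re]
    congr 1
    rw [Finset.sum_comm, ← Finset.sum_add_distrib]
    have h3 : ∀ ψ ∈ (Finset.univ : Finset (E →ₐ[ℚ] QBar)), A p ψ * ZZ t j p ψ +
        ∑ t', ZZ t j p ψ * Y t' p ψ =
        (extG e₀ tW (g0 p ψ) * (((p : ℝ) ^ (-(w : ℝ) / 2) : ℝ) : ℂ)) * ZZ t j p ψ := by
      intro ψ _
      simp only [hA]
      rw [if_neg hpT, ← Finset.mul_sum]
      ring
    rw [Finset.sum_congr rfl h3]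
    simp only [hZZ]
    rw [sum_mul_zI (fun ψ => extG e₀ tW (g0 p ψ) * (((p : ℝ) ^ (-(w : ℝ) / 2) : ℝ) : ℂ))]
    unfold sumFix
    refine Finset.sum_congr rfl fun ψ _ => ?_
    by_cases hm : (x t ψ)⁻¹ * σ p * x t ψ ∈ GF (e t)
    · have h4 := extG_transfer (i t) (hi t) (hFE t) tW htWcls (hx t ψ) (hx₀ (ψ.comp (i t))) (σ p) hm
      unfold zz
      rw [extG_mem hm, extG_mem hm]
      simp only [hg0]
      rw [h4]
      simp only [htW, hχ]
      unfold trWV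
      have h5 : resG (hFE t) ρ (⟨(x t ψ)⁻¹ * σ p * x t ψ, hm⟩ : GF (e t))⁻¹ =
          ρ (⟨(x t ψ)⁻¹ * σ p * x t ψ, hFE t hm⟩ : GF e₀)⁻¹ := rfl
      rw [h5]
      ring
    · unfold zz
      rw [extG_not hm, extG_not hm, zero_mul, zero_mul, mul_zero]
  have hlgb : ∀ t j, BddPrimes (lg t j) := by
    intro t j
    obtain ⟨C1, hC1⟩ := hmnb t j
    obtain ⟨C2, hC2⟩ := habb t j
    refine bdd_of_outside T₀ (C1 + C2) fun p hp hpT => ?_
    rw [hlgeq t j p hp hpT]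
    exact (abs_add_le _ _).trans (add_le_add (hC1 p hp) (hC2 p hp))
  have hcmp : ∀ t j, ∀ δ : ℝ, 0 < δ → ∀ᶠ s : ℝ in 𝓝[>] (1 : ℝ),
      |defF (r t j) (R t j) s - RR (mn t j) s| ≤ δ * Real.log (1 / (s - 1)) := by
    intro t j δ hδ
    obtain ⟨C1, hC1⟩ := hLOG t j (x t) σ 𝔓 (hx t) hσ
    obtain ⟨Cm, hCm⟩ := hmnb t j
    obtain ⟨Ca, hCa⟩ := habb t j
    have hb2 : BddPrimes (fun p => mn t j p + ab t j p) :=
      ⟨Cm + Ca, fun p hp => (abs_add_le _ _).trans (add_le_add (hCm p hp) (hCa p hp))⟩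
    obtain ⟨C2, hC2⟩ := RR_near T₀ (hlgeq t j) (hlgb t j) hb2
    filter_upwards [hC1, habd t j (δ / 2) (by positivity), self_mem_nhdsWithin,
      eventually_log_ge (2 * (C1 + C2) / δ)] with s h1 h2 h3 h4
    set Lg := Real.log (1 / (s - 1)) with hLg
    have h3' : 1 < s := h3
    have h6 := hC2 s h3'
    have h7 : RR (fun p => mn t j p + ab t j p) s = RR (mn t j) s + RR (ab t j) s :=
      RR_add hCm hCa h3'
    rw [h7] at h6
    have h8 : C1 + C2 ≤ δ / 2 * Lg := by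
      rw [div_le_iff₀ hδ] at h4
      linarith
    have h9 := abs_le.mp h1
    have h10 := abs_le.mp h6
    have h11 := abs_le.mp h2
    unfold defF
    rw [← hLg, abs_le]
    simp only [hlg] at h10
    constructor
    · linarith [h9.1, h10.1, h11.1]
    · linarith [h9.2, h10.2, h11.2]
  have hbes := bessel_L2 A' Z wt D hD0 (fun q => Fintype.card (F q.1 →ₐ[ℚ] QBar) * Cχ q.1 q.2)
      (fun p _ ψ => by
      simp only [hwt]
      split_ifs
      · exact Or.inr rfl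
      · exact Or.inl rfl) hA'b hZb hgram
  -- the square of `A` over `K`
  set sq : ℕ → ℝ := fun p => ∑ ψK : K →ₐ[ℚ] QBar,
    if σ p • ψK = ψK then ‖A p (ψK.comp iK)‖ ^ 2 else 0 with hsq
  have hsqK : ∀ p : ℕ, (a : ℝ) * ∑ ψ, ‖A' p ψ‖ ^ 2 ≤ sq p := by
    intro p
    have h1 := sum_fiber_ge (fun ψK : K →ₐ[ℚ] QBar => ψK.comp iK) (fun ψK => σ p • ψK = ψK) a
      (fun ψ => ‖A p ψ‖ ^ 2) (fun _ => sq_nonneg _)
      (fun ψ h => hAUT E K iK e₀ eK hiK (σ p) ψ h) (sup p) (fun ψ h => h)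
    refine le_trans (le_of_eq ?_) h1
    congr 1
    refine Finset.sum_congr rfl fun ψ _ => ?_
    simp only [hA']
    split_ifs
    · rfl
    · rw [norm_zero]; norm_num
  have hsq0 : ∀ p, 0 ≤ sq p := fun p => Finset.sum_nonneg fun ψ _ => by
    split_ifs
    · exact sq_nonneg _
    · exact le_rfl
  have hAle : ∀ p : ℕ, p.Prime → ∀ ψ, ‖A p ψ‖ ^ 2 ≤ D ^ 2 := by
    intro p hp ψ
    refine pow_le_pow_left₀ (norm_nonneg _) ((hAb p hp ψ).trans ?_) 2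
    calc D * wt p ψ ≤ D * 1 := by
          refine mul_le_mul_of_nonneg_left ?_ hD0
          simp only [hwt]
          split_ifs <;> norm_num
      _ = D := mul_one _
  have hfixK : ∀ p : ℕ, (∑ ψK : K →ₐ[ℚ] QBar, if σ p • ψK = ψK then (1 : ℝ) else 0) =
      fixCount K (σ p) := by
    intro p
    rw [fixCount_eq_card, Nat.card_eq_fintype_card, Fintype.card_subtype, Finset.sum_boole]
  have hsqle : ∀ p : ℕ, p.Prime → sq p ≤ D ^ 2 * fixCount K (σ p) := by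
    intro p hp
    rw [← hfixK p, Finset.mul_sum]
    refine Finset.sum_le_sum fun ψ _ => ?_
    split_ifs
    · rw [mul_one]; exact hAle p hp _
    · rw [mul_zero]
  obtain ⟨Cf, hCf⟩ := bdd_fixCount K σ
  have hsqb : BddPrimes sq := by
    refine ⟨D ^ 2 * Cf, fun p hp => ?_⟩
    rw [abs_of_nonneg (hsq0 p)]
    exact (hsqle p hp).trans (mul_le_mul_of_nonneg_left
      ((le_abs_self _).trans (hCf p hp)) (sq_nonneg _))
  have hsqup : ∀ δ : ℝ, 0 < δ → ∀ᶠ s : ℝ in 𝓝[>] (1 : ℝ),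
      RR sq s ≤ D ^ 2 * (1 + δ) * Real.log (1 / (s - 1)) := by
    intro δ hδ
    filter_upwards [HasMean.dens (fixCount_mean' K (FrobSysP.frobSys hσ)) δ hδ,
      self_mem_nhdsWithin] with s h1 h2
    have h3 : RR sq s ≤ RR (fun p => D ^ 2 * (fixCount K (σ p) : ℝ)) s :=
      RR_mono hsqb ⟨D ^ 2 * Cf, fun p hp => by
        rw [abs_mul, abs_of_nonneg (sq_nonneg D)]
        exact mul_le_mul_of_nonneg_left (hCf p hp) (sq_nonneg _)⟩ hsqle h2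
    rw [RR_const_mul] at h3
    have h4 := (abs_le.mp h1).2
    have h5 : RR (fun p => (fixCount K (σ p) : ℝ)) s ≤ (1 + δ) * Real.log (1 / (s - 1)) := by
      linarith
    calc _ ≤ D ^ 2 * RR (fun p => (fixCount K (σ p) : ℝ)) s := h3
      _ ≤ D ^ 2 * ((1 + δ) * Real.log (1 / (s - 1))) :=
          mul_le_mul_of_nonneg_left h5 (sq_nonneg _)
      _ = _ := by ring
  have hQlog : ∃ C : ℝ, ∀ᶠ s : ℝ in 𝓝[>] (1 : ℝ), |Real.log ‖LFunF Q s‖ - RR sq s| ≤ C := by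
    obtain ⟨C1, hC1⟩ := hLOGQ xK σ 𝔓 hxK hσ
    set ρK := selfG (resG hKE ρ) B (fun g => hB.stable _) with hρK
    set lq : ℕ → ℝ := fun p => (sumFix eK xK σ (trWV ρK
      (Representation.trivial ℂ (GF eK) ℂ)) (fun ψ p => EPsi 𝔓 (oneH K) ψ p *
        (((p : ℝ) ^ (-((0 : ℤ) : ℝ) / 2) : ℝ) : ℂ)) p).re with hlq
    have hlqeq : ∀ p : ℕ, p.Prime → p ∉ T₀ → lq p = sq p := by
      intro p hp hpT
      simp only [hlq, hsq]
      unfold sumFix
      rw [Complex.re_sum]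
      refine Finset.sum_congr rfl fun ψK _ => ?_
      by_cases hfix : σ p • ψK = ψK
      · have hfix0 : σ p • ψK.comp iK = ψK.comp iK := by rw [← smul_compW, hfix]
        obtain ⟨hmem, hval, hroot⟩ := hAval p hp hpT (ψK.comp iK) hfix0
        have hmemK : (xK ψK)⁻¹ * σ p * xK ψK ∈ GF eK := (conj_mem_GF (hxK ψK)).mpr hfix
        obtain ⟨hnm, -⟩ := isFrobAt_conj (hxK ψK) hp (hσ p hp).1 (hσ p hp).2.1
          (hσ p hp).2.2 hfix
        have hne0 : (𝔓 p).comap (intMap ψK) ≠ ⊥ := by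
          intro h0
          rw [h0, Ideal.absNorm_bot] at hnm
          exact hp.ne_zero hnm.symm
        have hp0 : (0 : ℝ) < p := by exact_mod_cast hp.pos
        -- conjugation from `x₀` to `xK`
        have hy1 : xK ψK • e₀ = x₀ (ψK.comp iK) • e₀ := by
          rw [hx₀, ← hiK, ← smul_compW, hxK]
        have hy : (xK ψK)⁻¹ * x₀ (ψK.comp iK) ∈ GF e₀ := by
          rw [mem_GF, mul_smul, ← hy1, inv_smul_smul]
        set gK : GF e₀ := ⟨(xK ψK)⁻¹ * σ p * xK ψK, hKE hmemK⟩ with hgK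
        have hconj : (⟨g0 p (ψK.comp iK), hmem⟩ : GF e₀) =
            (⟨(xK ψK)⁻¹ * x₀ (ψK.comp iK), hy⟩ : GF e₀)⁻¹ * gK *
              ⟨(xK ψK)⁻¹ * x₀ (ψK.comp iK), hy⟩ := by
          apply Subtype.ext
          simp only [hg0, hgK, Subgroup.coe_mul, Subgroup.coe_inv]
          group
        have hA2 : A p (ψK.comp iK) = (((p : ℝ) ^ (-(w : ℝ) / 2) : ℝ) : ℂ) *
            trDiff (algebraMap ℚ_[ℓ] ℂ) ρ B hB.stable gK := by
          rw [hval, hconj, trDiff_conj]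
        have hrootK : ∀ z ∈ ((ρ gK⁻¹).charpoly.map (algebraMap ℚ_[ℓ] ℂ)).roots,
            ‖z‖ = (p : ℝ) ^ ((w : ℝ) / 2) := by
          intro z hz
          refine hroot z ?_
          have h1 := Polynomial.isRoot_of_mem_roots hz
          rw [hconj]
          set y : GF e₀ := ⟨(xK ψK)⁻¹ * x₀ (ψK.comp iK), hy⟩ with hyd
          have h2 : (y⁻¹ * gK * y)⁻¹ = y⁻¹ * gK⁻¹ * y := by group
          have h3 : (ρ (y⁻¹ * gK⁻¹ * y)).charpoly = (ρ gK⁻¹).charpoly := by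
            rw [map_mul, map_mul]
            have h4 : ρ y⁻¹ * ρ y = 1 := by rw [← map_mul, inv_mul_cancel, map_one]
            have h5 : ρ y * ρ y⁻¹ = 1 := by rw [← map_mul, mul_inv_cancel, map_one]
            set u : (Module.End ℚ_[ℓ] W)ˣ := ⟨ρ y⁻¹, ρ y, h4, h5⟩ with hu
            have h6 : ρ y⁻¹ * ρ gK⁻¹ * ρ y =
                (LinearMap.GeneralLinearGroup.generalLinearEquiv ℚ_[ℓ] W u).conj (ρ gK⁻¹) := by
              ext v
              rfl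
            rw [h6, LinearEquiv.charpoly_conj]
          rw [h2, h3]
          exact h1
        have h1 := trace_selfG_norm (resG hKE ρ) B (fun g => hB.stable _) (algebraMap ℚ_[ℓ] ℂ)
          (⟨(xK ψK)⁻¹ * σ p * xK ψK, hmemK⟩ : GF eK)⁻¹ (r := (p : ℝ) ^ ((w : ℝ) / 2))
          (Real.rpow_pos_of_pos hp0 _) (fun z hz => hrootK z hz)
        have h2 : EPsi 𝔓 (oneH K) ψK p = 1 := by
          unfold EPsi oneH
          rw [if_neg hne0]
        have h3 : (Representation.trivial ℂ (GF eK) ℂ).character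
            (⟨(xK ψK)⁻¹ * σ p * xK ψK, hmemK⟩ : GF eK)⁻¹ = 1 := by
          unfold Representation.character
          have h4 : Representation.trivial ℂ (GF eK) ℂ
            (⟨(xK ψK)⁻¹ * σ p * xK ψK, hmemK⟩ : GF eK)⁻¹ = LinearMap.id := rfl
          rw [h4, LinearMap.trace_id]
          simp
        have h5 : trWV ρK (Representation.trivial ℂ (GF eK) ℂ)
            ⟨(xK ψK)⁻¹ * σ p * xK ψK, hmemK⟩ = ((‖A p (ψK.comp iK)‖ ^ 2 : ℝ) : ℂ) := by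
          unfold trWV
          rw [h3, mul_one, hρK, h1, hA2, norm_mul, Complex.norm_real, Real.norm_eq_abs,
            abs_of_nonneg (Real.rpow_nonneg hp0.le _)]
          have h7 : (p : ℝ) ^ (-(w : ℝ) / 2) = ((p : ℝ) ^ ((w : ℝ) / 2))⁻¹ := by
            rw [← Real.rpow_neg hp0.le]
            congr 1
            ring
          rw [h7, ← div_eq_inv_mul]
          rfl
        rw [extG_mem hmemK, if_pos hfix]
        beta_reduce
        rw [h2, h5, Int.cast_zero, neg_zero, zero_div, Real.rpow_zero, Complex.ofReal_one,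
          mul_one, mul_one, Complex.ofReal_re]
      · have hmem : (xK ψK)⁻¹ * σ p * xK ψK ∉ GF eK := fun h =>
          hfix ((conj_mem_GF (hxK ψK)).mp h)
        rw [extG_not hmem, if_neg hfix, zero_mul, Complex.zero_re]
    have hlqb : BddPrimes lq := by
      obtain ⟨C, hC⟩ := hsqb
      refine bdd_of_outside T₀ C fun p hp hpT => ?_
      rw [hlqeq p hp hpT]
      exact hC p hp
    obtain ⟨C2, hC2⟩ := RR_near T₀ hlqeq hlqb hsqb
    refine ⟨C1 + C2, ?_⟩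
    filter_upwards [hC1, self_mem_nhdsWithin] with s h1 h2
    have h3 := hC2 s h2
    have h4 := abs_sub_le (Real.log ‖LFunF Q s‖) (RR lq s) (RR sq s)
    exact h4.trans (add_le_add h1 h3)
  have hmain2 : ∀ᶠ s : ℝ in 𝓝[>] (1 : ℝ), Real.log ‖LFunF Q s‖ ≤ (D ^ 2 + ε) *
        Real.log (1 / (s - 1)) := by
    obtain ⟨C, hC⟩ := hQlog
    filter_upwards [hC, hsqup (ε / (2 * (D ^ 2 + 1))) (by positivity),
      eventually_log_ge (2 * |C| / ε)] with s h1 h2 h3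
    have h4 := (abs_le.mp h1).2
    have h5 : |C| ≤ ε / 2 * Real.log (1 / (s - 1)) := by
      rw [div_le_iff₀ hε] at h3
      linarith
    have h6 : D ^ 2 * (1 + ε / (2 * (D ^ 2 + 1))) ≤ D ^ 2 + ε / 2 := by
      have h7 : D ^ 2 * (ε / (2 * (D ^ 2 + 1))) ≤ ε / 2 := by
        rw [mul_div_assoc', div_le_iff₀ (by positivity)]
        nlinarith
      linarith
    have h8 : 0 ≤ Real.log (1 / (s - 1)) := le_trans (by positivity) h3
    have h9 := mul_le_mul_of_nonneg_right h6 h8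
    have h10 := le_abs_self C
    linarith
  -- the main inequality
  set ra : ℝ := Real.sqrt (a : ℝ) with hra
  have hra2 : ra ^ 2 = a := Real.sq_sqrt (Nat.cast_nonneg a)
  have hra0 : 0 ≤ ra := Real.sqrt_nonneg _
  have hA'sqb : BddPrimes (fun p => ∑ ψ, ‖A' p ψ‖ ^ 2) := by
    refine ⟨∑ _ψ : E →ₐ[ℚ] QBar, D ^ 2, fun p hp => ?_⟩
    rw [abs_of_nonneg (Finset.sum_nonneg fun ψ _ => sq_nonneg _)]
    refine Finset.sum_le_sum fun ψ _ => ?_
    simp only [hA']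
    split_ifs
    · exact hAle p hp ψ
    · rw [norm_zero, zero_pow two_ne_zero]
      exact sq_nonneg D
  have hp1 : ∀ᶠ s : ℝ in 𝓝[>] (1 : ℝ), 0 ≤ RR sq s ∧
      RR sq s ≤ D ^ 2 * (1 + 1) * Real.log (1 / (s - 1)) := by
    filter_upwards [hsqup 1 one_pos] with s h1
    exact ⟨RR_nonneg (fun p _ => hsq0 p) s, h1⟩
  have hmnZ : ∀ (q : Σ t, J t) (s : ℝ), RR (fun p => ∑ ψ, (A' p ψ * Z q p ψ).re) s =
      RR (mn q.1 q.2) s := by
    intro q s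
    refine RR_congr (fun p _ => ?_) s
    simp only [hmn, hZ]
    refine Finset.sum_congr rfl fun ψ _ => ?_
    rw [hA'Z]
  have hRsq : ∀ s : ℝ, 1 < s → (a : ℝ) * RR (fun p => ∑ ψ, ‖A' p ψ‖ ^ 2) s ≤ RR sq s := by
    intro s hs
    rw [← RR_const_mul]
    refine RR_mono ?_ hsqb (fun p _ => hsqK p) hs
    obtain ⟨C, hC⟩ := hA'sqb
    refine ⟨a * C, fun p hp => ?_⟩
    rw [abs_mul, abs_of_nonneg (Nat.cast_nonneg a : (0 : ℝ) ≤ a)]
    exact mul_le_mul_of_nonneg_left (hC p hp) (Nat.cast_nonneg a)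
  obtain ⟨R1, hR1⟩ : ∃ R1 : (Σ t, J t) → ℝ → ℝ, R1 = fun q s => ra * RR (mn q.1 q.2) s :=
    ⟨_, rfl⟩
  obtain ⟨D1, hD1⟩ : ∃ D1 : (Σ t, J t) → ℝ → ℝ,
    D1 = fun q s => ra * defF (r q.1 q.2) (R q.1 q.2) s := ⟨_, rfl⟩
  obtain ⟨Q1, hQ1⟩ : ∃ Q1 : ℝ → ℝ, Q1 = fun s : ℝ => Real.log ‖LFunF Q (s : ℂ)‖ := ⟨_, rfl⟩
  obtain ⟨sqs, hsqs⟩ : ∃ sqs : ℝ → ℝ, sqs = fun s => RR sq s := ⟨_, rfl⟩
  have hp2 : ∀ ε : ℝ, 0 < ε → ∀ᶠ s : ℝ in 𝓝[>] (1 : ℝ), ∑ q, R1 q s ^ 2 ≤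
      (1 + ε) * sqs s * Real.log (1 / (s - 1)) := by
    intro ε' hε'
    filter_upwards [hbes ε' hε', self_mem_nhdsWithin, eventually_log_ge 0] with s h1 h2 h3
    have h5 : ∑ q : (Σ t, J t), R1 q s ^ 2 =
        a * ∑ q : (Σ t, J t), (RR (fun p => ∑ ψ, (A' p ψ * Z q p ψ).re) s) ^ 2 := by
      rw [Finset.mul_sum]
      refine Finset.sum_congr rfl fun q _ => ?_
      rw [hmnZ, hR1, mul_pow, hra2]
    rw [h5, hsqs]
    have h6 := hRsq s h2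
    calc _ ≤ (a : ℝ) * ((1 + ε') * RR (fun p => ∑ ψ, ‖A' p ψ‖ ^ 2) s *
          Real.log (1 / (s - 1))) := mul_le_mul_of_nonneg_left h1 (Nat.cast_nonneg a)
      _ = (1 + ε') * (a * RR (fun p => ∑ ψ, ‖A' p ψ‖ ^ 2) s) * Real.log (1 / (s - 1)) := by
          ring
      _ ≤ (1 + ε') * RR sq s * Real.log (1 / (s - 1)) := by
          refine mul_le_mul_of_nonneg_right (mul_le_mul_of_nonneg_left h6 ?_) h3
          linarith
  have hp3 : ∀ q, ∀ δ : ℝ, 0 < δ → ∀ᶠ s : ℝ in 𝓝[>] (1 : ℝ),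
      |D1 q s - R1 q s| ≤ δ * Real.log (1 / (s - 1)) := by
    intro q δ hδ
    filter_upwards [hcmp q.1 q.2 (δ / (ra + 1)) (by positivity), eventually_log_ge 0]
      with s h1 h2
    rw [hD1, hR1]
    beta_reduce
    rw [← mul_sub, abs_mul, abs_of_nonneg hra0]
    have h3 : ra * (δ / (ra + 1)) ≤ δ := by
      rw [mul_div_assoc', div_le_iff₀ (by positivity)]
      nlinarith
    calc ra * |defF (r q.1 q.2) (R q.1 q.2) s - RR (mn q.1 q.2) s| ≤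
          ra * (δ / (ra + 1) * Real.log (1 / (s - 1))) := mul_le_mul_of_nonneg_left h1 hra0
      _ = ra * (δ / (ra + 1)) * Real.log (1 / (s - 1)) := by ring
      _ ≤ δ * Real.log (1 / (s - 1)) := mul_le_mul_of_nonneg_right h3 h2
  have hp4 : ∃ C : ℝ, ∀ᶠ s : ℝ in 𝓝[>] (1 : ℝ), |Q1 s - sqs s| ≤ C := by
    rw [hQ1, hsqs]
    exact hQlog
  have hp1' : ∀ᶠ s : ℝ in 𝓝[>] (1 : ℝ), 0 ≤ sqs s ∧
      sqs s ≤ D ^ 2 * (1 + 1) * Real.log (1 / (s - 1)) := by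
    rw [hsqs]
    exact hp1
  have hmain := eventually_perturb_rs D1 R1 sqs Q1 (D ^ 2 * (1 + 1)) (by positivity) hp1' hp2 hp3
    hp4 ε hε
  filter_upwards [hmain, hmain2] with s h1 h2
  refine ⟨?_, h2⟩
  rw [hQ1] at h1
  refine le_trans (le_of_eq ?_) h1
  rw [Fintype.sum_sigma, Finset.mul_sum]
  refine Finset.sum_congr rfl fun t _ => ?_
  rw [Finset.mul_sum]
  refine Finset.sum_congr rfl fun j _ => ?_
  rw [hD1]
  beta_reduce
  rw [mul_pow, hra2]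

end

end TatePole.HK
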