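import Mathlib
import Pool.Agent.Lib.MP_058a58_ag.HK.StmW2
import Pool.Agent.Lib.MP_058a58_ag.HK.Core2
import Pool.Agent.Lib.MP_058a58_ag.HK.Mean0

/-!
# Twists by representations of the Weil group: pairs of embeddings
-/

open Polynomial Filter Topology NumberField

namespace TatePole.HK

open TatePole AT

/-- the sum over a stable set as a sum over the orbits -/
lemma sum_orbits {G X : Type*} [Group G] [Fintype X] [MulAction G X]
    [Fintype (MulAction.orbitRel.Quotient G X)] (t : X → ℂ) (A : X → Prop)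
    [DecidablePred A] [∀ o : MulAction.orbitRel.Quotient G X, DecidablePred fun Q : X =>
      Q ∈ MulAction.orbit G (Quotient.out o)] (hA : ∀ (g : G) (Q : X), A (g • Q) ↔ A Q) :
    ∑ Q : X, (if A Q then t Q else 0) =
      ∑ o : MulAction.orbitRel.Quotient G X, if A (Quotient.out o) then
        ∑ Q : X, (if Q ∈ MulAction.orbit G (Quotient.out o) then t Q else 0) else 0 := by
  classical
  have h1 : ∀ Q : X, (if A Q then t Q else 0) = ∑ o : MulAction.orbitRel.Quotient G X,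
      if A (Quotient.out o) then
        (if Q ∈ MulAction.orbit G (Quotient.out o) then t Q else 0) else 0 := by
    intro Q
    rw [Finset.sum_eq_single (Quotient.mk (MulAction.orbitRel G X) Q)]
    · have h2 : Q ∈ MulAction.orbit G
          (Quotient.out (Quotient.mk (MulAction.orbitRel G X) Q)) := by
        have h3 := Quotient.mk_out (s := MulAction.orbitRel G X) Q
        exact (MulAction.orbitRel G X).symm h3
      rw [if_pos h2]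
      obtain ⟨g, hg⟩ := h2
      have h4 : A Q ↔ A (Quotient.out (Quotient.mk (MulAction.orbitRel G X) Q)) :=
        (Iff.of_eq (congrArg A hg.symm)).trans (hA g _)
      simp only [h4]
    · intro o _ ho
      split_ifs with h2 h3
      · exfalso
        apply ho
        have h4 : (MulAction.orbitRel G X) Q (Quotient.out o) := h3
        have h5 := Quotient.sound (s := MulAction.orbitRel G X) h4
        rw [Quotient.out_eq] at h5
        exact h5.symm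
      · rfl
      · rfl
    · intro h; exact absurd (Finset.mem_univ _) h
  rw [Finset.sum_congr rfl fun Q _ => h1 Q, Finset.sum_comm]
  refine Finset.sum_congr rfl fun o _ => ?_
  split_ifs
  · rfl
  · exact Finset.sum_const_zero

section
variable {F F' : Type} [Field F] [NumberField F] [Field F'] [NumberField F']

lemma norm_zz_le {e : F →ₐ[ℚ] QBar} {x : (F →ₐ[ℚ] QBar) → GQ} {σ : ℕ → GQ} {f : GF e → ℂ}
    {C : ℝ} (hC0 : 0 ≤ C) (hC : ∀ g, ‖f g‖ ≤ C) {Ψ : Ideal (𝓞 F) → ℂ} (h : IsHecke Ψ)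
    (𝔓 : ℕ → Ideal ZBar) (p : ℕ) (ψ : F →ₐ[ℚ] QBar) :
    ‖zz e x σ f (EPsi 𝔓 Ψ) p ψ‖ ≤ C := by
  unfold zz
  rw [norm_mul]
  calc _ ≤ C * 1 := mul_le_mul (norm_extG_le hC hC0 _) (norm_EPsi_le h 𝔓 ψ p) (norm_nonneg _) hC0
    _ = C := mul_one C

open Classical in
/-- the sum over a stable set of pairs with different infinity types -/
theorem dens_stable (hO : S_ORB) {σ : ℕ → GQ} {𝔓 : ℕ → Ideal ZBar} (hσ : FrobSysP σ 𝔓)
    (N : Subgroup GQ) [N.Normal] (L : IntermediateField ℚ QBar) [FiniteDimensional ℚ L]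
    (hN : N = L.fixingSubgroup) (j : QBar →ₐ[ℚ] ℂ) (c : GQ)
    (hc : ∀ x, j (c x) = (starRingEnd ℂ) (j x)) (hcN : c ∉ N)
    (e : F →ₐ[ℚ] QBar) (e' : F' →ₐ[ℚ] QBar) (hNe : N ≤ GF e) (hNe' : N ≤ GF e')
    (x : (F →ₐ[ℚ] QBar) → GQ) (x' : (F' →ₐ[ℚ] QBar) → GQ) (hx : ∀ ψ, x ψ • e = ψ)
    (hx' : ∀ ψ, x' ψ • e' = ψ) (f : GF e → ℂ) (f' : GF e' → ℂ) (hf : ClsF e N f)
    (hf' : ClsF e' N f') (M : ℕ) (k : (F →+* ℂ) → ℤ) (τ : (F →+* ℂ) → ℝ)
    (Ψ : Ideal (𝓞 F) → ℂ) (hΨ : IsHeckeChar F M k τ Ψ)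
    (M' : ℕ) (k' : (F' →+* ℂ) → ℤ) (τ' : (F' →+* ℂ) → ℝ) (Ψ' : Ideal (𝓞 F') → ℂ)
    (hΨ' : IsHeckeChar F' M' k' τ' Ψ')
    (A : (F →ₐ[ℚ] QBar) × (F' →ₐ[ℚ] QBar) → Prop) (hA : ∀ (g : GQ) Q, A (g • Q) ↔ A Q)
    (hty : ∀ Q, A Q → ∃ φ : QBar →+* ℂ, infTy k τ (φ.comp (Q.1 : F →+* QBar)) ≠
      infTy k' τ' (φ.comp (Q.2 : F' →+* QBar))) :
    HasDens (fun p => (∑ Q : (F →ₐ[ℚ] QBar) × (F' →ₐ[ℚ] QBar),
      if A Q then zz e x σ f (EPsi 𝔓 Ψ) p Q.1 *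
        (starRingEnd ℂ) (zz e' x' σ f' (EPsi 𝔓 Ψ') p Q.2) else 0).re) 0 ∧
    BddPrimes (fun p => (∑ Q : (F →ₐ[ℚ] QBar) × (F' →ₐ[ℚ] QBar),
      if A Q then zz e x σ f (EPsi 𝔓 Ψ) p Q.1 *
        (starRingEnd ℂ) (zz e' x' σ f' (EPsi 𝔓 Ψ') p Q.2) else 0).re) := by
  have hfin : Finite (GQ ⧸ N) := finite_quot N hN
  have hfin1 : Finite (GF e ⧸ N.subgroupOf (GF e)) :=
    Finite.of_injective (iotaF e N) iotaF_injective
  have hfin2 : Finite (GF e' ⧸ N.subgroupOf (GF e')) :=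
    Finite.of_injective (iotaF e' N) iotaF_injective
  have : Fintype (MulAction.orbitRel.Quotient GQ ((F →ₐ[ℚ] QBar) × (F' →ₐ[ℚ] QBar))) :=
    Fintype.ofFinite _
  obtain ⟨C, hC0, hC⟩ := hf.bdd
  obtain ⟨C', hC0', hC'⟩ := hf'.bdd
  have hbd : ∀ (A : (F →ₐ[ℚ] QBar) × (F' →ₐ[ℚ] QBar) → Prop),
      BddPrimes (fun p => (∑ Q : (F →ₐ[ℚ] QBar) × (F' →ₐ[ℚ] QBar),
      if A Q then zz e x σ f (EPsi 𝔓 Ψ) p Q.1 *
        (starRingEnd ℂ) (zz e' x' σ f' (EPsi 𝔓 Ψ') p Q.2) else 0).re) := by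
    intro A
    refine ⟨∑ _Q : (F →ₐ[ℚ] QBar) × (F' →ₐ[ℚ] QBar), C * C', fun p hp => ?_⟩
    refine (Complex.abs_re_le_norm _).trans ((norm_sum_le _ _).trans
      (Finset.sum_le_sum fun Q _ => ?_))
    split_ifs
    · rw [norm_mul, Complex.norm_conj]
      exact mul_le_mul (norm_zz_le hC0 hC ⟨_, _, _, hΨ⟩ 𝔓 p _)
        (norm_zz_le hC0' hC' ⟨_, _, _, hΨ'⟩ 𝔓 p _) (norm_nonneg _) hC0
    · rw [norm_zero]; positivity
  refine ⟨?_, hbd A⟩
  have key : ∀ o : MulAction.orbitRel.Quotient GQ ((F →ₐ[ℚ] QBar) × (F' →ₐ[ℚ] QBar)),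
      HasDens (fun p => (if A (Quotient.out o) then
        ∑ Q : (F →ₐ[ℚ] QBar) × (F' →ₐ[ℚ] QBar),
        (if Q ∈ MulAction.orbit GQ (Quotient.out o) then zz e x σ f (EPsi 𝔓 Ψ) p Q.1 *
        (starRingEnd ℂ) (zz e' x' σ f' (EPsi 𝔓 Ψ') p Q.2) else 0) else 0).re) 0 ∧
      BddPrimes (fun p => (if A (Quotient.out o) then
        ∑ Q : (F →ₐ[ℚ] QBar) × (F' →ₐ[ℚ] QBar),
        (if Q ∈ MulAction.orbit GQ (Quotient.out o) then zz e x σ f (EPsi 𝔓 Ψ) p Q.1 *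
        (starRingEnd ℂ) (zz e' x' σ f' (EPsi 𝔓 Ψ') p Q.2) else 0) else 0).re) := by
    intro o
    by_cases ho : A (Quotient.out o)
    · simp only [if_pos ho]
      refine ⟨?_, hbd fun Q => Q ∈ MulAction.orbit GQ (Quotient.out o)⟩
      exact hO F F' σ 𝔓 hσ N L hN j c hc hcN e e' hNe hNe' x x' hx hx' f f' hf hf' M k τ Ψ hΨ
        M' k' τ' Ψ' hΨ' (Quotient.out o).1 (Quotient.out o).2 (hty _ ho)
    · simp only [if_neg ho, Complex.zero_re]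
      refine ⟨?_, ⟨0, fun p _ => by rw [abs_zero]⟩⟩
      intro ε hε
      filter_upwards [eventually_log_ge 0] with s hs
      have h4 : RR (fun _ => (0:ℝ)) s = 0 := by
        have := RR_const_mul 0 (fun _ => (0:ℝ)) s
        simpa using this
      rw [h4, zero_mul, sub_zero, abs_zero]
      positivity
  have hsum := HasDens.sum Finset.univ (fun o _ => (key o).1) (fun o _ => (key o).2)
  rw [Finset.sum_const_zero] at hsum
  refine HasDens.congr' hsum fun p _ => ?_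
  rw [sum_orbits (G := GQ) _ A hA, Complex.re_sum]

variable {E : Type} [Field E] [NumberField E]

/-- the sum over the embeddings of the base field as a sum over pairs -/
lemma sum_zI_mul (i : E →ₐ[ℚ] F) (i' : E →ₐ[ℚ] F') (e : F →ₐ[ℚ] QBar) (e' : F' →ₐ[ℚ] QBar)
    (x : (F →ₐ[ℚ] QBar) → GQ) (x' : (F' →ₐ[ℚ] QBar) → GQ) (σ : ℕ → GQ) (f : GF e → ℂ)
    (f' : GF e' → ℂ) (EE : (F →ₐ[ℚ] QBar) → ℕ → ℂ) (EE' : (F' →ₐ[ℚ] QBar) → ℕ → ℂ) (p : ℕ)
    [DecidablePred fun Q : (F →ₐ[ℚ] QBar) × (F' →ₐ[ℚ] QBar) => Q.1.comp i = Q.2.comp i'] :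
    ∑ ψ₀ : E →ₐ[ℚ] QBar, zI i e x σ f EE p ψ₀ * (starRingEnd ℂ) (zI i' e' x' σ f' EE' p ψ₀) =
      ∑ Q : (F →ₐ[ℚ] QBar) × (F' →ₐ[ℚ] QBar), if Q.1.comp i = Q.2.comp i' then
        zz e x σ f EE p Q.1 * (starRingEnd ℂ) (zz e' x' σ f' EE' p Q.2) else 0 := by
  classical
  rw [Fintype.sum_prod_type]
  have h1 : ∀ ψ₀ : E →ₐ[ℚ] QBar, zI i e x σ f EE p ψ₀ *
      (starRingEnd ℂ) (zI i' e' x' σ f' EE' p ψ₀) =
      ∑ ψ : F →ₐ[ℚ] QBar, ∑ ψ' : F' →ₐ[ℚ] QBar, (if ψ.comp i = ψ₀ then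
        (if ψ'.comp i' = ψ₀ then zz e x σ f EE p ψ * (starRingEnd ℂ) (zz e' x' σ f' EE' p ψ')
          else 0) else 0) := by
    intro ψ₀
    unfold zI
    rw [map_sum, Finset.sum_mul_sum]
    refine Finset.sum_congr rfl fun ψ _ => Finset.sum_congr rfl fun ψ' _ => ?_
    split_ifs <;> simp
  rw [Finset.sum_congr rfl fun ψ₀ _ => h1 ψ₀, Finset.sum_comm]
  refine Finset.sum_congr rfl fun ψ _ => ?_
  rw [Finset.sum_comm]
  refine Finset.sum_congr rfl fun ψ' _ => ?_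
  rw [Finset.sum_ite_eq]
  simp only [Finset.mem_univ, if_true]
  by_cases h : ψ.comp i = ψ'.comp i'
  · rw [if_pos h.symm, if_pos h]
  · rw [if_neg (fun h' => h h'.symm), if_neg h]

lemma smul_comp (g : GQ) (ψ : F →ₐ[ℚ] QBar) (i : E →ₐ[ℚ] F) : (g • ψ).comp i = g • (ψ.comp i) :=
  rfl

/-- the hypothesis on the types, moved to a pair of embeddings with the same restriction -/
lemma type_move {i : E →ₐ[ℚ] F} {i' : E →ₐ[ℚ] F'} {e₀ : E →ₐ[ℚ] QBar} {e : F →ₐ[ℚ] QBar}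
    {e' : F' →ₐ[ℚ] QBar} (he : e.comp i = e₀) (he' : e'.comp i' = e₀) {x : (F →ₐ[ℚ] QBar) → GQ}
    {x' : (F' →ₐ[ℚ] QBar) → GQ} (hx : ∀ ψ, x ψ • e = ψ) (hx' : ∀ ψ, x' ψ • e' = ψ)
    {ψ : F →ₐ[ℚ] QBar} {ψ' : F' →ₐ[ℚ] QBar} (h : ψ.comp i = ψ'.comp i') :
    (x ψ)⁻¹ * x' ψ' ∈ GF e₀ ∧ ∀ φ : QBar →+* ℂ, ∃ φ' : QBar →+* ℂ,
      φ'.comp (ψ : F →+* QBar) = φ.comp (e : F →+* QBar) ∧
      φ'.comp (ψ' : F' →+* QBar) =
        φ.comp (((((x ψ)⁻¹ * x' ψ') • e' : F' →ₐ[ℚ] QBar)) : F' →+* QBar) := by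
  constructor
  · rw [mem_GF, mul_smul, inv_smul_eq_iff]
    calc x' ψ' • e₀ = (x' ψ' • e').comp i' := by rw [smul_comp, he']
      _ = ψ'.comp i' := by rw [hx']
      _ = ψ.comp i := h.symm
      _ = (x ψ • e).comp i := by rw [hx]
      _ = x ψ • e₀ := by rw [smul_comp, he]
  · intro φ
    refine ⟨φ.comp (((x ψ)⁻¹ : GQ) : QBar →+* QBar), ?_, ?_⟩
    · ext a
      show φ ((x ψ)⁻¹ (ψ a)) = φ (e a)
      congr 1
      conv_lhs => rw [← hx ψ]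
      rw [smul_emb_apply, hx, ← AlgEquiv.mul_apply, inv_mul_cancel]
      rfl
    · ext a
      show φ ((x ψ)⁻¹ (ψ' a)) = φ (((x ψ)⁻¹ * x' ψ') (e' a))
      congr 1
      rw [AlgEquiv.mul_apply]
      have h9 : ψ' a = x' ψ' (e' a) := by
        rw [← smul_emb_apply, hx']
      rw [h9]

end

/-- [PAIR] -/
theorem pair (hO : S_ORB) : S_PAIR := by
  classical
  intro E F F' _ _ _ _ _ _ i i' σ 𝔓 hσ N _ L _ hN j c hc hcN e₀ e e' he he' hNe hNe' x x' hx hx'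
    f f' hf hf' M k τ Ψ hΨ M' k' τ' Ψ' hΨ' hty
  have h1 := (dens_stable hO hσ N L hN j c hc hcN e e' hNe hNe' x x' hx hx' f f' hf hf' M k τ Ψ
    hΨ M' k' τ' Ψ' hΨ' (fun Q => Q.1.comp i = Q.2.comp i') (fun g Q => by
      rw [Prod.smul_fst, Prod.smul_snd, smul_comp, smul_comp]
      exact (MulAction.injective g).eq_iff) (fun Q hQ => by
      obtain ⟨h2, h3⟩ := type_move he he' hx hx' hQ
      obtain ⟨φ, hφ⟩ := hty _ h2
      obtain ⟨φ', h4, h5⟩ := h3 φ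
      exact ⟨φ', by rw [h4, h5]; exact hφ⟩)).1
  refine HasDens.congr' h1 fun p _ => ?_
  rw [sum_zI_mul]

/-- [PAIRD] -/
theorem paird (hO : S_ORB) : S_PAIRD := by
  classical
  intro E F _ _ _ _ i σ 𝔓 hσ N _ L _ hN j c hc hcN e₀ e he hNe x hx f f' hf hf' M k τ Ψ hΨ hty
  have hfin : Finite (GQ ⧸ N) := finite_quot N hN
  have hfin1 : Finite (GF e ⧸ N.subgroupOf (GF e)) :=
    Finite.of_injective (iotaF e N) iotaF_injective
  have hI : IsHecke Ψ := ⟨_, _, _, hΨ⟩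
  -- the pairs off the diagonal
  have h1 := dens_stable hO hσ N L hN j c hc hcN e e hNe hNe x x hx hx f f' hf hf' M k τ Ψ
    hΨ M k τ Ψ hΨ (fun Q => Q.1.comp i = Q.2.comp i ∧ Q.1 ≠ Q.2) (fun g Q => by
      rw [Prod.smul_fst, Prod.smul_snd, smul_comp, smul_comp, Ne,
        (MulAction.injective g).eq_iff, (MulAction.injective g).eq_iff]) (fun Q hQ => by
      obtain ⟨h2, h3⟩ := type_move he he hx hx hQ.1
      obtain ⟨φ, hφ⟩ := hty _ h2 (fun h4 => hQ.2 (by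
        rw [mem_GF, mul_smul, hx, inv_smul_eq_iff, hx] at h4
        exact h4.symm))
      obtain ⟨φ', h4, h5⟩ := h3 φ
      exact ⟨φ', by rw [h4, h5]; exact hφ⟩)
  -- the diagonal
  have hff : ClsF e N (fun g => f g * (starRingEnd ℂ) (f' g)) := hf.mul hf'.star
  obtain ⟨C, hC0, hC⟩ := hff.bdd
  obtain ⟨T, hT⟩ := norm_EPsi hI
  have h2 := mean0 F σ (FrobSysP.frobSys hσ) N L hN j c hc hcN e hNe x hx _ hff
  have h3 := h2.congr_finite T (h := fun p => (sumFix e x σ (fun g => f g * (starRingEnd ℂ) (f' g))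
    (EPsi 𝔓 (ratio Ψ Ψ)) p).re) (fun p hp hpT => by
      unfold sumFix
      congr 1
      refine Finset.sum_congr rfl fun ψ _ => ?_
      congr 1
      rw [EPsi_ratio, Complex.mul_conj, Complex.normSq_eq_norm_sq, hT hσ p hp hpT]
      simp)
    (sumFix_bdd hC0 hC fun ψ p _ => by rw [norm_one])
    (sumFix_bdd hC0 hC fun ψ p _ => ratio_norm_le hI hI _)
  have h4 := h3.add h1.1 (sumFix_bdd hC0 hC fun ψ p _ => ratio_norm_le hI hI _) h1.2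
  rw [add_zero] at h4
  refine HasDens.congr' h4 fun p _ => ?_
  rw [sum_zI_mul, ← Complex.add_re]
  congr 1
  have e1 : sumFix e x σ (fun g => f g * (starRingEnd ℂ) (f' g)) (EPsi 𝔓 (ratio Ψ Ψ)) p =
      ∑ Q : (F →ₐ[ℚ] QBar) × (F →ₐ[ℚ] QBar), if Q.1 = Q.2 then
        zz e x σ f (EPsi 𝔓 Ψ) p Q.1 * (starRingEnd ℂ) (zz e x σ f' (EPsi 𝔓 Ψ) p Q.2) else 0 := by
    rw [Fintype.sum_prod_type]
    unfold sumFix
    refine Finset.sum_congr rfl fun ψ _ => ?_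
    rw [Finset.sum_ite_eq]
    simp only [Finset.mem_univ, if_true]
    unfold zz
    rw [← extG_mul_conj, EPsi_ratio, map_mul]
    ring
  rw [e1, ← Finset.sum_add_distrib]
  refine Finset.sum_congr rfl fun Q _ => ?_
  by_cases h5 : Q.1 = Q.2
  · rw [if_pos h5, if_neg (fun h : Q.1.comp i = Q.2.comp i ∧ Q.1 ≠ Q.2 => h.2 h5), add_zero,
      if_pos (by rw [h5])]
  · rw [if_neg h5, zero_add]
    by_cases h6 : Q.1.comp i = Q.2.comp i
    · rw [if_pos h6, if_pos (show Q.1.comp i = Q.2.comp i ∧ Q.1 ≠ Q.2 from ⟨h6, h5⟩)]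
    · rw [if_neg h6, if_neg (fun h : Q.1.comp i = Q.2.comp i ∧ Q.1 ≠ Q.2 => h6 h.1)]

end TatePole.HK
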