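import Mathlib
import Pool.Agent.Lib.MP_058a58_ag.HK.WCore
import Pool.Agent.Lib.MP_058a58_ag.HK.WPair
import Pool.Agent.Lib.MP_058a58_ag.HK.Ind
import Pool.Agent.Lib.MP_058a58_ag.HK.AutIncl
import Pool.Agent.Lib.MP_058a58_ag.HK.Final
import Pool.Agent.Lib.MP_058a58_ag.HK.Pur

/-!
# The inequality for twists by representations of the Weil group
-/

open Polynomial Filter Topology NumberField

namespace TatePole.HK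

open TatePole AT

section
variable {E : Type} [Field E] [NumberField E] {e₀ : E →ₐ[ℚ] QBar} {ℓ : ℕ} [Fact ℓ.Prime]
  {W : Type*} [AddCommGroup W] [Module ℚ_[ℓ] W] [FiniteDimensional ℚ_[ℓ] W]
  [Algebra ℚ_[ℓ] ℂ]

theorem weil_final (hORB : S_ORB)
    (hPURR : ∀ (F : Type) [Field F] [NumberField F] (e : F →ₐ[ℚ] QBar) (h : GF e ≤ GF e₀)
      (ρ : Representation ℚ_[ℓ] (GF e₀) W) (w : ℤ) (S : Finset (Ideal (𝓞 E))),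
      (∀ 𝔭 : Ideal (𝓞 E), 𝔭.IsPrime → 𝔭 ≠ ⊥ → 𝔭 ∉ S → IsPureAt ρ w 𝔭) →
      ∃ S' : Finset (Ideal (𝓞 F)), ∀ 𝔮 : Ideal (𝓞 F), 𝔮.IsPrime → 𝔮 ≠ ⊥ → 𝔮 ∉ S' →
        IsPureAt (resG h ρ) w 𝔮)
    (ρ : Representation ℚ_[ℓ] (GF e₀) W) (w : ℤ) (S : Finset (Ideal (𝓞 E)))
    (hpure : ∀ 𝔭 : Ideal (𝓞 E), 𝔭.IsPrime → 𝔭 ≠ ⊥ → 𝔭 ∉ S → IsPureAt ρ w 𝔭)
    (K : Type) [Field K] [NumberField K] (eK : K →ₐ[ℚ] QBar) (hKE : GF eK ≤ GF e₀)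
    {T : Type*} [Fintype T] (F : T → Type) [∀ t, Field (F t)] [∀ t, NumberField (F t)]
    (e : ∀ t, F t →ₐ[ℚ] QBar) (hFE : ∀ t, GF (e t) ≤ GF e₀)
    (M : T → ℕ) (k : ∀ t, (F t →+* ℂ) → ℤ) (τ : ∀ t, (F t →+* ℂ) → ℝ)
    (Ψ : ∀ t, Ideal (𝓞 (F t)) → ℂ) (hΨ : ∀ t, IsHeckeChar (F t) (M t) (k t) (τ t) (Ψ t))
    (hsep : ∀ t u, ∀ y ∈ GF e₀, ¬ (t = u ∧ y ∈ GF (e t)) →
      ∃ φ : QBar →+* ℂ, infTy (k t) (τ t) (φ.comp (e t : F t →+* QBar)) ≠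
        infTy (k u) (τ u) (φ.comp ((y • e u : F u →ₐ[ℚ] QBar) : F u →+* QBar)))
    (B : Submodule ℚ_[ℓ] W) {U : T → Type*} [∀ t, AddCommGroup (U t)] [∀ t, Module ℂ (U t)]
    [∀ t, FiniteDimensional ℂ (U t)] (β : ∀ t, Representation ℂ (GF (e t)) (U t))
    (hB : WeilPart ρ w S B F e Ψ β)
    {J : T → Type*} [∀ t, Fintype (J t)] {V : ∀ t, J t → Type*} [∀ t j, AddCommGroup (V t j)]
    [∀ t j, Module ℂ (V t j)] [∀ t j, FiniteDimensional ℂ (V t j)]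
    (α : ∀ t j, Representation ℂ (GF (e t)) (V t j)) (hα : ∀ t j, IsFin (α t j))
    (hFK : ∀ t, Nonempty (J t) → GF (e t) ≤ GF eK) (hirr : ∀ t j, (α t j).IsIrreducible)
    (hne : ∀ t j j', j ≠ j' → IsEmpty ((α t j).Equiv (α t j')))
    (S' : ∀ t, J t → Finset (Ideal (𝓞 (F t)))) (R : ∀ t, J t → Ideal (𝓞 (F t)) → ℂ[X])
    (hR : ∀ t j, HeckeFactors (resG (hFE t) ρ) w (α t j) (Ψ t) (S' t j) (R t j))
    (S'' : Finset (Ideal (𝓞 K))) (Q : Ideal (𝓞 K) → ℂ[X])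
    (hQ : HeckeFactors (selfG (resG hKE ρ) B fun g => hB.stable _) 0
      (Representation.trivial ℂ (GF eK) ℂ) (oneH K) S'' Q)
    (ε : ℝ) (hε : 0 < ε) :
    ∀ᶠ s : ℝ in 𝓝[>] (1 : ℝ), ((GF eK).relIndex (Subgroup.normalizer (GF eK) ⊓ GF e₀) : ℝ) *
        ∑ t, ∑ j, (defF (Module.finrank ℂ ((β t).tprod (α t j)).invariants) (R t j) s) ^ 2 ≤
      (Real.log ‖LFunF Q s‖ + ε * Real.log (1 / (s - 1))) * Real.log (1 / (s - 1)) ∧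
      Real.log ‖LFunF Q s‖ ≤ (((Module.finrank ℚ_[ℓ] W : ℝ) - Module.finrank ℚ_[ℓ] B) ^ 2 + ε) *
        Real.log (1 / (s - 1)) := by
  classical
  choose SF hSF using fun t => hPURR (F t) (e t) (hFE t) ρ w S hpure
  obtain ⟨SK, hSK⟩ := hPURR K eK hKE ρ w S hpure
  exact weil_core (pair hORB) (paird hORB) ind aut incl ρ w S hpure K eK hKE F e hFE M k τ Ψ hΨ
    (fun t u y hy h => hsep t u y hy fun hh => h hh.1 hh.2) B β hB α hα hFK hirr hne R Q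
    (fun t j x σ 𝔓 hx hσ => log_F (resG (hFE t) ρ) w (α t j) (Ψ t) (SF t ∪ S' t j)
      (R t j) x σ 𝔓 (fun 𝔭 h1 h2 h3 => hSF t 𝔭 h1 h2 fun h => h3 (Finset.mem_union_left _ h))
      ⟨_, _, _, hΨ t⟩ (hα t j)
      (HeckeFactors.mono (hR t j) fun 𝔭 h3 h => h3 (Finset.mem_union_right _ h)) hx hσ)
    (fun x σ 𝔓 hx hσ => log_F _ 0 _ (oneH K) (SK ∪ S'') Q x σ 𝔓
      (fun 𝔭 h1 h2 h3 => isPureAt_selfG (hSK 𝔭 h1 h2 fun h => h3 (Finset.mem_union_left _ h))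
        h2 B _) isHecke_oneH
      isFin_trivial (HeckeFactors.mono hQ fun 𝔭 h3 h => h3 (Finset.mem_union_right _ h)) hx hσ)
    ε hε

end

end TatePole.HK
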