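import Mathlib
import Pool.Agent.Lib.MP_058a58_ag.HK.WPair
import Pool.Agent.Lib.MP_058a58_ag.HK.Osc
import Pool.Agent.Lib.MP_058a58_ag.HK.Tens
import Pool.Agent.Lib.MP_058a58_ag.HK.Ratio
import Pool.Agent.Lib.MP_058a58_ag.HK.TrickF4

/-!
# Twists by representations of the Weil group: one orbit of pairs of embeddings
-/

open Polynomial Filter Topology NumberField

namespace TatePole.HK

open TatePole AT
open Pool.Agent.Lib.MP_058a58_ag.HK (Pairs cf e1 e2 gv rs rs_act rs_smul rs_injective rs_range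
  fix_cf exists_act sum_orbit relNorm_of_prime comap_comap_intMap incl isHecke_of_char)
open Pool.Agent.MP_058a58_ag.Ch (io omE OmegaOK omegaOK_omE omE_io norm_omE_io omE_io')

section
variable {F K : Type} [Field F] [NumberField F] [Field K] [NumberField K]

/-- the composition with the relative norm -/
theorem pull_char [Algebra F K] {M : ℕ} {k : (F →+* ℂ) → ℤ} {τ : (F →+* ℂ) → ℝ}
    {Ψ : Ideal (𝓞 F) → ℂ} (h : IsHeckeChar F M k τ Ψ) :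
    IsHeckeChar K M (fun φ => k (φ.comp (algebraMap F K))) (fun φ => τ (φ.comp (algebraMap F K)))
      (fun J => Ψ (Ideal.relNorm (𝓞 F) J)) := by
  have h1 := Pool.Agent.Lib.MP_058a58_ag.HK.IsHecke.pull (L := K) (isHecke_of_char h)
  refine ⟨h.pos, ?_, h1.mul, h1.norm, ?_, ?_⟩
  · rw [Ideal.one_eq_top]; exact h1.one
  · rintro I (hI | hI)
    · subst hI
      beta_reduce
      rw [Ideal.relNorm_bot]
      exact h.zero ⊥ (Or.inl rfl)
    · exact h1.zero I hI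
  · intro a ha hM
    have h2 := h1.prin a ha hM
    rw [h2, omE_io]
    rfl

/-- the character of `K` that belongs to a character of `F` and an embedding of `F` into `K` -/
theorem hecke_pull (i : F →ₐ[ℚ] K) {M : ℕ} {k : (F →+* ℂ) → ℤ} {τ : (F →+* ℂ) → ℝ}
    {Ψ : Ideal (𝓞 F) → ℂ} (h : IsHeckeChar F M k τ Ψ) :
    ∃ Ψ₂ : Ideal (𝓞 K) → ℂ, IsHeckeChar K M (fun φ => k (φ.comp (i : F →+* K)))
      (fun φ => τ (φ.comp (i : F →+* K))) Ψ₂ ∧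
      ∀ p : ℕ, p.Prime → ∀ (𝔓 : Ideal ZBar) (φ : K →ₐ[ℚ] QBar),
        Ideal.absNorm (𝔓.comap (intMap φ)) = p →
        Ψ₂ (𝔓.comap (intMap φ)) = Ψ (𝔓.comap (intMap (φ.comp i))) := by
  letI : Algebra F K := (i : F →+* K).toAlgebra
  refine ⟨fun J => Ψ (Ideal.relNorm (𝓞 F) J), pull_char h, ?_⟩
  intro p hp 𝔓 φ hφ
  beta_reduce
  rw [relNorm_of_prime hp hφ, comap_comap_intMap]
  congr 2

end

section
variable {F : Type} [Field F] [NumberField F] {e : F →ₐ[ℚ] QBar} {N : Subgroup GQ}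
  {f : GF e → ℂ}

lemma orb_conj (hf : ClsF e N f) {x : GQ} (hx : x ∈ GF e) (g : GQ) :
    extG e f (x⁻¹ * g * x) = extG e f g := by
  by_cases hg : g ∈ GF e
  · rw [extG_mem ((GF e).mul_mem ((GF e).mul_mem ((GF e).inv_mem hx) hg) hx), extG_mem hg]
    exact hf.cls ⟨x, hx⟩ ⟨g, hg⟩
  · rw [extG_not hg, extG_not]
    intro h
    apply hg
    have h1 := (GF e).mul_mem ((GF e).mul_mem hx h) ((GF e).inv_mem hx)
    have h2 : x * (x⁻¹ * g * x) * x⁻¹ = g := by group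
    rwa [h2] at h1

lemma orb_mul (hN : N ≤ GF e) (hf : ClsF e N f) (g : GQ) {n : GQ} (hn : n ∈ N) :
    extG e f (g * n) = extG e f g := by
  by_cases hg : g ∈ GF e
  · rw [extG_mem ((GF e).mul_mem hg (hN hn)), extG_mem hg]
    exact hf.inv ⟨g, hg⟩ ⟨n, hN hn⟩ hn
  · rw [extG_not hg, extG_not]
    intro h
    apply hg
    have h1 := (GF e).mul_mem h ((GF e).inv_mem (hN hn))
    rwa [mul_inv_cancel_right] at h1

lemma orb_inv (hf : ClsF e N f) (g : GQ) :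
    extG e f g⁻¹ = (starRingEnd ℂ) (extG e f g) := by
  by_cases hg : g ∈ GF e
  · rw [extG_mem ((GF e).inv_mem hg), extG_mem hg]
    exact hf.conj ⟨g, hg⟩
  · rw [extG_not hg, extG_not, map_zero]
    intro h
    apply hg
    have h1 := (GF e).inv_mem h
    rwa [inv_inv] at h1

/-- moving the conjugation to another embedding -/
lemma orb_move (hf : ClsF e N f) {x : (F →ₐ[ℚ] QBar) → GQ} (hx : ∀ ψ, x ψ • e = ψ) (g s : GQ)
    (ψ : F →ₐ[ℚ] QBar) :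
    extG e f ((x (g • ψ))⁻¹ * s * x (g • ψ)) = extG e f ((x ψ)⁻¹ * (g⁻¹ * s * g) * x ψ) := by
  have hu : (x ψ)⁻¹ * g⁻¹ * x (g • ψ) ∈ GF e := by
    rw [mem_GF, mul_smul, mul_smul, hx, inv_smul_smul, inv_smul_eq_iff, hx]
  have h1 := orb_conj hf hu ((x ψ)⁻¹ * (g⁻¹ * s * g) * x ψ)
  rw [← h1]
  congr 1
  group

end

/-- **[ORB]** -/
theorem orb (hT : S_TYPE) : S_ORB := by
  classical
  intro F F' _ _ _ _ σ 𝔓 hσ N _ L _ hN j c hc hcN e e' hNe hNe' x x' hx hx' f f' hf hf' M k τ Ψ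
    hΨ M' k' τ' Ψ' hΨ' ψ₁ ψ₁' hφ
  obtain ⟨φ₀, hφ₀⟩ := hφ
  set P : Pairs F F' := (ψ₁, ψ₁') with hP
  obtain ⟨Ψ₂, hΨ₂, hv⟩ := hecke_pull (e1 P) hΨ
  obtain ⟨Ψ₂', hΨ₂', hv'⟩ := hecke_pull (e2 P) hΨ'
  have hr := hΨ₂.ratio hΨ₂'
  have hinf : InfOrder (ratio Ψ₂ Ψ₂') := by
    refine hT (cf P) _ _ _ _ hr ⟨φ₀.comp (algebraMap (cf P) QBar), ?_⟩
    intro h0
    apply hφ₀
    have h1 := congrArg Prod.fst h0
    have h2 := congrArg Prod.snd h0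
    unfold infTy
    apply Prod.ext
    · have h3 : k (φ₀.comp (ψ₁ : F →+* QBar)) - k' (φ₀.comp (ψ₁' : F' →+* QBar)) -
        (k ((starRingEnd ℂ).comp (φ₀.comp (ψ₁ : F →+* QBar))) -
          k' ((starRingEnd ℂ).comp (φ₀.comp (ψ₁' : F' →+* QBar)))) = 0 := h1
      show k _ - k _ = k' _ - k' _
      linarith
    · have h3 : τ (φ₀.comp (ψ₁ : F →+* QBar)) - τ' (φ₀.comp (ψ₁' : F' →+* QBar)) +
        (τ ((starRingEnd ℂ).comp (φ₀.comp (ψ₁ : F →+* QBar))) -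
          τ' ((starRingEnd ℂ).comp (φ₀.comp (ψ₁' : F' →+* QBar)))) = 0 := h2
      show τ _ + τ _ = τ' _ + τ' _
      linarith
  have hosc := osc (cf P) σ 𝔓 hσ _ ⟨_, _, _, hr⟩ hinf
  set κ : cf P →ₐ[ℚ] QBar := gv P 1 with hκ
  have hgv : ∀ g : GQ, gv P g = g • κ := fun g => rfl
  have hmemκ : ∀ g : GQ, g ∈ GF κ ↔ g • P = P := by
    intro g
    rw [mem_GF, ← hgv, hκ]
    constructor
    · intro h
      have h1 := rs_act P g
      rw [h, rs_act, one_smul] at h1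
      exact h1.symm
    · intro h
      apply rs_injective P
      rw [rs_act, rs_act, h, one_smul]
  have hNκ : N ≤ GF κ := by
    intro n hn
    rw [hmemκ]
    have h1 : (x ψ₁)⁻¹ * n * x ψ₁ ∈ GF e := hNe (by
      have := (inferInstance : N.Normal).conj_mem n hn (x ψ₁)⁻¹
      rwa [inv_inv] at this)
    have h2 : (x' ψ₁')⁻¹ * n * x' ψ₁' ∈ GF e' := hNe' (by
      have := (inferInstance : N.Normal).conj_mem n hn (x' ψ₁')⁻¹
      rwa [inv_inv] at this)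
    rw [mem_GF, mul_smul, mul_smul, hx, inv_smul_eq_iff, hx] at h1
    rw [mem_GF, mul_smul, mul_smul, hx', inv_smul_eq_iff, hx'] at h2
    exact Prod.ext h1 h2
  have hex : ∀ φ : cf P →ₐ[ℚ] QBar, ∃ g : GQ, g • κ = φ := by
    intro φ
    obtain ⟨g, hg⟩ := exists_act P φ
    exact ⟨g, by rw [hg, hgv]⟩
  choose y hy using hex
  have hmem1 : ∀ g ∈ GF κ, g • ψ₁ = ψ₁ := fun g hg => congrArg Prod.fst ((hmemκ g).mp hg)
  have hmem2 : ∀ g ∈ GF κ, g • ψ₁' = ψ₁' := fun g hg => congrArg Prod.snd ((hmemκ g).mp hg)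
  have hin1 : ∀ g ∈ GF κ, (x ψ₁)⁻¹ * g * x ψ₁ ∈ GF e := by
    intro g hg
    rw [mem_GF, mul_smul, mul_smul, hx, hmem1 g hg, inv_smul_eq_iff, hx]
  have hin2 : ∀ g ∈ GF κ, (x' ψ₁')⁻¹ * g * x' ψ₁' ∈ GF e' := by
    intro g hg
    rw [mem_GF, mul_smul, mul_smul, hx', hmem2 g hg, inv_smul_eq_iff, hx']
  set f₂ : GF κ → ℂ := fun g => extG e f ((x ψ₁)⁻¹ * g * x ψ₁) *
    (starRingEnd ℂ) (extG e' f' ((x' ψ₁')⁻¹ * g * x' ψ₁')) with hf₂
  have hcl : ClsF κ N f₂ := by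
    refine ⟨?_, ?_, ?_⟩
    · intro g h hh
      have h1 : (x ψ₁)⁻¹ * ((g * h : GF κ) : GQ) * x ψ₁ =
          (x ψ₁)⁻¹ * (g : GQ) * x ψ₁ * ((x ψ₁)⁻¹ * (h : GQ) * x ψ₁) := by
        rw [Subgroup.coe_mul]; group
      have h2 : (x' ψ₁')⁻¹ * ((g * h : GF κ) : GQ) * x' ψ₁' =
          (x' ψ₁')⁻¹ * (g : GQ) * x' ψ₁' * ((x' ψ₁')⁻¹ * (h : GQ) * x' ψ₁') := by
        rw [Subgroup.coe_mul]; group
      have h3 : (x ψ₁)⁻¹ * (h : GQ) * x ψ₁ ∈ N := by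
        have := (inferInstance : N.Normal).conj_mem _ hh (x ψ₁)⁻¹
        rwa [inv_inv] at this
      have h4 : (x' ψ₁')⁻¹ * (h : GQ) * x' ψ₁' ∈ N := by
        have := (inferInstance : N.Normal).conj_mem _ hh (x' ψ₁')⁻¹
        rwa [inv_inv] at this
      simp only [hf₂]
      rw [h1, h2, orb_mul hNe hf _ h3, orb_mul hNe' hf' _ h4]
    · intro u g
      have h1 : (x ψ₁)⁻¹ * ((u⁻¹ * g * u : GF κ) : GQ) * x ψ₁ =
          ((x ψ₁)⁻¹ * (u : GQ) * x ψ₁)⁻¹ * ((x ψ₁)⁻¹ * (g : GQ) * x ψ₁) *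
            ((x ψ₁)⁻¹ * (u : GQ) * x ψ₁) := by
        rw [Subgroup.coe_mul, Subgroup.coe_mul, Subgroup.coe_inv]; group
      have h2 : (x' ψ₁')⁻¹ * ((u⁻¹ * g * u : GF κ) : GQ) * x' ψ₁' =
          ((x' ψ₁')⁻¹ * (u : GQ) * x' ψ₁')⁻¹ * ((x' ψ₁')⁻¹ * (g : GQ) * x' ψ₁') *
            ((x' ψ₁')⁻¹ * (u : GQ) * x' ψ₁') := by
        rw [Subgroup.coe_mul, Subgroup.coe_mul, Subgroup.coe_inv]; group
      simp only [hf₂]
      rw [h1, h2, orb_conj hf (hin1 u u.2), orb_conj hf' (hin2 u u.2)]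
    · intro g
      have h1 : (x ψ₁)⁻¹ * ((g⁻¹ : GF κ) : GQ) * x ψ₁ = ((x ψ₁)⁻¹ * (g : GQ) * x ψ₁)⁻¹ := by
        rw [Subgroup.coe_inv]; group
      have h2 : (x' ψ₁')⁻¹ * ((g⁻¹ : GF κ) : GQ) * x' ψ₁' =
          ((x' ψ₁')⁻¹ * (g : GQ) * x' ψ₁')⁻¹ := by
        rw [Subgroup.coe_inv]; group
      simp only [hf₂]
      rw [h1, h2, orb_inv hf, orb_inv hf', map_mul]
  have hmain := trickF (cf P) σ (FrobSysP.frobSys hσ) _ hosc N L hN j c hc hcN κ hNκ y hy f₂ hcl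
  refine HasDens.congr' hmain fun p hp => ?_
  congr 1
  obtain ⟨h𝔓, hp𝔓, hfr⟩ := hσ p hp
  set t : Pairs F F' → ℂ := fun Q => zz e x σ f (EPsi 𝔓 Ψ) p Q.1 *
      (starRingEnd ℂ) (zz e' x' σ f' (EPsi 𝔓 Ψ') p Q.2) with ht
  have hz1 : ∀ ψ : F →ₐ[ℚ] QBar, ¬ σ p • ψ = ψ → zz e x σ f (EPsi 𝔓 Ψ) p ψ = 0 := by
    intro ψ h
    unfold zz
    rw [extG_not, zero_mul]
    intro h1
    apply h
    rw [mem_GF, mul_smul, mul_smul, hx, inv_smul_eq_iff, hx] at h1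
    exact h1
  have hz2 : ∀ ψ : F' →ₐ[ℚ] QBar, ¬ σ p • ψ = ψ → zz e' x' σ f' (EPsi 𝔓 Ψ') p ψ = 0 := by
    intro ψ h
    unfold zz
    rw [extG_not, zero_mul]
    intro h1
    apply h
    rw [mem_GF, mul_smul, mul_smul, hx', inv_smul_eq_iff, hx'] at h1
    exact h1
  have ht0 : ∀ Q : Pairs F F', ¬ σ p • Q = Q → t Q = 0 := by
    intro Q h
    simp only [ht]
    by_cases h1 : σ p • Q.1 = Q.1
    · have h2 : ¬ σ p • Q.2 = Q.2 := fun h3 => h (Prod.ext h1 h3)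
      rw [hz2 _ h2, map_zero, mul_zero]
    · rw [hz1 _ h1, zero_mul]
  have hL : ∑ Q : Pairs F F', (if Q ∈ MulAction.orbit GQ P then t Q else 0) =
      ∑ φ : cf P →ₐ[ℚ] QBar with σ p • φ = φ, t (rs P φ) := by
    rw [sum_orbit P (σ p) t, Finset.sum_filter]
    refine Finset.sum_congr rfl fun Q _ => ?_
    by_cases h1 : σ p • Q = Q
    · by_cases h2 : Q ∈ MulAction.orbit GQ P
      · rw [if_pos h2, if_pos ⟨h1, h2⟩]
      · rw [if_neg h2, if_neg (fun h => h2 h.2)]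
    · rw [ht0 Q h1]
      split_ifs <;> rfl
  refine hL.trans ?_
  unfold sumFix
  rw [Finset.sum_filter]
  refine Finset.sum_congr rfl fun φ _ => ?_
  by_cases hfix : σ p • φ = φ
  · rw [if_pos hfix]
    have hmem : (y φ)⁻¹ * σ p * y φ ∈ GF κ := by
      rw [mem_GF, mul_smul, mul_smul, hy, hfix, inv_smul_eq_iff, hy]
    have hnorm := absNorm_comap_of_fixed hp h𝔓 hp𝔓 hfr (φ := φ) (fun a => by
      rw [← smul_emb_apply, hfix])
    have hrs1 : φ.comp (e1 P) = y φ • ψ₁ := by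
      conv_lhs => rw [← hy φ]
      exact congrArg Prod.fst (rs_act P (y φ))
    have hrs2 : φ.comp (e2 P) = y φ • ψ₁' := by
      conv_lhs => rw [← hy φ]
      exact congrArg Prod.snd (rs_act P (y φ))
    have hE : EPsi 𝔓 (ratio Ψ₂ Ψ₂') φ p = EPsi 𝔓 Ψ (φ.comp (e1 P)) p *
        (starRingEnd ℂ) (EPsi 𝔓 Ψ' (φ.comp (e2 P)) p) := by
      unfold EPsi ratio
      rw [hv p hp (𝔓 p) φ hnorm, hv' p hp (𝔓 p) φ hnorm]
    rw [extG_mem hmem, hE]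
    simp only [hf₂, ht]
    show zz e x σ f (EPsi 𝔓 Ψ) p (φ.comp (e1 P)) *
      (starRingEnd ℂ) (zz e' x' σ f' (EPsi 𝔓 Ψ') p (φ.comp (e2 P))) = _
    unfold zz
    rw [hrs1, hrs2, orb_move hf hx, orb_move hf' hx', map_mul]
    ring
  · rw [if_neg hfix, extG_not, zero_mul]
    intro h
    apply hfix
    rw [mem_GF, mul_smul, mul_smul, hy, inv_smul_eq_iff, hy] at h
    exact h

end TatePole.HK
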