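import Mathlib
import Pool.Agent.Lib.MP_058a58_ag.HK.WFinal1
import Pool.Agent.Lib.MP_058a58_ag.HK.WOrb
import Pool.Agent.Lib.MP_058a58_ag.HK.TypeT

/-!
# The inequality for twists by representations of the Weil group
-/

open Polynomial Filter Topology NumberField

namespace TatePole.HK

open TatePole AT

section
variable {E : Type} [Field E] [NumberField E] {e₀ : E →ₐ[ℚ] QBar} {ℓ : ℕ} [Fact ℓ.Prime]
  {W : Type*} [AddCommGroup W] [Module ℚ_[ℓ] W] [FiniteDimensional ℚ_[ℓ] W]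
  [Algebra ℚ_[ℓ] ℂ]

theorem weil_final2
    (ρ : Representation ℚ_[ℓ] (GF e₀) W) (w : ℤ) (S : Finset (Ideal (𝓞 E)))
    (hpure : ∀ 𝔭 : Ideal (𝓞 E), 𝔭.IsPrime → 𝔭 ≠ ⊥ → 𝔭 ∉ S → IsPureAt ρ w 𝔭)
    (K : Type) [Field K] [NumberField K] (eK : K →ₐ[ℚ] QBar) (hKE : GF eK ≤ GF e₀)
    {T : Type*} [Fintype T] (F : T → Type) [∀ t, Field (F t)] [∀ t, NumberField (F t)]
    (e : ∀ t, F t →ₐ[ℚ] QBar) (hFE : ∀ t, GF (e t) ≤ GF e₀)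
    (M : T → ℕ) (k : ∀ t, (F t →+* ℂ) → ℤ) (τ : ∀ t, (F t →+* ℂ) → ℝ)
    (Ψ : ∀ t, Ideal (𝓞 (F t)) → ℂ) (hΨ : ∀ t, IsHeckeChar (F t) (M t) (k t) (τ t) (Ψ t))
    (hsep : ∀ t u, ∀ y ∈ GF e₀, ¬ (t = u ∧ y ∈ GF (e t)) →
      ∃ φ : QBar →+* ℂ, infTy (k t) (τ t) (φ.comp (e t : F t →+* QBar)) ≠
        infTy (k u) (τ u) (φ.comp ((y • e u : F u →ₐ[ℚ] QBar) : F u →+* QBar)))
    (B : Submodule ℚ_[ℓ] W) {U : T → Type*} [∀ t, AddCommGroup (U t)] [∀ t, Module ℂ (U t)]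
    [∀ t, FiniteDimensional ℂ (U t)] (β : ∀ t, Representation ℂ (GF (e t)) (U t))
    (hB : WeilPart ρ w S B F e Ψ β)
    {J : T → Type*} [∀ t, Fintype (J t)] {V : ∀ t, J t → Type*} [∀ t j, AddCommGroup (V t j)]
    [∀ t j, Module ℂ (V t j)] [∀ t j, FiniteDimensional ℂ (V t j)]
    (α : ∀ t j, Representation ℂ (GF (e t)) (V t j)) (hα : ∀ t j, IsFin (α t j))
    (hFK : ∀ t, Nonempty (J t) → GF (e t) ≤ GF eK) (hirr : ∀ t j, (α t j).IsIrreducible)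
    (hne : ∀ t j j', j ≠ j' → IsEmpty ((α t j).Equiv (α t j')))
    (S' : ∀ t, J t → Finset (Ideal (𝓞 (F t)))) (R : ∀ t, J t → Ideal (𝓞 (F t)) → ℂ[X])
    (hR : ∀ t j, HeckeFactors (resG (hFE t) ρ) w (α t j) (Ψ t) (S' t j) (R t j))
    (S'' : Finset (Ideal (𝓞 K))) (Q : Ideal (𝓞 K) → ℂ[X])
    (hQ : HeckeFactors (selfG (resG hKE ρ) B fun g => hB.stable _) 0
      (Representation.trivial ℂ (GF eK) ℂ) (oneH K) S'' Q)
    (ε : ℝ) (hε : 0 < ε) :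
    ∀ᶠ s : ℝ in 𝓝[>] (1 : ℝ), ((GF eK).relIndex (Subgroup.normalizer (GF eK) ⊓ GF e₀) : ℝ) *
        ∑ t, ∑ j, (defF (Module.finrank ℂ ((β t).tprod (α t j)).invariants) (R t j) s) ^ 2 ≤
      (Real.log ‖LFunF Q s‖ + ε * Real.log (1 / (s - 1))) * Real.log (1 / (s - 1)) ∧
      Real.log ‖LFunF Q s‖ ≤ (((Module.finrank ℚ_[ℓ] W : ℝ) - Module.finrank ℚ_[ℓ] B) ^ 2 + ε) *
        Real.log (1 / (s - 1)) := by
  exact weil_final1 (orb type_t) ρ w S hpure K eK hKE F e hFE M k τ Ψ hΨ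
    hsep B β hB α hα hFK hirr hne S' R hR S'' Q hQ ε hε

end

end TatePole.HK
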