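import Mathlib
import Pool.Agent.Lib.MP_058a58_ag.HK.WFinal2

open Polynomial Filter Topology NumberField

namespace TatePole.WeilDraft

open TatePole

/-- Tate's formula and twists by representations of Weil groups.  Let `E ⊆ K ⊆ F t`, for `t` in a
finite set `T`, be number fields in `QBar` and let `W` be a representation of the absolute Galois
group `GF e₀` of `E`, pure of weight `w`.  Let `Ψ t` be a unitary Hecke character of `F t` such
that the infinity types of `Ψ t` and of the conjugate of `Ψ u` by an element `y` of `GF e₀` are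
different, unless `t = u` and `y` fixes `F t`.  Let `α t j`, for `j` in a finite set, be pairwise
non-isomorphic irreducible representations with finite image of the absolute Galois group of `F t`.
The representations of the Weil group of `E` induced from the `α t j ⊗ Ψ t` are irreducible and
pairwise non-isomorphic, and every finite family of irreducible unitary representations of the Weil
group arises in this way.  Let `B` be a stable subspace of `W` whose Frobenius traces are those of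
the sum of the representations induced from `β t ⊗ (Ψ t)⁻¹`, with `β t` of finite image
(`WeilPart`), and let `T = W / B`.  Let `R t j` be local factors of `W ⊗ α t j ⊗ Ψ t` over `F t`,
and `Q` local factors of `T ⊗ T^∨` over `K`.  Tate's formula for the twist by the representation
induced from `α t j ⊗ Ψ t` is that the order of its `L`-function at the edge is `-r t j`, where
`r t j` is the dimension of the invariants of `β t ⊗ α t j`.  Unconditionally, for every `ε > 0` and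
all `s` close enough to `1` from the right, with `y = log (1 / (s - 1))`, the number of
automorphisms of `K / E` times the sum of the squares of the defects
`log |L(W ⊗ α t j ⊗ Ψ t, s)| - r t j * y` is at most `(log |L(T ⊗ T^∨, s)| + ε * y) * y`, where
`log |L(T ⊗ T^∨, s)| ≤ ((dim T) ^ 2 + ε) * y`. -/
theorem result {E : Type} [Field E] [NumberField E] (e₀ : E →ₐ[ℚ] QBar) {ℓ : ℕ} [Fact ℓ.Prime]
    [Algebra ℚ_[ℓ] ℂ] {W : Type*} [AddCommGroup W] [Module ℚ_[ℓ] W] [FiniteDimensional ℚ_[ℓ] W]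
    (ρ : Representation ℚ_[ℓ] (GF e₀) W) (w : ℤ) (S : Finset (Ideal (𝓞 E)))
    (hpure : ∀ 𝔭 : Ideal (𝓞 E), 𝔭.IsPrime → 𝔭 ≠ ⊥ → 𝔭 ∉ S → IsPureAt ρ w 𝔭)
    {K : Type} [Field K] [NumberField K] (eK : K →ₐ[ℚ] QBar) (hK : GF eK ≤ GF e₀)
    {T : Type*} [Fintype T] (F : T → Type) [∀ t, Field (F t)] [∀ t, NumberField (F t)]
    (e : ∀ t, F t →ₐ[ℚ] QBar) (hF : ∀ t, GF (e t) ≤ GF e₀)
    (M : T → ℕ) (k : ∀ t, (F t →+* ℂ) → ℤ) (τ : ∀ t, (F t →+* ℂ) → ℝ)
    (Ψ : ∀ t, Ideal (𝓞 (F t)) → ℂ) (hΨ : ∀ t, IsHeckeChar (F t) (M t) (k t) (τ t) (Ψ t))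
    (hsep : ∀ t u, ∀ y ∈ GF e₀, ¬ (t = u ∧ y ∈ GF (e t)) →
      ∃ φ : QBar →+* ℂ, infTy (k t) (τ t) (φ.comp (e t : F t →+* QBar)) ≠
        infTy (k u) (τ u) (φ.comp ((y • e u : F u →ₐ[ℚ] QBar) : F u →+* QBar)))
    (B : Submodule ℚ_[ℓ] W) {U : T → Type*} [∀ t, AddCommGroup (U t)] [∀ t, Module ℂ (U t)]
    [∀ t, FiniteDimensional ℂ (U t)] (β : ∀ t, Representation ℂ (GF (e t)) (U t))
    (hB : WeilPart ρ w S B F e Ψ β)
    {J : T → Type*} [∀ t, Fintype (J t)] {V : ∀ t, J t → Type*} [∀ t j, AddCommGroup (V t j)]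
    [∀ t j, Module ℂ (V t j)] [∀ t j, FiniteDimensional ℂ (V t j)]
    (α : ∀ t j, Representation ℂ (GF (e t)) (V t j)) (hα : ∀ t j, IsFin (α t j))
    (hFK : ∀ t, Nonempty (J t) → GF (e t) ≤ GF eK) (hirr : ∀ t j, (α t j).IsIrreducible)
    (hne : ∀ t j j', j ≠ j' → IsEmpty ((α t j).Equiv (α t j')))
    (S' : ∀ t, J t → Finset (Ideal (𝓞 (F t)))) (R : ∀ t, J t → Ideal (𝓞 (F t)) → ℂ[X])
    (hR : ∀ t j, HeckeFactors (resG (hF t) ρ) w (α t j) (Ψ t) (S' t j) (R t j))
    (S'' : Finset (Ideal (𝓞 K))) (Q : Ideal (𝓞 K) → ℂ[X])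
    (hQ : HeckeFactors (selfG (resG hK ρ) B fun g => hB.stable _) 0
      (Representation.trivial ℂ (GF eK) ℂ) (oneH K) S'' Q)
    (ε : ℝ) (hε : 0 < ε) :
    ∃ δ : ℝ, 0 < δ ∧ ∀ s : ℝ, 1 < s → s < 1 + δ →
      ((GF eK).relIndex (Subgroup.normalizer (GF eK) ⊓ GF e₀) : ℝ) *
        ∑ t, ∑ j, (defF (Module.finrank ℂ ((β t).tprod (α t j)).invariants) (R t j) s) ^ 2 ≤
        (Real.log ‖LFunF Q s‖ + ε * Real.log (1 / (s - 1))) * Real.log (1 / (s - 1)) ∧
      Real.log ‖LFunF Q s‖ ≤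
        (((Module.finrank ℚ_[ℓ] W : ℝ) - Module.finrank ℚ_[ℓ] B) ^ 2 + ε) *
          Real.log (1 / (s - 1)) := by
  have h := HK.weil_final2 ρ w S hpure K eK hK F e hF M k τ Ψ hΨ hsep B β hB α hα hFK hirr hne S' R hR
    S'' Q hQ ε hε
  obtain ⟨u, hu, hsub⟩ := (mem_nhdsGT_iff_exists_Ioo_subset).mp h
  refine ⟨u - 1, sub_pos.mpr hu, fun s h1 h2 => hsub ⟨h1, ?_⟩⟩
  linarith

end TatePole.WeilDraft
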