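import Mathlib
import Pool.Agent.Lib.MP_058a58_ag.HK.BridgeHW
import Pool.Agent.Lib.MP_058a58_ag.HK.WFinal1
import Pool.Agent.Lib.MP_058a58_ag.HK.WOrb
import Pool.Agent.Lib.MP_058a58_ag.HK.TypeT

/-!
# The inequality for twists by representations of the Weil group, over the compact definitions
-/

open Polynomial Filter Topology NumberField

namespace TateHecke.WeilDraft

open TatePole TateHecke

/-- Tate's formula and twists by representations of Weil groups.  Let `E ⊆ K ⊆ F t`, for `t` in a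
finite set `T`, be number fields in `QBar` and let `W` be a representation of the absolute Galois
group of `E`, pure of weight `w`.  Let `Ψ t` be a unitary Hecke character of `F t` such that the
infinity types of `Ψ t` and of the conjugate of `Ψ u` by an element `y` of the absolute Galois
group of `E` are different, unless `t = u` and `y` fixes `F t`.  Let `α t j`, for `j` in a finite
set, be pairwise non-isomorphic irreducible representations with finite image of the absolute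
Galois group of `F t`.  The representations of the Weil group of `E` induced from the
`α t j ⊗ Ψ t` are irreducible and pairwise non-isomorphic, and every finite family of irreducible
unitary representations of the Weil group arises in this way.  Let `B` be a stable subspace of `W`
whose Frobenius traces are those of the sum of the representations induced from `β t ⊗ (Ψ t)⁻¹`,
with `β t` of finite image, and let `T = W / B`.  Let `R t j` be local factors of
`W ⊗ α t j ⊗ Ψ t` over `F t`, and `Q` local factors of `T ⊗ T^∨` over `K`.  Tate's formula for the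
twist by the representation induced from `α t j ⊗ Ψ t` is that the order of its `L`-function at the
edge is `-r t j`, where `r t j` is the dimension of the invariants of `β t ⊗ α t j`.
Unconditionally, for every `ε > 0` and all `s` close enough to `1` from the right, with
`y = log (1 / (s - 1))`, the number of automorphisms of `K / E` times the sum of the squares of the
defects `log |L(W ⊗ α t j ⊗ Ψ t, s)| - r t j * y` is at most `(log |L(T ⊗ T^∨, s)| + ε * y) * y`,
where `log |L(T ⊗ T^∨, s)| ≤ ((dim T) ^ 2 + ε) * y`. -/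
theorem result {E : Type} [Field E] [NumberField E] (e₀ : Emb E) {ℓ : ℕ} [Fact ℓ.Prime]
    [Algebra ℚ_[ℓ] ℂ] {W : Type*} [AddCommGroup W] [Module ℚ_[ℓ] W] [FiniteDimensional ℚ_[ℓ] W]
    (ρ : RepG ℚ_[ℓ] W e₀) (w : ℤ) (S : Finset (Ideal (𝓞 E)))
    (hpure : ∀ 𝔭 : Ideal (𝓞 E), 𝔭.IsPrime → 𝔭 ≠ ⊥ → 𝔭 ∉ S → PureAt ρ w 𝔭)
    {K : Type} [Field K] [NumberField K] (eK : Emb K) (hK : Above eK e₀)
    {T : Type*} [Fintype T] (F : T → Type) [∀ t, Field (F t)] [∀ t, NumberField (F t)]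
    (e : ∀ t, Emb (F t)) (hE : ∀ t, Above (e t) e₀)
    (M : T → ℕ) (k : ∀ t, (F t →+* ℂ) → ℤ) (τ : ∀ t, (F t →+* ℂ) → ℝ)
    (Ψ : ∀ t, Ideal (𝓞 (F t)) → ℂ) (hΨ : ∀ t, IsHeckeChar (F t) (M t) (k t) (τ t) (Ψ t))
    (hsep : ∀ t u, ∀ y : Gal e₀, ¬ (t = u ∧ mv (toGQ y) (e t) = e t) →
      DiffTy (e t) (k t) (τ t) (mv (toGQ y) (e u)) (k u) (τ u))
    (B : Submodule ℚ_[ℓ] W) {U : T → Type*} [∀ t, AddCommGroup (U t)] [∀ t, Module ℂ (U t)]
    [∀ t, FiniteDimensional ℂ (U t)] (β : ∀ t, RepG ℂ (U t) (e t))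
    (hB : WPart ρ w S B F e Ψ β)
    {J : T → Type*} [∀ t, Fintype (J t)] {V : ∀ t, J t → Type*} [∀ t j, AddCommGroup (V t j)]
    [∀ t j, Module ℂ (V t j)] [∀ t j, FiniteDimensional ℂ (V t j)]
    (hF : ∀ t, Nonempty (J t) → Above (e t) eK)
    (α : ∀ t j, RepG ℂ (V t j) (e t)) (hα : ∀ t j, FinIm (α t j))
    (hirr : ∀ t j, Representation.IsIrreducible (α t j))
    (hne : ∀ t j j', j ≠ j' → IsEmpty (Representation.Equiv (α t j) (α t j')))
    (S' : ∀ t, J t → Finset (Ideal (𝓞 (F t)))) (R : ∀ t, J t → Ideal (𝓞 (F t)) → ℂ[X])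
    (hR : ∀ t j, Factors (resW (hE t) ρ) w (α t j) (Ψ t) (S' t j) (R t j))
    (S'' : Finset (Ideal (𝓞 K))) (Q : Ideal (𝓞 K) → ℂ[X])
    (hQ : SelfFactors (resW hK ρ) B (hB.stable.res hK) S'' Q) (ε : ℝ) (hε : 0 < ε) :
    ∃ δ : ℝ, 0 < δ ∧ ∀ s : ℝ, 1 < s → s < 1 + δ →
      (numAut eK e₀ : ℝ) * ∑ t, ∑ j, (defF (mult (β t) (α t j)) (R t j) s) ^ 2 ≤
        (Real.log ‖LFunF Q s‖ + ε * Real.log (1 / (s - 1))) * Real.log (1 / (s - 1)) ∧
      Real.log ‖LFunF Q s‖ ≤
        (((Module.finrank ℚ_[ℓ] W : ℝ) - Module.finrank ℚ_[ℓ] B) ^ 2 + ε) *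
          Real.log (1 / (s - 1)) := by
  have hsep' : ∀ t u, ∀ y ∈ GF e₀, ¬ (t = u ∧ y ∈ GF (e t)) →
      ∃ φ : QBar →+* ℂ, infTy (k t) (τ t) (φ.comp (e t : F t →+* QBar)) ≠
        infTy (k u) (τ u) (φ.comp ((y • e u : F u →ₐ[ℚ] QBar) : F u →+* QBar)) := by
    intro t u y hy hn
    refine hsep t u ⟨y, hy⟩ fun h => hn ⟨h.1, ?_⟩
    exact mem_GF.mpr h.2
  have hB' : TatePole.WeilPart ρ w S B F e Ψ β := (wPart_iff ρ w S B F e Ψ β).mp hB
  have h := TatePole.HK.weil_final1 (TatePole.HK.orb TatePole.HK.type_t) ρ w S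
    (fun 𝔭 h1 h2 h3 => (pureAt_iff ρ w 𝔭).mp (hpure 𝔭 h1 h2 h3)) K eK hK F e hE M k τ Ψ hΨ hsep'
    B β hB' α hα hF hirr hne S' R
    (fun t j => (factors_iff (resW (hE t) ρ) w (α t j) (Ψ t) (S' t j) (R t j)).mp (hR t j))
    S'' Q ((factors_iff _ 0 (trivR eK) (oneH K) S'' Q).mp hQ) ε hε
  obtain ⟨u, hu, hsub⟩ := (mem_nhdsGT_iff_exists_Ioo_subset).mp h
  refine ⟨u - 1, sub_pos.mpr hu, fun s h1 h2 => hsub ⟨h1, ?_⟩⟩
  linarith

end TateHecke.WeilDraft
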